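import Pool.Agent.Lib.MP_16285c_agZ.Spec

/-! Module LiftC: algebraic integers with given residues at two places. -/

set_option autoImplicit false

namespace Pool.Agent.Lib.MP_16285c_agZ

open Pool.Agent.Lib.MP_16285c_ag

namespace LiftCM

theorem int_mem {k : Type} [Field k] (V : ValuationSubring k) {α : k} (h : IsIntegral ℤ α) :
    α ∈ V := by
  have h2 : IsIntegral V α := h.tower_top
  obtain ⟨y, hy⟩ := IsIntegrallyClosed.isIntegral_iff.1 h2
  rw [← hy]
  exact y.2

theorem lift1 {k : Type} [Field k] [IsAlgClosed k] [CharZero k] [Algebra.IsAlgebraic ℚ k]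
    (V : ValuationSubring k) (p : ℕ) (hp : p.Prime) (hc : CharP (IsLocalRing.ResidueField V) p)
    (a : IsLocalRing.ResidueField V) : ∃ α : k, IsIntegral ℤ α ∧ Lies V α a := by
  classical
  have := Fact.mk hp
  obtain ⟨α₀, hα₀⟩ := IsLocalRing.residue_surjective a
  have halg : IsAlgebraic ℤ (α₀ : k) :=
    (IsFractionRing.isAlgebraic_iff ℤ ℚ k).2 (Algebra.IsAlgebraic.isAlgebraic (α₀ : k))
  obtain ⟨f, hf0, hf⟩ := halg
  have hg : Polynomial.aeval (α₀ : k) f.primPart = 0 := Polynomial.aeval_primPart_eq_zero hf0 hf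
  have hev : ∀ g : Polynomial ℤ, ((g.eval₂ (Int.castRingHom V) α₀ : V) : k) =
      Polynomial.aeval (α₀ : k) g := by
    intro g
    have h1 := Polynomial.hom_eval₂ g (Int.castRingHom V) V.subtype α₀
    have h2 : V.subtype.comp (Int.castRingHom V) = algebraMap ℤ k := RingHom.ext_int _ _
    rw [h2] at h1
    exact h1
  have hres : ∀ g : Polynomial ℤ, IsLocalRing.residue V (g.eval₂ (Int.castRingHom V) α₀) =
      g.eval₂ (Int.castRingHom (IsLocalRing.ResidueField V)) a := by
    intro g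
    have h1 := Polynomial.hom_eval₂ g (Int.castRingHom V) (IsLocalRing.residue V) α₀
    have h2 : (IsLocalRing.residue V).comp (Int.castRingHom V) =
      Int.castRingHom (IsLocalRing.ResidueField V) := RingHom.ext_int _ _
    rw [h2, hα₀] at h1
    exact h1
  let _ : Algebra (ZMod p) (IsLocalRing.ResidueField V) := ZMod.algebra _ p
  have hmap : ∀ g : Polynomial ℤ, Polynomial.aeval a (g.map (Int.castRingHom (ZMod p))) =
      g.eval₂ (Int.castRingHom (IsLocalRing.ResidueField V)) a := by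
    intro g
    rw [Polynomial.aeval_def, Polynomial.eval₂_map]
    congr 1
    exact RingHom.ext_int _ _
  have h0 : (f.primPart).eval₂ (Int.castRingHom V) α₀ = 0 := by
    have h1 := hev f.primPart
    rw [hg] at h1
    exact_mod_cast h1
  have h1 : Polynomial.aeval a (f.primPart.map (Int.castRingHom (ZMod p))) = 0 := by
    rw [hmap, ← hres, h0, map_zero]
  have h2 : f.primPart.map (Int.castRingHom (ZMod p)) ≠ 0 := by
    intro h
    have h3 : Polynomial.C (p : ℤ) ∣ f.primPart := by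
      rw [Polynomial.C_dvd_iff_dvd_coeff]
      intro i
      have h4 := congrArg (fun q => Polynomial.coeff q i) h
      simp only [Polynomial.coeff_map, Polynomial.coeff_zero] at h4
      have h5 : ((f.primPart.coeff i : ℤ) : ZMod p) = 0 := h4
      exact (ZMod.intCast_zmod_eq_zero_iff_dvd _ p).1 h5
    have h6 := Polynomial.isPrimitive_primPart f (p : ℤ) h3
    rw [Int.isUnit_iff] at h6
    have := hp.two_le
    omega
  have h3 : IsIntegral (ZMod p) a := (isAlgebraic_iff_isIntegral).1 ⟨_, h2, h1⟩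
  obtain ⟨μ, hμ, hμa⟩ := h3
  obtain ⟨h, hh1, -, hh2⟩ := Polynomial.lifts_and_natDegree_eq_and_monic
    (f := Int.castRingHom (ZMod p)) (p := μ) (by
      obtain ⟨q, hq⟩ := Polynomial.map_surjective (Int.castRingHom (ZMod p))
        (ZMod.intCast_surjective) μ
      exact (Polynomial.mem_lifts μ).2 ⟨q, hq⟩) hμ
  have h4 : IsLocalRing.residue V (h.eval₂ (Int.castRingHom V) α₀) = 0 := by
    rw [hres, ← hmap, hh1, Polynomial.aeval_def]
    exact hμa
  have hm : (h.map (algebraMap ℤ k)).Monic := hh2.map _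
  have hs : (h.map (algebraMap ℤ k)).Splits := IsAlgClosed.splits _
  have h5 := hs.eval_eq_prod_roots_of_monic hm (α₀ : k)
  have h6 : ((h.eval₂ (Int.castRingHom V) α₀ : V) : k) =
      ((h.map (algebraMap ℤ k)).roots.map (fun r => (α₀ : k) - r)).prod := by
    rw [hev, Polynomial.aeval_def, ← Polynomial.eval_map]
    exact h5
  have hint : ∀ r ∈ (h.map (algebraMap ℤ k)).roots, IsIntegral ℤ r := by
    intro r hr
    refine ⟨h, hh2, ?_⟩
    rw [← Polynomial.eval_map]
    exact (Polynomial.mem_roots'.1 hr).2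
  by_contra hno
  push Not at hno
  have hprod : ∃ hx : ((h.map (algebraMap ℤ k)).roots.map (fun r => (α₀ : k) - r)).prod ∈ V,
      IsLocalRing.residue V ⟨_, hx⟩ ≠ 0 := by
    apply Multiset.prod_induction (fun x : k => ∃ hx : x ∈ V, IsLocalRing.residue V ⟨x, hx⟩ ≠ 0)
    · rintro x y ⟨hx, hx'⟩ ⟨hy, hy'⟩
      refine ⟨mul_mem hx hy, ?_⟩
      have : (⟨x * y, mul_mem hx hy⟩ : V) = ⟨x, hx⟩ * ⟨y, hy⟩ := rfl
      rw [this, map_mul]
      exact mul_ne_zero hx' hy'
    · refine ⟨one_mem V, ?_⟩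
      have : (⟨1, one_mem V⟩ : V) = 1 := rfl
      rw [this, map_one]
      exact one_ne_zero
    · intro x hx
      obtain ⟨r, hr, rfl⟩ := Multiset.mem_map.1 hx
      have hrV : r ∈ V := int_mem V (hint r hr)
      refine ⟨sub_mem α₀.2 hrV, ?_⟩
      intro h7
      have h8 : (⟨(α₀ : k) - r, sub_mem α₀.2 hrV⟩ : V) = α₀ - ⟨r, hrV⟩ := rfl
      rw [h8, map_sub, hα₀, sub_eq_zero] at h7
      exact hno r (hint r hr) ⟨hrV, h7.symm⟩
  obtain ⟨hx, hx'⟩ := hprod
  apply hx'
  rw [← h4]
  congr 1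
  apply Subtype.ext
  exact h6.symm

theorem lift2 {k : Type} [Field k] (V : ValuationSubring k) (p q : ℕ) (u u' : ℤ)
    (huu : u * p + u' * q = 1) (hc : CharP (IsLocalRing.ResidueField V) p)
    (a : IsLocalRing.ResidueField V) (α β : k) (hα : Lies V α a) (hβ : IsIntegral ℤ β) :
    Lies V ((u' : k) * q * α + (u : k) * p * β) a := by
  obtain ⟨hαV, hα⟩ := hα
  have hβV := int_mem V hβ
  have hmem : (u' : k) * q * α + (u : k) * p * β ∈ V := by
    have e1 : (u' : k) ∈ V := by exact_mod_cast intCast_mem V u'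
    have e2 : (u : k) ∈ V := by exact_mod_cast intCast_mem V u
    have e3 : (q : k) ∈ V := by exact_mod_cast natCast_mem V q
    have e4 : (p : k) ∈ V := by exact_mod_cast natCast_mem V p
    exact add_mem (mul_mem (mul_mem e1 e3) hαV) (mul_mem (mul_mem e2 e4) hβV)
  refine ⟨hmem, ?_⟩
  have e : (⟨(u' : k) * q * α + (u : k) * p * β, hmem⟩ : V) =
      (u' : V) * (q : V) * ⟨α, hαV⟩ + (u : V) * (p : V) * ⟨β, hβV⟩ := by
    apply Subtype.ext
    push_cast
    rfl
  have hp0 : ((p : ℕ) : IsLocalRing.ResidueField V) = 0 := CharP.cast_eq_zero _ p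
  rw [e, map_add, map_mul, map_mul, map_mul, map_mul, map_intCast, map_natCast, map_intCast,
    map_natCast, hα, hp0]
  have h1 := congrArg (fun z : ℤ => (z : IsLocalRing.ResidueField V)) huu
  push_cast at h1
  rw [hp0, mul_zero, zero_add] at h1
  rw [h1]
  ring

end LiftCM

theorem stmtLiftC : StmtLiftC := by
  intro k _ _ _ _ V V' p p' hp hp' hne hc hc' a a'
  have hcop : IsCoprime (p : ℤ) (p' : ℤ) :=
    Nat.isCoprime_iff_coprime.2 ((Nat.coprime_primes hp hp').2 hne)
  obtain ⟨u, u', huu⟩ := hcop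
  choose α hα1 hα2 using fun i => LiftCM.lift1 V p hp hc (a i)
  choose β hβ1 hβ2 using fun i => LiftCM.lift1 V' p' hp' hc' (a' i)
  refine ⟨fun i => (u' : k) * p' * α i + (u : k) * p * β i, ?_, ?_⟩
  · intro i
    exact LiftCM.lift2 V p p' u u' huu hc (a i) (α i) (β i) (hα2 i) (hβ1 i)
  · intro i
    have h := LiftCM.lift2 V' p' p u' u (by rw [add_comm]; exact huu) hc' (a' i) (β i) (α i)
      (hβ2 i) (hα1 i)
    rw [add_comm] at h
    exact h

end Pool.Agent.Lib.MP_16285c_agZ
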