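import Pool.Agent.Lib.MP_16285c_agZ.Spec3
import Pool.Agent.Lib.MP_16285c_agZ.LiftC

/-! Module LiftC2: elements of finite fields in the residue fields of two places have a common lift. -/

set_option autoImplicit false

namespace Pool.Agent.Lib.MP_16285c_agZ

open Pool.Agent.Lib.MP_16285c_ag

namespace LiftC2M

/-- an element of a finite subfield of the residue field is the residue of an algebraic integer -/
theorem lift1 {k : Type} [Field k] [IsAlgClosed k]
    (V : ValuationSubring k) (q : ℕ) (hq : 2 ≤ q)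
    (a : IsLocalRing.ResidueField V) (ha : a ^ q = a) : ∃ α : k, IsIntegral ℤ α ∧ Lies V α a := by
  classical
  obtain ⟨α₀, hα₀⟩ := IsLocalRing.residue_surjective a
  obtain ⟨h, hh, hh2⟩ : ∃ h : Polynomial ℤ, h = Polynomial.X ^ q - Polynomial.X ∧ h.Monic := by
    refine ⟨_, rfl, Polynomial.monic_X_pow_sub ?_⟩
    rw [Polynomial.degree_X]
    exact_mod_cast hq
  have hev : ((h.eval₂ (Int.castRingHom V) α₀ : V) : k) = Polynomial.aeval (α₀ : k) h := by
    have h1 := Polynomial.hom_eval₂ h (Int.castRingHom V) V.subtype α₀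
    have h2 : V.subtype.comp (Int.castRingHom V) = algebraMap ℤ k := RingHom.ext_int _ _
    rw [h2] at h1
    exact h1
  have h4 : IsLocalRing.residue V (h.eval₂ (Int.castRingHom V) α₀) = 0 := by
    rw [hh, Polynomial.eval₂_sub, Polynomial.eval₂_X_pow, Polynomial.eval₂_X, map_sub, map_pow,
      hα₀, ha, sub_self]
  have hm : (h.map (algebraMap ℤ k)).Monic := hh2.map _
  have hs : (h.map (algebraMap ℤ k)).Splits := IsAlgClosed.splits _
  have h5 := hs.eval_eq_prod_roots_of_monic hm (α₀ : k)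
  have h6 : ((h.eval₂ (Int.castRingHom V) α₀ : V) : k) =
      ((h.map (algebraMap ℤ k)).roots.map (fun r => (α₀ : k) - r)).prod := by
    rw [hev, Polynomial.aeval_def, ← Polynomial.eval_map]
    exact h5
  have hint : ∀ r ∈ (h.map (algebraMap ℤ k)).roots, IsIntegral ℤ r := by
    intro r hr
    refine ⟨h, hh2, ?_⟩
    rw [← Polynomial.eval_map]
    exact (Polynomial.mem_roots'.1 hr).2
  by_contra hno
  push Not at hno
  have hprod : ∃ hx : ((h.map (algebraMap ℤ k)).roots.map (fun r => (α₀ : k) - r)).prod ∈ V,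
      IsLocalRing.residue V ⟨_, hx⟩ ≠ 0 := by
    apply Multiset.prod_induction (fun x : k => ∃ hx : x ∈ V, IsLocalRing.residue V ⟨x, hx⟩ ≠ 0)
    · rintro x y ⟨hx, hx'⟩ ⟨hy, hy'⟩
      refine ⟨mul_mem hx hy, ?_⟩
      have : (⟨x * y, mul_mem hx hy⟩ : V) = ⟨x, hx⟩ * ⟨y, hy⟩ := rfl
      rw [this, map_mul]
      exact mul_ne_zero hx' hy'
    · refine ⟨one_mem V, ?_⟩
      have : (⟨1, one_mem V⟩ : V) = 1 := rfl
      rw [this, map_one]
      exact one_ne_zero
    · intro x hx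
      obtain ⟨r, hr, rfl⟩ := Multiset.mem_map.1 hx
      have hrV : r ∈ V := LiftCM.int_mem V (hint r hr)
      refine ⟨sub_mem α₀.2 hrV, ?_⟩
      intro h7
      have h8 : (⟨(α₀ : k) - r, sub_mem α₀.2 hrV⟩ : V) = α₀ - ⟨r, hrV⟩ := rfl
      rw [h8, map_sub, hα₀, sub_eq_zero] at h7
      exact hno r (hint r hr) ⟨hrV, h7.symm⟩
  obtain ⟨hx, hx'⟩ := hprod
  apply hx'
  rw [← h4]
  congr 1
  apply Subtype.ext
  exact h6.symm

theorem two_le_pow {p r : ℕ} (hp : p.Prime) (hr : 1 ≤ r) : 2 ≤ p ^ r :=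
  hp.two_le.trans (Nat.le_self_pow (by omega) p)

end LiftC2M

theorem stmtLiftC2 : StmtLiftC2 := by
  intro k _ _ _ V V' p p' hp hp' hne hc hc' a a' hr hr'
  obtain ⟨r, hr1, hr⟩ := hr
  obtain ⟨r', hr1', hr'⟩ := hr'
  have hcop : IsCoprime (p : ℤ) (p' : ℤ) :=
    Nat.isCoprime_iff_coprime.2 ((Nat.coprime_primes hp hp').2 hne)
  obtain ⟨u, u', huu⟩ := hcop
  choose α hα1 hα2 using fun i => LiftC2M.lift1 V (p ^ r) (LiftC2M.two_le_pow hp hr1) (a i) (hr i)
  choose β hβ1 hβ2 using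
    fun i => LiftC2M.lift1 V' (p' ^ r') (LiftC2M.two_le_pow hp' hr1') (a' i) (hr' i)
  refine ⟨fun i => (u' : k) * p' * α i + (u : k) * p * β i, ?_, ?_⟩
  · intro i
    exact LiftCM.lift2 V p p' u u' huu hc (a i) (α i) (β i) (hα2 i) (hβ1 i)
  · intro i
    have h := LiftCM.lift2 V' p' p u' u (by rw [add_comm]; exact huu) hc' (a' i) (β i) (α i)
      (hβ2 i) (hα1 i)
    rw [add_comm] at h
    exact h

end Pool.Agent.Lib.MP_16285c_agZ
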