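import Pool.Agent.Lib.MP_16285c_agZ.Spec

/-!
# Theorem Z: growth of the spaces generated by `y, U, η` (R5)
-/

set_option autoImplicit false

namespace Pool.Agent.Lib.MP_16285c_agZ

open Pool.Agent.Lib.MP_16285c_ag

namespace HFM

variable {κ L : Type} [Field κ] [Field L] [Algebra κ L] (U η : L)

/-- The polynomials in `U, η` of bidegree at most `(p, r)`. -/
def PP (κ : Type) {L : Type} [Field κ] [Field L] [Algebra κ L] (U η : L) (p r : ℕ) :
    Submodule κ L :=
  Submodule.span κ {w : L | ∃ a s : ℕ, a ≤ p ∧ s ≤ r ∧ w = U ^ a * η ^ s}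

theorem PP_fin (p r : ℕ) : Module.Finite κ (PP κ U η p r) := by
  refine FiniteDimensional.span_of_finite κ ?_
  have h1 : ((fun q : ℕ × ℕ => U ^ q.1 * η ^ q.2) '' (Set.Iic p ×ˢ Set.Iic r)).Finite :=
    ((Set.finite_Iic p).prod (Set.finite_Iic r)).image _
  refine h1.subset ?_
  rintro _ ⟨a, s, ha, hs, rfl⟩
  exact ⟨(a, s), ⟨ha, hs⟩, rfl⟩

variable {U η}

theorem PP_mono {p p' r r' : ℕ} (hp : p ≤ p') (hr : r ≤ r') : PP κ U η p r ≤ PP κ U η p' r' := by
  refine Submodule.span_mono ?_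
  rintro _ ⟨a, s, ha, hs, rfl⟩
  exact ⟨a, s, ha.trans hp, hs.trans hr, rfl⟩

theorem PP_mul {p p' r r' : ℕ} {x x' : L} (hx : x ∈ PP κ U η p r) (hx' : x' ∈ PP κ U η p' r') :
    x * x' ∈ PP κ U η (p + p') (r + r') := by
  have h1 : PP κ U η p r * PP κ U η p' r' ≤ PP κ U η (p + p') (r + r') := by
    rw [PP, PP, Submodule.span_mul_span]
    refine Submodule.span_mono ?_
    rintro _ ⟨_, ⟨a, s, ha, hs, rfl⟩, _, ⟨b, t, hb, ht, rfl⟩, rfl⟩
    refine ⟨a + b, s + t, add_le_add ha hb, add_le_add hs ht, ?_⟩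
    change U ^ a * η ^ s * (U ^ b * η ^ t) = _
    ring
  exact h1 (Submodule.mul_mem_mul hx hx')

theorem PP_gen {a s p r : ℕ} (ha : a ≤ p) (hs : s ≤ r) : U ^ a * η ^ s ∈ PP κ U η p r :=
  Submodule.subset_span ⟨a, s, ha, hs, rfl⟩

theorem PP_one (p r : ℕ) : (1 : L) ∈ PP κ U η p r := by
  have h := PP_gen (κ := κ) (U := U) (η := η) (Nat.zero_le p) (Nat.zero_le r)
  rwa [pow_zero, pow_zero, mul_one] at h

theorem adjoin_PP {x : L} (hx : x ∈ Algebra.adjoin κ {U, η}) : ∃ p r, x ∈ PP κ U η p r := by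
  induction hx using Algebra.adjoin_induction with
  | mem x hx =>
    rcases hx with rfl | hx
    · refine ⟨1, 0, ?_⟩
      have h := PP_gen (κ := κ) (U := x) (η := η) (le_refl 1) (le_refl 0)
      rwa [pow_one, pow_zero, mul_one] at h
    · rw [Set.mem_singleton_iff] at hx
      subst hx
      refine ⟨0, 1, ?_⟩
      have h := PP_gen (κ := κ) (U := U) (η := x) (le_refl 0) (le_refl 1)
      rwa [pow_one, pow_zero, one_mul] at h
  | algebraMap r =>
    refine ⟨0, 0, ?_⟩
    rw [Algebra.algebraMap_eq_smul_one]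
    exact Submodule.smul_mem _ _ (PP_one 0 0)
  | add x y _ _ hx hy =>
    obtain ⟨p, r, h1⟩ := hx
    obtain ⟨p', r', h2⟩ := hy
    exact ⟨p + p', r + r', Submodule.add_mem _ (PP_mono (Nat.le_add_right _ _)
      (Nat.le_add_right _ _) h1) (PP_mono (Nat.le_add_left _ _) (Nat.le_add_left _ _) h2)⟩
  | mul x y _ _ hx hy =>
    obtain ⟨p, r, h1⟩ := hx
    obtain ⟨p', r', h2⟩ := hy
    exact ⟨p + p', r + r', PP_mul h1 h2⟩

theorem fin_PP {ι : Type} (T : Finset ι) (x : ι → L)
    (hx : ∀ i ∈ T, x i ∈ Algebra.adjoin κ {U, η}) : ∃ p r, ∀ i ∈ T, x i ∈ PP κ U η p r := by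
  classical
  induction T using Finset.induction_on with
  | empty => exact ⟨0, 0, fun i hi => absurd hi (Finset.notMem_empty i)⟩
  | insert a T _ ih =>
    obtain ⟨p, r, h1⟩ := ih fun i hi => hx i (Finset.mem_insert_of_mem hi)
    obtain ⟨p', r', h2⟩ := adjoin_PP (hx a (Finset.mem_insert_self a T))
    refine ⟨p + p', r + r', fun i hi => ?_⟩
    rcases Finset.mem_insert.1 hi with rfl | hi
    · exact PP_mono (Nat.le_add_left _ _) (Nat.le_add_left _ _) h2
    · exact PP_mono (Nat.le_add_right _ _) (Nat.le_add_right _ _) (h1 i hi)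

theorem fin_den {ι : Type} (T : Finset ι) (x : ι → L)
    (hx : ∀ i ∈ T, x i ∈ IntermediateField.adjoin κ {U, η}) :
    ∃ c ∈ Algebra.adjoin κ {U, η}, c ≠ 0 ∧ ∀ i ∈ T, c * x i ∈ Algebra.adjoin κ {U, η} := by
  classical
  induction T using Finset.induction_on with
  | empty => exact ⟨1, Subalgebra.one_mem _, one_ne_zero, fun i hi =>
      absurd hi (Finset.notMem_empty i)⟩
  | insert a T _ ih =>
    obtain ⟨c, hc, hc0, h1⟩ := ih fun i hi => hx i (Finset.mem_insert_of_mem hi)
    obtain ⟨r, hr, s, hs, he⟩ := IntermediateField.mem_adjoin_iff_div.1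
      (hx a (Finset.mem_insert_self a T))
    by_cases hs0 : s = 0
    · refine ⟨c, hc, hc0, fun i hi => ?_⟩
      rcases Finset.mem_insert.1 hi with rfl | hi
      · rw [he, hs0, div_zero, mul_zero]
        exact Subalgebra.zero_mem _
      · exact h1 i hi
    · refine ⟨c * s, Subalgebra.mul_mem _ hc hs, mul_ne_zero hc0 hs0, fun i hi => ?_⟩
      rcases Finset.mem_insert.1 hi with rfl | hi
      · rw [he, mul_assoc, mul_div_cancel₀ _ hs0]
        exact Subalgebra.mul_mem _ hc hr
      · rw [mul_right_comm]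
        exact Subalgebra.mul_mem _ (h1 i hi) hs

theorem fd_of_le {F₁ F₂ : IntermediateField κ L} (h : F₁ ≤ F₂) (h1 : FiniteDimensional F₁ L) :
    FiniteDimensional F₂ L := by
  obtain ⟨S, hS⟩ := h1.fg_top
  refine ⟨⟨S, ?_⟩⟩
  rw [eq_top_iff]
  intro x _
  have hx : x ∈ Submodule.span F₁ (S : Set L) := by
    rw [hS]
    trivial
  induction hx using Submodule.span_induction with
  | mem x hx => exact Submodule.subset_span hx
  | zero => exact Submodule.zero_mem _
  | add x y _ _ hx hy => exact Submodule.add_mem _ (hx trivial) (hy trivial)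
  | smul a x _ hx =>
    have h2 : a • x = (⟨a.1, h a.2⟩ : F₂) • x := rfl
    rw [h2]
    exact Submodule.smul_mem _ _ (hx trivial)

/-- Reduction of the exponent of `y`. -/
theorem red {y : L} {e : ℕ} {c : ℕ → Polynomial κ} (hc : ∀ i < e, (c i).natDegree ≤ e - i)
    (hy : y ^ e = ∑ i ∈ Finset.range e, Polynomial.aeval U (c i) * y ^ i) (p r : ℕ) :
    ∀ i a s : ℕ, i + a ≤ p → s ≤ r → y ^ i * U ^ a * η ^ s ∈
      Submodule.span κ {w : L | ∃ i a s : ℕ, i < e ∧ a ≤ p ∧ s ≤ r ∧ w = y ^ i * (U ^ a * η ^ s)} := by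
  intro i
  induction i using Nat.strong_induction_on with
  | _ i ih =>
    intro a s hia hs
    by_cases hi : i < e
    · exact Submodule.subset_span ⟨i, a, s, hi, by omega, hs, by rw [mul_assoc]⟩
    · obtain ⟨q, rfl⟩ := Nat.exists_eq_add_of_le (not_lt.1 hi)
      have h1 : y ^ (e + q) * U ^ a * η ^ s = ∑ i' ∈ Finset.range e,
          ∑ b ∈ Finset.range ((c i').natDegree + 1),
            (c i').coeff b • (y ^ (i' + q) * U ^ (a + b) * η ^ s) := by
        rw [pow_add, hy, Finset.sum_mul, Finset.sum_mul, Finset.sum_mul]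
        refine Finset.sum_congr rfl fun i' _ => ?_
        rw [Polynomial.aeval_eq_sum_range, Finset.sum_mul, Finset.sum_mul, Finset.sum_mul,
          Finset.sum_mul]
        refine Finset.sum_congr rfl fun b _ => ?_
        rw [Algebra.smul_def, Algebra.smul_def]
        ring
      rw [h1]
      refine Submodule.sum_mem _ fun i' hi' => Submodule.sum_mem _ fun b hb =>
        Submodule.smul_mem _ _ ?_
      rw [Finset.mem_range] at hi' hb
      have h2 := hc i' hi'
      exact ih (i' + q) (by omega) (a + b) s (by omega) hs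

end HFM

open HFM

theorem stmtHF (hPol : StmtPol) : StmtHF := by
  classical
  intro κ L _ _ _ U η y hU hη fU fη e c hc hy
  let F : IntermediateField κ L := IntermediateField.adjoin κ {U, η}
  have fF : FiniteDimensional F L :=
    fd_of_le (IntermediateField.adjoin.mono κ {U} {U, η} (by
      intro x hx
      rw [Set.mem_singleton_iff] at hx
      exact Or.inl hx)) fU
  let b := Module.finBasis F L
  obtain ⟨d, hd, hd0, h1⟩ := fin_den (κ := κ) (U := U) (η := η)
    (Finset.range e ×ˢ (Finset.univ : Finset (Fin (Module.finrank F L))))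
    (fun q => ((b.repr (y ^ q.1) q.2 : F) : L)) fun q _ => (b.repr (y ^ q.1) q.2).2
  obtain ⟨p₁, s₁, h2⟩ := fin_PP (κ := κ) (U := U) (η := η) _ _ h1
  have hrepr : ∀ x : L, x = ∑ l, ((b.repr x l : F) : L) * b l := fun x =>
    (b.sum_repr x).symm
  refine ⟨(p₁ + 1) * Module.finrank (IntermediateField.adjoin κ {U}) L +
    (s₁ + 1) * Module.finrank (IntermediateField.adjoin κ {η}) L, fun p r => ?_⟩
  have f1 : Module.Finite κ (PP κ U η (p + p₁) (r + s₁)) := PP_fin U η _ _
  let Φ : (Fin (Module.finrank F L) → PP κ U η (p + p₁) (r + s₁)) →ₗ[κ] L :=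
    { toFun := fun f => ∑ l, b l * (f l : L)
      map_add' := fun f g => by
        rw [← Finset.sum_add_distrib]
        exact Finset.sum_congr rfl fun l _ => by
          rw [← mul_add]
          rfl
      map_smul' := fun a f => by
        rw [RingHom.id_apply, Finset.smul_sum]
        exact Finset.sum_congr rfl fun l _ => by
          rw [← mul_smul_comm]
          rfl }
  have h3 : (Submodule.span κ
      {w : L | ∃ i a s : ℕ, i + a ≤ p ∧ s ≤ r ∧ w = y ^ i * U ^ a * η ^ s}).map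
      (LinearMap.mulLeft κ d) ≤ LinearMap.range Φ := by
    have h4 : Submodule.span κ
        {w : L | ∃ i a s : ℕ, i + a ≤ p ∧ s ≤ r ∧ w = y ^ i * U ^ a * η ^ s} ≤
        Submodule.span κ
          {w : L | ∃ i a s : ℕ, i < e ∧ a ≤ p ∧ s ≤ r ∧ w = y ^ i * (U ^ a * η ^ s)} := by
      refine Submodule.span_le.2 ?_
      rintro _ ⟨i, a, s, h5, h6, rfl⟩
      exact red hc hy p r i a s h5 h6
    refine (Submodule.map_mono h4).trans ?_
    rw [Submodule.map_le_iff_le_comap]
    refine Submodule.span_le.2 ?_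
    rintro _ ⟨i, a, s, hi, ha, hs, rfl⟩
    have h5 : ∀ l, (d * ((b.repr (y ^ i) l : F) : L)) * (U ^ a * η ^ s) ∈
        PP κ U η (p + p₁) (r + s₁) := by
      intro l
      rw [add_comm p, add_comm r]
      exact PP_mul (h2 (i, l) (Finset.mem_product.2 ⟨Finset.mem_range.2 hi, Finset.mem_univ l⟩))
        (PP_gen ha hs)
    refine ⟨fun l => ⟨_, h5 l⟩, ?_⟩
    change (∑ l, b l * ((d * ((b.repr (y ^ i) l : F) : L)) * (U ^ a * η ^ s))) =
      d * (y ^ i * (U ^ a * η ^ s))
    conv_rhs => rw [hrepr (y ^ i), Finset.sum_mul, Finset.mul_sum]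
    exact Finset.sum_congr rfl fun l _ => by ring
  have hinj : Function.Injective (LinearMap.mulLeft κ d) := by
    intro a b h
    simpa [hd0] using h
  have h5 := Submodule.finrank_mono h3
  have h6 := LinearMap.finrank_range_le Φ
  rw [(Submodule.equivMapOfInjective _ hinj _).finrank_eq.symm] at h5
  have h7 : Module.finrank κ (Fin (Module.finrank F L) → PP κ U η (p + p₁) (r + s₁)) =
      Module.finrank κ (PP κ U η (p + p₁) (r + s₁)) * Module.finrank F L := by
    rw [Module.finrank_pi_fintype, Finset.sum_const, Finset.card_univ, Fintype.card_fin,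
      smul_eq_mul, mul_comm]
  rw [h7] at h6
  have h8 := hPol κ L U η hU hη fU fη (p + p₁) (r + s₁)
  refine (h5.trans (h6.trans h8)).trans (le_of_eq ?_)
  ring

end Pool.Agent.Lib.MP_16285c_agZ
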