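import Pool.Agent.Lib.MP_16285c_agZ.Spec

/-!
# MP_16285c: growth of real sequences (StmtGro)
-/

set_option autoImplicit false

namespace Pool.Agent.Lib.MP_16285c_agZ

theorem stmtGro : StmtGro := by
  intro h a b C ha hb hab h0 j₀ hrec h1 h2 j hj
  have key : ∀ n : ℕ, 4 * a * h (j₀ + n) ≤ b * h (j₀ + n + 1) ∧ 4 * C ≤ b * h (j₀ + n + 1) ∧
      b / 2 * h (j₀ + n + 1) ≤ h (j₀ + n + 2) := by
    intro n
    induction n with
    | zero =>
      have hr := hrec j₀ le_rfl
      refine ⟨by simpa using h1, by simpa using h2, ?_⟩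
      simp only [add_zero]
      linarith
    | succ n ih =>
      obtain ⟨i1, i2, i3⟩ := ih
      have hr := hrec (j₀ + n + 1) (by omega)
      have e1 : j₀ + (n + 1) = j₀ + n + 1 := by ring
      have e2 : j₀ + n + 1 + 1 = j₀ + n + 2 := by ring
      have e3 : j₀ + n + 1 + 2 = j₀ + n + 3 := by ring
      have e4 : j₀ + n + 2 + 1 = j₀ + n + 3 := by ring
      rw [e1, e2]
      rw [e2, e3] at hr
      rw [e3]
      have hh := h0 (j₀ + n + 1)
      have hh2 := h0 (j₀ + n + 2)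
      have q1 : b * (b / 2 * h (j₀ + n + 1)) ≤ b * h (j₀ + n + 2) :=
        mul_le_mul_of_nonneg_left i3 (by linarith)
      have q2 : 8 * a * h (j₀ + n + 1) ≤ b ^ 2 * h (j₀ + n + 1) :=
        mul_le_mul_of_nonneg_right hab hh
      have p1 : 4 * a * h (j₀ + n + 1) ≤ b * h (j₀ + n + 2) := by nlinarith
      have q3 : 2 * (b * h (j₀ + n + 1)) ≤ b * (b * h (j₀ + n + 1)) :=
        mul_le_mul_of_nonneg_right hb (mul_nonneg (by linarith) hh)
      have p2 : 4 * C ≤ b * h (j₀ + n + 2) := by nlinarith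
      exact ⟨p1, p2, by linarith⟩
  obtain ⟨n, rfl⟩ := Nat.exists_eq_add_of_lt hj
  exact (key n).2.2

end Pool.Agent.Lib.MP_16285c_agZ
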