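import Pool.Agent.Lib.MP_16285c_agZ.Defs

/-!
# The strong Zariski dense orbit conjecture for surface maps with `λ₁ ≥ λ₂ ≥ 2`: statements

Theorem. `k` an algebraic closure of `ℚ`, `σ : k(x,y) → k(x,y)` the homomorphism of a dominant rational self-map `f` of
the plane, `τ = [k(x,y) : σ k(x,y)] ≥ 2`, `deg (f ^ n) ≥ τ ^ n` for all `n`, no invariant rational functions. For every
`b ≠ 0` there is a point with a well-defined Zariski dense orbit which never meets `b = 0`.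

Every lemma is a `Prop`; its proof is in the docstring; the files proving them are independent: used statements are
hypotheses. Notation: see `Defs.lean` (please read it first). `A = K[x,y]`, `E = K(x,y)`, `A_{≤ p}` the polynomials of
total degree `≤ p`.
-/

set_option autoImplicit false

namespace Pool.Agent.Lib.MP_16285c_agZ

open Pool.Agent.Lib.MP_16285c_ag

/-! ## REC: sections vanishing along `l(F) = 0` -/

/-- (R1) Generic linear combinations. PROOF. Complete `l` to a basis `l, l₁, l₂` of `K³`, `Λ = ∑ l i • F i`, `Λ₁`, `Λ₂` the same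
for `l₁, l₂`. `Λ ≠ 0` has finitely many prime factors up to associates. If a prime `π` divides `Λ` and both
`Λ₁ + u Λ₂` and `Λ₁ + u' Λ₂`, `u ≠ u'`, then it divides `Λ, Λ₁, Λ₂`, so all the `F i` (they are linear combinations of these three): a
contradiction. So for all `u` outside a finite set and all `w`, `l' = l₁ + u l₂ + w l` gives
`IsRelPrime Λ Λ'` (`Λ' = Λ₁ + u Λ₂ + w Λ`). The numbers `l · v`, `l₁ · v`, `l₂ · v` are not all zero, so `u, w` may be chosen such
that `l' · v ≠ 0`. `l'' = l₂`. -/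
def StmtGen : Prop :=
  ∀ (K : Type) [Field K] [Infinite K] (F : Fin 3 → Pl K), (∀ c : Pl K, (∀ i, c ∣ F i) → IsUnit c) →
    ∀ l : Fin 3 → K, (∑ i, l i • F i) ≠ 0 → ∀ v : Fin 3 → K, v ≠ 0 →
    ∃ l' l'' : Fin 3 → K, LinearIndependent K ![l, l', l''] ∧ (∑ i, l' i * v i) ≠ 0 ∧
      IsRelPrime (∑ i, l i • F i) (∑ i, l' i • F i)

/-- (R2) PROOF. If `D = 0` only finiteness is to be shown. `dim A_{≤ n} = (n+1)(n+2)/2` (`MvPolynomial.restrictTotalDegree`; the
monomials). Induction on `j`: `Rj ζ ζ' p (j+1) = ζ * Rj ζ ζ' p j + A_{≤ p} * ζ' ^ (j+1)`. An element `g * ζ' ^ (j+1)` of the first summand is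
divisible by `ζ`, so `ζ ∣ g`; the space of these `g` is `ζ * A_{≤ p - D}` (zero if `p < D`; `totalDegree_mul_of_isDomain`). So
the dimension grows by at least `dim A_{≤ p} - dim A_{≤ p - D} ≥ D p - D ^ 2` (sum of `D` terms `≥ p - D + 2`; if `p < D` the right
side is negative). -/
def StmtDim : Prop :=
  ∀ (K : Type) [Field K] (ζ ζ' : Pl K) (D : ℕ), IsRelPrime ζ ζ' → ζ.totalDegree = D → ∀ p j : ℕ,
    Module.Finite K (Rj ζ ζ' p j) ∧
      (j + 1) * D * p ≤ Module.finrank K (Rj ζ ζ' p j) + (j + 1) * D ^ 2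

/-- (R3) The vanishing conditions. PROOF. `t = Λ / Λ'`. (i) Any `n + 1` elements `w_i` of `W`, `n = finrank κ V`, have a nontrivial
`K`-combination divisible by `Λ`: there are `c_i ∈ K[T]`, not all divisible by `T`, with `∑ c_i(t) w_i = 0` (clear
denominators, divide by a power of `T`; `t ≠ 0`); multiply by `Λ' ^ s`:
`Λ' ^ s ∑ c_i(0) w_i = - Λ' ^ s ∑ (c_i(t) - c_i(0)) w_i ∈ Λ A`, so `Λ ∣ ∑ c_i(0) w_i`. So `W₁ = {w ∈ W : Λ ∣ w}` has codimension `≤ n` in
`W`. (ii) Induction on `q`: `W' = {Λ' w / Λ : w ∈ W₁} = t⁻¹ W₁` is contained in `A` and in `V`, `dim W' = dim W₁ > (q - 1) n`. The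
element `S' = Λ' w / Λ` of `W'`, divisible by `Λ ^ (q - 1)`, gives `Λ ^ q ∣ Λ' w`, so `Λ ^ q ∣ w`. -/
def StmtSub : Prop :=
  ∀ (K : Type) [Field K] (Λ Λ' : Pl K), IsRelPrime Λ Λ' → Λ ≠ 0 → Λ' ≠ 0 → ∀ κ : IntermediateField K (RF K),
    κ = IntermediateField.adjoin K {fr Λ / fr Λ'} →
    ∀ V : Submodule κ (RF K), Module.Finite κ V → ∀ W : Submodule K (Pl K), (∀ w ∈ W, fr w ∈ V) →
    ∀ q : ℕ, q * Module.finrank κ V < Module.finrank K W → ∃ S ∈ W, S ≠ 0 ∧ Λ ^ q ∣ S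

/-- (R4) PROOF. Let `I` be the kernel of `κ[X, Y] → L`, `X ↦ U`, `Y ↦ η`, a prime ideal; `I ≠ 0` as `L` is algebraic over `κ(U)`. Let `Φ` be an irreducible
element of `I` (a factor of a nonzero element). By Gauss' lemma `Φ` is irreducible over `κ(X)` as a polynomial in `Y` (its
degree in `Y` is positive because `U` is transcendental), so it is a multiple of the minimal polynomial of `η` over `κ(U)`:
`deg_Y Φ = d' = [κ(U,η) : κ(U)]`; symmetrically `deg_X Φ = e' = [κ(U,η) : κ(η)]`; and `I = (Φ)` (an element of `I` is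
divisible by `Φ` over `κ(X)`, hence in `κ[X,Y]`, `Φ` being primitive). The kernel of the evaluation on the polynomials of bidegree
`≤ (p, r)` consists of the multiples of `Φ` by the polynomials of bidegree `≤ (p - e', r - d')`, so the dimension of the span is
`(p+1)(r+1) - (p+1-e')⁺ (r+1-d')⁺ ≤ (p+1) d' + (r+1) e'`. Multiply by `g = [L : κ(U,η)]`: `g d' = [L : κ(U)]`, `g e' = [L : κ(η)]`. -/
def StmtPol : Prop :=
  ∀ (κ L : Type) [Field κ] [Field L] [Algebra κ L] (U η : L), Transcendental κ U →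
    Transcendental κ η → FiniteDimensional (IntermediateField.adjoin κ {U}) L →
    FiniteDimensional (IntermediateField.adjoin κ {η}) L → ∀ p r : ℕ,
      Module.finrank κ (Submodule.span κ {w : L | ∃ a s : ℕ, a ≤ p ∧ s ≤ r ∧ w = U ^ a * η ^ s}) *
          Module.finrank (IntermediateField.adjoin κ {U, η}) L ≤
        (p + 1) * Module.finrank (IntermediateField.adjoin κ {U}) L +
          (r + 1) * Module.finrank (IntermediateField.adjoin κ {η}) L

/-- (R5) PROOF (uses `StmtPol`). Let `M_{p,r}` be the span and `Pol_{p,r}` the span of the `U ^ a * η ^ s`, `a ≤ p`, `s ≤ r`. (i) By induction on `i` (relation for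
`y ^ e`, weights: `i' + (i - e) + (e - i') = i`) `M_{p,r} ⊆ ∑_{i < e} y ^ i Pol_{p,r}`. (ii) Let `θ_1, …, θ_g` be a basis of `L` over `κ(U, η)`. Write
`c y ^ i = ∑ l, A_{il}(U,η) θ_l` for `i < e` with polynomials `A_{il}` of bidegree `≤ (p₁, s₁)` and a common denominator `c ≠ 0`
(elements of `κ(U,η)` are quotients of polynomials in `U, η`). So `c M_{p,r} ⊆ ∑ l, θ_l Pol_{p + p₁, r + s₁}` and by `StmtPol`
`finrank M_{p,r} ≤ g * finrank Pol_{p + p₁, r + s₁} ≤ (p + p₁ + 1) [L : κ(U)] + (r + s₁ + 1) [L : κ(η)]`. -/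
def StmtHF : Prop :=
  ∀ (κ L : Type) [Field κ] [Field L] [Algebra κ L] (U η y : L), Transcendental κ U →
    Transcendental κ η → FiniteDimensional (IntermediateField.adjoin κ {U}) L →
    FiniteDimensional (IntermediateField.adjoin κ {η}) L →
    ∀ (e : ℕ) (c : ℕ → Polynomial κ), (∀ i < e, (c i).natDegree ≤ e - i) →
    y ^ e = ∑ i ∈ Finset.range e, Polynomial.aeval U (c i) * y ^ i →
    ∃ C : ℕ, ∀ p r : ℕ,
      Module.finrank κ (Submodule.span κ
          {w : L | ∃ i a s : ℕ, i + a ≤ p ∧ s ≤ r ∧ w = y ^ i * U ^ a * η ^ s}) ≤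
        p * Module.finrank (IntermediateField.adjoin κ {U}) L +
          r * Module.finrank (IntermediateField.adjoin κ {η}) L + C

/-- (R6) PROOF. `t = Λ / Λ'`, `x = gen K 0`, `y = gen K 1`. `t ∉ K`: otherwise `Λ = c Λ'` and both are units. In `Λ - t Λ' = 0` the coefficient of
`y ^ d` is `λ - t λ'` with `λ, λ' ∈ K`, `λ' ≠ 0`, so it is not zero; the other terms are `(λ_{ai} - t λ'_{ai}) x ^ a y ^ i`, `a + i ≤ d`,
`i < d`. This gives the `c i`. `E = κ(x)(y)` (`E` is generated by `x` and `y` over `K`), so `[E : κ(x)] ≤ d`. If `x` were algebraic over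
`κ = K(t)` then `E` would be algebraic over `K(t)`; but `x, y` are algebraically independent over `K` (transcendence degree
two). -/
def StmtFldX : Prop :=
  ∀ (K : Type) [Field K] (d : ℕ) (Λ Λ' : Pl K), 1 ≤ d → IsRelPrime Λ Λ' → Λ.totalDegree = d →
    Λ'.totalDegree ≤ d → MvPolynomial.coeff (Finsupp.single 1 d) Λ' ≠ 0 →
    ∀ κ : IntermediateField K (RF K), κ = IntermediateField.adjoin K {fr Λ / fr Λ'} →
    Transcendental κ (gen K 0) ∧ FiniteDimensional (IntermediateField.adjoin κ {gen K 0}) (RF K) ∧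
    Module.finrank (IntermediateField.adjoin κ {gen K 0}) (RF K) ≤ d ∧
    ∃ c : ℕ → Polynomial κ, (∀ i < d, (c i).natDegree ≤ d - i) ∧
      gen K 1 ^ d = ∑ i ∈ Finset.range d, Polynomial.aeval (gen K 0) (c i) * gen K 1 ^ i

/-- (R7) PROOF. Put `u = l / l'`, `w = l'' / l'` in `E` (`l` for `∑ l i • hc X i` etc.: a polynomial of degree `≤ 1`, not zero as the three
vectors are independent). `1, x, y` are linear combinations of the three linear forms, so `x, y ∈ K(u, w)`: `K(u, w) = E`. Hence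
`K(t, η) = ρ(K(u,w)) = ρ(E)`: the subfields `κ(η)` and `ρ(E)` of `E` have the same elements, and the dimension of `E` over
them is the same (`1 ≤ tp ρ` means that it is finite). If `η` were algebraic over `κ = K(t)` then `ρ(E) ≅ E` would have transcendence
degree `≤ 1` over `K`. -/
def StmtFldE : Prop :=
  ∀ (K : Type) [Field K] (ρ : RF K →ₐ[K] RF K) (l l' l'' : Fin 3 → K),
    LinearIndependent K ![l, l', l''] → 1 ≤ tp ρ → ∀ t η : RF K,
    t = ρ (fr (∑ i, l i • hc (fun i => MvPolynomial.X i) i)) /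
      ρ (fr (∑ i, l' i • hc (fun i => MvPolynomial.X i) i)) →
    η = ρ (fr (∑ i, l'' i • hc (fun i => MvPolynomial.X i) i)) /
      ρ (fr (∑ i, l' i • hc (fun i => MvPolynomial.X i) i)) →
    ∀ κ : IntermediateField K (RF K), κ = IntermediateField.adjoin K {t} →
    Transcendental κ η ∧ FiniteDimensional (IntermediateField.adjoin κ {η}) (RF K) ∧
    Module.finrank (IntermediateField.adjoin κ {η}) (RF K) = tp ρ

/-- (R8) PROOF. `1, x, y` are linear combinations of the linear forms `l, l', l''` in `(1, x, y)`; homogenise `G` to a form of degree `d`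
in three variables (`x ^ a y ^ b ↦ X₀ ^ (d-a-b) X₁ ^ a X₂ ^ b`), substitute: a form of degree `d` in `(l, l', l'')`, whose monomials
`l ^ α l' ^ β l'' ^ s`, `α + β + s = d`, are `l' ^ d (l/l') ^ α (l''/l') ^ s`. -/
def StmtChart : Prop :=
  ∀ (K : Type) [Field K] (l l' l'' : Fin 3 → K), LinearIndependent K ![l, l', l''] →
    ∀ (d : ℕ) (G : Pl K), G.totalDegree ≤ d → ∃ P : ℕ → Polynomial K,
      ∀ (L : Type) [Field L] [Algebra K L] (a : Fin 2 → L), (∑ i, l' i • hc a i) ≠ 0 →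
        MvPolynomial.aeval a G = (∑ i, l' i • hc a i) ^ d * ∑ s ∈ Finset.range (d + 1),
          Polynomial.aeval ((∑ i, l i • hc a i) / ∑ i, l' i • hc a i) (P s) *
            ((∑ i, l'' i • hc a i) / ∑ i, l' i • hc a i) ^ s

/-- (R9) PROOF (uses `StmtGen`, `StmtDim`, `StmtSub`, `StmtHF`, `StmtFldX`, `StmtFldE`, `StmtChart`). `Λ = ∑ l i • F i`. By `StmtGen` for `F`, `l` and
`v i = coeff (single 1 d) (F i)` there are `l', l''`; `Λ' = ∑ l' i • F i` has a nonzero coefficient of `y ^ d`. `t = Λ/Λ'`, `κ = K(t)`,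
`η = Λ''/Λ'`; since `ρ(hc X i) = F i / F 0` (`repF`) these are the `t`, `η` of `StmtFldE`. By `StmtGen` for `Z`, the unit vector `ζ = e_r` with
`totalDegree (Z r) = D` and any `v` there is `ζ'`: `z₀ = ∑ ζ i • Z i = Z r` and `z₁ = ∑ ζ' i • Z i` are relatively prime. `StmtChart` (for
`a i = ρ (gen K i)`, `ρ (fr G) = aeval a G`) applied to `∑ ζ i • Q i` and `∑ ζ' i • Q i`:
`z₁ / z₀ = ρ (∑ ζ' i • Q i) / ρ (∑ ζ i • Q i) = A(η) / B(η)` (`Zeq`), `A, B` polynomials of degree `≤ d` in `η` with coefficients in `κ`, `B(η) ≠ 0`.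
Let `j = 4 d i`, `p = j T`, `W = Rj z₀ z₁ p j`, `V = z₀ ^ j B(η) ^ (-j) • span_κ {y ^ i x ^ a η ^ s : i + a ≤ p, s ≤ j d}`. Then `W ⊆ V`, because
`g z₀ ^ (j-s) z₁ ^ s = z₀ ^ j B ^ (-j) g A ^ s B ^ (j-s)`. By `StmtHF` (`U = x`) `finrank κ V ≤ p d + j d T + C = 2 j T d + C`; by `StmtDim`
`finrank W ≥ (j+1) D (j T) - (j+1) D ^ 2`. With `q = D i`: `q (2 j T d + C) = 8 d ^ 2 D T i ^ 2 + C D i < 16 d ^ 2 D T i ^ 2 - (4 d i + 1) D ^ 2` for large `i`.
`StmtSub` gives `S ∈ W`, `S ≠ 0`, `Λ ^ q ∣ S`; `S` is a sum of elements `g z₀ ^ (j-s) z₁ ^ s`, so it is the value at `Z` of a sum of the polynomials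
`C g * (∑ C (C (ζ i)) * X i) ^ (j-s) * (∑ C (C (ζ' i)) * X i) ^ s`, homogeneous of degree `j` with coefficients of total degree `≤ p`. -/
def StmtSecA : Prop :=
  ∀ (K : Type) [Field K] [Infinite K] (ρ : RF K →ₐ[K] RF K) (d D T : ℕ) (F Q Z : Fin 3 → Pl K),
    Sq ρ d D T F Q Z → (∃ i, MvPolynomial.coeff (Finsupp.single 1 d) (F i) ≠ 0) →
    ∀ l : Fin 3 → K, (∑ i, l i • F i).totalDegree = d →
    ∃ i₀ : ℕ, ∀ i, i₀ ≤ i → ∃ G : MvPolynomial (Fin 3) (Pl K), G.IsHomogeneous (4 * d * i) ∧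
      (∀ α, (G.coeff α).totalDegree ≤ 4 * d * i * T) ∧ MvPolynomial.eval Z G ≠ 0 ∧
      (∑ j, l j • F j) ^ (D * i) ∣ MvPolynomial.eval Z G

/-- (R10) PROOF (uses `StmtSecA`). `totalDegree Λ = d` for `Λ = ∑ l i • F i`, so some `F r` has total degree `d`; let `c : K` with
`(F r)_d (c, 1) ≠ 0` for its homogeneous part of degree `d`. Let `φ` be the automorphism `x ↦ x + c y`, `y ↦ y` of `A` and of `E`. It
preserves total degrees, and the coefficient of `y ^ d` in `φ (F r)` is `(F r)_d (c, 1)`. `Sq (φ.comp ρ) d D T (φ ∘ F) Q (φ ∘ Z)`: apply `φ` to all the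
relations of `Sq`; the range of `φ.comp ρ` is `φ (ρ E)`, so the dimension is the same. `StmtSecA` gives `G'` with
`φ Λ ^ (D i) ∣ eval (φ ∘ Z) G'`; `G = map φ⁻¹ G'`. -/
def StmtSec : Prop :=
  ∀ (K : Type) [Field K] [Infinite K] (ρ : RF K →ₐ[K] RF K) (d D T : ℕ) (F Q Z : Fin 3 → Pl K),
    Sq ρ d D T F Q Z → ∀ l : Fin 3 → K, (∑ i, l i • F i).totalDegree = d →
    ∃ i₀ : ℕ, ∀ i, i₀ ≤ i → ∃ G : MvPolynomial (Fin 3) (Pl K), G.IsHomogeneous (4 * d * i) ∧
      (∀ α, (G.coeff α).totalDegree ≤ 4 * d * i * T) ∧ MvPolynomial.eval Z G ≠ 0 ∧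
      (∑ j, l j • F j) ^ (D * i) ∣ MvPolynomial.eval Z G

/-! ## REC: the height inequality -/

/-- The linear form `X₀ + u X₁ + u² X₂` at a point. -/
def lu {R : Type} [CommRing R] (u : R) (a : Fin 3 → R) : R := a 0 + u * a 1 + u ^ 2 * a 2

/-- (R11) PROOF. (i) Claim: for every finite set `s` of nodes with `n + 2 ≤ card s`, `X r ^ n` is a `K₀`-combination of the products
`∏ u ∈ t, lu u X`, `t ⊆ s`, `card t = n` (in `MvPolynomial (Fin 3) K₀`). Induction on `n`: for `n + 1` take three distinct elements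
`u₁, u₂, u₃` of `s`; `X r = ∑ c_i lu u_i X` (Vandermonde) and `X r ^ (n+1) = ∑ c_i lu u_i X * X r ^ n`; apply the induction hypothesis to
`s \ {u_i}`. (ii) `logHeight_eval_ge'` (Mathlib/NumberTheory/Height/MvPolynomial.lean) with constants `q`. -/
def StmtLow3 : Prop :=
  ∀ (K₀ : Type) [Field K₀] (s : Finset K₀) (n : ℕ), n + 2 ≤ s.card →
    ∀ (K : Type) [Field K] [Algebra K₀ K] [Height.AdmissibleAbsValues K], ∃ C : ℝ,
      ∀ a : Fin 3 → K, (n : ℝ) * Height.logHeight a ≤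
        Height.logHeight (fun t : ↥(Finset.powersetCard n s) =>
          ∏ u ∈ (t : Finset K₀), lu (algebraMap K₀ K u) a) + C

/-- (R12) PROOF. The tuple is the image under a matrix with entries in `K` (the coefficients of the coefficients of `G t`) of the vector of
the products `m(hc x) * m'(z)`, `m` a monomial of degree `P` in three variables (the monomial `x ^ a y ^ b`, `a + b ≤ P`, is `m(hc x)` with
`m = X₀ ^ (P-a-b) X₁ ^ a X₂ ^ b`), `m'` a monomial of degree `q`. Its height is the sum of the heights of `(m(hc x))_m` and `(m'(z))_{m'}` (`logHeight_fun_mul_eq`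
if both vectors are nonzero; `hc x ≠ 0`; if `z = 0` and `q ≥ 1` the tuple is `0`), and these are at most `P * logHeight (hc x) + C`, `q * logHeight z + C`
(`logHeight_eval_le'`). Use `logHeight_linearMap_apply_le`. -/
def StmtUpB : Prop :=
  ∀ (K : Type) [Field K] [Height.AdmissibleAbsValues K] (ι : Type) [Finite ι] (P q : ℕ)
    (G : ι → MvPolynomial (Fin 3) (Pl K)), (∀ t, (G t).IsHomogeneous q) →
    (∀ t α, ((G t).coeff α).totalDegree ≤ P) →
    ∃ C : ℝ, ∀ (x : Fin 2 → K) (z : Fin 3 → K),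
      Height.logHeight (fun t => MvPolynomial.eval z (MvPolynomial.map (MvPolynomial.eval x) (G t))) ≤
        P * Height.logHeight (hc x) + q * Height.logHeight z + C

/-- (R13) PROOF (uses `StmtSec`, `StmtLow3`, `StmtUpB`). For all but at most two `u : K₀` the polynomial `Λ_u = lu u F = F 0 + u F 1 + u² F 2` has total degree `d` (its part of degree
`d` is a polynomial of degree `≤ 2` in `u`, not zero). Let `n = 2 (T + D)`, `N = n + 2` and let `s` be a set of `N` such values `u`. `StmtSec` with a common `i ≥ 1`,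
`j = 4 d i`, `q = D i`: `eval Z (G u) = Λ_u ^ q * S_u`, `S_u ≠ 0` of total degree `≤ j T + j D` (the total degree of `eval Z (G u)` is at most
`j T + j D`). `B = ∏ u ∈ s, S_u`. For `t ⊆ s`, `card t = n`:
`∏_{u ∈ t} Λ_u ^ q * B = ∏_{u ∈ t} eval Z (G u) * ∏_{u ∈ s \ t} S_u`. Values at `x` with `B(x) ≠ 0`: the left sides form (up to the factor `B(x)`) the `q`-th power of the
tuple of `StmtLow3` at `a = F(x)` (`logHeight_pow`, `logHeight_smul_eq_logHeight`), the right sides are the values at `(x, Z(x))` of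
`∏_{u ∈ t} G u * ∏_{u ∈ s \ t} C S_u`, homogeneous of degree `n j` with coefficients of total degree `≤ n j T + 2 j (T + D)`. `StmtUpB`:
`q (n h(F(x)) - C₁) ≤ (n j T + 2 j (T + D)) h(x) + n j h(Z(x)) + C₂`. Divide by `i n`: `D h(F(x)) ≤ 4 d (T + 2 (T + D) / n) h(x) + 4 d h(Z(x)) + C` and
`2 (T + D) / n = 1 ≤ T`. -/
def StmtRec : Prop :=
  ∀ (K₀ : Type) [Field K₀] [CharZero K₀] (ρ : RF K₀ →ₐ[K₀] RF K₀) (d D T : ℕ) (F Q Z : Fin 3 → Pl K₀),
    Sq ρ d D T F Q Z → (∃ i, (F i).totalDegree = d) →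
    ∃ B : Pl K₀, B ≠ 0 ∧ ∀ (K : Type) [Field K] [Algebra K₀ K] [Height.AdmissibleAbsValues K],
      ∃ C : ℝ, ∀ x : Fin 2 → K, MvPolynomial.aeval x B ≠ 0 →
        (D : ℝ) * Height.logHeight (fun i => MvPolynomial.aeval x (F i)) ≤
          4 * d * (Height.logHeight (fun i => MvPolynomial.aeval x (Z i)) +
            2 * T * Height.logHeight (hc x)) + C

/-! ## LINE: points on a generic line through `c` -/

/-- The points of the line through `c` of direction `(θ, 1)`. -/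
def lpt {K : Type} [Field K] (c : Fin 2 → K) (θ : ℕ) (y : K) : Fin 2 → K := ![c 0 + θ * y, c 1 + y]

/-- (L1) PROOF. The ideal `(F 0, F 1, F 2)` contains a nonzero polynomial in `x` alone: over the field `K(x)` the polynomials `F i`, regarded as polynomials in
`y`, generate the unit ideal (Gauss' lemma: a common factor over `K(x)` gives a common factor in `K[x,y]`; `Polynomial.IsPrimitive`, `MvPolynomial.finSuccEquiv`),
clear denominators. By symmetry it contains a nonzero polynomial in `y` alone. So both coordinates of a common zero in `L²` are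
roots of fixed nonzero polynomials. (The hypothesis excludes `F = 0`.) -/
def StmtCZ : Prop :=
  ∀ (K : Type) [Field K] (F : Fin 3 → Pl K), (∀ c : Pl K, (∀ i, c ∣ F i) → IsUnit c) →
    ∀ (L : Type) [Field L] [Algebra K L],
      {x : Fin 2 → L | ∀ i, MvPolynomial.aeval x (F i) = 0}.Finite

/-- (L2) PROOF. `1 = ∑ u_i g_i`. Let `G_i ∈ K[s, t]` be the form of degree `d` with `G_i(t, 1) = g_i(t)` (variables `X 0 = t`, `X 1 = s`). For large `M` both
`X 0 ^ (M + d)` and `X 1 ^ (M + d)` are combinations of the `G_i` with forms of degree `M` as coefficients: for `X 1` homogenise `1 = ∑ u_i g_i`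
(`deg u_i ≤ M`). For `X 0`: some `g_r` has degree exactly `d`; divide, `t ^ (M + d) = u g_r + v`, `deg v < d`, and `v = ∑ (v u_i) g_i`; degrees `≤ M` for
large `M`. So `logHeight_eval_ge'` for the point `![y, 1]` (`logHeight₁_eq_logHeight`). (If `d = 0` the left side is `0` and heights are `≥ 0`.) -/
def StmtBin : Prop :=
  ∀ (K : Type) [Field K] [Height.AdmissibleAbsValues K] (g : Fin 3 → Polynomial K) (d : ℕ),
    (∀ i, (g i).natDegree ≤ d) → (∃ i, (g i).natDegree = d) → Ideal.span (Set.range g) = ⊤ →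
    ∃ C : ℝ, ∀ y : K, (d : ℝ) * Height.logHeight₁ y ≤
      Height.logHeight (fun i => (g i).eval y) + C

/-- (L3) PROOF (uses `StmtCZ`, `StmtBin`). `g_i = F_i (c 0 + θ Y, c 1 + Y) ∈ K[Y]` (`MvPolynomial.aeval ![C (c 0) + θ • X, C (c 1) + X] (F i)`) has degree `≤ d` and the coefficient of `Y ^ d` is
`(F_i)_d (θ, 1)` with the homogeneous part `(F_i)_d` of degree `d`; for some `i` it is not the zero form, so it is nonzero for all but
finitely many `θ`. If the `g_i` do not generate the unit ideal they have a common root `y` in the algebraic closure `L` of `K`, and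
`ξ = (c 0 + θ y, c 1 + y)` belongs to the finite set of `StmtCZ`; `ξ ≠ c` because `F(c) ≠ 0`, so `ξ 1 ≠ c 1` and
`θ = (ξ 0 - c 0) / (ξ 1 - c 1)` is determined by `ξ`: finitely many `θ`. `StmtBin`. -/
def StmtLine : Prop :=
  ∀ (K : Type) [Field K] [CharZero K] [Height.AdmissibleAbsValues K] (F : Fin 3 → Pl K) (d : ℕ),
    (∀ c : Pl K, (∀ i, c ∣ F i) → IsUnit c) → (∀ i, (F i).totalDegree ≤ d) →
    (∃ i, (F i).totalDegree = d) → ∀ c : Fin 2 → K, (∃ i, MvPolynomial.eval c (F i) ≠ 0) →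
    ∃ S : Finset ℕ, ∀ θ : ℕ, θ ∉ S → ∃ C : ℝ, ∀ y : K, (d : ℝ) * Height.logHeight₁ y ≤
      Height.logHeight (fun i => MvPolynomial.eval (lpt c θ y) (F i)) + C

/-- (L4) PROOF. The first claim: `hc (lpt c θ y)` is a linear image of `![y, 1]` (`logHeight_linearMap_apply_le`, `logHeight₁_eq_logHeight`). The second: the
polynomial `Γ (c 0 + θ Y, c 1 + Y) ∈ K[Y]` has the coefficient `Γ_e (θ, 1)` at `Y ^ e`, `e = totalDegree Γ`, nonzero for all but finitely many `θ`. -/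
def StmtLine2 : Prop :=
  (∀ (K : Type) [Field K] [Height.AdmissibleAbsValues K] (c : Fin 2 → K) (θ : ℕ), ∃ C : ℝ, ∀ y : K,
    Height.logHeight (hc (lpt c θ y)) ≤ Height.logHeight₁ y + C) ∧
  (∀ (K : Type) [Field K] [CharZero K] (Γ : Pl K), Γ ≠ 0 → ∀ c : Fin 2 → K, ∃ S : Finset ℕ, ∀ θ : ℕ,
    θ ∉ S → {y : K | MvPolynomial.eval (lpt c θ y) Γ = 0}.Finite)

/-! ## GRO: real sequences -/

/-- (G1) PROOF. If `4 a h_j ≤ b h_{j+1}` and `4 C ≤ b h_{j+1}` then `h_{j+2} ≥ b h_{j+1} - a h_j - C ≥ (b/2) h_{j+1}`; hence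
`b h_{j+2} ≥ (b²/2) h_{j+1} ≥ 4 a h_{j+1}` and `b h_{j+2} ≥ b h_{j+1} ≥ 4 C`. Induction. -/
def StmtGro : Prop :=
  ∀ (h : ℕ → ℝ) (a b C : ℝ), 0 ≤ a → 2 ≤ b → 8 * a ≤ b ^ 2 → (∀ j, 0 ≤ h j) → ∀ j₀ : ℕ,
    (∀ j, j₀ ≤ j → b * h (j + 1) ≤ h (j + 2) + a * h j + C) →
    4 * a * h j₀ ≤ b * h (j₀ + 1) → 4 * C ≤ b * h (j₀ + 1) →
    ∀ j, j₀ < j → b / 2 * h j ≤ h (j + 1)

/-- (G2) PROOF. `log d n` is subadditive (`Subadditive`) and bounded below by `n log τ`; by Fekete (`Subadditive.tendsto_lim`) `(log d n) / n` converges to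
`L = inf ≥ log τ`. So `log d (2m) ≥ 2 m L` and `log d m ≤ m (L + ε)` for large `m`: `log d (2m) - log d m ≥ m (L - ε) ≥ m (log τ - ε)`, and
`m (log τ - ε) ≥ m log η + log 4` for large `m` if `log η < log τ - ε`. -/
def StmtRates : Prop :=
  ∀ (d : ℕ → ℕ) (τ : ℕ), 1 ≤ τ → (∀ m n, d (m + n) ≤ d m * d n) → (∀ n, τ ^ n ≤ d n) →
    ∀ η : ℝ, 0 < η → η < τ → ∃ n₀ : ℕ, ∀ m, n₀ ≤ m → η ^ m * (4 * d m) ≤ d (2 * m)

/-- (G3) PROOF (uses `StmtRates`). `β_m = d (2m) / (4 d m) ≥ η ^ m` for every `η < τ` and `m ≥ n₀(η)`. Level 1: `η = (9/10) τ`, `η ^ 2 ≥ (81/100) * 2 * τ`, so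
`β_m ^ 2 ≥ (1.62) ^ m τ ^ m ≥ 16 τ ^ m` and `β_m ≥ 1.8 ^ m ≥ 9` for large `m`. Level 2: `β_{m'} ≥ η ^ m'` for `m' = m * M * s`, `s` large; choose `η` with
`η₁ < η < τ`, `η ^ 2 > τ`, `κ ^ (1/m) η > τ` (i.e. `κ η ^ m > τ ^ m`); all four claims then hold for large `s` (geometric growth). -/
def StmtLev : Prop :=
  ∀ (d : ℕ → ℕ) (τ : ℕ), 2 ≤ τ → (∀ m n, d (m + n) ≤ d m * d n) → (∀ n, τ ^ n ≤ d n) →
    (∃ m : ℕ, 1 ≤ m ∧ (9 : ℝ) ≤ d (2 * m) / (4 * d m) ∧
      16 * (τ : ℝ) ^ m ≤ ((d (2 * m) : ℝ) / (4 * d m)) ^ 2) ∧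
    (∀ (m M : ℕ) (κ η₁ : ℝ), 1 ≤ m → 1 ≤ M → 1 < κ → 0 < η₁ → η₁ < τ → ∃ s : ℕ, 1 ≤ s ∧
      (2 : ℝ) ≤ d (2 * (m * M * s)) / (4 * d (m * M * s)) ∧
      16 * (τ : ℝ) ^ (m * M * s) ≤ ((d (2 * (m * M * s)) : ℝ) / (4 * d (m * M * s))) ^ 2 ∧
      8 * (τ : ℝ) ^ (m * M * s) ≤ κ ^ (M * s) * ((d (2 * (m * M * s)) : ℝ) / (4 * d (m * M * s))) ∧
      η₁ ^ (m * M * s) ≤ ((d (2 * (m * M * s)) : ℝ) / (4 * d (m * M * s))) / 2)

/-! ## CAN: finitely many totally invariant curves -/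

/-- (C1) PROOF. `ρ` is injective. Case 1: `R, R'` algebraically independent over `K`. `K' = K(R, R')`; `E / K'` is finite (`E` is generated by `x, y`, and
has transcendence degree 2), `ρ K' = K'`. So `[E : K'] = [ρ E : ρ K'] = [ρ E : K']` and `[E : K'] = [E : ρ E] [ρ E : K']`: `tp ρ = 1`, a contradiction. Case 2: there is
`Φ ∈ K[X, Y]`, `Φ ≠ 0`, `Φ(R, R') = 0`; take one with the smallest number of monomials (`MvPolynomial.support.card`). It has two different
monomials `(a, b)`, `(a', b')` (`R, R' ≠ 0`). Apply `ρ`: `∑ φ_{ab} γ ^ a γ' ^ b R ^ a R' ^ b = 0`; subtract `γ ^ a' γ' ^ b'` times the original relation: fewer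
monomials, so it is zero and `γ ^ a γ' ^ b = γ ^ a' γ' ^ b'`. Then `g = R ^ (a - a') R' ^ (b - b')` satisfies `ρ g = g` (`γ, γ' ≠ 0`), so `g` is constant and
`a = a'`, `b = b'`, a contradiction. -/
def StmtCanA : Prop :=
  ∀ (K : Type) [Field K] (ρ : RF K →ₐ[K] RF K) (R R' : RF K) (γ γ' : K), 2 ≤ tp ρ → NoI ρ →
    R ≠ 0 → R' ≠ 0 → ρ R = algebraMap K (RF K) γ * R → ρ R' = algebraMap K (RF K) γ' * R' →
    (∀ a b : ℤ, (∃ c : K, R ^ a * R' ^ b = algebraMap K (RF K) c) → a = 0 ∧ b = 0) → False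

/-- (C2) PROOF. `s` = number of the prime factors `Q_1, …, Q_s` of `𝓑` up to associates. The integer vectors `(v_{Q_j}(a i) - v_{Q_j}(b i))_j`, `i : Fin (s+1)`, are linearly
dependent over `ℚ`, so over `ℤ`: `n ≠ 0` with `∑ i, n i (v_{Q_j}(a i) - v_{Q_j}(b i)) = 0` for all `j`. Then `∏ i, (a i / b i) ^ n i` is a quotient of two
associated polynomials (all their prime factors divide `𝓑`), i.e. a nonzero constant `γ`, and
`ρ (∏ P i ^ n i) = ∏ (a i / b i) ^ n i * ∏ P i ^ n i`. -/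
def StmtCanB : Prop :=
  ∀ (K : Type) [Field K] (𝓑 : Pl K), 𝓑 ≠ 0 → ∃ s : ℕ, ∀ (ρ : RF K →ₐ[K] RF K)
    (P a b : Fin (s + 1) → Pl K), (∀ i, P i ≠ 0) → (∀ i, a i ≠ 0) → (∀ i, b i ≠ 0) →
    (∀ i, fr (b i) * ρ (fr (P i)) = fr (a i) * fr (P i)) →
    (∀ i, ∀ Q : Pl K, Irreducible Q → (Q ∣ a i ∨ Q ∣ b i) → Q ∣ 𝓑) →
    ∃ n : Fin (s + 1) → ℤ, n ≠ 0 ∧ ∃ γ : K,
      ρ (∏ i, fr (P i) ^ n i) = algebraMap K (RF K) γ * ∏ i, fr (P i) ^ n i

/-- (C3) PROOF (uses `StmtCanA`, `StmtCanB`). If there is no such `Γ` then there are infinitely many pairwise non-associated irreducible `P` with the property (choose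
`P_{n+1}` not dividing `Γ = P_0 … P_n`). Take `2 (s + 1)` of them, two disjoint families of `s + 1`; `StmtCanB` gives `R = ∏ P i ^ n i` and `R' = ∏ P' i ^ n' i`. They satisfy the
independence hypothesis of `StmtCanA`: `R ^ a R' ^ b = ∏ P i ^ (a n i) * ∏ P' i ^ (b n' i)` constant implies, by unique factorisation, `a n i = 0` and
`b n' i = 0` for all `i`. -/
def StmtCan : Prop :=
  ∀ (K : Type) [Field K] (ρ : RF K →ₐ[K] RF K), 2 ≤ tp ρ → NoI ρ → ∀ 𝓑 : Pl K, 𝓑 ≠ 0 →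
    ∃ Γ : Pl K, Γ ≠ 0 ∧ ∀ P a b : Pl K, Irreducible P → a ≠ 0 → b ≠ 0 →
      fr b * ρ (fr P) = fr a * fr P →
      (∀ Q : Pl K, Irreducible Q → (Q ∣ a ∨ Q ∣ b) → Q ∣ 𝓑) → P ∣ Γ

/-! ## FIN: lifts -/

/-- (F1) PROOF. (i) Every `a` in the residue field of `V` is the residue of an algebraic integer `α : k`: lift `a` to `α₀ ∈ V`; a primitive integral
polynomial with root `α₀` (`α₀` is algebraic over `ℚ`) does not vanish modulo `p`, so `a` is algebraic over `ZMod p`, hence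
a root of a monic `h ∈ ℤ[T]` (lift the minimal polynomial). `h` splits in `k`, its roots `α_i` are integral over `ℤ`, so in `V`, and
`0 = h(a) = ∏ (a - residue α_i)`. Algebraic integers belong to every valuation subring. (ii) Chinese remainder: integers `u, u'` with `u p + u' p' = 1`; for lifts
`α` of `a i` (for `V`) and `α'` of `a' i` (for `V'`) take `c i = u' p' α + u p α'`: `u' p' = 1 - u p` reduces to `1` in `V`, `u p` to `0`. -/
def StmtLiftC : Prop :=
  ∀ (k : Type) [Field k] [IsAlgClosed k] [CharZero k] [Algebra.IsAlgebraic ℚ k]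
    (V V' : ValuationSubring k) (p p' : ℕ), p.Prime → p'.Prime → p ≠ p' →
    CharP (IsLocalRing.ResidueField V) p → CharP (IsLocalRing.ResidueField V') p' →
    ∀ (a : Fin 2 → IsLocalRing.ResidueField V) (a' : Fin 2 → IsLocalRing.ResidueField V'),
      ∃ c : Fin 2 → k, (∀ i, Lies V (c i) (a i)) ∧ ∀ i, Lies V' (c i) (a' i)

end Pool.Agent.Lib.MP_16285c_agZ
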