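import Pool.Agent.Lib.MP_16285c_agZ.Spec2
import Pool.Agent.Lib.MP_16285c_ag.Desc

/-!
# The strong Zariski dense orbit conjecture for surface maps with `λ₁ ≥ λ₂ ≥ 2`: final assembly
-/

set_option autoImplicit false

namespace Pool.Agent.Lib.MP_16285c_agZ

open Pool.Agent.Lib.MP_16285c_ag

/-- The theorem over an algebraic closure of the rational numbers. -/
def StmtFin : Prop :=
  ∀ (k : Type) [Field k] [IsAlgClosed k] [CharZero k] [Algebra.IsAlgebraic ℚ k]
    (σ : RF k →ₐ[k] RF k), 2 ≤ tp σ → (∀ n, tp σ ^ n ≤ dg (it σ n)) → NoI σ →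
    ∀ f : RM k 2, Of f σ → ∀ b : Pl k, b ≠ 0 →
    ∃ x : ℕ → Fin 2 → k, f.Orb x ∧ (∀ n, MvPolynomial.eval (x n) b ≠ 0) ∧ Dns x

namespace FinX

/-- Descent of polynomials. -/
theorem desc_poly {K L : Type} [Field K] [Field L] [Algebra K L] (G : Pl L)
    (h : ∀ m ∈ G.support, MvPolynomial.coeff m G ∈ Set.range (algebraMap K L)) :
    ∃ G₀ : Pl K, MvPolynomial.map (algebraMap K L) G₀ = G := by
  classical
  choose! u hu using h
  refine ⟨∑ m ∈ G.support, MvPolynomial.monomial m (u m), ?_⟩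
  rw [map_sum]
  conv_rhs => rw [G.as_sum]
  refine Finset.sum_congr rfl fun m hm => ?_
  rw [MvPolynomial.map_monomial, hu m hm]

theorem desc_rm {K L : Type} [Field K] [Field L] [Algebra K L] (f : RM L 2)
    (h : ∀ i, ∀ m ∈ (f.num i).support, MvPolynomial.coeff m (f.num i) ∈ Set.range (algebraMap K L))
    (h' : ∀ i, ∀ m ∈ (f.den i).support, MvPolynomial.coeff m (f.den i) ∈ Set.range (algebraMap K L)) :
    ∃ f₀ : RM K 2, f₀.map (algebraMap K L) = f := by
  choose n hn using fun i => desc_poly (K := K) (f.num i) (h i)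
  choose d hd using fun i => desc_poly (K := K) (f.den i) (h' i)
  refine ⟨⟨n, d⟩, ?_⟩
  rw [RM.map]
  cases f
  congr 1
  · funext i
    exact hn i
  · funext i
    exact hd i

theorem map_map_rm {K₀ K L : Type} [Field K₀] [Field K] [Field L] [Algebra K₀ K] [Algebra K₀ L]
    [Algebra K L] [IsScalarTower K₀ K L] (f : RM K₀ 2) :
    (f.map (algebraMap K₀ K)).map (algebraMap K L) = f.map (algebraMap K₀ L) := by
  simp only [RM.map, MvPolynomial.map_map, ← IsScalarTower.algebraMap_eq]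

theorem cmp_of {K₀ K : Type} [Field K₀] [Field K] [Algebra K₀ K] (f : RM K₀ 2)
    (σ₀ : RF K₀ →ₐ[K₀] RF K₀) (σ : RF K →ₐ[K] RF K) (h₀ : Of f σ₀)
    (h : Of (f.map (algebraMap K₀ K)) σ) : Cmp σ₀ σ := by
  intro i
  have e1 := congrArg (bc K₀ K) (h₀ i).2
  rw [map_mul, bc_fr, bc_fr] at e1
  have e2 := (h i).2
  have e3 : fr ((f.map (algebraMap K₀ K)).den i) ≠ 0 := fr_ne_zero (h i).1
  apply mul_right_cancel₀ e3
  rw [e2]
  exact e1.symm

theorem eval_coe {K L : Type} [Field K] [Field L] [Algebra K L] (x : Fin 2 → K) (G : Pl K) :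
    MvPolynomial.eval (fun i => algebraMap K L (x i)) (MvPolynomial.map (algebraMap K L) G) =
      algebraMap K L (MvPolynomial.eval x G) := by
  rw [MvPolynomial.eval_map]
  have e := MvPolynomial.eval₂_comp_left (algebraMap K L) (RingHom.id K) x G
  rw [RingHom.comp_id, MvPolynomial.eval₂_id] at e
  exact e.symm

theorem eval_coe' {K₀ K L : Type} [Field K₀] [Field K] [Field L] [Algebra K₀ K] [Algebra K₀ L]
    [Algebra K L] [IsScalarTower K₀ K L] (x : Fin 2 → K) (G : Pl K₀) :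
    MvPolynomial.eval (fun i => algebraMap K L (x i)) (MvPolynomial.map (algebraMap K₀ L) G) =
      algebraMap K L (MvPolynomial.aeval x G) := by
  rw [MvPolynomial.aeval_def, ← MvPolynomial.eval_map, ← eval_coe (K := K) (L := L),
    MvPolynomial.map_map, ← IsScalarTower.algebraMap_eq]

/-- A shift by a multiple of `p`. -/
theorem lies_add {k : Type} [Field k] (V : ValuationSubring k) (p : ℕ)
    (hp : CharP (IsLocalRing.ResidueField V) p) (x : k) (a : IsLocalRing.ResidueField V)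
    (h : Lies V x a) (n q j : ℕ) : Lies V (x + n * ((p * q : ℕ) : k) ^ (j + 1)) a := by
  obtain ⟨h0, h1⟩ := h
  have hpV : (n : k) * ((p * q : ℕ) : k) ^ (j + 1) ∈ V :=
    mul_mem (natCast_mem V n) (pow_mem (natCast_mem V _) _)
  refine ⟨add_mem h0 hpV, ?_⟩
  have h2 : IsLocalRing.residue V (⟨(n : k) * ((p * q : ℕ) : k) ^ (j + 1), hpV⟩ : V) = 0 := by
    have h3 : (⟨(n : k) * ((p * q : ℕ) : k) ^ (j + 1), hpV⟩ : V) =
        (n : V) * (p : V) ^ (j + 1) * (q : V) ^ (j + 1) := by
      apply Subtype.ext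
      push_cast
      ring
    rw [h3, map_mul, map_mul, map_pow, map_pow, map_natCast, map_natCast, map_natCast,
      CharP.cast_eq_zero (IsLocalRing.ResidueField V) p, zero_pow (Nat.succ_ne_zero j), mul_zero,
      zero_mul]
  have h4 : (⟨x + (n : k) * ((p * q : ℕ) : k) ^ (j + 1), add_mem h0 hpV⟩ : V) =
      ⟨x, h0⟩ + ⟨(n : k) * ((p * q : ℕ) : k) ^ (j + 1), hpV⟩ := rfl
  rw [h4, map_add, h1, h2, add_zero]

/-- Large powers in a number field. -/
theorem large {K : Type} [Field K] [NumberField K] (P : ℕ) (hP : 2 ≤ P) (Y : Set K) (hY : Y.Finite)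
    (B : ℝ) : ∃ j : ℕ, (P : K) ^ (j + 1) ∉ Y ∧ B < Height.logHeight₁ ((P : K) ^ (j + 1)) := by
  by_contra hcon
  push Not at hcon
  have hfin : {x : K | Height.logHeight₁ x ≤ B}.Finite :=
    NumberField.finite_setOfPred_logHeight₁_le K B
  have hinj : Function.Injective fun j : ℕ => (P : K) ^ (j + 1) := by
    intro i j hij
    have h1 : (P : K) ^ (i + 1) = (P : K) ^ (j + 1) := hij
    have h2 : P ^ (i + 1) = P ^ (j + 1) := by exact_mod_cast h1
    have h3 := Nat.pow_right_injective hP h2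
    omega
  refine Set.infinite_range_of_injective hinj ((hY.union hfin).subset ?_)
  rintro _ ⟨j, rfl⟩
  by_cases h : (P : K) ^ (j + 1) ∈ Y
  · exact Or.inl h
  · exact Or.inr (hcon j h)

/-- A nonzero element of a prime set has an irreducible factor in it. -/
theorem exists_irr {K : Type} [Field K] (I : Pl K → Prop) (hunit : ∀ u, IsUnit u → ¬ I u)
    (hmul : ∀ a b, I (a * b) → I a ∨ I b) (G : Pl K) (hG : G ≠ 0) (hI : I G) :
    ∃ P, Irreducible P ∧ I P := by
  induction G using WfDvdMonoid.induction_on_irreducible with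
  | zero => exact absurd rfl hG
  | unit u hu => exact absurd hI (hunit u hu)
  | mul a i ha hi ih =>
    rcases hmul _ _ hI with h | h
    · exact ⟨i, hi, h⟩
    · exact ih ha h

end FinX

open FinX in
theorem stmtFin (hCore : StmtCore) (hBox : StmtBox) (hPrime : StmtPrime) (hLift : StmtLiftC)
    (hDesc : SDesc) (hTpGe : STpGe) (hTp : STpPow) (hDg : SDgMul) (hVal : SVal) : StmtFin := by
  classical
  intro k _ _ _ _ σ h2 hdeg hnoi f hOf b hb
  obtain ⟨S₁, hS₁⟩ := hTpGe k σ ((hTp.2.2 k σ).1 (by omega))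
  set S : Finset k := S₁ ∪ (Finset.univ.biUnion fun i : Fin 2 =>
    ((f.num i).support.image fun m => MvPolynomial.coeff m (f.num i)) ∪
    ((f.den i).support.image fun m => MvPolynomial.coeff m (f.den i))) with hS
  have hfd : FiniteDimensional ℚ (IntermediateField.adjoin ℚ (S : Set k)) :=
    IntermediateField.finiteDimensional_adjoin fun x _ => Algebra.IsIntegral.isIntegral x
  set K₀ := IntermediateField.adjoin ℚ (S : Set k) with hK₀
  have hSK : ∀ s ∈ S, s ∈ Set.range (algebraMap K₀ k) := fun s hs =>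
    ⟨⟨s, IntermediateField.subset_adjoin ℚ (S : Set k) hs⟩, rfl⟩
  have hnum : ∀ i, ∀ m ∈ (f.num i).support,
      MvPolynomial.coeff m (f.num i) ∈ Set.range (algebraMap K₀ k) := fun i m hm => by
    apply hSK
    rw [hS, Finset.mem_union, Finset.mem_biUnion]
    exact Or.inr ⟨i, Finset.mem_univ _, Finset.mem_union_left _ (Finset.mem_image_of_mem _ hm)⟩
  have hden : ∀ i, ∀ m ∈ (f.den i).support,
      MvPolynomial.coeff m (f.den i) ∈ Set.range (algebraMap K₀ k) := fun i m hm => by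
    apply hSK
    rw [hS, Finset.mem_union, Finset.mem_biUnion]
    exact Or.inr ⟨i, Finset.mem_univ _, Finset.mem_union_right _ (Finset.mem_image_of_mem _ hm)⟩
  obtain ⟨f₀, hf₀⟩ := desc_rm (K := K₀) f hnum hden
  obtain ⟨σ₀, hσ₀, hc₀⟩ := hDesc.1 K₀ k f₀ σ (by rw [hf₀]; exact hOf)
  obtain ⟨-, htp₀⟩ := hS₁ K₀ σ₀ (fun s hs => hSK s (Finset.mem_union_left _ hs)) hc₀
  obtain ⟨B, hB0, hB⟩ := hCore K₀ σ₀ (by rw [htp₀]; exact h2)
    (fun n => by rw [htp₀]; exact (hdeg n).trans (hDg.2.2 K₀ k σ₀ σ hc₀ n))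
  have hBk : MvPolynomial.map (algebraMap K₀ k) B ≠ 0 := by
    rw [Ne, map_eq_zero_iff _ (MvPolynomial.map_injective _ (algebraMap K₀ k).injective)]
    exact hB0
  obtain ⟨V, p, a, N, hp, -, hch, hN, hbox⟩ := hBox k f σ hOf _ (mul_ne_zero hb hBk) 1
  obtain ⟨V', p', a', N', hp', hpp', hch', hN', hbox'⟩ := hBox k f σ hOf _ (mul_ne_zero hb hBk) p
  obtain ⟨c, hcV, hcV'⟩ := hLift k V V' p p' hp hp' (by omega) hch hch' a a'
  -- the field `K`
  have hfdK : FiniteDimensional K₀ (IntermediateField.adjoin K₀ (Set.range c)) :=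
    haveI : Finite (Set.range c) := Set.finite_range c
    IntermediateField.finiteDimensional_adjoin fun x _ =>
      (Algebra.IsIntegral.isIntegral (R := ℚ) x).tower_top
  set K := IntermediateField.adjoin K₀ (Set.range c) with hK
  haveI : FiniteDimensional ℚ K := FiniteDimensional.trans ℚ K₀ K
  haveI : NumberField K := {}
  set fK : RM K 2 := f₀.map (algebraMap K₀ K) with hfK
  have hfKk : fK.map (algebraMap K k) = f := by rw [hfK, map_map_rm, hf₀]
  obtain ⟨σK, hσK, hcK⟩ := hDesc.1 K k fK σ (by rw [hfKk]; exact hOf)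
  obtain ⟨-, htpK⟩ := hS₁ K σK (fun s hs => by
    obtain ⟨w, hw⟩ := hSK s (Finset.mem_union_left _ hs)
    exact ⟨algebraMap K₀ K w, by rw [← hw, ← IsScalarTower.algebraMap_apply]⟩) hcK
  have hc0K : Cmp σ₀ σK := cmp_of f₀ σ₀ σK hσ₀ hσK
  set cK : Fin 2 → K := fun i => ⟨c i, IntermediateField.subset_adjoin K₀ _ ⟨i, rfl⟩⟩ with hcKdef
  have hBx : ∀ x : Fin 2 → K, MvPolynomial.eval (fun i => algebraMap K k (x i))
      (b * MvPolynomial.map (algebraMap K₀ k) B) ≠ 0 → MvPolynomial.aeval x B ≠ 0 := by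
    intro x hx h0
    apply hx
    rw [map_mul, eval_coe', h0, map_zero, mul_zero]
  have hcB : MvPolynomial.aeval cK B ≠ 0 := by
    obtain ⟨x, hx0, -, hxB, -⟩ := hbox c hcV
    apply hBx
    have := hxB 0
    rw [hx0] at this
    exact this
  obtain ⟨Sθ, hSθ⟩ := hB K σK hc0K (by rw [htpK, htp₀]) (hDesc.2.1 K k σK σ hcK hnoi)
    (fun n => by rw [htpK]; exact (hdeg n).trans (hDg.2.2 K k σK σ hcK n)) cK hcB (N * N')
    (Nat.one_le_iff_ne_zero.2 (mul_ne_zero (by omega) (by omega)))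
  obtain ⟨θ, hθ⟩ := Infinite.exists_notMem_finset Sθ
  obtain ⟨H₀, Y, hY, hfinal⟩ := hSθ θ hθ
  obtain ⟨j, hjY, hjH⟩ := large (K := K) (p * p') (le_trans hp.two_le
    (Nat.le_mul_of_pos_right _ hp'.pos)) Y hY H₀
  set y : K := ((p * p' : ℕ) : K) ^ (j + 1) with hy
  set x₀ : Fin 2 → k := fun i => algebraMap K k (lpt cK θ y i) with hx₀
  have hx00 : x₀ 0 = c 0 + (θ : k) * ((p * p' : ℕ) : k) ^ (j + 1) := by
    rw [hx₀]
    simp only [lpt, Matrix.cons_val_zero, map_add, map_mul, map_natCast, hy, map_pow]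
    rfl
  have hx01 : x₀ 1 = c 1 + ((1 : ℕ) : k) * ((p * p' : ℕ) : k) ^ (j + 1) := by
    rw [hx₀]
    simp only [lpt, Matrix.cons_val_one, Matrix.cons_val_fin_one, map_add, map_natCast, hy, map_pow,
      Nat.cast_one, one_mul]
    rfl
  have hxV : ∀ i, Lies V (x₀ i) (a i) := by
    intro i
    fin_cases i
    · change Lies V (x₀ 0) (a 0)
      rw [hx00]
      exact lies_add V p hch _ _ (hcV 0) _ _ _
    · change Lies V (x₀ 1) (a 1)
      rw [hx01]
      exact lies_add V p hch _ _ (hcV 1) _ _ _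
  have hxV' : ∀ i, Lies V' (x₀ i) (a' i) := by
    intro i
    fin_cases i
    · change Lies V' (x₀ 0) (a' 0)
      rw [hx00, mul_comm p p']
      exact lies_add V' p' hch' _ _ (hcV' 0) _ _ _
    · change Lies V' (x₀ 1) (a' 1)
      rw [hx01, mul_comm p p']
      exact lies_add V' p' hch' _ _ (hcV' 1) _ _ _
  obtain ⟨x, hx0, hxo, hxB, hxCl⟩ := hbox x₀ hxV
  obtain ⟨x', hx0', hxo', -, hxCl'⟩ := hbox' x₀ hxV'
  have hxx : x = x' := f.orb_unique x x' hxo hxo' (hx0.trans hx0'.symm)
  rw [← hxx] at hxCl'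
  refine ⟨x, hxo, fun n h0 => hxB n (by rw [map_mul, h0, zero_mul]), ?_⟩
  -- the orbit is defined over `K`
  have hmem : ∀ n i, x n i ∈ K := by
    intro n
    induction n with
    | zero =>
      intro i
      rw [hx0]
      exact (lpt cK θ y i).2
    | succ n ih =>
      intro i
      obtain ⟨hd, he⟩ := hxo n i
      set w : Fin 2 → K := fun i => ⟨x n i, ih i⟩ with hw
      have hxw : x n = fun i => algebraMap K k (w i) := rfl
      have e1 : MvPolynomial.eval (x n) (f.den i) =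
          algebraMap K k (MvPolynomial.eval w (fK.den i)) := by
        rw [hxw, ← eval_coe, ← hfKk]
        rfl
      have e2 : MvPolynomial.eval (x n) (f.num i) =
          algebraMap K k (MvPolynomial.eval w (fK.num i)) := by
        rw [hxw, ← eval_coe, ← hfKk]
        rfl
      rw [eq_div_of_mul_eq hd he, e1, e2]
      exact div_mem (SetLike.coe_mem _) (SetLike.coe_mem _)
  set xK : ℕ → Fin 2 → K := fun n i => ⟨x n i, hmem n i⟩ with hxK
  have hxxK : ∀ n, x n = fun i => algebraMap K k (xK n i) := fun n => rfl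
  have horbK : fK.Orb xK := by
    intro n i
    obtain ⟨hd, he⟩ := hxo n i
    have e1 : MvPolynomial.eval (x n) (f.den i) =
        algebraMap K k (MvPolynomial.eval (xK n) (fK.den i)) := by
      rw [hxxK, ← eval_coe, ← hfKk]
      rfl
    have e2 : MvPolynomial.eval (x n) (f.num i) =
        algebraMap K k (MvPolynomial.eval (xK n) (fK.num i)) := by
      rw [hxxK, ← eval_coe, ← hfKk]
      rfl
    rw [e1] at hd he
    rw [e2] at he
    refine ⟨fun h0 => hd (by rw [h0, map_zero]), ?_⟩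
    apply (algebraMap K k).injective
    rw [map_mul]
    exact he
  have hflow : Flow σK xK := hVal.2.2.2.1 K fK σK xK hσK horbK
  have hxK0 : xK 0 = lpt cK θ y := by
    funext i
    apply Subtype.ext
    change x 0 i = _
    rw [hx0]
    rfl
  have hBK : ∀ n, MvPolynomial.aeval (xK n) B ≠ 0 := fun n => hBx _ (hxB n)
  have hClK : ∀ (N p : ℕ), Cl N p x → Cl N p xK := by
    intro N p h G j hj
    obtain ⟨J, hJ⟩ := h (MvPolynomial.map (algebraMap K k) G) j (by
      rw [hxxK, eval_coe]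
      exact fun h0 => hj ((map_eq_zero_iff _ (algebraMap K k).injective).1 h0))
    refine ⟨J, fun s h0 => hJ s ?_⟩
    rw [hxxK, eval_coe, h0, map_zero]
  have hfin := hfinal y hjY hjH xK hxK0 hflow hBK
  suffices hd : Dns xK from descP k K.toSubfield 2 xK hd
  intro G hG
  by_contra hcon
  push Not at hcon
  obtain ⟨P, hP, hPx⟩ := exists_irr
    (fun H : Pl K => ∀ t, MvPolynomial.eval (xK (N * N' * t)) H = 0)
    (fun u hu h => by
      have e := h 0
      exact (hu.map (MvPolynomial.eval (xK (N * N' * 0)))).ne_zero e)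
    (fun a b h => hPrime K xK N N' p p' hp hp' (by omega) hN hN' (hClK _ _ hxCl) (hClK _ _ hxCl')
      a b h) G hG (fun t => hcon _)
  exact hfin P hP hPx

end Pool.Agent.Lib.MP_16285c_agZ
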