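import Pool.Agent.Lib.MP_16285c_agZ.Spec3
import Pool.Agent.Lib.MP_16285c_agZ.Fin
import Pool.Agent.Lib.MP_16285c_ag.Trans
import Pool.Agent.Lib.MP_16285c_ag.AdmExt
import Pool.Agent.Lib.MP_16285c_ag.AbvExt
import Pool.Agent.Lib.MP_16285c_ag.AdmRat
import Pool.Agent.Lib.MP_16285c_ag.SupplyFun

/-!
# Elements of large height which are small at two places (helper55)
-/

set_option autoImplicit false

namespace Pool.Agent.Lib.MP_16285c_agZ

open Pool.Agent.Lib.MP_16285c_ag

namespace SupM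

/-- A multiple of `p` by an element of `V` has residue `0`. -/
theorem lies_mul {k : Type} [Field k] (V : ValuationSubring k) (p : ℕ)
    (hp : CharP (IsLocalRing.ResidueField V) p) (z : k) (hz : z ∈ V) : Lies V ((p : k) * z) 0 := by
  refine ⟨mul_mem (natCast_mem V p) hz, ?_⟩
  have h3 : (⟨(p : k) * z, mul_mem (natCast_mem V p) hz⟩ : V) = (p : V) * ⟨z, hz⟩ := by
    apply Subtype.ext
    push_cast
    rfl
  rw [h3, map_mul, map_natCast, CharP.cast_eq_zero, zero_mul]

/-- Two different shifts cannot both be bad. -/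
theorem two {k : Type} [Field k] (V : ValuationSubring k) (p : ℕ)
    (hp : CharP (IsLocalRing.ResidueField V) p) (hp2 : 2 < p) (t : k) (a b : ℕ)
    (ha : a < b) (hb : b < 3) (h1 : (t + a)⁻¹ ∉ V) (h2 : (t + b)⁻¹ ∉ V) : False := by
  have e1 : t + a ∈ V := (V.mem_or_inv_mem _).resolve_right h1
  have e2 : t + b ∈ V := (V.mem_or_inv_mem _).resolve_right h2
  have key : ∀ z : k, ∀ hz : z ∈ V, z⁻¹ ∉ V → IsLocalRing.residue V ⟨z, hz⟩ = 0 := by
    intro z hz hzi
    rw [IsLocalRing.residue_eq_zero_iff, IsLocalRing.mem_maximalIdeal]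
    intro hu
    obtain ⟨u, hu⟩ := hu
    apply hzi
    have h3 : ((u : V) : k) * ((u⁻¹ : Vˣ) : V) = 1 := congrArg Subtype.val u.mul_inv
    have h4 : ((u : V) : k) = z := by rw [hu]
    rw [h4] at h3
    have h5 : z⁻¹ = (((u⁻¹ : Vˣ) : V) : k) := (eq_inv_of_mul_eq_one_right h3).symm
    rw [h5]
    exact Subtype.mem _
  have f1 := key _ e1 h1
  have f2 := key _ e2 h2
  have h3 : (⟨t + b, e2⟩ : V) = ⟨t + a, e1⟩ + ((b - a : ℕ) : V) := by
    apply Subtype.ext
    push_cast [Nat.cast_sub ha.le]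
    ring
  rw [h3, map_add, f1, zero_add, map_natCast, CharP.cast_eq_zero_iff (IsLocalRing.ResidueField V) p]
    at f2
  have := Nat.le_of_dvd (by omega) f2
  omega

/-- A transcendental element in two valuation rings. -/
theorem exists_t {k : Type} [Field k] [CharZero k] (V V' : ValuationSubring k) (p p' : ℕ)
    (h2 : 2 < p) (h2' : 2 < p')
    (hc : CharP (IsLocalRing.ResidueField V) p) (hc' : CharP (IsLocalRing.ResidueField V') p')
    (hna : ¬ Algebra.IsAlgebraic ℚ k) : ∃ t : k, Transcendental ℚ t ∧ t ∈ V ∧ t ∈ V' := by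
  obtain ⟨t, ht⟩ : ∃ t : k, ¬ IsAlgebraic ℚ t := by
    by_contra h
    push Not at h
    exact hna ⟨h⟩
  have key : ∀ c : ℕ, Transcendental ℚ (t + c)⁻¹ := by
    intro c h'
    apply ht
    have h1 : IsAlgebraic ℚ (t + c) := IsAlgebraic.inv_iff.mp h'
    have h2 : IsAlgebraic ℚ ((c : k)) := by
      have := isAlgebraic_algebraMap (R := ℚ) (A := k) (c : ℚ)
      rwa [map_natCast] at this
    have h3 := h1.sub h2
    rwa [add_sub_cancel_right] at h3
  have h01 := two V p hc h2 t 0 1 (by omega) (by omega)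
  have h02 := two V p hc h2 t 0 2 (by omega) (by omega)
  have h12 := two V p hc h2 t 1 2 (by omega) (by omega)
  have h01' := two V' p' hc' h2' t 0 1 (by omega) (by omega)
  have h02' := two V' p' hc' h2' t 0 2 (by omega) (by omega)
  have h12' := two V' p' hc' h2' t 1 2 (by omega) (by omega)
  by_cases g0 : (t + ((0 : ℕ) : k))⁻¹ ∈ V ∧ (t + ((0 : ℕ) : k))⁻¹ ∈ V'
  · exact ⟨_, key 0, g0.1, g0.2⟩
  by_cases g1 : (t + ((1 : ℕ) : k))⁻¹ ∈ V ∧ (t + ((1 : ℕ) : k))⁻¹ ∈ V'
  · exact ⟨_, key 1, g1.1, g1.2⟩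
  by_cases g2 : (t + ((2 : ℕ) : k))⁻¹ ∈ V ∧ (t + ((2 : ℕ) : k))⁻¹ ∈ V'
  · exact ⟨_, key 2, g2.1, g2.2⟩
  exfalso
  tauto

/-- Fields of definition over rational functions, for a given transcendental element. -/
theorem trans {k : Type} [Field k] [IsAlgClosed k] [CharZero k] (t : k) (ht : Transcendental ℚ t)
    (S : Finset k) : ∃ (F : Type) (_ : Field F) (K : Subfield k)
      (_ : Algebra (RatFunc F) K), FiniteDimensional (RatFunc F) K ∧ IsGalois (RatFunc F) K ∧
      (S : Set k) ⊆ K ∧ ((algebraMap (RatFunc F) K RatFunc.X : K) : k) = t := by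
  obtain ⟨F, hF, φ, hφX, halg⟩ := TransAux.base k t ht
  let _ : Algebra (RatFunc F) k := φ.toAlgebra
  have halg' : Algebra.IsAlgebraic (RatFunc F) k := ⟨halg⟩
  have : CharZero (RatFunc F) := by
    refine ⟨fun a b hab => ?_⟩
    have h1 := congrArg φ hab
    rw [map_natCast, map_natCast] at h1
    exact_mod_cast h1
  have : IsAlgClosure (RatFunc F) k := ⟨inferInstance, halg'⟩
  have : Normal (RatFunc F) k := IsAlgClosure.normal _ _
  have hfin : FiniteDimensional (RatFunc F) (IntermediateField.adjoin (RatFunc F) (S : Set k)) :=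
    IntermediateField.finiteDimensional_adjoin fun x _ => Algebra.IsIntegral.isIntegral x
  let N := IntermediateField.normalClosure (RatFunc F)
    (IntermediateField.adjoin (RatFunc F) (S : Set k)) k
  refine ⟨F, hF, N.toSubfield, inferInstanceAs (Algebra (RatFunc F) N), ?_, ?_, ?_, ?_⟩
  · exact (inferInstance : FiniteDimensional (RatFunc F) N)
  · have h1 : IsGalois (RatFunc F) N := ⟨⟩
    exact h1
  · intro x hx
    have h1 : (IntermediateField.adjoin (RatFunc F) (S : Set k)) ≤ N :=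
      IntermediateField.le_normalClosure _
    exact h1 (IntermediateField.subset_adjoin _ _ hx)
  · have h1 : ((algebraMap (RatFunc F) N RatFunc.X : N) : k) = t := hφX
    exact h1

/-- Large heights outside a finite set. -/
theorem avoid {K : Type} [Field K] [Height.AdmissibleAbsValues K] (t c : K) (hc : c ≠ 0)
    (ht : 0 < Height.logHeight₁ t) (Y : Set K) (hY : Y.Finite) (B : ℝ) :
    ∃ j : ℕ, c * t ^ j ∉ Y ∧ B < Height.logHeight₁ (c * t ^ j) := by
  obtain ⟨M, hM⟩ := (hY.image (fun y => Height.logHeight₁ y)).bddAbove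
  obtain ⟨j, hj⟩ := SupplyFunAux.large t 0 c hc ht (max B M)
  rw [zero_add] at hj
  refine ⟨j, fun hmem => ?_, lt_of_le_of_lt (le_max_left _ _) hj⟩
  have h1 := hM ⟨_, hmem, rfl⟩
  exact absurd (lt_of_le_of_lt (le_max_right _ _) hj) (not_lt.mpr h1)

end SupM

open SupM in
/-- **Supply at two places.** -/
theorem stmtSup : StmtSup := by
  intro k _ _ _ V V' p p' hp hp' h2 h2' hc hc' S
  by_cases hna : Algebra.IsAlgebraic ℚ k
  · have hfd : FiniteDimensional ℚ (IntermediateField.adjoin ℚ (S : Set k)) :=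
      IntermediateField.finiteDimensional_adjoin fun x _ => Algebra.IsIntegral.isIntegral x
    have hnf : NumberField (IntermediateField.adjoin ℚ (S : Set k)) := {}
    refine ⟨(IntermediateField.adjoin ℚ (S : Set k)).toSubfield,
      @NumberField.instAdmissibleAbsValues _ _ hnf, ?_, ?_⟩
    · exact IntermediateField.subset_adjoin ℚ (S : Set k)
    · intro Y hY B
      obtain ⟨j, hjY, hj⟩ := FinX.large (K := IntermediateField.adjoin ℚ (S : Set k)) (p * p')
        (by nlinarith) Y hY B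
      refine ⟨_, hjY, hj, ?_, ?_⟩
      · have h1 : (((p * p' : ℕ) : k)) ^ (j + 1) =
            (p : k) * ((p' : k) * ((p * p' : ℕ) : k) ^ j) := by
          push_cast
          ring
        have h3 := lies_mul V p hc ((p' : k) * ((p * p' : ℕ) : k) ^ j)
          (mul_mem (natCast_mem V _) (pow_mem (natCast_mem V _) _))
        rw [← h1] at h3
        exact h3
      · have h1 : (((p * p' : ℕ) : k)) ^ (j + 1) =
            (p' : k) * ((p : k) * ((p * p' : ℕ) : k) ^ j) := by
          push_cast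
          ring
        have h3 := lies_mul V' p' hc' ((p : k) * ((p * p' : ℕ) : k) ^ j)
          (mul_mem (natCast_mem V' _) (pow_mem (natCast_mem V' _) _))
        rw [← h1] at h3
        exact h3
  · obtain ⟨t, ht, htV, htV'⟩ := exists_t V V' p p' h2 h2' hc hc' hna
    obtain ⟨F, hF, K, hAlg, hfd, hgal, hS, hX⟩ := trans t ht S
    obtain ⟨A, hA0, hAne, hAX⟩ := admRatP F
    obtain ⟨A', hA'⟩ := admExtP abvExtP (RatFunc F) K A hA0 hAne
    refine ⟨K, A', hS, ?_⟩
    intro Y hY B
    have ht1 : 0 < Height.logHeight₁ (algebraMap (RatFunc F) K RatFunc.X) :=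
      lt_of_lt_of_le hAX (hA' RatFunc.X)
    have hp0 : ((p * p' : ℕ) : K) ≠ 0 := Nat.cast_ne_zero.mpr (mul_ne_zero hp.ne_zero hp'.ne_zero)
    obtain ⟨j, hjY, hj⟩ := avoid (algebraMap (RatFunc F) K RatFunc.X) ((p * p' : ℕ) : K) hp0 ht1
      Y hY B
    have hcoe : (((((p * p' : ℕ) : K) * (algebraMap (RatFunc F) K RatFunc.X) ^ j) : K) : k) =
        ((p * p' : ℕ) : k) * t ^ j := by
      rw [← hX]
      push_cast
      rfl
    refine ⟨_, hjY, hj, ?_, ?_⟩
    · rw [hcoe]
      have h1 : ((p * p' : ℕ) : k) * t ^ j = (p : k) * ((p' : k) * t ^ j) := by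
        push_cast
        ring
      rw [h1]
      exact lies_mul V p hc _ (mul_mem (natCast_mem V _) (pow_mem htV _))
    · rw [hcoe]
      have h1 : ((p * p' : ℕ) : k) * t ^ j = (p' : k) * ((p : k) * t ^ j) := by
        push_cast
        ring
      rw [h1]
      exact lies_mul V' p' hc' _ (mul_mem (natCast_mem V' _) (pow_mem htV' _))

end Pool.Agent.Lib.MP_16285c_agZ
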