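import Pool.Agent.Lib.MP_16285c_agZ.Spec

/-!
# Dimension of the span of the monomials `U ^ a η ^ s` in a function field of one variable
-/

set_option autoImplicit false

namespace Pool.Agent.Lib.MP_16285c_agZ

namespace PolM

open Polynomial
open scoped IntermediateField Polynomial.Bivariate

variable {κ L : Type} [Field κ] [Field L] [Algebra κ L]

theorem swap_coeff (F : κ[X][Y]) (a s : ℕ) :
    ((Bivariate.swap F).coeff a).coeff s = (F.coeff s).coeff a := by
  induction F using Polynomial.induction_on' with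
  | add f g hf hg => rw [map_add, coeff_add, coeff_add, hf, hg, coeff_add, coeff_add]
  | monomial n f =>
    induction f using Polynomial.induction_on' with
    | add f g hf hg =>
      rw [map_add, map_add, coeff_add, coeff_add, hf, hg, coeff_add, coeff_add]
    | monomial m r =>
      rw [Bivariate.swap_monomial_monomial]
      simp only [coeff_monomial]
      by_cases h1 : m = a <;> by_cases h2 : n = s <;> simp [h1, h2, coeff_monomial]

theorem coeff_deg_le (F : κ[X][Y]) (s : ℕ) :
    (F.coeff s).natDegree ≤ (Bivariate.swap F).natDegree := by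
  rw [natDegree_le_iff_coeff_eq_zero]
  intro a ha
  rw [← swap_coeff, coeff_eq_zero_of_natDegree_lt ha, coeff_zero]

theorem ev_eq1 (U η : L) (F : κ[X][Y]) :
    aevalAeval (R := κ) U η F = F.eval₂ (aeval U : κ[X] →ₐ[κ] L).toRingHom η := by
  induction F using Polynomial.induction_on' with
  | add f g hf hg => rw [map_add, eval₂_add, hf, hg]
  | monomial n f =>
    rw [eval₂_monomial, ← C_mul_X_pow_eq_monomial, map_mul, map_pow, aevalAeval_C, aevalAeval_Y]
    rfl

/-- The evaluation at `(U, η)` as a sum. -/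
theorem ev_eq (U η : L) (F : κ[X][Y]) (m : ℕ) (hm : F.natDegree ≤ m) :
    aevalAeval (R := κ) U η F = ∑ j ∈ Finset.range (m + 1), aeval U (F.coeff j) * η ^ j := by
  rw [ev_eq1, eval₂_eq_sum_range' _ (Nat.lt_succ_of_le hm)]
  rfl

theorem exists_irred (U η : L) (F : κ[X][Y]) :
    F ≠ 0 → aevalAeval (R := κ) U η F = 0 →
      ∃ P : κ[X][Y], Irreducible P ∧ aevalAeval (R := κ) U η P = 0 := by
  induction F using UniqueFactorizationMonoid.induction_on_prime with
  | h₁ => exact fun h => absurd rfl h
  | h₂ u hu => exact fun _ h => absurd h ((hu.map _).ne_zero)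
  | h₃ a p ha hp ih =>
    intro _ h
    rw [map_mul] at h
    rcases mul_eq_zero.1 h with h | h
    · exact ⟨p, hp.irreducible, h⟩
    · exact ih ha h

/-- The degree of an irreducible relation. -/
theorem deg_eq (U η : L) (hU : Transcendental κ U) (P : κ[X][Y]) (hP : Irreducible P)
    (h0 : aevalAeval (R := κ) U η P = 0) : P.natDegree = (minpoly κ⟮U⟯ η).natDegree := by
  let alg : Algebra κ[X] κ⟮U⟯ :=
    (aeval (IntermediateField.AdjoinSimple.gen κ U) : κ[X] →ₐ[κ] κ⟮U⟯).toRingHom.toAlgebra
  have hval : ∀ f : κ[X], algebraMap κ⟮U⟯ L (algebraMap κ[X] κ⟮U⟯ f) = aeval U f := by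
    intro f
    change algebraMap κ⟮U⟯ L (aeval (IntermediateField.AdjoinSimple.gen κ U) f) = aeval U f
    rw [← aeval_algebraMap_apply, IntermediateField.AdjoinSimple.algebraMap_gen]
  have hinj : Function.Injective (algebraMap κ[X] κ⟮U⟯) := by
    rw [injective_iff_map_eq_zero]
    intro f hf
    apply (transcendental_iff.1 hU) f
    rw [← hval, hf, map_zero]
  have : FaithfulSMul κ[X] κ⟮U⟯ := (faithfulSMul_iff_algebraMap_injective _ _).2 hinj
  have : IsFractionRing κ[X] κ⟮U⟯ := by
    apply IsFractionRing.of_field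
    intro z
    obtain ⟨r, s, hrs⟩ := (IntermediateField.mem_adjoin_simple_iff κ (z : L)).1 z.2
    refine ⟨r, s, ?_⟩
    apply (algebraMap κ⟮U⟯ L).injective
    rw [map_div₀, hval, hval]
    exact hrs
  have hdeg : P.natDegree ≠ 0 := by
    intro hd
    rw [natDegree_eq_zero] at hd
    obtain ⟨a, ha⟩ := hd
    rw [← ha, aevalAeval_C] at h0
    have h1 := (transcendental_iff.1 hU) a h0
    rw [h1, C_0] at ha
    exact hP.ne_zero ha.symm
  have hprim : P.IsPrimitive := hP.isPrimitive hdeg
  have hirr := (hprim.irreducible_iff_irreducible_map_fraction_map (K := κ⟮U⟯)).1 hP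
  have hz : aeval η (P.map (algebraMap κ[X] κ⟮U⟯)) = 0 := by
    rw [aeval_def, eval₂_map, ← h0, ev_eq1]
    congr 1
    ext f
    · exact hval _
    · exact hval _
  have hm := minpoly.eq_of_irreducible hirr hz
  rw [← hm, natDegree_mul_C (inv_ne_zero (leadingCoeff_ne_zero.2 hirr.ne_zero)),
    natDegree_map_eq_of_injective hinj]

/-- A relation exists. -/
theorem exists_rel (U η : L) (hU : Transcendental κ U) (hη : IsAlgebraic κ⟮U⟯ η) :
    ∃ P : κ[X][Y], P ≠ 0 ∧ aevalAeval (R := κ) U η P = 0 := by
  let alg : Algebra κ[X] κ⟮U⟯ :=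
    (aeval (IntermediateField.AdjoinSimple.gen κ U) : κ[X] →ₐ[κ] κ⟮U⟯).toRingHom.toAlgebra
  have hval : ∀ f : κ[X], algebraMap κ⟮U⟯ L (algebraMap κ[X] κ⟮U⟯ f) = aeval U f := by
    intro f
    change algebraMap κ⟮U⟯ L (aeval (IntermediateField.AdjoinSimple.gen κ U) f) = aeval U f
    rw [← aeval_algebraMap_apply, IntermediateField.AdjoinSimple.algebraMap_gen]
  have hinj : Function.Injective (algebraMap κ[X] κ⟮U⟯) := by
    rw [injective_iff_map_eq_zero]
    intro f hf
    apply (transcendental_iff.1 hU) f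
    rw [← hval, hf, map_zero]
  have : FaithfulSMul κ[X] κ⟮U⟯ := (faithfulSMul_iff_algebraMap_injective _ _).2 hinj
  have : IsFractionRing κ[X] κ⟮U⟯ := by
    apply IsFractionRing.of_field
    intro z
    obtain ⟨r, s, hrs⟩ := (IntermediateField.mem_adjoin_simple_iff κ (z : L)).1 z.2
    refine ⟨r, s, ?_⟩
    apply (algebraMap κ⟮U⟯ L).injective
    rw [map_div₀, hval, hval]
    exact hrs
  let alg2 : Algebra κ[X] L := (aeval U : κ[X] →ₐ[κ] L).toRingHom.toAlgebra
  have : IsScalarTower κ[X] κ⟮U⟯ L := IsScalarTower.of_algebraMap_eq fun f => (hval f).symm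
  have h1 : IsAlgebraic κ[X] η := (IsFractionRing.isAlgebraic_iff κ[X] κ⟮U⟯ L).2 hη
  obtain ⟨P, hP, h2⟩ := h1
  refine ⟨P, hP, ?_⟩
  rw [ev_eq1, ← h2]
  rfl

/-- The elimination: every monomial is a combination of few of them. -/
theorem elim (U η : L) (P : κ[X][Y]) (hP : P ≠ 0) (h0 : aevalAeval (R := κ) U η P = 0)
    (n : ℕ) (hn : ∀ s, (P.coeff s).natDegree ≤ n) (p r : ℕ) (W : Submodule κ L)
    (hW : ∀ a s, a ≤ p → s ≤ r → (s < P.natDegree ∨ a < (P.coeff P.natDegree).natDegree ∨
      p + (P.coeff P.natDegree).natDegree < a + n) → U ^ a * η ^ s ∈ W) :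
    ∀ s, s ≤ r → ∀ a, a ≤ p → U ^ a * η ^ s ∈ W := by
  intro s
  induction s using Nat.strong_induction_on with
  | _ s ihs =>
    intro hs a
    induction a using Nat.strong_induction_on with
    | _ a iha =>
      intro ha
      by_cases hR : (s < P.natDegree ∨ a < (P.coeff P.natDegree).natDegree ∨
          p + (P.coeff P.natDegree).natDegree < a + n)
      · exact hW a s ha hs hR
      · push Not at hR
        obtain ⟨h1, h2, h3⟩ := hR
        set m := P.natDegree with hm
        set Q := P.coeff m with hQ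
        set n' := Q.natDegree with hn'
        have hQ0 : Q ≠ 0 := by
          rw [hQ, hm]
          exact leadingCoeff_ne_zero.2 hP
        have hc0 : Q.coeff n' ≠ 0 := leadingCoeff_ne_zero.2 hQ0
        have h4 := ev_eq U η P m le_rfl
        rw [h0, Finset.sum_range_succ] at h4
        have h5 : aeval U Q = ∑ i ∈ Finset.range n', Q.coeff i • U ^ i + Q.coeff n' • U ^ n' := by
          rw [aeval_eq_sum_range, Finset.sum_range_succ]
        have h6 : ∀ j, aeval U (P.coeff j) =
            ∑ i ∈ Finset.range (n + 1), (P.coeff j).coeff i • U ^ i := fun j =>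
          aeval_eq_sum_range' (Nat.lt_succ_of_le (hn j)) U
        have h7 : Q.coeff n' • (U ^ a * η ^ s) =
            -(∑ i ∈ Finset.range n', Q.coeff i • (U ^ (a - n' + i) * η ^ s)) -
            ∑ j ∈ Finset.range m, ∑ i ∈ Finset.range (n + 1),
              (P.coeff j).coeff i • (U ^ (a - n' + i) * η ^ (s - m + j)) := by
          have e1 : U ^ a = U ^ (a - n') * U ^ n' := by rw [← pow_add]; congr 1; omega
          have e2 : η ^ s = η ^ (s - m) * η ^ m := by rw [← pow_add]; congr 1; omega
          have e3 : ∑ i ∈ Finset.range n', Q.coeff i • (U ^ (a - n' + i) * η ^ s) =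
              U ^ (a - n') * η ^ (s - m) * ((∑ i ∈ Finset.range n', Q.coeff i • U ^ i) * η ^ m) := by
            rw [Finset.sum_mul, Finset.mul_sum]
            refine Finset.sum_congr rfl fun i _ => ?_
            rw [e2, pow_add, Algebra.smul_def, Algebra.smul_def]
            ring
          have e4 : ∑ j ∈ Finset.range m, ∑ i ∈ Finset.range (n + 1),
              (P.coeff j).coeff i • (U ^ (a - n' + i) * η ^ (s - m + j)) =
              U ^ (a - n') * η ^ (s - m) *
                (∑ j ∈ Finset.range m, aeval U (P.coeff j) * η ^ j) := by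
            rw [Finset.mul_sum]
            refine Finset.sum_congr rfl fun j _ => ?_
            rw [h6, Finset.sum_mul, Finset.mul_sum]
            refine Finset.sum_congr rfl fun i _ => ?_
            rw [pow_add, pow_add, Algebra.smul_def, Algebra.smul_def]
            ring
          rw [e3, e4]
          have e5 : Q.coeff n' • (U ^ a * η ^ s) =
              U ^ (a - n') * η ^ (s - m) * ((Q.coeff n' • U ^ n') * η ^ m) := by
            rw [e1, e2, Algebra.smul_def, Algebra.smul_def]
            ring
          rw [e5]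
          rw [h5] at h4
          linear_combination (-(U ^ (a - n') * η ^ (s - m))) * h4
        rw [← Submodule.smul_mem_iff W hc0, h7]
        refine Submodule.sub_mem _ (Submodule.neg_mem _ (Submodule.sum_mem _ fun i hi => ?_))
          (Submodule.sum_mem _ fun j hj => Submodule.sum_mem _ fun i hi => ?_)
        · rw [Finset.mem_range] at hi
          exact Submodule.smul_mem _ _ (iha (a - n' + i) (by omega) (by omega))
        · rw [Finset.mem_range] at hi hj
          exact Submodule.smul_mem _ _ (ihs (s - m + j) (by omega) (by omega) (a - n' + i) (by omega))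

theorem span_le (U η : L) (P : κ[X][Y]) (hP : P ≠ 0) (h0 : aevalAeval (R := κ) U η P = 0)
    (n : ℕ) (hn : ∀ s, (P.coeff s).natDegree ≤ n) (p r : ℕ) :
    Module.finrank κ (Submodule.span κ {w : L | ∃ a s : ℕ, a ≤ p ∧ s ≤ r ∧ w = U ^ a * η ^ s}) ≤
      (p + 1) * P.natDegree + (r + 1) * n := by
  classical
  set m := P.natDegree with hm
  set n' := (P.coeff m).natDegree with hn'
  have hn'n : n' ≤ n := hn m
  let R : Finset (ℕ × ℕ) := (Finset.range (p + 1) ×ˢ Finset.range m) ∪
    ((Finset.range n' ∪ Finset.Ico (p + 1 - (n - n')) (p + 1)) ×ˢ Finset.range (r + 1))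
  let W : Submodule κ L := Submodule.span κ
    ((R.image fun x => U ^ x.1 * η ^ x.2 : Finset L) : Set L)
  have hW : ∀ s, s ≤ r → ∀ a, a ≤ p → U ^ a * η ^ s ∈ W := by
    apply elim U η P hP h0 n hn p r W
    intro a s ha hs h
    apply Submodule.subset_span
    rw [Finset.coe_image]
    refine ⟨(a, s), ?_, rfl⟩
    rw [Finset.mem_coe]
    simp only [R, Finset.mem_union, Finset.mem_product, Finset.mem_range, Finset.mem_Ico]
    rw [← hm, ← hn'] at h
    omega
  have hle : Submodule.span κ {w : L | ∃ a s : ℕ, a ≤ p ∧ s ≤ r ∧ w = U ^ a * η ^ s} ≤ W := by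
    rw [Submodule.span_le]
    rintro w ⟨a, s, ha, hs, rfl⟩
    exact hW s hs a ha
  have h1 : Module.finrank κ W ≤ (R.image fun x => U ^ x.1 * η ^ x.2 : Finset L).card :=
    finrank_span_finset_le_card _
  have h2 : (R.image fun x => U ^ x.1 * η ^ x.2 : Finset L).card ≤ R.card := Finset.card_image_le
  have h3 : R.card ≤ (p + 1) * m + (r + 1) * n := by
    refine (Finset.card_union_le _ _).trans ?_
    rw [Finset.card_product, Finset.card_product, Finset.card_range, Finset.card_range,
      Finset.card_range]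
    have h4 : (Finset.range n' ∪ Finset.Ico (p + 1 - (n - n')) (p + 1)).card ≤ n := by
      refine (Finset.card_union_le _ _).trans ?_
      rw [Finset.card_range, Nat.card_Ico]
      omega
    have h5 := Nat.mul_le_mul_right (r + 1) h4
    rw [mul_comm (r + 1) n]
    omega
  exact (Submodule.finrank_mono hle).trans (h1.trans (h2.trans h3))

/-- Degrees in a tower. -/
theorem tower (U η : L) (hfin : FiniteDimensional κ⟮U⟯ L) :
    (minpoly κ⟮U⟯ η).natDegree * Module.finrank (IntermediateField.adjoin κ {U, η}) L =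
      Module.finrank κ⟮U⟯ L := by
  have h1 : (κ⟮U⟯⟮η⟯).restrictScalars κ = IntermediateField.adjoin κ {U, η} := by
    rw [IntermediateField.adjoin_simple_adjoin_simple]
  have h2 : Module.finrank (IntermediateField.adjoin κ {U, η}) L = Module.finrank κ⟮U⟯⟮η⟯ L := by
    rw [← h1]
    rfl
  have h3 : Module.finrank κ⟮U⟯ κ⟮U⟯⟮η⟯ = (minpoly κ⟮U⟯ η).natDegree :=
    IntermediateField.adjoin.finrank (Algebra.IsIntegral.isIntegral η)
  rw [h2, ← h3, Module.finrank_mul_finrank]

end PolM

open PolM Polynomial in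
theorem stmtPol : StmtPol := by
  intro κ L _ _ _ U η hU hη hfU hfη p r
  have halg : IsAlgebraic (IntermediateField.adjoin κ {U}) η := Algebra.IsAlgebraic.isAlgebraic η
  obtain ⟨F, hF, hF0⟩ := exists_rel U η hU halg
  obtain ⟨P, hP, h0⟩ := exists_irred U η F hF hF0
  have h1 : P.natDegree = (minpoly (IntermediateField.adjoin κ {U}) η).natDegree :=
    deg_eq U η hU P hP h0
  have h0' : aevalAeval (R := κ) η U (Bivariate.swap P) = 0 := by
    rw [Bivariate.aevalAeval_swap, h0]
  have hP' : Irreducible (Bivariate.swap P) :=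
    (MulEquiv.irreducible_iff (Bivariate.swap (R := κ)).toMulEquiv).2 hP
  have h2 : (Bivariate.swap P).natDegree = (minpoly (IntermediateField.adjoin κ {η}) U).natDegree :=
    deg_eq η U hη _ hP' h0'
  have h3 := span_le U η P hP.ne_zero h0 (Bivariate.swap P).natDegree (coeff_deg_le P) p r
  have h4 := tower U η hfU
  have h5 := tower η U hfη
  rw [Set.pair_comm] at h5
  rw [← h4, ← h5, ← h1, ← h2]
  refine (Nat.mul_le_mul_right _ h3).trans (le_of_eq ?_)
  ring

end Pool.Agent.Lib.MP_16285c_agZ
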