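import Pool.Agent.Lib.MP_16285c_agZ.Jac
import Pool.Agent.ZDO.Box

/-!
# `StmtBox`: Frobenius places
-/

set_option autoImplicit false

namespace Pool.Agent.Lib.MP_16285c_agZ

open Pool.Agent.Lib.MP_16285c_ag MvPolynomial

theorem comp_eq {K : Type} [Field K] (f : RM K 2) (σ : RF K →ₐ[K] RF K) (h : Of f σ) (G : Pl K) :
    f.comp G = σ (fr G) := by
  have h1 : f.comp = (σ.comp (IsScalarTower.toAlgHom K (MvPolynomial (Fin 2) K)
      (FractionRing (MvPolynomial (Fin 2) K)))) := by
    refine MvPolynomial.algHom_ext fun i => ?_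
    obtain ⟨hd, he⟩ := h i
    have h2 : fr (f.den i) ≠ 0 := by
      intro h3
      exact hd (IsFractionRing.injective (MvPolynomial (Fin 2) K)
        (FractionRing (MvPolynomial (Fin 2) K)) (h3.trans (map_zero _).symm))
    rw [RM.comp, aeval_X]
    rw [div_eq_iff h2]
    exact he.symm
  rw [h1]
  rfl

theorem stmtBox : StmtBox := by
  intro k _ _ _ _ f σ h B hB p₀
  have hinj : Function.Injective f.comp := by
    intro G H hGH
    rw [comp_eq f σ h, comp_eq f σ h] at hGH
    exact IsFractionRing.injective (MvPolynomial (Fin 2) k)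
        (FractionRing (MvPolynomial (Fin 2) k)) (σ.injective hGH)
  exact ZDO.box f (fun i => (h i).1) hinj (ZDO.jac_ne_zero f σ h) B hB p₀

end Pool.Agent.Lib.MP_16285c_agZ
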