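import Pool.Agent.Lib.MP_16285c_agZ.Spec

/-!
# Common zeros of polynomials in two variables without common factor
-/

set_option autoImplicit false

namespace Pool.Agent.Lib.MP_16285c_agZ

open Pool.Agent.Lib.MP_16285c_ag

namespace CZM

open Polynomial in
theorem elim {R : Type*} [CommRing R] [IsDomain R] [IsGCDMonoid R] (F : Fin 3 → R[X])
    (h : ∀ c : R[X], (∀ i, c ∣ F i) → IsUnit c) :
    ∃ r : R, r ≠ 0 ∧ C r ∈ Ideal.span (Set.range F) := by
  classical
  let K := FractionRing R
  have hinj : Function.Injective (algebraMap R K) := IsFractionRing.injective R K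
  have hmi : Function.Injective (Polynomial.map (algebraMap R K)) := Polynomial.map_injective _ hinj
  let : NormalizedGCDMonoid R := Nonempty.some inferInstance
  set I : Ideal K[X] := Ideal.span (Set.range fun i => (F i).map (algebraMap R K)) with hI
  obtain ⟨g, hg⟩ : ∃ g, I = Ideal.span {g} := (IsPrincipalIdealRing.principal I).principal
  have hgF : ∀ i, g ∣ (F i).map (algebraMap R K) := by
    intro i
    rw [← Ideal.mem_span_singleton, ← hg]
    exact Ideal.subset_span ⟨i, rfl⟩
  have hg0 : g ≠ 0 := by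
    intro h0
    have : ∀ i, (0 : R[X]) ∣ F i := by
      intro i
      have h1 := hgF i
      rw [h0, zero_dvd_iff] at h1
      have : F i = 0 := hmi (by rw [h1, Polynomial.map_zero])
      rw [this]
    exact not_isUnit_zero (h 0 this)
  set g' := IsLocalization.integerNormalization (nonZeroDivisors R) g with hg'
  obtain ⟨b, hb, hbg⟩ := IsLocalization.integerNormalization_spec (nonZeroDivisors R) g
  have hb0 : b ≠ 0 := nonZeroDivisors.ne_zero hb
  have hbK : algebraMap R K b ≠ 0 := fun hh => hb0 (hinj (by rw [hh, map_zero]))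
  have hbg' : g'.map (algebraMap R K) = C (algebraMap R K b) * g := by
    rw [hg', hbg, Algebra.smul_def, Polynomial.algebraMap_apply]
  have hpd : g'.primPart.map (algebraMap R K) ∣ g := by
    have h1 : g'.primPart.map (algebraMap R K) ∣ C (algebraMap R K b) * g := by
      rw [← hbg']
      exact Polynomial.map_dvd _ (Polynomial.primPart_dvd g')
    obtain ⟨w, hw⟩ := h1
    refine ⟨C (algebraMap R K b)⁻¹ * w, ?_⟩
    have h2 : C (algebraMap R K b)⁻¹ * (C (algebraMap R K b) * g) = g := by
      rw [← mul_assoc, ← C_mul, inv_mul_cancel₀ hbK, C_1, one_mul]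
    rw [← h2, hw]
    ring
  have hu : IsUnit g'.primPart := by
    refine h _ fun i => ?_
    exact (Polynomial.isPrimitive_primPart g').dvd_of_fraction_map_dvd_fraction_map
      (K := K) (hpd.trans (hgF i))
  have hgu : IsUnit g := Polynomial.isUnit_or_eq_zero_of_isUnit_integerNormalization_primPart hg0 hu
  have hI1 : (1 : K[X]) ∈ I := by
    rw [hg, Ideal.span_singleton_eq_top.2 hgu]
    trivial
  rw [hI, Ideal.mem_span_range_iff_exists_fun] at hI1
  obtain ⟨a, ha⟩ := hI1
  choose c hc hca using fun i => IsLocalization.integerNormalization_spec (nonZeroDivisors R) (a i)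
  refine ⟨∏ i, c i, Finset.prod_ne_zero_iff.2 fun i _ => nonZeroDivisors.ne_zero (hc i), ?_⟩
  have key : C (∏ i, c i) = ∑ i, (C (∏ j ∈ Finset.univ.erase i, c j) *
      IsLocalization.integerNormalization (nonZeroDivisors R) (a i)) * F i := by
    apply hmi
    rw [Polynomial.map_C]
    simp only [Polynomial.map_sum, Polynomial.map_mul, Polynomial.map_C]
    rw [show C ((algebraMap R K) (∏ i, c i)) = C ((algebraMap R K) (∏ i, c i)) * (∑ i, a i *
      (F i).map (algebraMap R K)) by rw [ha, mul_one], Finset.mul_sum]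
    refine Finset.sum_congr rfl fun i _ => ?_
    rw [hca i, Algebra.smul_def, Polynomial.algebraMap_apply,
      ← Finset.mul_prod_erase Finset.univ c (Finset.mem_univ i), map_mul, C_mul]
    ring
  rw [key]
  exact Ideal.sum_mem _ fun i _ => Ideal.mul_mem_left _ _ (Ideal.subset_span ⟨i, rfl⟩)

/-- The second coordinates of the common zeros form a finite set. -/
theorem fin1 {K : Type} [Field K] (F : Fin 3 → Pl K) (h : ∀ c : Pl K, (∀ i, c ∣ F i) → IsUnit c)
    (L : Type) [Field L] [Algebra K L] :
    ∃ S : Finset L, ∀ x : Fin 2 → L, (∀ i, MvPolynomial.aeval x (F i) = 0) → x 1 ∈ S := by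
  classical
  set e := MvPolynomial.finSuccEquiv K 1 with he
  have h1 : ∀ c : Polynomial (MvPolynomial (Fin 1) K), (∀ i, c ∣ e (F i)) → IsUnit c := by
    intro c hc
    have : IsUnit (e.symm c) := by
      refine h _ fun i => ?_
      have := map_dvd e.symm (hc i)
      rwa [AlgEquiv.symm_apply_apply] at this
    have := this.map e
    rwa [AlgEquiv.apply_symm_apply] at this
  obtain ⟨r, hr, hrm⟩ := elim (fun i => e (F i)) h1
  rw [Ideal.mem_span_range_iff_exists_fun] at hrm
  obtain ⟨a, ha⟩ := hrm
  set P : Polynomial K := MvPolynomial.uniqueAlgEquiv K (Fin 1) r with hP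
  have hP0 : P ≠ 0 := by
    rw [hP]
    intro hh
    exact hr ((MvPolynomial.uniqueAlgEquiv K (Fin 1)).injective (by rw [hh, map_zero]))
  refine ⟨(P.map (algebraMap K L)).roots.toFinset, fun x hx => ?_⟩
  rw [Multiset.mem_toFinset, Polynomial.mem_roots (Polynomial.map_ne_zero hP0), Polynomial.IsRoot.def,
    Polynomial.eval_map_algebraMap]
  have h2 : MvPolynomial.aeval x (e.symm (Polynomial.C r)) = 0 := by
    rw [← ha, map_sum, map_sum]
    refine Finset.sum_eq_zero fun i _ => ?_
    rw [map_mul, map_mul, AlgEquiv.symm_apply_apply, hx i, mul_zero]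
  have h3 : ∀ q : MvPolynomial (Fin 1) K, MvPolynomial.aeval x (e.symm (Polynomial.C q)) =
      Polynomial.aeval (x 1) (MvPolynomial.uniqueAlgEquiv K (Fin 1) q) := by
    intro q
    have h4 : ((MvPolynomial.aeval x).comp e.symm.toAlgHom).comp
        (IsScalarTower.toAlgHom K (MvPolynomial (Fin 1) K) (Polynomial (MvPolynomial (Fin 1) K))) =
        (Polynomial.aeval (x 1)).comp (MvPolynomial.uniqueAlgEquiv K (Fin 1)).toAlgHom := by
      apply MvPolynomial.algHom_ext
      intro i
      have hi : i = 0 := Subsingleton.elim _ _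
      subst hi
      have h5 : e.symm (Polynomial.C (MvPolynomial.X 0)) = MvPolynomial.X (0 : Fin 1).succ := by
        rw [AlgEquiv.symm_apply_eq, he, MvPolynomial.finSuccEquiv_X_succ]
      simp [h5]
    exact DFunLike.congr_fun h4 q
  rw [← h3, h2]

/-- The first coordinates of the common zeros form a finite set. -/
theorem fin0 {K : Type} [Field K] (F : Fin 3 → Pl K) (h : ∀ c : Pl K, (∀ i, c ∣ F i) → IsUnit c)
    (L : Type) [Field L] [Algebra K L] :
    ∃ S : Finset L, ∀ x : Fin 2 → L, (∀ i, MvPolynomial.aeval x (F i) = 0) → x 0 ∈ S := by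
  set e := MvPolynomial.renameEquiv K (Equiv.swap (0 : Fin 2) 1) with he
  obtain ⟨S, hS⟩ := fin1 (fun i => e (F i)) (by
    intro c hc
    have : IsUnit (e.symm c) := by
      refine h _ fun i => ?_
      have := map_dvd e.symm (hc i)
      rwa [AlgEquiv.symm_apply_apply] at this
    have := this.map e
    rwa [AlgEquiv.apply_symm_apply] at this) L
  refine ⟨S, fun x hx => ?_⟩
  have := hS (x ∘ Equiv.swap (0 : Fin 2) 1) (by
    intro i
    rw [he, MvPolynomial.renameEquiv_apply, MvPolynomial.aeval_rename, ← hx i]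
    congr 2
    ext j
    simp)
  simpa using this

end CZM

theorem stmtCZ : StmtCZ := by
  intro K _ F h L _ _
  obtain ⟨S0, h0⟩ := CZM.fin0 F h L
  obtain ⟨S1, h1⟩ := CZM.fin1 F h L
  refine ((S0 ×ˢ S1 : Finset (L × L)).finite_toSet.image (fun q : L × L => ![q.1, q.2])).subset ?_
  intro x hx
  refine ⟨(x 0, x 1), ?_, ?_⟩
  · rw [Finset.mem_coe, Finset.mem_product]
    exact ⟨h0 x hx, h1 x hx⟩
  · ext i
    fin_cases i <;> rfl

end Pool.Agent.Lib.MP_16285c_agZ
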