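import Pool.Agent.Lib.MP_16285c_agZ.Spec

/-!
# Finitely many totally invariant curves
-/

set_option autoImplicit false

namespace Pool.Agent.Lib.MP_16285c_agZ

namespace CanM

variable {K : Type} [Field K]

private theorem fr_inj : Function.Injective (fr (K := K)) :=
  IsFractionRing.injective (MvPolynomial (Fin 2) K) (FractionRing (MvPolynomial (Fin 2) K))

private theorem fr_ne {G : Pl K} (h : G ≠ 0) : fr G ≠ 0 := by
  intro h0
  exact h (fr_inj (h0.trans (map_zero _).symm))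

private theorem fr_const (c : K) : fr (MvPolynomial.C c) = algebraMap K (RF K) c := by
  rw [IsScalarTower.algebraMap_apply K (MvPolynomial (Fin 2) K) (RF K)]
  rfl

/-- Unique factorisation: exponents are not positive. -/
private theorem expo {m : ℕ} {P : Fin m → Pl K} (hP : ∀ i, Irreducible (P i))
    (hd : ∀ i j, P i ∣ P j → i = j) {e : Fin m → ℤ} {c : K}
    (h : ∏ i, fr (P i) ^ e i = algebraMap K (RF K) c) (j : Fin m) : ¬ 0 < e j := by
  intro hj
  have h1 : fr (∏ i, P i ^ (e i).toNat) = fr (MvPolynomial.C c * ∏ i, P i ^ (-e i).toNat) := by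
    have e1 : fr (∏ i, P i ^ (e i).toNat) = ∏ i, fr (P i) ^ (e i).toNat := by
      rw [fr, map_prod]
      exact Finset.prod_congr rfl fun i _ => map_pow _ _ _
    have e2 : fr (MvPolynomial.C c * ∏ i, P i ^ (-e i).toNat) =
        algebraMap K (RF K) c * ∏ i, fr (P i) ^ (-e i).toNat := by
      rw [fr, map_mul, map_prod, ← fr_const]
      congr 1
      exact Finset.prod_congr rfl fun i _ => map_pow _ _ _
    rw [e1, e2, ← h, ← Finset.prod_mul_distrib]
    refine Finset.prod_congr rfl fun i _ => ?_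
    rw [← zpow_natCast, ← zpow_natCast, ← zpow_add₀ (fr_ne (hP i).ne_zero)]
    congr 1
    omega
  have h2 := fr_inj h1
  have hc : c ≠ 0 := by
    rintro rfl
    rw [map_zero] at h
    exact Finset.prod_ne_zero_iff.2 (fun i _ => zpow_ne_zero _ (fr_ne (hP i).ne_zero)) h
  have h3 : P j ∣ MvPolynomial.C c * ∏ i, P i ^ (-e i).toNat := by
    rw [← h2]
    exact (dvd_pow_self _ (by omega)).trans (Finset.dvd_prod_of_mem _ (Finset.mem_univ j))
  have hp : Prime (P j) := (hP j).prime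
  rcases hp.dvd_or_dvd h3 with h4 | h4
  · exact hp.not_isUnit (isUnit_of_dvd_unit h4 ((IsUnit.mk0 c hc).map MvPolynomial.C))
  · obtain ⟨i, -, hi⟩ := (Prime.dvd_finsetProd_iff hp _).1 h4
    have h5 := hd j i (hp.dvd_of_dvd_pow hi)
    subst h5
    rw [show (-e j).toNat = 0 by omega, pow_zero] at hi
    exact hp.not_isUnit (isUnit_of_dvd_one hi)

/-- Many pairwise non-associated elements. -/
private theorem many {C : Pl K → Prop} (hC : ∀ P, C P → Irreducible P)
    (h : ∀ Γ : Pl K, Γ ≠ 0 → ∃ P, C P ∧ ¬ P ∣ Γ) (m : ℕ) :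
    ∃ P : Fin m → Pl K, (∀ i, C (P i)) ∧ ∀ i j, P i ∣ P j → i = j := by
  induction m with
  | zero => exact ⟨fun _ => 0, fun i => i.elim0, fun i => i.elim0⟩
  | succ m ih =>
    obtain ⟨P, h1, h2⟩ := ih
    obtain ⟨Q, h3, h4⟩ := h (∏ i, P i)
      (Finset.prod_ne_zero_iff.2 fun i _ => (hC _ (h1 i)).ne_zero)
    have h5 : ∀ i, ¬ Q ∣ P i := fun i hi =>
      h4 (hi.trans (Finset.dvd_prod_of_mem _ (Finset.mem_univ i)))
    refine ⟨Fin.cons Q P, fun i => ?_, fun i j => ?_⟩
    · refine Fin.cases h3 h1 i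
    · refine Fin.cases ?_ (fun i => ?_) i
      · refine Fin.cases (fun _ => rfl) (fun j hj => ?_) j
        exact absurd hj (h5 j)
      · refine Fin.cases (fun hj => ?_) (fun j hj => ?_) j
        · change P i ∣ Q at hj
          exact absurd (((hC _ (h1 i)).dvd_symm (hC _ h3)) hj) (h5 i)
        · rw [h2 i j hj]

end CanM

theorem stmtCan : StmtCanA → StmtCanB → StmtCan := by
  intro hA hB K _ ρ htp hNoI 𝓑 h𝓑
  obtain ⟨s, hs⟩ := hB K 𝓑 h𝓑
  by_contra hcon
  push Not at hcon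
  obtain ⟨P, hP, hd⟩ := CanM.many
    (C := fun P : Pl K => Irreducible P ∧ ∃ a b : Pl K, a ≠ 0 ∧ b ≠ 0 ∧
      fr b * ρ (fr P) = fr a * fr P ∧ ∀ Q : Pl K, Irreducible Q → (Q ∣ a ∨ Q ∣ b) → Q ∣ 𝓑)
    (fun P h => h.1) (fun Γ hΓ => by
      obtain ⟨P, a, b, h1, h2, h3, h4, h5, h6⟩ := hcon Γ hΓ
      exact ⟨P, ⟨h1, a, b, h2, h3, h4, h5⟩, h6⟩) ((s + 1) + (s + 1))
  choose hirr a b ha hb hab hQ using hP
  obtain ⟨n, hn, γ, hγ⟩ := hs ρ (fun i => P (Fin.castAdd _ i)) (fun i => a (Fin.castAdd _ i))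
    (fun i => b (Fin.castAdd _ i)) (fun i => (hirr _).ne_zero) (fun i => ha _) (fun i => hb _)
    (fun i => hab _) (fun i => hQ _)
  obtain ⟨n', hn', γ', hγ'⟩ := hs ρ (fun i => P (Fin.natAdd _ i)) (fun i => a (Fin.natAdd _ i))
    (fun i => b (Fin.natAdd _ i)) (fun i => (hirr _).ne_zero) (fun i => ha _) (fun i => hb _)
    (fun i => hab _) (fun i => hQ _)
  have hne : ∀ i, fr (P i) ≠ 0 := fun i => CanM.fr_ne (hirr i).ne_zero
  refine hA K ρ _ _ γ γ' htp hNoI (Finset.prod_ne_zero_iff.2 fun i _ => zpow_ne_zero _ (hne _))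
    (Finset.prod_ne_zero_iff.2 fun i _ => zpow_ne_zero _ (hne _)) hγ hγ' ?_
  rintro u v ⟨c, hc⟩
  have key : ∀ (e : Fin ((s + 1) + (s + 1)) → ℤ) (c : K),
      ∏ i, fr (P i) ^ e i = algebraMap K (RF K) c → ∀ i, e i = 0 := by
    intro e c he i
    have h1 := CanM.expo hirr hd he i
    have h2 : ∏ i, fr (P i) ^ (-e i) = algebraMap K (RF K) c⁻¹ := by
      rw [map_inv₀, ← he, ← Finset.prod_inv_distrib]
      exact Finset.prod_congr rfl fun i _ => zpow_neg _ _
    have h3 := CanM.expo hirr hd h2 i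
    omega
  have hz := key (Fin.append (fun i => n i * u) (fun i => n' i * v)) c (by
    rw [← hc, Fin.prod_univ_add, ← Finset.prod_zpow, ← Finset.prod_zpow]
    congr 1
    · refine Finset.prod_congr rfl fun i _ => ?_
      rw [Fin.append_left, zpow_mul]
    · refine Finset.prod_congr rfl fun i _ => ?_
      rw [Fin.append_right, zpow_mul])
  constructor
  · obtain ⟨i, hi⟩ := Function.ne_iff.1 hn
    have := hz (Fin.castAdd _ i)
    rw [Fin.append_left] at this
    exact (mul_eq_zero.1 this).resolve_left hi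
  · obtain ⟨i, hi⟩ := Function.ne_iff.1 hn'
    have := hz (Fin.natAdd _ i)
    rw [Fin.append_right] at this
    exact (mul_eq_zero.1 this).resolve_left hi

end Pool.Agent.Lib.MP_16285c_agZ
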