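import Pool.Agent.Lib.MP_16285c_agZ.TrRF

/-!
# MP_16285c: two semi-invariant functions (StmtCanA)
-/

set_option autoImplicit false

namespace Pool.Agent.Lib.MP_16285c_agZ.CanAM

open Pool.Agent.Lib.MP_16285c_agZ

variable {K : Type} [Field K]

/-- A subfield of finite index which is mapped onto itself forces the degree to be one. -/
theorem tp_one (ρ : RF K →ₐ[K] RF K) (L : IntermediateField K (RF K)) (hL : L.map ρ = L)
    (hfin : FiniteDimensional L (RF K)) : tp ρ = 1 := by
  have hle : L.map ρ ≤ ρ.fieldRange := by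
    rintro _ ⟨x, _, rfl⟩
    exact ⟨x, rfl⟩
  let E1 : IntermediateField (L.map ρ) (RF K) := IntermediateField.extendScalars hle
  let i : L ≃+* (L.map ρ) := (L.equivMap ρ).toRingEquiv
  let j : RF K ≃+* E1 := (AlgEquiv.ofInjectiveField ρ).toRingEquiv
  have hij : Module.finrank L (RF K) = Module.finrank (L.map ρ) E1 := by
    apply Algebra.finrank_eq_of_equiv_equiv i j
    ext x
    rfl
  have hmul : Module.finrank (L.map ρ) E1 * Module.finrank E1 (RF K) =
      Module.finrank (L.map ρ) (RF K) := Module.finrank_mul_finrank _ _ _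
  have h1 : Module.finrank E1 (RF K) = tp ρ := rfl
  have h2 : Module.finrank (L.map ρ) (RF K) = Module.finrank L (RF K) := by rw [hL]
  rw [h1, h2, ← hij] at hmul
  have hpos : 0 < Module.finrank L (RF K) := Module.finrank_pos
  exact Nat.eq_of_mul_eq_mul_left hpos (by rw [hmul, mul_one])

/-- The value of a monomial. -/
def mn {F : Type} [Field F] (r : Fin 2 → F) (α : Fin 2 →₀ ℕ) : F := ∏ i, r i ^ α i

theorem aeval_eq (r : Fin 2 → RF K) (Φ : Pl K) : MvPolynomial.aeval r Φ =
    ∑ α ∈ Φ.support, algebraMap K (RF K) (Φ.coeff α) * mn r α := by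
  rw [MvPolynomial.aeval_def, MvPolynomial.eval₂_eq']
  rfl

theorem mn_ne {F : Type} [Field F] (r : Fin 2 → F) (hr : ∀ i, r i ≠ 0) (α : Fin 2 →₀ ℕ) :
    mn r α ≠ 0 := Finset.prod_ne_zero_iff.2 fun i _ => pow_ne_zero _ (hr i)

/-- A relation with the smallest number of monomials. -/
theorem min_rel (r : Fin 2 → RF K) (h : ¬ AlgebraicIndependent K r) :
    ∃ Φ : Pl K, Φ ≠ 0 ∧ MvPolynomial.aeval r Φ = 0 ∧
      ∀ Ψ : Pl K, MvPolynomial.aeval r Ψ = 0 → Ψ.support.card < Φ.support.card → Ψ = 0 := by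
  classical
  have hex : ∃ n : ℕ, ∃ Φ : Pl K, Φ ≠ 0 ∧ MvPolynomial.aeval r Φ = 0 ∧ Φ.support.card = n := by
    rw [algebraicIndependent_iff] at h
    push Not at h
    obtain ⟨Φ, h1, h2⟩ := h
    exact ⟨_, Φ, h2, h1, rfl⟩
  obtain ⟨Φ, h1, h2, h3⟩ := Nat.find_spec hex
  refine ⟨Φ, h1, h2, ?_⟩
  intro Ψ hΨ hc
  by_contra hne
  rw [h3] at hc
  exact Nat.find_min hex hc ⟨Ψ, hne, hΨ, rfl⟩

/-- Case 2: a relation between the two functions. -/
theorem indep (ρ : RF K →ₐ[K] RF K) (r : Fin 2 → RF K) (g : Fin 2 → K) (hr : ∀ i, r i ≠ 0)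
    (hg : ∀ i, ρ (r i) = algebraMap K (RF K) (g i) * r i) (hno : NoI ρ)
    (hind : ∀ a b : ℤ, (∃ c : K, r 0 ^ a * r 1 ^ b = algebraMap K (RF K) c) → a = 0 ∧ b = 0) :
    AlgebraicIndependent K r := by
  classical
  by_contra hcon
  obtain ⟨Φ, hΦ0, hΦ, hmin⟩ := min_rel r hcon
  have hρi : Function.Injective ρ := ρ.toRingHom.injective
  have hg0 : ∀ i, g i ≠ 0 := by
    intro i h0
    have := hg i
    rw [h0, map_zero, zero_mul] at this
    exact hr i (hρi (by rw [this, map_zero]))
  have hρm : ∀ α, ρ (mn r α) = algebraMap K (RF K) (mn g α) * mn r α := by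
    intro α
    simp only [mn, map_prod, map_pow, hg, mul_pow, Finset.prod_mul_distrib]
  obtain ⟨β, hβ⟩ : Φ.support.Nonempty := by
    rw [Finset.nonempty_iff_ne_empty, Ne, MvPolynomial.support_eq_empty]
    exact hΦ0
  -- the second monomial
  obtain ⟨α, hα, hαβ⟩ : ∃ α ∈ Φ.support, α ≠ β := by
    by_contra hno2
    push Not at hno2
    have hs : Φ.support = {β} := by
      apply Finset.eq_singleton_iff_unique_mem.2
      exact ⟨hβ, hno2⟩
    rw [aeval_eq, hs, Finset.sum_singleton] at hΦ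
    rcases mul_eq_zero.1 hΦ with h | h
    · rw [FaithfulSMul.algebraMap_eq_zero_iff] at h
      exact (MvPolynomial.mem_support_iff.1 hβ) h
    · exact mn_ne r hr β h
  set Θ : Pl K := ∑ α ∈ Φ.support, MvPolynomial.monomial α (Φ.coeff α * (mn g α - mn g β)) with hΘ
  have hcoeff : ∀ δ, Θ.coeff δ = Φ.coeff δ * (mn g δ - mn g β) := by
    intro δ
    rw [hΘ, MvPolynomial.coeff_sum]
    simp only [MvPolynomial.coeff_monomial]
    rw [Finset.sum_ite_eq']
    split_ifs with h
    · rfl
    · rw [MvPolynomial.notMem_support_iff.1 h, zero_mul]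
  have hsub : Θ.support ⊆ Φ.support.erase β := by
    intro δ hδ
    rw [MvPolynomial.mem_support_iff, hcoeff] at hδ
    rw [Finset.mem_erase, MvPolynomial.mem_support_iff]
    refine ⟨?_, left_ne_zero_of_mul hδ⟩
    rintro rfl
    apply hδ
    rw [sub_self, mul_zero]
  have hΘv : MvPolynomial.aeval r Θ = 0 := by
    have e1 : MvPolynomial.aeval r Θ = ρ (MvPolynomial.aeval r Φ) -
        algebraMap K (RF K) (mn g β) * MvPolynomial.aeval r Φ := by
      rw [aeval_eq r Φ, hΘ, map_sum, map_sum, Finset.mul_sum, ← Finset.sum_sub_distrib]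
      apply Finset.sum_congr rfl
      intro δ _
      rw [map_mul ρ, AlgHom.commutes, hρm, MvPolynomial.aeval_monomial]
      rw [map_mul (algebraMap K (RF K)), map_sub (algebraMap K (RF K))]
      have : (δ.prod fun i k => r i ^ k) = mn r δ := by
        rw [mn, Finsupp.prod_fintype]
        intro i
        exact pow_zero _
      rw [this]
      ring
    rw [e1, hΦ, map_zero, mul_zero, sub_zero]
  have hΘ0 : Θ = 0 := by
    apply hmin Θ hΘv
    calc Θ.support.card ≤ (Φ.support.erase β).card := Finset.card_le_card hsub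
      _ < Φ.support.card := Finset.card_erase_lt_of_mem hβ
  have hgg : mn g α = mn g β := by
    have := hcoeff α
    rw [hΘ0, MvPolynomial.coeff_zero] at this
    have h2 := (mul_eq_zero.1 this.symm).resolve_left (MvPolynomial.mem_support_iff.1 hα)
    exact sub_eq_zero.1 h2
  -- the invariant function
  have hinv : ρ (mn r α / mn r β) = mn r α / mn r β := by
    rw [map_div₀, hρm, hρm, hgg]
    have h1 : algebraMap K (RF K) (mn g β) ≠ 0 := by
      rw [Ne, FaithfulSMul.algebraMap_eq_zero_iff]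
      exact mn_ne g hg0 β
    rw [mul_div_mul_left _ _ h1]
  obtain ⟨c, hc⟩ := hno _ hinv
  have hz : mn r α / mn r β = r 0 ^ ((α 0 : ℤ) - β 0) * r 1 ^ ((α 1 : ℤ) - β 1) := by
    rw [zpow_sub₀ (hr 0), zpow_sub₀ (hr 1), mn, mn, Fin.prod_univ_two, Fin.prod_univ_two]
    simp only [zpow_natCast]
    rw [div_mul_div_comm]
  obtain ⟨h1, h2⟩ := hind _ _ ⟨c, by rw [← hz, hc]⟩
  apply hαβ
  ext i
  fin_cases i
  · simp only [Fin.zero_eta]
    omega
  · simp only [Fin.mk_one]
    omega

end Pool.Agent.Lib.MP_16285c_agZ.CanAM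

namespace Pool.Agent.Lib.MP_16285c_agZ

open CanAM

theorem stmtCanA : StmtCanA := by
  intro K _ ρ R R' γ γ' htp hno hR hR' hγ hγ' hind
  have hr : ∀ i, (![R, R'] : Fin 2 → RF K) i ≠ 0 := by
    intro i
    fin_cases i
    · exact hR
    · exact hR'
  have hg : ∀ i, ρ ((![R, R'] : Fin 2 → RF K) i) =
      algebraMap K (RF K) ((![γ, γ'] : Fin 2 → K) i) * (![R, R'] : Fin 2 → RF K) i := by
    intro i
    fin_cases i
    · exact hγ
    · exact hγ'
  have hai := indep ρ ![R, R'] ![γ, γ'] hr hg hno hind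
  have hfin := TrM.finite_pair _ hai
  have hρi : Function.Injective ρ := ρ.toRingHom.injective
  have hγ0 : ∀ i, (![γ, γ'] : Fin 2 → K) i ≠ 0 := by
    intro i h0
    have := hg i
    rw [h0, map_zero, zero_mul] at this
    exact hr i (hρi (by rw [this, map_zero]))
  have hmap : (IntermediateField.adjoin K (Set.range (![R, R'] : Fin 2 → RF K))).map ρ =
      IntermediateField.adjoin K (Set.range (![R, R'] : Fin 2 → RF K)) := by
    rw [IntermediateField.adjoin_map]
    apply le_antisymm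
    · rw [IntermediateField.adjoin_le_iff]
      rintro _ ⟨_, ⟨i, rfl⟩, rfl⟩
      rw [hg i]
      exact IntermediateField.mul_mem _ (IntermediateField.algebraMap_mem _ _)
        (IntermediateField.subset_adjoin K _ ⟨i, rfl⟩)
    · rw [IntermediateField.adjoin_le_iff]
      rintro _ ⟨i, rfl⟩
      have h1 : (![R, R'] : Fin 2 → RF K) i = algebraMap K (RF K) ((![γ, γ'] : Fin 2 → K) i)⁻¹ *
          ρ ((![R, R'] : Fin 2 → RF K) i) := by
        rw [hg i, ← mul_assoc, ← map_mul, inv_mul_cancel₀ (hγ0 i), map_one, one_mul]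
      rw [h1]
      exact IntermediateField.mul_mem _ (IntermediateField.algebraMap_mem _ _)
        (IntermediateField.subset_adjoin K _ ⟨_, ⟨i, rfl⟩, rfl⟩)
  have h1 := tp_one ρ _ hmap hfin
  omega

end Pool.Agent.Lib.MP_16285c_agZ
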