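import Pool.Agent.Lib.MP_16285c_agZ.Spec

/-!
# Polynomials in the coordinates given by three linear forms (R8)
-/

set_option autoImplicit false

namespace Pool.Agent.Lib.MP_16285c_agZ

namespace ChartM

/-- The coordinates are combinations of the linear forms. -/
theorem inv3 {K : Type} [Field K] (l l' l'' : Fin 3 → K)
    (h : LinearIndependent K ![l, l', l'']) :
    ∃ u v w : Fin 3 → K, ∀ (L : Type) [Field L] [Algebra K L] (b : Fin 3 → L) (i : Fin 3),
      b i = u i • (∑ j, l j • b j) + v i • (∑ j, l' j • b j) + w i • ∑ j, l'' j • b j := by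
  set M : Matrix (Fin 3) (Fin 3) K := Matrix.of ![l, l', l''] with hM
  have hU : IsUnit M := Matrix.linearIndependent_rows_iff_isUnit.1 h
  have hN : M⁻¹ * M = 1 := Matrix.nonsing_inv_mul _ ((Matrix.isUnit_iff_isUnit_det _).1 hU)
  refine ⟨fun i => M⁻¹ i 0, fun i => M⁻¹ i 1, fun i => M⁻¹ i 2, fun L _ _ b i => ?_⟩
  have h1 : ∀ j, M⁻¹ i 0 * l j + M⁻¹ i 1 * l' j + M⁻¹ i 2 * l'' j =
      (1 : Matrix (Fin 3) (Fin 3) K) i j := by
    intro j
    rw [← hN, Matrix.mul_apply, Fin.sum_univ_three]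
    rfl
  simp only [Finset.smul_sum, smul_smul]
  rw [← Finset.sum_add_distrib, ← Finset.sum_add_distrib]
  simp only [← add_smul, h1]
  rw [Finset.sum_eq_single i]
  · rw [Matrix.one_apply_eq, one_smul]
  · intro j _ hj
    rw [Matrix.one_apply_ne (Ne.symm hj), zero_smul]
  · intro hi
    exact absurd (Finset.mem_univ i) hi

open Polynomial in
/-- The generic linear factor. -/
noncomputable def lin {K : Type} [Field K] (u v w : K) : Polynomial (Polynomial K) :=
  C (C u * X + C v) + C (C w) * X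

open Polynomial in
theorem lin_deg {K : Type} [Field K] (u v w : K) : (lin u v w).natDegree ≤ 1 := by
  refine (natDegree_add_le _ _).trans (max_le ?_ ?_)
  · rw [natDegree_C]
    exact Nat.zero_le _
  · exact (natDegree_C_mul_le _ _).trans natDegree_X_le

open Polynomial in
theorem lin_eval {K L : Type} [Field K] [Field L] [Algebra K L] (u v w : K) (t η : L) :
    (lin u v w).eval₂ (aeval t : K[X] →ₐ[K] L).toRingHom η = u • t + v • 1 + w • η := by
  simp [lin, Algebra.smul_def]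

end ChartM

open ChartM Polynomial in
theorem stmtChart : StmtChart := by
  classical
  intro K _ l l' l'' h d G hG
  obtain ⟨u, v, w, huvw⟩ := inv3 l l' l'' h
  set Q : Polynomial (Polynomial K) := ∑ m ∈ G.support, C (C (G.coeff m)) *
    (lin (u 0) (v 0) (w 0) ^ (d - (m 0 + m 1)) * (lin (u 1) (v 1) (w 1) ^ m 0 *
      lin (u 2) (v 2) (w 2) ^ m 1)) with hQ
  have hm : ∀ m ∈ G.support, m 0 + m 1 ≤ d := by
    intro m hm
    have h := (MvPolynomial.le_totalDegree hm).trans hG
    rw [Finsupp.sum_fintype _ _ (fun i => rfl), Fin.sum_univ_two] at h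
    exact h
  have hdeg : Q.natDegree ≤ d := by
    refine natDegree_sum_le_of_forall_le _ _ fun m hm' => ?_
    have h1 := hm m hm'
    have e1 : ∀ (a b c : K) (n : ℕ), (lin a b c ^ n).natDegree ≤ n := fun a b c n => by
      have := natDegree_pow_le_of_le n (lin_deg a b c)
      rwa [mul_one] at this
    refine (natDegree_C_mul_le _ _).trans (natDegree_mul_le.trans ?_)
    have e2 := e1 (u 0) (v 0) (w 0) (d - (m 0 + m 1))
    have e3 : (lin (u 1) (v 1) (w 1) ^ m 0 * lin (u 2) (v 2) (w 2) ^ m 1).natDegree ≤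
        m 0 + m 1 := natDegree_mul_le.trans (add_le_add (e1 _ _ _ _) (e1 _ _ _ _))
    omega
  refine ⟨fun s => Q.coeff s, fun L _ _ a hD => ?_⟩
  set D := ∑ i, l' i • hc a i with hDd
  set t := (∑ i, l i • hc a i) / D with ht
  set η := (∑ i, l'' i • hc a i) / D with hη
  have hlin : ∀ i, hc a i = D * (u i • t + v i • 1 + w i • η) := by
    intro i
    rw [huvw L (hc a) i, ← hDd, ht, hη]
    simp only [Algebra.smul_def]
    field_simp
  have hsum : ∑ s ∈ Finset.range (d + 1), Polynomial.aeval t (Q.coeff s) * η ^ s =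
      Q.eval₂ (aeval t : K[X] →ₐ[K] L).toRingHom η :=
    (eval₂_eq_sum_range' _ (Nat.lt_succ_of_le hdeg) η).symm
  have h0 : hc a 0 = 1 := rfl
  have h1 : hc a 1 = a 0 := rfl
  have h2 : hc a 2 = a 1 := rfl
  rw [hsum, hQ, eval₂_finsetSum, Finset.mul_sum, MvPolynomial.aeval_def,
    MvPolynomial.eval₂_eq']
  refine Finset.sum_congr rfl fun m hm' => ?_
  have hle := hm m hm'
  rw [eval₂_mul, eval₂_mul, eval₂_mul, eval₂_pow, eval₂_pow, eval₂_pow, lin_eval, lin_eval,
    lin_eval, eval₂_C, Fin.prod_univ_two]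
  have e0 : (aeval t : K[X] →ₐ[K] L).toRingHom (C (G.coeff m)) = algebraMap K L (G.coeff m) :=
    aeval_C _ _
  rw [e0, ← h1, ← h2, hlin 1, hlin 2]
  have e4 : D * (u 0 • t + v 0 • 1 + w 0 • η) = 1 := by rw [← hlin 0, h0]
  have e5 : D ^ d = D ^ (d - (m 0 + m 1)) * (D ^ m 0 * D ^ m 1) := by
    rw [← pow_add, ← pow_add]
    congr 1
    omega
  have e6 : D ^ (d - (m 0 + m 1)) * (u 0 • t + v 0 • 1 + w 0 • η) ^ (d - (m 0 + m 1)) = 1 := by
    rw [← mul_pow, e4, one_pow]
  rw [e5, mul_pow, mul_pow]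
  linear_combination (-(algebraMap K L (G.coeff m) * (D ^ m 0 * D ^ m 1) *
    ((u 1 • t + v 1 • 1 + w 1 • η) ^ m 0 * (u 2 • t + v 2 • 1 + w 2 • η) ^ m 1))) * e6

end Pool.Agent.Lib.MP_16285c_agZ
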