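import Pool.Agent.Lib.MP_16285c_agZ.Spec

/-!
# Theorem Z: the dimension of the spaces `Rj` (R2)
-/

set_option autoImplicit false

namespace Pool.Agent.Lib.MP_16285c_agZ

open Pool.Agent.Lib.MP_16285c_ag

namespace DimM

open MvPolynomial

theorem card_exp (d : ℕ) :
    2 * Nat.card {n : Fin 2 →₀ ℕ | (n.sum fun _ e => e) ≤ d} = (d + 1) * (d + 2) := by
  classical
  let e : (Fin 2 →₀ ℕ) ≃ ℕ × ℕ := Finsupp.equivFunOnFinite.trans (finTwoArrowEquiv ℕ)
  let T : Finset (ℕ × ℕ) := (Finset.range (d + 1)).biUnion Finset.HasAntidiagonal.antidiagonal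
  have hT : ∀ p : ℕ × ℕ, p ∈ T ↔ p.1 + p.2 ≤ d := by
    intro p
    simp only [T, Finset.mem_biUnion, Finset.mem_range, Finset.HasAntidiagonal.mem_antidiagonal]
    constructor
    · rintro ⟨a, ha, h⟩
      omega
    · intro h
      exact ⟨p.1 + p.2, by omega, rfl⟩
  have h1 : Nat.card {n : Fin 2 →₀ ℕ | (n.sum fun _ e => e) ≤ d} = Nat.card {p // p ∈ T} := by
    refine Nat.card_congr (e.subtypeEquiv fun n => ?_)
    rw [hT]
    have h2 : (n.sum fun _ e => e) = n 0 + n 1 := by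
      rw [Finsupp.sum_fintype _ _ (fun _ => rfl), Fin.sum_univ_two]
    change (n.sum fun _ e => e) ≤ d ↔ _
    rw [h2]
    rfl
  rw [h1, Nat.card_eq_fintype_card, Fintype.card_coe]
  have h3 : T.card = ∑ k ∈ Finset.range (d + 1), (k + 1) := by
    rw [Finset.card_biUnion]
    · exact Finset.sum_congr rfl fun k _ => Finset.Nat.card_antidiagonal k
    · intro a _ b _ hab
      refine Finset.disjoint_left.2 ?_
      intro p hp hq
      rw [Finset.HasAntidiagonal.mem_antidiagonal] at hp hq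
      exact hab (hp.symm.trans hq)
  rw [h3]
  have h4 : ∀ m : ℕ, 2 * ∑ k ∈ Finset.range (m + 1), (k + 1) = (m + 1) * (m + 2) := by
    intro m
    induction m with
    | zero => simp
    | succ m ih =>
      rw [Finset.sum_range_succ, mul_add, ih]
      ring
  exact h4 d

variable {K : Type} [Field K]

theorem finrank_rd (d : ℕ) :
    2 * Module.finrank K (restrictTotalDegree (Fin 2) K d) = (d + 1) * (d + 2) := by
  have h := Module.finrank_eq_nat_card_basis
    (basisRestrictSupport K {n : Fin 2 →₀ ℕ | (n.sum fun _ e => e) ≤ d})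
  have h2 : Module.finrank K (restrictTotalDegree (Fin 2) K d)
      = Nat.card {n : Fin 2 →₀ ℕ | (n.sum fun _ e => e) ≤ d} := h
  rw [h2]
  exact card_exp d

theorem finrank_map (f : Pl K) (hf : f ≠ 0) (W : Submodule K (Pl K)) :
    Module.finrank K (W.map (LinearMap.mulLeft K f)) = Module.finrank K W := by
  have hinj : Function.Injective (LinearMap.mulLeft K f) := by
    intro a b h
    simpa [hf] using h
  exact (Submodule.equivMapOfInjective _ hinj _).finrank_eq.symm

theorem growth (D p : ℕ) (h : D ≤ p) :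
    Module.finrank K (restrictTotalDegree (Fin 2) K (p - D)) + D * p ≤
      Module.finrank K (restrictTotalDegree (Fin 2) K p) + D ^ 2 := by
  have h1 := finrank_rd (K := K) p
  have h2 := finrank_rd (K := K) (p - D)
  obtain ⟨q, rfl⟩ := Nat.exists_eq_add_of_le h
  rw [Nat.add_sub_cancel_left] at h2 ⊢
  nlinarith [h1, h2]

/-- The spaces are finite-dimensional. -/
theorem fin_Rj (ζ ζ' : Pl K) (p j : ℕ) : Module.Finite K (Rj ζ ζ' p j) := by
  have h1 : Rj ζ ζ' p j ≤ restrictTotalDegree (Fin 2) K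
      (p + j * ζ.totalDegree + j * ζ'.totalDegree) := by
    refine Submodule.span_le.2 ?_
    rintro _ ⟨g, s, hg, hs, rfl⟩
    rw [SetLike.mem_coe, mem_restrictTotalDegree]
    refine (totalDegree_mul _ _).trans (add_le_add ((totalDegree_mul _ _).trans
      (add_le_add hg ?_)) ?_)
    · exact (totalDegree_pow _ _).trans (Nat.mul_le_mul_right _ (Nat.sub_le _ _))
    · exact (totalDegree_pow _ _).trans (Nat.mul_le_mul_right _ hs)
  have h2 : Module.Finite K (restrictTotalDegree (Fin 2) K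
      (p + j * ζ.totalDegree + j * ζ'.totalDegree)) := inferInstance
  exact Submodule.finiteDimensional_of_le h1

theorem Rj_zero (ζ ζ' : Pl K) (p : ℕ) :
    restrictTotalDegree (Fin 2) K p ≤ Rj ζ ζ' p 0 := by
  intro g hg
  rw [mem_restrictTotalDegree] at hg
  exact Submodule.subset_span ⟨g, 0, hg, le_rfl, by simp⟩

theorem Rj_succ (ζ ζ' : Pl K) (p j : ℕ) :
    (Rj ζ ζ' p j).map (LinearMap.mulLeft K ζ) ⊔
      (restrictTotalDegree (Fin 2) K p).map (LinearMap.mulLeft K (ζ' ^ (j + 1))) ≤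
      Rj ζ ζ' p (j + 1) := by
  refine sup_le ?_ ?_
  · rw [Submodule.map_le_iff_le_comap]
    refine Submodule.span_le.2 ?_
    rintro _ ⟨g, s, hg, hs, rfl⟩
    refine Submodule.subset_span ⟨g, s, hg, Nat.le_succ_of_le hs, ?_⟩
    rw [LinearMap.mulLeft_apply, Nat.succ_sub hs, pow_succ]
    ring
  · rw [Submodule.map_le_iff_le_comap]
    intro g hg
    rw [mem_restrictTotalDegree] at hg
    refine Submodule.subset_span ⟨g, j + 1, hg, le_rfl, ?_⟩
    rw [LinearMap.mulLeft_apply, Nat.sub_self, pow_zero]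
    ring

theorem inf_le (ζ ζ' : Pl K) (hζ : ζ ≠ 0) (h : IsRelPrime ζ ζ') (p j : ℕ)
    (hp : ζ.totalDegree ≤ p) (W : Submodule K (Pl K)) :
    W.map (LinearMap.mulLeft K ζ) ⊓
      (restrictTotalDegree (Fin 2) K p).map (LinearMap.mulLeft K (ζ' ^ (j + 1))) ≤
      (restrictTotalDegree (Fin 2) K (p - ζ.totalDegree)).map
        (LinearMap.mulLeft K (ζ * ζ' ^ (j + 1))) := by
  intro x hx
  obtain ⟨hxA, hxB⟩ := Submodule.mem_inf.1 hx
  obtain ⟨a, ha, rfl⟩ := Submodule.mem_map.1 hxA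
  obtain ⟨b, hb, hab⟩ := Submodule.mem_map.1 hxB
  simp only [LinearMap.mulLeft_apply] at hab
  have h1 : ζ ∣ ζ' ^ (j + 1) * b := ⟨a, hab⟩
  have h2 : ζ ∣ b := (h.pow_right).dvd_of_dvd_mul_left h1
  obtain ⟨c, rfl⟩ := h2
  refine Submodule.mem_map.2 ⟨c, ?_, ?_⟩
  · rw [mem_restrictTotalDegree] at hb ⊢
    by_cases hc : c = 0
    · rw [hc, totalDegree_zero]
      exact Nat.zero_le _
    · rw [totalDegree_mul_of_isDomain hζ hc] at hb
      omega
  · rw [LinearMap.mulLeft_apply, LinearMap.mulLeft_apply, ← hab]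
    ring

theorem arith {a b c d e f g h : ℕ} (h1 : e ≤ c) (h2 : f ≤ h) (h3 : e + f = a + g)
    (h4 : h + b ≤ g + d) : a + b ≤ c + d := by omega

theorem arith0 {a b c d e : ℕ} (h1 : a ≤ b) (h2 : c + d ≤ a + e) : d ≤ b + e := by omega

theorem step (ζ ζ' : Pl K) (hζ : ζ ≠ 0) (hζ' : ζ' ≠ 0) (h : IsRelPrime ζ ζ') (p j : ℕ)
    (hp : ζ.totalDegree ≤ p) :
    Module.finrank K (Rj ζ ζ' p j) + ζ.totalDegree * p ≤
      Module.finrank K (Rj ζ ζ' p (j + 1)) + ζ.totalDegree ^ 2 := by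
  have f1 : Module.Finite K (Rj ζ ζ' p j) := fin_Rj ζ ζ' p j
  have f2 : Module.Finite K (Rj ζ ζ' p (j + 1)) := fin_Rj ζ ζ' p (j + 1)
  have h1 := Submodule.finrank_mono (Rj_succ ζ ζ' p j)
  have h2 := Submodule.finrank_mono (inf_le ζ ζ' hζ h p j hp (Rj ζ ζ' p j))
  have h3 := Submodule.finrank_sup_add_finrank_inf_eq ((Rj ζ ζ' p j).map (LinearMap.mulLeft K ζ))
    ((restrictTotalDegree (Fin 2) K p).map (LinearMap.mulLeft K (ζ' ^ (j + 1))))
  rw [finrank_map _ hζ, finrank_map _ (pow_ne_zero _ hζ')] at h3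
  rw [finrank_map _ (mul_ne_zero hζ (pow_ne_zero _ hζ'))] at h2
  exact arith h1 h2 h3 (growth (K := K) ζ.totalDegree p hp)

end DimM

open DimM MvPolynomial

theorem stmtDim : StmtDim := by
  intro K _ ζ ζ' D h hD p j
  refine ⟨fin_Rj ζ ζ' p j, ?_⟩
  subst hD
  by_cases h0 : ζ.totalDegree = 0
  · rw [h0]
    simp
  by_cases hp : ζ.totalDegree ≤ p
  · have hζ : ζ ≠ 0 := by
      rintro rfl
      exact h0 totalDegree_zero
    have hζ' : ζ' ≠ 0 := by
      rintro rfl
      have h1 : IsUnit ζ := h dvd_rfl (dvd_zero ζ)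
      obtain ⟨c, _, hc⟩ := MvPolynomial.isUnit_iff_eq_C_of_isReduced.1 h1
      exact h0 (by rw [hc, totalDegree_C])
    induction j with
    | zero =>
      have f1 : Module.Finite K (Rj ζ ζ' p 0) := fin_Rj ζ ζ' p 0
      have h1 := Submodule.finrank_mono (Rj_zero ζ ζ' p)
      rw [zero_add, one_mul, one_mul]
      exact arith0 h1 (growth (K := K) ζ.totalDegree p hp)
    | succ j ih =>
      have h1 := step ζ ζ' hζ hζ' h p j hp
      have e1 : (j + 1 + 1) * ζ.totalDegree * p = (j + 1) * ζ.totalDegree * p +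
          ζ.totalDegree * p := by ring
      have e2 : (j + 1 + 1) * ζ.totalDegree ^ 2 = (j + 1) * ζ.totalDegree ^ 2 +
          ζ.totalDegree ^ 2 := by ring
      rw [e1, e2]
      omega
  · have h1 : (j + 1) * ζ.totalDegree * p ≤ (j + 1) * ζ.totalDegree * ζ.totalDegree :=
      Nat.mul_le_mul_left _ (by omega)
    have h2 : (j + 1) * ζ.totalDegree * ζ.totalDegree = (j + 1) * ζ.totalDegree ^ 2 := by ring
    omega

end Pool.Agent.Lib.MP_16285c_agZ
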