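import Pool.Agent.Lib.MP_16285c_agZ.Spec2
import Pool.Agent.Lib.MP_16285c_agZ.KLV.Spec

/-!
# Orbits which meet themselves are finite
-/

set_option autoImplicit false

namespace Pool.Agent.Lib.MP_16285c_agZ

open Pool.Agent.Lib.MP_16285c_ag

namespace FinOrbM

/-- The value of a rational map at a point is unique. -/
theorem val_unique (hV : SVal) {K : Type} [Field K] (ρ : RF K →ₐ[K] RF K) (x x' x'' : Fin 2 → K)
    (h1 : Val ρ x x') (h2 : Val ρ x x'') : x' = x'' := by
  obtain ⟨-, -, -, -, -, h6⟩ := hV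
  funext i
  obtain ⟨E, N, hE, hN, hv⟩ := h1 (MvPolynomial.X i)
  have h := h6 K ρ x x'' (MvPolynomial.X i) E N h2 hE hN
  rw [hv, MvPolynomial.eval_X, MvPolynomial.eval_X] at h
  exact mul_left_cancel₀ hE h

theorem shift (hV : SVal) {K : Type} [Field K] (σ : RF K →ₐ[K] RF K) (x : ℕ → Fin 2 → K)
    (hx : Flow σ x) (s t : ℕ) (hst : x s = x t) (n : ℕ) : x (s + n) = x (t + n) := by
  induction n with
  | zero => exact hst
  | succ n ih =>
    refine val_unique hV σ (x (s + n)) _ _ (hx (s + n)) ?_
    rw [ih]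
    exact hx (t + n)

end FinOrbM

/-- `StmtFinOrb`. -/
theorem stmtFinOrb : SVal → StmtFinOrb := by
  intro hV K _ σ x hx s t hlt hst
  have hsh := FinOrbM.shift hV σ x hx s t hst
  refine (((Finset.range t).finite_toSet).image x).subset ?_
  rintro _ ⟨n, rfl⟩
  induction n using Nat.strong_induction_on with
  | _ n ih =>
    by_cases hn : n < t
    · exact ⟨n, by simpa using hn, rfl⟩
    · have h1 : x n = x (s + (n - t)) := by
        rw [hsh (n - t)]
        congr 1
        omega
      rw [h1]
      exact ih (s + (n - t)) (by omega)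

end Pool.Agent.Lib.MP_16285c_agZ
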