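import Pool.Agent.Lib.MP_16285c_agZ.TrRF

/-!
# MP_16285c: the image of K(x,y) as a field over K(t) (StmtFldE)
-/

set_option autoImplicit false

namespace Pool.Agent.Lib.MP_16285c_agZ.FldEM

open Pool.Agent.Lib.MP_16285c_agZ

variable {K : Type} [Field K]

/-- The linear form with coefficients `v` as a rational function. -/
noncomputable def lf (v : Fin 3 → K) : RF K :=
  fr (∑ i, v i • hc (fun i => (MvPolynomial.X i : Pl K)) i)

theorem lf_eq (v : Fin 3 → K) : (∑ i, v i • hc (fun i => (MvPolynomial.X i : Pl K)) i) =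
    MvPolynomial.C (v 0) + MvPolynomial.C (v 1) * MvPolynomial.X 0 +
      MvPolynomial.C (v 2) * MvPolynomial.X 1 := by
  rw [Fin.sum_univ_three]
  simp only [hc, Fin.cons_zero, MvPolynomial.smul_eq_C_mul, mul_one]
  rfl

theorem lf_eq' (v : Fin 3 → K) : lf v = algebraMap K (RF K) (v 0) +
    algebraMap K (RF K) (v 1) * gen K 0 + algebraMap K (RF K) (v 2) * gen K 1 := by
  have hC : ∀ c : K, fr (MvPolynomial.C c : Pl K) = algebraMap K (RF K) c := by
    intro c
    rw [IsScalarTower.algebraMap_apply K (MvPolynomial (Fin 2) K) (RF K)]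
    rfl
  rw [lf, lf_eq, fr, map_add, map_add, map_mul, map_mul]
  have h0 := hC (v 0)
  have h1 := hC (v 1)
  have h2 := hC (v 2)
  simp only [fr] at h0 h1 h2
  rw [h0, h1, h2]
  rfl

theorem lf_ne (v : Fin 3 → K) (hv : v ≠ 0) : lf v ≠ 0 := by
  intro h
  have h1 : (∑ i, v i • hc (fun i => (MvPolynomial.X i : Pl K)) i) = 0 := by
    apply (TrM.fr_injective (K := K))
    simpa [lf] using h
  rw [lf_eq] at h1
  have e0 := congrArg (MvPolynomial.eval (![0, 0] : Fin 2 → K)) h1
  have e1 := congrArg (MvPolynomial.eval (![1, 0] : Fin 2 → K)) h1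
  have e2 := congrArg (MvPolynomial.eval (![0, 1] : Fin 2 → K)) h1
  simp at e0 e1 e2
  rw [e0] at e1 e2
  simp at e1 e2
  apply hv
  funext i
  fin_cases i
  · exact e0
  · exact e1
  · exact e2

/-- Every linear form is a combination of three independent ones. -/
theorem lf_comb (l l' l'' : Fin 3 → K) (h : LinearIndependent K ![l, l', l'']) (v : Fin 3 → K) :
    ∃ c : Fin 3 → K, lf v = algebraMap K (RF K) (c 0) * lf l + algebraMap K (RF K) (c 1) * lf l' +
      algebraMap K (RF K) (c 2) * lf l'' := by
  have hcard : Fintype.card (Fin 3) = Module.finrank K (Fin 3 → K) := by simp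
  let b := basisOfLinearIndependentOfCardEqFinrank h hcard
  have hb : ∀ i, b i = ![l, l', l''] i := fun i => by
    simp [b, coe_basisOfLinearIndependentOfCardEqFinrank]
  refine ⟨fun i => b.repr v i, ?_⟩
  have hs := b.sum_repr v
  rw [Fin.sum_univ_three, hb 0, hb 1, hb 2] at hs
  have hs' : b.repr v 0 • l + b.repr v 1 • l' + b.repr v 2 • l'' = v := hs
  have g : ∀ i, v i = b.repr v 0 * l i + b.repr v 1 * l' i + b.repr v 2 * l'' i := by
    intro i
    have := congrFun hs' i
    simp only [Pi.add_apply, Pi.smul_apply, smul_eq_mul] at this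
    exact this.symm
  rw [lf_eq', lf_eq', lf_eq', lf_eq', g 0, g 1, g 2]
  simp only [map_add, map_mul]
  ring

/-- The quotients of the linear forms generate `K(x,y)`. -/
theorem adjoin_top (l l' l'' : Fin 3 → K) (h : LinearIndependent K ![l, l', l'']) :
    IntermediateField.adjoin K {lf l / lf l', lf l'' / lf l'} = ⊤ := by
  have hl' : lf l' ≠ 0 := by
    apply lf_ne
    have := h.ne_zero 1
    simpa using this
  set L := IntermediateField.adjoin K {lf l / lf l', lf l'' / lf l'} with hL
  have hu : lf l / lf l' ∈ L := IntermediateField.subset_adjoin K _ (by simp)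
  have hw : lf l'' / lf l' ∈ L := IntermediateField.subset_adjoin K _ (by simp)
  have hq : ∀ v, lf v / lf l' ∈ L := by
    intro v
    obtain ⟨c, hc⟩ := lf_comb l l' l'' h v
    have : lf v / lf l' = algebraMap K (RF K) (c 0) * (lf l / lf l') + algebraMap K (RF K) (c 1) +
        algebraMap K (RF K) (c 2) * (lf l'' / lf l') := by
      rw [hc]
      field_simp
    rw [this]
    exact L.add_mem (L.add_mem (L.mul_mem (L.algebraMap_mem _) hu) (L.algebraMap_mem _))
      (L.mul_mem (L.algebraMap_mem _) hw)
  have hone : lf (![1, 0, 0] : Fin 3 → K) = 1 := by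
    rw [lf_eq']
    simp
  have hl'm : lf l' ∈ L := by
    have := hq ![1, 0, 0]
    rw [hone] at this
    have h2 := L.inv_mem this
    simpa using h2
  have hall : ∀ v, lf v ∈ L := by
    intro v
    have := L.mul_mem (hq v) hl'm
    rwa [div_mul_cancel₀ _ hl'] at this
  apply TrM.eq_top_of_gen_mem
  intro i
  fin_cases i
  · have := hall ![0, 1, 0]
    rw [lf_eq'] at this
    simpa using this
  · have := hall ![0, 0, 1]
    rw [lf_eq'] at this
    simpa using this

end Pool.Agent.Lib.MP_16285c_agZ.FldEM

namespace Pool.Agent.Lib.MP_16285c_agZ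

open FldEM

theorem stmtFldE : StmtFldE := by
  intro K _ ρ l l' l'' hli htp t η ht hη κ hκ
  subst hκ
  have ht' : t = ρ (lf l / lf l') := by rw [ht, map_div₀]; rfl
  have hη' : η = ρ (lf l'' / lf l') := by rw [hη, map_div₀]; rfl
  have hrange : ρ.fieldRange = IntermediateField.adjoin K {t, η} := by
    rw [AlgHom.fieldRange_eq_map, ← adjoin_top l l' l'' hli, IntermediateField.adjoin_map, ht', hη',
      Set.image_pair]
  set κ := IntermediateField.adjoin K {t} with hκ
  have hres : (IntermediateField.adjoin κ {η}).restrictScalars K = ρ.fieldRange := by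
    rw [hrange, hκ, IntermediateField.adjoin_adjoin_left]
    rfl
  have hfr : Module.finrank (IntermediateField.adjoin κ {η}) (RF K) = tp ρ := by
    have h1 : Module.finrank (IntermediateField.adjoin κ {η}) (RF K) =
        Module.finrank ((IntermediateField.adjoin κ {η}).restrictScalars K) (RF K) := rfl
    rw [h1, hres]
    rfl
  have hfin : FiniteDimensional (IntermediateField.adjoin κ {η}) (RF K) :=
    Module.finite_of_finrank_pos (by rw [hfr]; exact htp)
  refine ⟨?_, hfin, hfr⟩
  intro halg
  have h1 : Algebra.IsAlgebraic κ (IntermediateField.adjoin κ {η}) := by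
    apply IntermediateField.isAlgebraic_adjoin
    intro x hx
    rw [Set.mem_singleton_iff] at hx
    rw [hx]
    exact halg.isIntegral
  have h2 : Algebra.IsAlgebraic (IntermediateField.adjoin κ {η}) (RF K) :=
    Algebra.IsAlgebraic.of_finite _ _
  have h3 : Algebra.IsAlgebraic κ (RF K) :=
    Algebra.IsAlgebraic.trans κ (IntermediateField.adjoin κ {η}) (RF K)
  exact TrM.not_alg_single t h3

end Pool.Agent.Lib.MP_16285c_agZ
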