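import Pool.Agent.Lib.MP_16285c_agZ.Spec

/-!
# The function field over the field of the pencil
-/

set_option autoImplicit false

namespace Pool.Agent.Lib.MP_16285c_agZ

open Pool.Agent.Lib.MP_16285c_ag

namespace FldXM

open MvPolynomial

/-- the monomial `x ^ a y ^ i` -/
noncomputable def mo (a i : ℕ) : Fin 2 →₀ ℕ := Finsupp.single 0 a + Finsupp.single 1 i

theorem mo_zero (a i : ℕ) : mo a i 0 = a := by
  simp [mo]

theorem mo_one (a i : ℕ) : mo a i 1 = i := by
  simp [mo]

theorem mo_eq (m : Fin 2 →₀ ℕ) : mo (m 0) (m 1) = m := by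
  ext j
  fin_cases j
  · exact mo_zero _ _
  · exact mo_one _ _

theorem poly_expand {K : Type} [Field K] (d : ℕ) (G : Pl K) (hG : G.totalDegree ≤ d) :
    G = ∑ i ∈ Finset.range (d + 1), ∑ a ∈ Finset.range (d - i + 1),
      monomial (mo a i) (G.coeff (mo a i)) := by
  classical
  ext m
  rw [coeff_sum]
  by_cases hm : m 0 + m 1 ≤ d
  · rw [Finset.sum_eq_single (m 1)]
    · rw [coeff_sum, Finset.sum_eq_single (m 0)]
      · rw [mo_eq, coeff_monomial, if_pos rfl]
      · intro a _ ha
        rw [coeff_monomial, if_neg]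
        intro h
        apply ha
        rw [← h, mo_zero]
      · intro h
        exact absurd (Finset.mem_range.2 (by omega)) h
    · intro i _ hi
      rw [coeff_sum]
      refine Finset.sum_eq_zero fun a _ => ?_
      rw [coeff_monomial, if_neg]
      intro h
      apply hi
      rw [← h, mo_one]
    · intro h
      exact absurd (Finset.mem_range.2 (by omega)) h
  · have h1 : G.coeff m = 0 := by
      apply coeff_eq_zero_of_totalDegree_lt
      have h2 : (∑ i ∈ m.support, m i) = m 0 + m 1 := by
        have h3 : (∑ i ∈ m.support, m i) = m.sum fun _ e => e := rfl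
        rw [h3, Finsupp.sum_fintype _ _ (fun _ => rfl), Fin.sum_univ_two]
      omega
    rw [h1]
    symm
    refine Finset.sum_eq_zero fun i hi => ?_
    rw [coeff_sum]
    refine Finset.sum_eq_zero fun a ha => ?_
    rw [coeff_monomial, if_neg]
    intro h
    apply hm
    rw [← h, mo_zero, mo_one]
    rw [Finset.mem_range] at hi ha
    omega

theorem fr_mono {K : Type} [Field K] (a i : ℕ) (c : K) :
    fr (monomial (mo a i) c) = algebraMap K (RF K) c * gen K 0 ^ a * gen K 1 ^ i := by
  have h : (monomial (mo a i) c : Pl K) = C c * X 0 ^ a * X 1 ^ i := by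
    rw [mo, monomial_add_single, ← C_mul_X_pow_eq_monomial]
  rw [h]
  have h1 : ∀ u v : Pl K, fr (u * v) = fr u * fr v := fun u v => map_mul _ u v
  have h2 : ∀ (u : Pl K) (n : ℕ), fr (u ^ n) = fr u ^ n := fun u n => map_pow _ u n
  rw [h1, h1, h2, h2]
  rfl

theorem expand {K : Type} [Field K] (d : ℕ) (G : Pl K) (hG : G.totalDegree ≤ d) :
    fr G = ∑ i ∈ Finset.range (d + 1), ∑ a ∈ Finset.range (d - i + 1),
      algebraMap K (RF K) (G.coeff (mo a i)) * gen K 0 ^ a * gen K 1 ^ i := by
  conv_lhs => rw [poly_expand d G hG]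
  have h : ∀ (s : Finset ℕ) (u : ℕ → Pl K), fr (∑ j ∈ s, u j) = ∑ j ∈ s, fr (u j) :=
    fun s u => map_sum _ u s
  rw [h]
  refine Finset.sum_congr rfl fun i _ => ?_
  rw [h]
  exact Finset.sum_congr rfl fun a _ => fr_mono a i _

theorem aeval_gen {K : Type} [Field K] (G : Pl K) : MvPolynomial.aeval (gen K) G = fr G := by
  have h : MvPolynomial.aeval (gen K) = IsScalarTower.toAlgHom K (Pl K) (RF K) := by
    apply MvPolynomial.algHom_ext
    intro i
    rw [MvPolynomial.aeval_X]
    rfl
  rw [h]
  rfl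

theorem fr_inj {K : Type} [Field K] : Function.Injective (fr : Pl K → RF K) :=
  IsFractionRing.injective (Pl K) (RF K)

theorem algInd {K : Type} [Field K] : AlgebraicIndependent K (gen K) := by
  intro a b h
  apply fr_inj
  rw [← aeval_gen, ← aeval_gen]
  exact h

/-- the coordinates generate -/
theorem mem_gen {K : Type} [Field K] (S : Subfield (RF K)) (hK : ∀ c : K, algebraMap K (RF K) c ∈ S)
    (hg : ∀ i, gen K i ∈ S) (z : RF K) : z ∈ S := by
  have h1 : ∀ G : Pl K, fr G ∈ S := by
    intro G
    induction G using MvPolynomial.induction_on with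
    | C c => exact hK c
    | add p q hp hq =>
      have h : fr (p + q) = fr p + fr q := map_add _ p q
      rw [h]
      exact add_mem hp hq
    | mul_X p i hp =>
      have h : fr (p * X i) = fr p * gen K i := map_mul _ p (X i)
      rw [h]
      exact mul_mem hp (hg i)
  obtain ⟨n, m, -, rfl⟩ := IsFractionRing.div_surjective (A := Pl K) z
  exact div_mem (h1 n) (h1 m)

/-- `E` is not algebraic over `K(t)`. -/
theorem not_alg {K : Type} [Field K] (t : RF K)
    (h : Algebra.IsAlgebraic (IntermediateField.adjoin K {t}) (RF K)) : False := by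
  rw [IntermediateField.isAlgebraic_adjoin_iff_top] at h
  have h1 : Algebra.trdeg K (RF K) ≤ Cardinal.mk ({t} : Set (RF K)) :=
    Algebra.IsAlgebraic.trdeg_le_cardinalMk K {t}
  have h2 : Cardinal.mk (Fin 2) ≤ Algebra.trdeg K (RF K) := algInd.cardinalMk_le_trdeg
  have h3 := h2.trans h1
  rw [Cardinal.mk_singleton, Cardinal.mk_fin] at h3
  have h4 : (2 : ℕ) ≤ 1 := by exact_mod_cast h3
  omega

end FldXM

open FldXM MvPolynomial in
/-- The function field over the field of the pencil. -/
theorem stmtFldX : StmtFldX := by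
  intro K _ d Λ Λ' hd hrp hΛ hΛ' hco κ hκ
  subst hκ
  set t : RF K := fr Λ / fr Λ' with ht
  have hΛ'0 : Λ' ≠ 0 := by
    rintro rfl
    exact hco (by simp)
  have hfr' : fr Λ' ≠ 0 := fun h => hΛ'0 (fr_inj (by rw [h]; exact (map_zero _).symm))
  have hrel : fr Λ = t * fr Λ' := by
    rw [ht, div_mul_cancel₀ _ hfr']
  -- `t` is not a constant
  have htK : ∀ c : K, t ≠ algebraMap K (RF K) c := by
    intro c hc
    have h1 : Λ = C c * Λ' := by
      apply fr_inj
      have h2 : fr (C c * Λ') = fr (C c) * fr Λ' := map_mul _ _ _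
      rw [h2, hrel, hc]
      rfl
    have h2 : IsUnit Λ' := hrp (Dvd.intro_left _ h1.symm) dvd_rfl
    have h3 : Λ'.totalDegree = 0 := by
      obtain ⟨u, hu⟩ := MvPolynomial.isUnit_iff_eq_C_of_isReduced.1 h2
      rw [hu.2]
      exact totalDegree_C u
    have h4 : Λ'.coeff (Finsupp.single 1 d) = 0 := by
      apply coeff_eq_zero_of_totalDegree_lt
      have h5 : (∑ i ∈ (Finsupp.single (1 : Fin 2) d).support, (Finsupp.single (1 : Fin 2) d) i) =
          d := by
        have h6 : (∑ i ∈ (Finsupp.single (1 : Fin 2) d).support, (Finsupp.single (1 : Fin 2) d) i) =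
            (Finsupp.single (1 : Fin 2) d).sum fun _ e => e := rfl
        rw [h6, Finsupp.sum_single_index rfl]
      omega
    exact hco h4
  set κ := IntermediateField.adjoin K {t} with hκ
  let tκ : κ := ⟨t, IntermediateField.mem_adjoin_simple_self K t⟩
  let γ : ℕ → ℕ → κ := fun a i =>
    algebraMap K κ (Λ.coeff (mo a i)) - tκ * algebraMap K κ (Λ'.coeff (mo a i))
  have hγ : ∀ a i, algebraMap κ (RF K) (γ a i) = algebraMap K (RF K) (Λ.coeff (mo a i)) -
      t * algebraMap K (RF K) (Λ'.coeff (mo a i)) := fun a i => rfl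
  have hmo : mo 0 d = Finsupp.single 1 d := by
    rw [mo, Finsupp.single_zero, zero_add]
  have hγ0 : γ 0 d ≠ 0 := by
    intro h
    have h1 := hγ 0 d
    rw [h, map_zero, hmo] at h1
    have h2 : algebraMap K (RF K) (Λ'.coeff (Finsupp.single 1 d)) ≠ 0 :=
      (map_ne_zero _).2 hco
    apply htK (Λ.coeff (Finsupp.single 1 d) / Λ'.coeff (Finsupp.single 1 d))
    rw [map_div₀, eq_div_iff h2]
    exact (sub_eq_zero.1 h1.symm).symm
  let P : ℕ → Polynomial κ := fun i =>
    ∑ a ∈ Finset.range (d - i + 1), Polynomial.C (γ a i) * Polynomial.X ^ a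
  have hP : ∀ i, Polynomial.aeval (gen K 0) (P i) =
      ∑ a ∈ Finset.range (d - i + 1), algebraMap κ (RF K) (γ a i) * gen K 0 ^ a := by
    intro i
    rw [map_sum]
    refine Finset.sum_congr rfl fun a _ => ?_
    rw [map_mul, Polynomial.aeval_C, map_pow, Polynomial.aeval_X]
  have hsum : ∑ i ∈ Finset.range (d + 1), Polynomial.aeval (gen K 0) (P i) * gen K 1 ^ i = 0 := by
    have h1 := expand d Λ hΛ.le
    have h2 := expand d Λ' hΛ'
    rw [hrel, h2, Finset.mul_sum] at h1
    rw [← sub_eq_zero, ← Finset.sum_sub_distrib] at h1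
    have h3 : ∑ i ∈ Finset.range (d + 1), Polynomial.aeval (gen K 0) (P i) * gen K 1 ^ i =
        -(∑ i ∈ Finset.range (d + 1), (t * ∑ a ∈ Finset.range (d - i + 1),
          algebraMap K (RF K) (Λ'.coeff (mo a i)) * gen K 0 ^ a * gen K 1 ^ i -
          ∑ a ∈ Finset.range (d - i + 1),
          algebraMap K (RF K) (Λ.coeff (mo a i)) * gen K 0 ^ a * gen K 1 ^ i)) := by
      rw [← Finset.sum_neg_distrib]
      refine Finset.sum_congr rfl fun i _ => ?_
      rw [hP, Finset.sum_mul, Finset.mul_sum, ← Finset.sum_sub_distrib, ← Finset.sum_neg_distrib]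
      refine Finset.sum_congr rfl fun a _ => ?_
      rw [hγ]
      ring
    rw [h3, h1, neg_zero]
  have hPd : Polynomial.aeval (gen K 0) (P d) = algebraMap κ (RF K) (γ 0 d) := by
    rw [hP, Nat.sub_self, zero_add, Finset.sum_range_one, pow_zero, mul_one]
  let c : ℕ → Polynomial κ := fun i => Polynomial.C (-(γ 0 d)⁻¹) * P i
  have hc : ∀ i < d, (c i).natDegree ≤ d - i := by
    intro i _
    refine (Polynomial.natDegree_C_mul_le _ _).trans ?_
    refine Polynomial.natDegree_sum_le_of_forall_le _ _ fun a ha => ?_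
    refine (Polynomial.natDegree_C_mul_X_pow_le _ _).trans ?_
    have := Finset.mem_range.1 ha
    omega
  have hy : gen K 1 ^ d = ∑ i ∈ Finset.range d, Polynomial.aeval (gen K 0) (c i) * gen K 1 ^ i := by
    rw [Finset.sum_range_succ, hPd] at hsum
    have hg0 : algebraMap κ (RF K) (γ 0 d) ≠ 0 := (map_ne_zero _).2 hγ0
    have h1 : ∑ i ∈ Finset.range d, Polynomial.aeval (gen K 0) (c i) * gen K 1 ^ i =
        -(algebraMap κ (RF K) (γ 0 d))⁻¹ *
          ∑ i ∈ Finset.range d, Polynomial.aeval (gen K 0) (P i) * gen K 1 ^ i := by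
      rw [Finset.mul_sum]
      refine Finset.sum_congr rfl fun i _ => ?_
      change Polynomial.aeval (gen K 0) (Polynomial.C (-(γ 0 d)⁻¹) * P i) * gen K 1 ^ i = _
      rw [map_mul, Polynomial.aeval_C, map_neg, map_inv₀]
      ring
    have h2 : ∑ i ∈ Finset.range d, Polynomial.aeval (gen K 0) (P i) * gen K 1 ^ i =
        -(algebraMap κ (RF K) (γ 0 d) * gen K 1 ^ d) := eq_neg_of_add_eq_zero_left hsum
    rw [h1, h2, neg_mul_neg, inv_mul_cancel_left₀ hg0]
  -- the field `κ(x)`
  let F := IntermediateField.adjoin κ {gen K 0}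
  let xF : F := IntermediateField.AdjoinSimple.gen κ (gen K 0)
  let b : ℕ → F := fun i => Polynomial.aeval xF (c i)
  have hb : ∀ i, algebraMap F (RF K) (b i) = Polynomial.aeval (gen K 0) (c i) := by
    intro i
    have h1 := Polynomial.aeval_algebraMap_apply (RF K) xF (c i)
    rw [← h1]
    rfl
  let Q : Polynomial F := ∑ i ∈ Finset.range d, Polynomial.C (b i) * Polynomial.X ^ i
  have hQ : Q.degree < (d : WithBot ℕ) := by
    rw [← Polynomial.mem_degreeLT]
    refine sum_mem fun i hi => ?_
    rw [Polynomial.mem_degreeLT]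
    refine lt_of_le_of_lt (Polynomial.degree_C_mul_X_pow_le _ _) ?_
    exact_mod_cast Finset.mem_range.1 hi
  have hmon : (Polynomial.X ^ d - Q : Polynomial F).Monic := by
    refine (Polynomial.monic_X_pow d).sub_of_left ?_
    rw [Polynomial.degree_X_pow]
    exact hQ
  have hdeg : (Polynomial.X ^ d - Q : Polynomial F).natDegree = d := by
    apply Polynomial.natDegree_eq_of_degree_eq_some
    rw [Polynomial.degree_sub_eq_left_of_degree_lt, Polynomial.degree_X_pow]
    rw [Polynomial.degree_X_pow]
    exact hQ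
  have hev : Polynomial.aeval (gen K 1) (Polynomial.X ^ d - Q : Polynomial F) = 0 := by
    rw [map_sub, map_pow, Polynomial.aeval_X, map_sum, hy, sub_eq_zero]
    refine Finset.sum_congr rfl fun i _ => ?_
    have h1 : Polynomial.aeval (gen K 1) (Polynomial.C (b i) * Polynomial.X ^ i) =
        algebraMap F (RF K) (b i) * gen K 1 ^ i := by
      rw [map_mul, Polynomial.aeval_C, map_pow, Polynomial.aeval_X]
    rw [h1, hb]
  have hint : IsIntegral F (gen K 1) := ⟨_, hmon, hev⟩
  have htop : IntermediateField.adjoin F {gen K 1} = ⊤ := by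
    rw [eq_top_iff]
    intro z _
    refine mem_gen (IntermediateField.adjoin F {gen K 1}).toSubfield ?_ ?_ z
    · intro a
      exact (IntermediateField.adjoin F {gen K 1}).algebraMap_mem (algebraMap K F a)
    · intro i
      fin_cases i
      · exact (IntermediateField.adjoin F {gen K 1}).algebraMap_mem xF
      · exact IntermediateField.mem_adjoin_simple_self F (gen K 1)
  have hfd : FiniteDimensional F (RF K) := by
    have h1 := IntermediateField.adjoin.finiteDimensional hint
    rw [htop] at h1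
    exact (IntermediateField.topEquiv (F := F) (E := RF K)).toLinearEquiv.finiteDimensional
  have hfr : Module.finrank F (RF K) ≤ d := by
    have h1 := IntermediateField.adjoin.finrank hint
    rw [htop, IntermediateField.finrank_top'] at h1
    rw [h1]
    have h2 := minpoly.min F (gen K 1) hmon hev
    have h3 := Polynomial.natDegree_le_natDegree h2
    omega
  refine ⟨?_, hfd, hfr, c, hc, hy⟩
  intro halg
  have h1 : Algebra.IsAlgebraic κ F :=
    IntermediateField.isAlgebraic_adjoin_simple halg.isIntegral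
  have h2 : Algebra.IsAlgebraic F (RF K) := Algebra.IsAlgebraic.of_finite F (RF K)
  have h3 : Algebra.IsAlgebraic κ (RF K) := Algebra.IsAlgebraic.trans κ F (RF K)
  exact not_alg t h3

end Pool.Agent.Lib.MP_16285c_agZ
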