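import Pool.Agent.Lib.MP_16285c_agZ.Spec

/-!
# Theorem Z: generic linear combinations (R1)
-/

set_option autoImplicit false

namespace Pool.Agent.Lib.MP_16285c_agZ

open Pool.Agent.Lib.MP_16285c_ag

namespace GenM

variable {K : Type} [Field K]

theorem complete (l : Fin 3 → K) (hl : l ≠ 0) :
    ∃ l₁ l₂ : Fin 3 → K, LinearIndependent K ![l, l₁, l₂] := by
  have h1 : LinearIndependent K (![l] : Fin 1 → Fin 3 → K) := by
    rw [linearIndependent_unique_iff]
    exact hl
  obtain ⟨x, hx⟩ := exists_linearIndependent_snoc_of_lt_finrank (n := 1) h1 (by simp)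
  obtain ⟨y, hy⟩ := exists_linearIndependent_snoc_of_lt_finrank (n := 2) hx (by simp)
  refine ⟨x, y, ?_⟩
  have he : (Fin.snoc (Fin.snoc (![l] : Fin 1 → Fin 3 → K) x : Fin 2 → Fin 3 → K) y :
      Fin 3 → Fin 3 → K) = ![l, x, y] := by
    funext i
    fin_cases i <;> rfl
  rw [← he]
  exact hy

theorem spans {l l₁ l₂ : Fin 3 → K} (h : LinearIndependent K ![l, l₁, l₂]) (e : Fin 3 → K) :
    ∃ a b c : K, e = a • l + b • l₁ + c • l₂ := by
  have h1 : Submodule.span K (Set.range ![l, l₁, l₂]) = ⊤ :=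
    h.span_eq_top_of_card_eq_finrank (by simp)
  have h2 : e ∈ Submodule.span K (Set.range ![l, l₁, l₂]) := by
    rw [h1]
    trivial
  rw [Submodule.mem_span_range_iff_exists_fun] at h2
  obtain ⟨c, hc⟩ := h2
  refine ⟨c 0, c 1, c 2, ?_⟩
  rw [← hc, Fin.sum_univ_three]
  rfl

/-- The linear combination. -/
noncomputable def lc (F : Fin 3 → Pl K) (l : Fin 3 → K) : Pl K := ∑ i, l i • F i

theorem lc_add (F : Fin 3 → Pl K) (l m : Fin 3 → K) : lc F (l + m) = lc F l + lc F m := by
  simp only [lc, Pi.add_apply, add_smul, Finset.sum_add_distrib]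

theorem lc_smul (F : Fin 3 → Pl K) (a : K) (l : Fin 3 → K) : lc F (a • l) = a • lc F l := by
  simp only [lc, Pi.smul_apply, smul_eq_mul, mul_smul, Finset.smul_sum]

theorem dvd_smul' {d g : Pl K} (a : K) (h : d ∣ g) : d ∣ a • g := by
  obtain ⟨c, rfl⟩ := h
  exact ⟨a • c, by rw [mul_smul_comm]⟩

theorem dvd_all {F : Fin 3 → Pl K} {l l₁ l₂ : Fin 3 → K} (h : LinearIndependent K ![l, l₁, l₂])
    {d : Pl K} (h0 : d ∣ lc F l) (h1 : d ∣ lc F l₁) (h2 : d ∣ lc F l₂) (i : Fin 3) : d ∣ F i := by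
  obtain ⟨a, b, c, he⟩ := spans h (Pi.single i 1)
  have h3 : F i = lc F (Pi.single i 1) := by
    rw [lc, Finset.sum_eq_single i]
    · rw [Pi.single_eq_same, one_smul]
    · intro j _ hj
      rw [Pi.single_eq_of_ne hj, zero_smul]
    · intro h'
      exact absurd (Finset.mem_univ i) h'
  rw [h3, he, lc_add, lc_add, lc_smul, lc_smul, lc_smul]
  exact dvd_add (dvd_add (dvd_smul' a h0) (dvd_smul' b h1)) (dvd_smul' c h2)

/-- The bad values of the parameter are finite in number. -/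
theorem bad_fin {F : Fin 3 → Pl K} (hF : ∀ c : Pl K, (∀ i, c ∣ F i) → IsUnit c)
    {l l₁ l₂ : Fin 3 → K} (h : LinearIndependent K ![l, l₁, l₂]) (hl : lc F l ≠ 0) :
    {u : K | ¬ IsRelPrime (lc F l) (lc F l₁ + u • lc F l₂)}.Finite := by
  classical
  have key : ∀ u : K, ¬ IsRelPrime (lc F l) (lc F l₁ + u • lc F l₂) →
      ∃ π ∈ UniqueFactorizationMonoid.factors (lc F l), Irreducible π ∧
        π ∣ lc F l₁ + u • lc F l₂ := by
    intro u hu
    unfold IsRelPrime at hu
    push Not at hu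
    obtain ⟨d, hd1, hd2, hd3⟩ := hu
    have hd0 : d ≠ 0 := fun h' => hl (by rw [h', zero_dvd_iff] at hd1; exact hd1)
    obtain ⟨π, hπ, hπd⟩ := WfDvdMonoid.exists_irreducible_factor hd3 hd0
    obtain ⟨q, hq, hqa⟩ := UniqueFactorizationMonoid.exists_mem_factors_of_dvd hl hπ
      (hπd.trans hd1)
    exact ⟨q, hq, UniqueFactorizationMonoid.irreducible_of_factor q hq,
      hqa.symm.dvd.trans (hπd.trans hd2)⟩
  choose! π h1 h2 h3 using key
  refine Set.Finite.of_finite_image (f := π)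
    (((UniqueFactorizationMonoid.factors (lc F l)).toFinset.finite_toSet).subset ?_) ?_
  · rintro _ ⟨u, hu, rfl⟩
    rw [Finset.mem_coe, Multiset.mem_toFinset]
    exact h1 u hu
  · intro u hu u' hu' he
    by_contra hne
    have e1 : π u ∣ lc F l₁ + u • lc F l₂ := h3 u hu
    have e2 : π u ∣ lc F l₁ + u' • lc F l₂ := by
      have := h3 u' hu'
      rwa [← he] at this
    have e3 : π u ∣ lc F l₂ := by
      have e4 := dvd_smul' (u - u')⁻¹ (dvd_sub e1 e2)
      rwa [add_sub_add_left_eq_sub, ← sub_smul, smul_smul,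
        inv_mul_cancel₀ (sub_ne_zero.2 hne), one_smul] at e4
    have e5 : π u ∣ lc F l₁ := by
      have e6 := dvd_sub e1 (dvd_smul' u e3)
      rwa [add_sub_cancel_right] at e6
    have e7 : π u ∣ lc F l := UniqueFactorizationMonoid.dvd_of_mem_factors (h1 u hu)
    exact (h2 u hu).not_isUnit (hF _ (dvd_all h e7 e5 e3))

theorem relPrime_add {a b : Pl K} (w : K) (h : IsRelPrime a b) : IsRelPrime a (b + w • a) := by
  intro d h1 h2
  refine h h1 ?_
  have h3 := dvd_sub h2 (dvd_smul' w h1)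
  rwa [add_sub_cancel_right] at h3

end GenM

open GenM

theorem stmtGen : StmtGen := by
  classical
  intro K _ _ F hF l hl v hv
  have hl0 : l ≠ 0 := by
    rintro rfl
    refine hl ?_
    simp
  obtain ⟨l₁, l₂, hind⟩ := complete l hl0
  have hl' : lc F l ≠ 0 := hl
  let dt : (Fin 3 → K) → K := fun m => ∑ i, m i * v i
  have dt_add : ∀ m m', dt (m + m') = dt m + dt m' := fun m m' => by
    simp only [dt, Pi.add_apply, add_mul, Finset.sum_add_distrib]
  have dt_smul : ∀ (a : K) m, dt (a • m) = a * dt m := fun a m => by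
    simp only [dt, Pi.smul_apply, smul_eq_mul, mul_assoc, Finset.mul_sum]
  have hne : ¬ (dt l = 0 ∧ dt l₁ = 0 ∧ dt l₂ = 0) := by
    rintro ⟨h0, h1, h2⟩
    refine hv (funext fun i => ?_)
    obtain ⟨a, b, c, he⟩ := spans hind (Pi.single i 1)
    have h3 : dt (Pi.single i 1) = v i := by
      simp only [dt]
      rw [Finset.sum_eq_single i]
      · rw [Pi.single_eq_same, one_mul]
      · intro j _ hj
        rw [Pi.single_eq_of_ne hj, zero_mul]
      · intro h'
        exact absurd (Finset.mem_univ i) h'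
    rw [← h3, he, dt_add, dt_add, dt_smul, dt_smul, dt_smul, h0, h1, h2]
    simp
  have hind' : ∀ u w : K, LinearIndependent K ![l, l₁ + u • l₂ + w • l, l₂] := by
    intro u w
    rw [Fintype.linearIndependent_iff] at hind ⊢
    intro g hg
    rw [Fin.sum_univ_three] at hg
    have h1 := hind ![g 0 + w * g 1, g 1, g 2 + u * g 1] (by
      rw [Fin.sum_univ_three]
      simp only [Matrix.cons_val_zero, Matrix.cons_val_one, Matrix.cons_val_two, Matrix.head_cons,
        Matrix.tail_cons, Matrix.cons_val] at hg ⊢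
      rw [← hg]
      module)
    have e0 := h1 0
    have e1 := h1 1
    have e2 := h1 2
    simp only [Matrix.cons_val_zero, Matrix.cons_val_one, Matrix.cons_val_two, Matrix.head_cons,
      Matrix.tail_cons, Matrix.cons_val] at e0 e1 e2
    rw [e1, mul_zero, add_zero] at e0 e2
    intro i
    fin_cases i
    · exact e0
    · exact e1
    · exact e2
  have hfin := bad_fin hF hind hl'
  have hlc : ∀ u w : K, lc F (l₁ + u • l₂ + w • l) = lc F l₁ + u • lc F l₂ + w • lc F l := by
    intro u w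
    rw [lc_add, lc_add, lc_smul, lc_smul]
  have hdt : ∀ u w : K, dt (l₁ + u • l₂ + w • l) = dt l₁ + u * dt l₂ + w * dt l := by
    intro u w
    rw [dt_add, dt_add, dt_smul, dt_smul]
  obtain ⟨u, hu1, hu2⟩ : ∃ u : K, IsRelPrime (lc F l) (lc F l₁ + u • lc F l₂) ∧
      (dt l = 0 → dt l₁ + u * dt l₂ ≠ 0) := by
    obtain ⟨u, hu⟩ := (hfin.union (Set.finite_singleton (-(dt l₁ / dt l₂)))).infinite_compl.nonempty
    rw [Set.mem_compl_iff, Set.mem_union, not_or, Set.mem_ofPred_eq, not_not,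
      Set.mem_singleton_iff] at hu
    refine ⟨u, hu.1, fun h0 h1 => ?_⟩
    by_cases h2 : dt l₂ = 0
    · rw [h2, mul_zero, add_zero] at h1
      exact hne ⟨h0, h1, h2⟩
    · refine hu.2 ?_
      rw [← neg_div, eq_div_iff h2]
      exact eq_neg_of_add_eq_zero_right h1
  obtain ⟨w, hw⟩ : ∃ w : K, dt l₁ + u * dt l₂ + w * dt l ≠ 0 := by
    by_cases h0 : dt l = 0
    · exact ⟨0, by rw [zero_mul, add_zero]; exact hu2 h0⟩
    · by_cases h1 : dt l₁ + u * dt l₂ = 0
      · exact ⟨1, by rw [h1, zero_add, one_mul]; exact h0⟩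
      · exact ⟨0, by rw [zero_mul, add_zero]; exact h1⟩
  refine ⟨l₁ + u • l₂ + w • l, l₂, hind' u w, ?_, ?_⟩
  · change dt (l₁ + u • l₂ + w • l) ≠ 0
    rw [hdt]
    exact hw
  · change IsRelPrime (lc F l) (lc F (l₁ + u • l₂ + w • l))
    rw [hlc]
    exact relPrime_add w hu1

end Pool.Agent.Lib.MP_16285c_agZ
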