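import Pool.Agent.Lib.MP_16285c_agZ.Spec2
import Pool.Agent.ZDO.Jac
import Pool.Agent.ZDO.Prm

/-!
# `StmtJac`, `StmtPrime`
-/

set_option autoImplicit false

namespace Pool.Agent.Lib.MP_16285c_agZ

open Pool.Agent.Lib.MP_16285c_ag

theorem jc_eq {R : Type} [CommRing R] (f : RM R 2) : ZDO.Jc f = jac f := by
  rw [ZDO.Jc, Matrix.det_fin_two]
  rfl

theorem stmtJac : StmtJac := by
  intro K _ _ f σ h
  rw [← jc_eq]
  exact ZDO.jac_ne_zero f σ h

theorem stmtPrime : StmtPrime := by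
  intro k _ x N N' p p' hp hp' hne _ _ h₁ h₂ G H h
  exact ZDO.prime_of_cl N N' p p' hp hp' hne x h₁ h₂ G H h

end Pool.Agent.Lib.MP_16285c_agZ
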