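import Pool.Agent.Lib.MP_16285c_agZ.Spec

/-!
# Growth of the ratios of the degrees
-/

set_option autoImplicit false

namespace Pool.Agent.Lib.MP_16285c_agZ

open Filter Topology

namespace LevM

private theorem ratio_ge (d : ℕ → ℕ) (τ : ℕ) (hτ : 2 ≤ τ) (h2 : ∀ n, τ ^ n ≤ d n) (η : ℝ) (m : ℕ)
    (h : η ^ m * (4 * d m) ≤ d (2 * m)) : η ^ m ≤ (d (2 * m) : ℝ) / (4 * d m) := by
  have h3 : 0 < d m := lt_of_lt_of_le (pow_pos (by omega) m) (h2 m)
  have h4 : (0 : ℝ) < 4 * d m := by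
    have : (0 : ℝ) < d m := by exact_mod_cast h3
    linarith
  rwa [le_div_iff₀ h4]

/-- Geometric growth. -/
private theorem grow {r : ℝ} (hr : 1 < r) (c : ℝ) (f : ℕ → ℕ) (hf : Tendsto f atTop atTop) :
    ∀ᶠ s in atTop, c ≤ r ^ f s :=
  ((tendsto_pow_atTop_atTop_of_one_lt hr).comp hf).eventually_ge_atTop c

private theorem grow2 {a b : ℝ} (ha : 0 < a) (hab : a < b) (c : ℝ) (f : ℕ → ℕ)
    (hf : Tendsto f atTop atTop) : ∀ᶠ s in atTop, c * a ^ f s ≤ b ^ f s := by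
  have h1 : 1 < b / a := (one_lt_div ha).2 hab
  filter_upwards [grow h1 c f hf] with s hs
  rw [div_pow, le_div_iff₀ (pow_pos ha _)] at hs
  exact hs

end LevM

open LevM in
theorem stmtLev : StmtRates → StmtLev := by
  intro hR d τ hτ h1 h2
  have hτ1 : 1 ≤ τ := by omega
  have hτR : (2 : ℝ) ≤ τ := by exact_mod_cast hτ
  constructor
  · obtain ⟨n₀, hn⟩ := hR d τ hτ1 h1 h2 (9 / 10 * τ) (by linarith) (by linarith)
    have e1 := grow (r := 9 / 10 * (τ : ℝ)) (by linarith) 9 _ tendsto_id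
    have e2 := grow2 (a := (τ : ℝ)) (b := (9 / 10 * (τ : ℝ)) ^ 2) (by linarith)
      (by nlinarith) 16 _ tendsto_id
    obtain ⟨m, ⟨⟨e1, e2⟩, hm⟩, hm1⟩ := (((e1.and e2).and (eventually_ge_atTop n₀)).and
      (eventually_ge_atTop 1)).exists
    have h3 := ratio_ge d τ hτ h2 _ m (hn m hm)
    refine ⟨m, hm1, e1.trans h3, e2.trans ?_⟩
    rw [pow_right_comm]
    exact pow_le_pow_left₀ (pow_nonneg (by linarith) _) h3 2
  · intro m M κ η₁ hm hM hκ hη0 hη1
    have hev : ∀ᶠ η in 𝓝[<] (τ : ℝ), η₁ < η ∧ (τ : ℝ) < η ^ 2 ∧ (τ : ℝ) ^ m < κ * η ^ m := by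
      have a1 : ∀ᶠ η in 𝓝[<] (τ : ℝ), η₁ < η :=
        mem_nhdsWithin_of_mem_nhds (Ioi_mem_nhds hη1)
      have a2 : ∀ᶠ η in 𝓝[<] (τ : ℝ), (τ : ℝ) < η ^ 2 := by
        refine Filter.Eventually.filter_mono nhdsWithin_le_nhds ?_
        exact (continuous_pow 2).continuousAt.eventually_const_lt (by nlinarith)
      have a3 : ∀ᶠ η in 𝓝[<] (τ : ℝ), (τ : ℝ) ^ m < κ * η ^ m := by
        refine Filter.Eventually.filter_mono nhdsWithin_le_nhds ?_
        have hc : Continuous fun η : ℝ => κ * η ^ m := continuous_const.mul (continuous_pow m)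
        refine hc.continuousAt.eventually_const_lt ?_
        have hp : (0 : ℝ) < (τ : ℝ) ^ m := pow_pos (by linarith) m
        nlinarith
      filter_upwards [a1, a2, a3] with η b1 b2 b3 using ⟨b1, b2, b3⟩
    obtain ⟨η, ⟨b1, b2, b3⟩, b4⟩ := (hev.and self_mem_nhdsWithin).exists
    have b4' : η < τ := b4
    have hηp : 0 < η := hη0.trans b1
    have hη1' : 1 < η := by nlinarith
    obtain ⟨n₀, hn⟩ := hR d τ hτ1 h1 h2 η hηp b4'
    have hpos : 1 ≤ m * M := Nat.mul_pos hm hM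
    have f1 : Tendsto (fun s : ℕ => m * M * s) atTop atTop :=
      tendsto_atTop_mono (fun s => Nat.le_mul_of_pos_left s hpos) tendsto_id
    have f2 : Tendsto (fun s : ℕ => M * s) atTop atTop :=
      tendsto_atTop_mono (fun s => Nat.le_mul_of_pos_left s hM) tendsto_id
    have e1 := grow hη1' 2 _ f1
    have e2 := grow2 (by linarith : (0 : ℝ) < τ) b2 16 _ f1
    have e3 := grow2 (pow_pos (by linarith : (0 : ℝ) < τ) m) b3 8 _ f2
    have e4 := grow2 hη0 b1 2 _ f1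
    have e5 := f1.eventually_ge_atTop n₀
    obtain ⟨s, ⟨⟨⟨⟨⟨e1, e2⟩, e3⟩, e4⟩, e5⟩, hs⟩⟩ := (((((e1.and e2).and e3).and e4).and e5).and
      (eventually_ge_atTop 1)).exists
    have h3 := ratio_ge d τ hτ h2 η (m * M * s) (hn _ e5)
    refine ⟨s, hs, e1.trans h3, e2.trans ?_, ?_, ?_⟩
    · rw [pow_right_comm]
      exact pow_le_pow_left₀ (pow_nonneg hηp.le _) h3 2
    · have g1 : (τ : ℝ) ^ (m * M * s) = ((τ : ℝ) ^ m) ^ (M * s) := by
        rw [← pow_mul, mul_assoc]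
      have g2 : (κ * η ^ m) ^ (M * s) = κ ^ (M * s) * η ^ (m * M * s) := by
        rw [mul_pow, ← pow_mul, mul_assoc]
      rw [g1]
      refine e3.trans ?_
      rw [g2]
      exact mul_le_mul_of_nonneg_left h3 (pow_nonneg (by linarith) _)
    · rw [le_div_iff₀ (by norm_num : (0 : ℝ) < 2), mul_comm]
      exact e4.trans h3

end Pool.Agent.Lib.MP_16285c_agZ
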