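import Pool.Agent.Lib.MP_16285c_agZ.Line2

/-!
# The height inequality on a generic line
-/

set_option autoImplicit false

namespace Pool.Agent.Lib.MP_16285c_agZ

open Pool.Agent.Lib.MP_16285c_ag

namespace LineM

/-- The point of the line, over an extension field. -/
def lptL {K L : Type} [Field K] [Field L] [Algebra K L] (c : Fin 2 → K) (θ : ℕ) (y : L) : Fin 2 → L :=
  ![algebraMap K L (c 0) + θ * y, algebraMap K L (c 1) + y]

theorem aeval_res {K L : Type} [Field K] [Field L] [Algebra K L] (c : Fin 2 → K) (θ : ℕ) (G : Pl K)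
    (y : L) : Polynomial.aeval y (Line2M.res c θ G) = MvPolynomial.aeval (lptL c θ y) G := by
  have h : (Polynomial.aeval y).comp (Line2M.res c θ) = MvPolynomial.aeval (lptL c θ y) := by
    apply MvPolynomial.algHom_ext
    intro i
    fin_cases i <;> simp [Line2M.res, lptL]
  exact DFunLike.congr_fun h G

/-- The restrictions have no common zero for a general direction. -/
theorem span_top {K : Type} [Field K] [CharZero K] (hCZ : StmtCZ) (F : Fin 3 → Pl K)
    (h : ∀ c : Pl K, (∀ i, c ∣ F i) → IsUnit c) (c : Fin 2 → K)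
    (hc : ∃ i, MvPolynomial.eval c (F i) ≠ 0) :
    ∃ S : Finset ℕ, ∀ θ : ℕ, θ ∉ S → (∃ i, Line2M.res c θ (F i) ≠ 0) →
      Ideal.span (Set.range fun i => Line2M.res c θ (F i)) = ⊤ := by
  classical
  set L := AlgebraicClosure K with hL
  have hfin := hCZ K F h L
  have hcl : CharZero L := charZero_of_injective_algebraMap (algebraMap K L).injective
  set T : Finset L := hfin.toFinset.image
    (fun ξ : Fin 2 → L => (ξ 0 - algebraMap K L (c 0)) / (ξ 1 - algebraMap K L (c 1))) with hT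
  refine ⟨T.preimage (fun n : ℕ => (n : L)) (Nat.cast_injective.injOn), fun θ hθ hne => ?_⟩
  by_contra hcon
  obtain ⟨g, hg⟩ : ∃ g, Ideal.span (Set.range fun i => Line2M.res c θ (F i)) = Ideal.span {g} :=
    (IsPrincipalIdealRing.principal _).principal
  have hgF : ∀ i, g ∣ Line2M.res c θ (F i) := by
    intro i
    rw [← Ideal.mem_span_singleton, ← hg]
    exact Ideal.subset_span ⟨i, rfl⟩
  have hg0 : g ≠ 0 := by
    intro h0
    obtain ⟨i, hi⟩ := hne
    have := hgF i
    rw [h0, zero_dvd_iff] at this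
    exact hi this
  have hgu : ¬ IsUnit g := by
    intro hu
    apply hcon
    rw [hg, Ideal.span_singleton_eq_top]
    exact hu
  have hdeg : g.degree ≠ 0 := by
    intro h0
    exact hgu (Polynomial.isUnit_iff_degree_eq_zero.2 h0)
  obtain ⟨y, hy⟩ := IsAlgClosed.exists_aeval_eq_zero L g hdeg
  have hz : ∀ i, MvPolynomial.aeval (lptL c θ y) (F i) = 0 := by
    intro i
    rw [← aeval_res]
    obtain ⟨w, hw⟩ := hgF i
    rw [hw, map_mul, hy, zero_mul]
  have hy0 : y ≠ 0 := by
    rintro rfl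
    obtain ⟨i, hi⟩ := hc
    have h1 := hz i
    have h2 : lptL c θ (0 : L) = algebraMap K L ∘ c := by
      funext j
      fin_cases j <;> simp [lptL]
    rw [h2, MvPolynomial.aeval_algebraMap_apply, map_eq_zero] at h1
    exact hi h1
  apply hθ
  rw [Finset.mem_preimage, hT, Finset.mem_image]
  refine ⟨lptL c θ y, ?_, ?_⟩
  · rw [Set.Finite.mem_toFinset]
    exact hz
  · simp [lptL, hy0]

end LineM

theorem stmtLine : StmtCZ → StmtBin → StmtLine := by
  intro hCZ hB K _ _ _ F d hcop hdeg hd c hc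
  classical
  obtain ⟨i₀, hi₀⟩ := hd
  obtain ⟨j₀, hj₀⟩ := hc
  obtain ⟨S1, hS1⟩ := LineM.span_top hCZ F hcop c ⟨j₀, hj₀⟩
  by_cases hF0 : F i₀ = 0
  · -- then `d = 0`
    have hd0 : d = 0 := by rw [← hi₀, hF0, MvPolynomial.totalDegree_zero]
    refine ⟨∅, fun θ _ => ⟨0, fun y => ?_⟩⟩
    rw [hd0, Nat.cast_zero, zero_mul, add_zero]
    exact Height.logHeight_nonneg _
  obtain ⟨S2, hS2⟩ := Line2M.good (F i₀) hF0
  refine ⟨S1 ∪ S2, fun θ hθ => ?_⟩
  rw [Finset.mem_union, not_or] at hθ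
  have h1 := hS2 θ hθ.2 c
  rw [hi₀] at h1
  have h2 : Line2M.res c θ (F i₀) ≠ 0 := by
    intro hh
    rw [hh, Polynomial.coeff_zero] at h1
    exact h1 rfl
  have h3 := hS1 θ hθ.1 ⟨i₀, h2⟩
  obtain ⟨C, hC⟩ := hB K (fun i => Line2M.res c θ (F i)) d
    (fun i => Line2M.natDegree_res_le c θ (F i) d (hdeg i))
    ⟨i₀, le_antisymm (Line2M.natDegree_res_le c θ (F i₀) d (hdeg i₀))
      (Polynomial.le_natDegree_of_ne_zero h1)⟩ h3
  refine ⟨C, fun y => ?_⟩
  have := hC y
  simp only [Line2M.eval_res] at this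
  exact this

end Pool.Agent.Lib.MP_16285c_agZ
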