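import Pool.Agent.Lib.MP_16285c_agZ.Spec

/-!
# The restriction of a polynomial to a generic line through a point
-/

set_option autoImplicit false

namespace Pool.Agent.Lib.MP_16285c_agZ

open Pool.Agent.Lib.MP_16285c_ag

namespace Line2M

/-- The restriction to the line through `c` of direction `(θ, 1)`. -/
noncomputable def res {K : Type} [Field K] (c : Fin 2 → K) (θ : ℕ) : Pl K →ₐ[K] Polynomial K :=
  MvPolynomial.aeval ![Polynomial.C (c 0) + Polynomial.C (θ : K) * Polynomial.X,
    Polynomial.C (c 1) + Polynomial.X]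

theorem eval_res {K : Type} [Field K] (c : Fin 2 → K) (θ : ℕ) (G : Pl K) (y : K) :
    (res c θ G).eval y = MvPolynomial.eval (lpt c θ y) G := by
  have h : (Polynomial.evalRingHom y).comp (res c θ).toRingHom = MvPolynomial.eval (lpt c θ y) := by
    apply MvPolynomial.ringHom_ext
    · intro r
      simp
    · intro i
      fin_cases i <;> simp [res, lpt]
  exact DFunLike.congr_fun h G

theorem res_eq {K : Type} [Field K] (c : Fin 2 → K) (θ : ℕ) (G : Pl K) :
    res c θ G = ∑ m ∈ G.support, Polynomial.C (G.coeff m) *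
      ((Polynomial.C (c 0) + Polynomial.C (θ : K) * Polynomial.X) ^ m 0 *
        (Polynomial.C (c 1) + Polynomial.X) ^ m 1) := by
  rw [res, MvPolynomial.aeval_def, MvPolynomial.eval₂_eq']
  refine Finset.sum_congr rfl fun m _ => ?_
  rw [Fin.prod_univ_two]
  rfl

theorem deg0 {K : Type} [Field K] (a b : K) :
    (Polynomial.C a + Polynomial.C b * Polynomial.X).natDegree ≤ 1 := by
  refine (Polynomial.natDegree_add_le _ _).trans ?_
  rw [Polynomial.natDegree_C]
  exact max_le (by norm_num) ((Polynomial.natDegree_C_mul_le _ _).trans (Polynomial.natDegree_X_le))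

theorem deg1 {K : Type} [Field K] (a : K) : (Polynomial.C a + Polynomial.X).natDegree ≤ 1 := by
  have := deg0 a 1
  rwa [Polynomial.C_1, one_mul] at this

theorem degt {K : Type} [Field K] (c : Fin 2 → K) (θ : ℕ) (a : K) (i j : ℕ) :
    (Polynomial.C a * ((Polynomial.C (c 0) + Polynomial.C (θ : K) * Polynomial.X) ^ i *
        (Polynomial.C (c 1) + Polynomial.X) ^ j)).natDegree ≤ i + j := by
  refine (Polynomial.natDegree_C_mul_le _ _).trans (Polynomial.natDegree_mul_le.trans ?_)
  refine add_le_add ?_ ?_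
  · refine Polynomial.natDegree_pow_le.trans ?_
    have := deg0 (c 0) (θ : K)
    nlinarith
  · refine Polynomial.natDegree_pow_le.trans ?_
    have := deg1 (c 1)
    nlinarith

theorem coet {K : Type} [Field K] (c : Fin 2 → K) (θ : ℕ) (a : K) (i j : ℕ) :
    (Polynomial.C a * ((Polynomial.C (c 0) + Polynomial.C (θ : K) * Polynomial.X) ^ i *
        (Polynomial.C (c 1) + Polynomial.X) ^ j)).coeff (i + j) = a * (θ : K) ^ i := by
  rw [Polynomial.coeff_C_mul, Polynomial.coeff_mul_add_eq_of_natDegree_le]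
  · have h0 := Polynomial.coeff_pow_of_natDegree_le (m := i) (deg0 (c 0) (θ : K))
    have h1 := Polynomial.coeff_pow_of_natDegree_le (m := j) (deg1 (c 1))
    rw [mul_one] at h0 h1
    rw [h0, h1]
    simp
  · refine Polynomial.natDegree_pow_le.trans ?_
    have := deg0 (c 0) (θ : K)
    nlinarith
  · refine Polynomial.natDegree_pow_le.trans ?_
    have := deg1 (c 1)
    nlinarith

theorem sum2 (m : Fin 2 →₀ ℕ) : (m.sum fun _ e => e) = m 0 + m 1 := by
  rw [Finsupp.sum_fintype _ _ (fun _ => rfl), Fin.sum_univ_two]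

theorem natDegree_res_le {K : Type} [Field K] (c : Fin 2 → K) (θ : ℕ) (G : Pl K) (d : ℕ)
    (hd : G.totalDegree ≤ d) : (res c θ G).natDegree ≤ d := by
  rw [res_eq]
  refine Polynomial.natDegree_sum_le_of_forall_le _ _ fun m hm => ?_
  refine (degt _ _ _ _ _).trans ?_
  have := MvPolynomial.le_totalDegree hm
  rw [sum2] at this
  omega

theorem coeff_res {K : Type} [Field K] (c : Fin 2 → K) (θ : ℕ) (G : Pl K) (d : ℕ)
    (hd : G.totalDegree ≤ d) :
    (res c θ G).coeff d = ∑ m ∈ G.support with m 0 + m 1 = d, G.coeff m * (θ : K) ^ m 0 := by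
  rw [res_eq, Polynomial.finsetSum_coeff, Finset.sum_filter]
  refine Finset.sum_congr rfl fun m hm => ?_
  split_ifs with h
  · rw [← h, coet]
  · apply Polynomial.coeff_eq_zero_of_natDegree_lt
    refine lt_of_le_of_lt (degt _ _ _ _ _) ?_
    have := MvPolynomial.le_totalDegree hm
    rw [sum2] at this
    omega

/-- The coefficient of the highest degree is not zero for a general direction. -/
theorem good {K : Type} [Field K] [CharZero K] (G : Pl K) (hG : G ≠ 0) :
    ∃ S : Finset ℕ, ∀ θ : ℕ, θ ∉ S → ∀ c : Fin 2 → K, (res c θ G).coeff G.totalDegree ≠ 0 := by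
  classical
  set d := G.totalDegree with hd
  set P : Polynomial K := ∑ m ∈ G.support with m 0 + m 1 = d,
    Polynomial.C (G.coeff m) * Polynomial.X ^ m 0 with hP
  obtain ⟨m₀, hm₀, hm₀d⟩ : ∃ m ∈ G.support, m 0 + m 1 = d := by
    obtain ⟨m, hm, hmd⟩ := Finset.exists_mem_eq_sup G.support
      (MvPolynomial.support_nonempty.2 hG) (fun m : Fin 2 →₀ ℕ => m.sum fun _ e => e)
    refine ⟨m, hm, ?_⟩
    rw [hd, MvPolynomial.totalDegree, hmd, sum2]
  have hP0 : P.coeff (m₀ 0) = G.coeff m₀ := by
    rw [hP, Polynomial.finsetSum_coeff, Finset.sum_eq_single m₀]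
    · simp
    · intro m hm hne
      rw [Finset.mem_filter] at hm
      rw [Polynomial.coeff_C_mul, Polynomial.coeff_X_pow, if_neg, mul_zero]
      intro hh
      apply hne
      ext i
      fin_cases i
      · exact hh.symm
      · change m 1 = m₀ 1
        omega
    · intro hh
      exact absurd (Finset.mem_filter.2 ⟨hm₀, hm₀d⟩) hh
  have hPne : P ≠ 0 := by
    intro hh
    rw [hh, Polynomial.coeff_zero] at hP0
    exact (MvPolynomial.mem_support_iff.1 hm₀) hP0.symm
  refine ⟨P.roots.toFinset.preimage (fun n : ℕ => (n : K)) (Nat.cast_injective.injOn), ?_⟩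
  intro θ hθ c hc
  apply hθ
  rw [Finset.mem_preimage, Multiset.mem_toFinset, Polynomial.mem_roots hPne, Polynomial.IsRoot.def,
    ← hc, coeff_res c θ G d hd.symm.le, hP, Polynomial.eval_finsetSum]
  refine Finset.sum_congr rfl fun m _ => ?_
  simp

end Line2M

theorem stmtLine2 : StmtLine2 := by
  constructor
  · intro K _ _ c θ
    set A : Fin 3 × Fin 2 → K :=
      fun q => (![![0, 1], ![(θ : K), c 0], ![1, c 1]] : Fin 3 → Fin 2 → K) q.1 q.2 with hA
    refine ⟨Height.totalWeight K * Real.log (Nat.card (Fin 2)) + Height.logHeight A, fun y => ?_⟩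
    have h := Height.logHeight_linearMap_apply_le A ![y, 1]
    rw [← Height.logHeight₁_eq_logHeight] at h
    have h2 : (fun j : Fin 3 => ∑ i : Fin 2, A (j, i) * (![y, 1] : Fin 2 → K) i) =
        hc (lpt c θ y) := by
      funext j
      fin_cases j
      · simp [hA, hc, Fin.sum_univ_two]
      · simp [hA, hc, lpt, Fin.sum_univ_two]
        ring
      · change ∑ i : Fin 2, A (2, i) * (![y, 1] : Fin 2 → K) i = c 1 + y
        simp [hA, Fin.sum_univ_two]
        ring
    rw [h2] at h
    rw [add_comm] at h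
    exact h
  · intro K _ _ Γ hΓ c
    classical
    obtain ⟨S, hS⟩ := Line2M.good Γ hΓ
    refine ⟨S, fun θ hθ => ?_⟩
    have h1 : Line2M.res c θ Γ ≠ 0 := by
      intro hh
      have := hS θ hθ c
      rw [hh, Polynomial.coeff_zero] at this
      exact this rfl
    refine ((Line2M.res c θ Γ).roots.toFinset.finite_toSet).subset fun y hy => ?_
    rw [Finset.mem_coe, Multiset.mem_toFinset, Polynomial.mem_roots h1, Polynomial.IsRoot.def,
      Line2M.eval_res]
    exact hy

end Pool.Agent.Lib.MP_16285c_agZ
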