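import Pool.Agent.Lib.MP_16285c_agZ.Spec

/-!
# Heights of products of linear forms, lower bound (R11)
-/

set_option autoImplicit false

namespace Pool.Agent.Lib.MP_16285c_agZ

namespace Low3M

/-- The coordinates are combinations of three distinct forms. -/
theorem basis3 {K : Type} [Field K] (v : Fin 3 → K) (hv : Function.Injective v) (k : Fin 3) :
    ∃ c : Fin 3 → K, ∀ a : Fin 3 → K, a k = ∑ i, c i * lu (v i) a := by
  have hdet : IsUnit (Matrix.vandermonde v).det := by
    rw [isUnit_iff_ne_zero]
    exact Matrix.det_vandermonde_ne_zero_iff.2 hv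
  refine ⟨fun i => (Matrix.vandermonde v)⁻¹ k i, fun a => ?_⟩
  have h1 : ∀ i, lu (v i) a = (Matrix.vandermonde v).mulVec a i := by
    intro i
    simp [lu, Matrix.mulVec, dotProduct, Matrix.vandermonde_apply, Fin.sum_univ_three]
  simp only [h1]
  have h2 : (Matrix.vandermonde v)⁻¹.mulVec ((Matrix.vandermonde v).mulVec a) = a := by
    rw [Matrix.mulVec_mulVec, Matrix.nonsing_inv_mul _ hdet, Matrix.one_mulVec]
  exact (congrFun h2 k).symm

/-- The products of linear forms, as functions. -/
def pr {K₀ : Type} (K : Type) [Field K₀] [Field K] [Algebra K₀ K] (t : Finset K₀) :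
    (Fin 3 → K) → K := fun a => ∏ u ∈ t, lu (algebraMap K₀ K u) a

theorem span_pow {K₀ K : Type} [Field K₀] [Field K] [Algebra K₀ K] (k : Fin 3) (n : ℕ) :
    ∀ s : Finset K₀, n + 2 ≤ s.card →
    (fun a : Fin 3 → K => a k ^ n) ∈ Submodule.span K
      (pr K '' {t : Finset K₀ | t ⊆ s ∧ t.card = n}) := by
  classical
  induction n with
  | zero =>
    intro s _
    refine Submodule.subset_span ⟨∅, ⟨Finset.empty_subset _, rfl⟩, ?_⟩
    funext a
    simp [pr]
  | succ n ih =>
    intro s hs
    obtain ⟨x, hx, y, hy, z, hz, hxy, hxz, hyz⟩ := Finset.two_lt_card.1 (show 2 < s.card by omega)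
    set v : Fin 3 → K₀ := ![x, y, z] with hv
    have hvs : ∀ i, v i ∈ s := by
      intro i
      fin_cases i
      · exact hx
      · exact hy
      · exact hz
    have hinj : Function.Injective v := by
      intro i j hij
      fin_cases i <;> fin_cases j <;> simp_all
    obtain ⟨c, hc⟩ := basis3 (fun i => algebraMap K₀ K (v i))
      ((algebraMap K₀ K).injective.comp hinj) k
    have e : (fun a : Fin 3 → K => a k ^ (n + 1)) =
        ∑ i, c i • ((fun a : Fin 3 → K => lu (algebraMap K₀ K (v i)) a) *
          fun a : Fin 3 → K => a k ^ n) := by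
      funext a
      rw [pow_succ', Finset.sum_apply]
      have h0 : a k * a k ^ n = (∑ i, c i * lu (algebraMap K₀ K (v i)) a) * a k ^ n := by
        rw [← hc a]
      rw [h0, Finset.sum_mul]
      refine Finset.sum_congr rfl fun i _ => ?_
      simp only [Pi.smul_apply, Pi.mul_apply, smul_eq_mul]
      ring
    rw [e]
    refine Submodule.sum_mem _ fun i _ => Submodule.smul_mem _ _ ?_
    have h1 := ih (s.erase (v i)) (by
      rw [Finset.card_erase_of_mem (hvs i)]
      omega)
    have h2 := Submodule.mem_map_of_mem (f := LinearMap.mulLeft K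
      (fun a : Fin 3 → K => lu (algebraMap K₀ K (v i)) a)) h1
    rw [Submodule.map_span] at h2
    refine Submodule.span_mono ?_ h2
    rintro _ ⟨_, ⟨t, ⟨ht1, ht2⟩, rfl⟩, rfl⟩
    have hni : v i ∉ t := fun h => Finset.notMem_erase _ _ (ht1 h)
    refine ⟨insert (v i) t, ⟨Finset.insert_subset (hvs i)
      (ht1.trans (Finset.erase_subset _ _)), by rw [Finset.card_insert_of_notMem hni, ht2]⟩, ?_⟩
    funext a
    simp only [pr, LinearMap.mulLeft_apply, Pi.mul_apply]
    rw [Finset.prod_insert hni]

end Low3M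

open Low3M in
theorem stmtLow3 : StmtLow3 := by
  classical
  intro K₀ _ s n hn K _ _ _
  have key : ∀ k : Fin 3, ∃ c : ↥(Finset.powersetCard n s) → K, ∀ a : Fin 3 → K,
      ∑ t, c t * ∏ u ∈ (t : Finset K₀), lu (algebraMap K₀ K u) a = a k ^ n := by
    intro k
    have h := span_pow (K := K) k n s hn
    have e : pr K '' {t : Finset K₀ | t ⊆ s ∧ t.card = n} =
        Set.range (fun t : ↥(Finset.powersetCard n s) => pr K (t : Finset K₀)) := by
      ext φ
      constructor
      · rintro ⟨t, ht, rfl⟩
        exact ⟨⟨t, Finset.mem_powersetCard.2 ht⟩, rfl⟩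
      · rintro ⟨t, rfl⟩
        exact ⟨t, Finset.mem_powersetCard.1 t.2, rfl⟩
    rw [e, Submodule.mem_span_range_iff_exists_fun] at h
    obtain ⟨c, hc⟩ := h
    refine ⟨c, fun a => ?_⟩
    have := congrFun hc a
    rw [Finset.sum_apply] at this
    exact this
  choose c hc using key
  obtain ⟨C, hC⟩ := Height.logHeight_eval_ge' (K := K) (ι := Fin 3)
    (ι' := ↥(Finset.powersetCard n s)) (M := 0) (N := n)
    (q := fun a => MvPolynomial.C (c a.1 a.2)) (fun a => MvPolynomial.isHomogeneous_C _ _)
  refine ⟨-C, fun a => ?_⟩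
  have hev : ∀ t : ↥(Finset.powersetCard n s), MvPolynomial.eval a
      (∏ u ∈ (t : Finset K₀), lu (MvPolynomial.C (algebraMap K₀ K u))
        (MvPolynomial.X : Fin 3 → MvPolynomial (Fin 3) K)) =
      ∏ u ∈ (t : Finset K₀), lu (algebraMap K₀ K u) a := by
    intro t
    rw [map_prod]
    refine Finset.prod_congr rfl fun u _ => ?_
    simp [lu]
  have h := hC (fun t => ∏ u ∈ (t : Finset K₀), lu (MvPolynomial.C (algebraMap K₀ K u))
    (MvPolynomial.X : Fin 3 → MvPolynomial (Fin 3) K)) (x := a) (fun k => by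
      rw [zero_add, ← hc k a]
      refine Finset.sum_congr rfl fun t _ => ?_
      rw [hev t, MvPolynomial.eval_C])
  simp only [hev] at h
  linarith

end Pool.Agent.Lib.MP_16285c_agZ
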