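import Pool.Agent.Lib.MP_16285c_agZ.Spec2
import Pool.Agent.Lib.MP_16285c_agZ.KLV.Spec

/-!
# An orbit on a curve: the local ring of the curve is preserved
-/

set_option autoImplicit false

namespace Pool.Agent.Lib.MP_16285c_agZ

open Pool.Agent.Lib.MP_16285c_ag

/-- (S2) The local ring of the curve is preserved. -/
theorem stmtPres : SVal → StmtPres := by
  intro hV K _ ρ P z hF hP hnz H
  obtain ⟨_, _, _, _, _, hlast⟩ := hV
  obtain ⟨E, N, hE, hN, -⟩ := hF 0 H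
  have key : ∀ t, MvPolynomial.eval (z t) E ≠ 0 →
      MvPolynomial.eval (z t) N = MvPolynomial.eval (z t) E * MvPolynomial.eval (z (t + 1)) H :=
    fun t ht => hlast K ρ (z t) (z (t + 1)) H E N (hF t) ht hN
  have hPE : ¬ P ∣ E := by
    rintro ⟨Q, rfl⟩
    exact hE (by rw [map_mul, hP, zero_mul])
  obtain ⟨t₀, h0⟩ := hnz E hPE
  refine ⟨E, N, hPE, hN, ?_, ?_⟩
  · rintro ⟨Q, rfl⟩
    by_contra hN'
    obtain ⟨t₁, h1⟩ := hnz N hN'
    refine h1 _ (le_max_right t₀ t₁) ?_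
    rw [key _ (h0 _ (le_max_left t₀ t₁)), map_mul, hP, zero_mul, mul_zero]
  · rintro ⟨Q, hQ⟩
    by_contra hH
    obtain ⟨t₁, h1⟩ := hnz H hH
    have h2 := key _ (h0 _ (le_max_left t₀ t₁))
    rw [hQ, map_mul, hP, zero_mul] at h2
    rcases mul_eq_zero.1 h2.symm with h3 | h3
    · exact h0 _ (le_max_left t₀ t₁) h3
    · exact h1 (max t₀ t₁ + 1) ((le_max_right t₀ t₁).trans (Nat.le_succ _)) h3

end Pool.Agent.Lib.MP_16285c_agZ
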