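import Pool.Agent.Lib.MP_16285c_agZ.Spec

/-!
# MP_16285c: growth of submultiplicative sequences (StmtRates)
-/

set_option autoImplicit false

namespace Pool.Agent.Lib.MP_16285c_agZ

open Filter Topology

theorem stmtRates : StmtRates := by
  intro d τ hτ hsub hlow η hη hητ
  have hτr : (1 : ℝ) ≤ τ := by exact_mod_cast hτ
  have hdlow : ∀ n, (τ : ℝ) ^ n ≤ d n := by
    intro n
    exact_mod_cast hlow n
  have hd1 : ∀ n, (1 : ℝ) ≤ d n := fun n => (one_le_pow₀ hτr).trans (hdlow n)
  have hd0 : ∀ n, (0 : ℝ) < d n := fun n => lt_of_lt_of_le one_pos (hd1 n)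
  set u : ℕ → ℝ := fun n => Real.log (d n) with hu
  have hsa : Subadditive u := by
    intro m n
    simp only [hu]
    rw [← Real.log_mul (hd0 m).ne' (hd0 n).ne']
    apply Real.log_le_log (hd0 _)
    exact_mod_cast hsub m n
  have hu0 : ∀ n, 0 ≤ u n := fun n => Real.log_nonneg (hd1 n)
  have hbdd : BddBelow (Set.range fun n : ℕ => u n / n) := by
    refine ⟨0, ?_⟩
    rintro _ ⟨n, rfl⟩
    exact div_nonneg (hu0 n) (Nat.cast_nonneg n)
  have htend := hsa.tendsto_lim hbdd
  have hulow : ∀ n : ℕ, n * Real.log τ ≤ u n := by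
    intro n
    have := Real.log_le_log (pow_pos (lt_of_lt_of_le one_pos hτr) n) (hdlow n)
    rwa [Real.log_pow] at this
  have hL : Real.log τ ≤ hsa.lim := by
    apply ge_of_tendsto htend
    filter_upwards [eventually_ge_atTop 1] with n hn
    have hn' : (0 : ℝ) < n := by exact_mod_cast hn
    rw [le_div_iff₀ hn']
    have := hulow n
    linarith
  have hεpos : 0 < (Real.log τ - Real.log η) / 2 := by
    have := Real.log_lt_log hη hητ
    linarith
  set ε : ℝ := (Real.log τ - Real.log η) / 2 with hε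
  have ev := htend.eventually (gt_mem_nhds (show hsa.lim < hsa.lim + ε by linarith))
  obtain ⟨n1, hn1⟩ := eventually_atTop.1 ev
  obtain ⟨n2, hn2⟩ := exists_nat_ge (Real.log 4 / ε)
  refine ⟨max (max n1 n2) 1, ?_⟩
  intro m hm
  have hm1 : n1 ≤ m := le_trans (le_trans (le_max_left _ _) (le_max_left _ _)) hm
  have hm2 : n2 ≤ m := le_trans (le_trans (le_max_right _ _) (le_max_left _ _)) hm
  have hm3 : 1 ≤ m := le_trans (le_max_right _ _) hm
  have hm0 : (0 : ℝ) < m := by exact_mod_cast hm3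
  have h1 : u m ≤ m * (hsa.lim + ε) := by
    have := (hn1 m hm1).le
    rw [div_le_iff₀ hm0] at this
    linarith
  have h2 : 2 * m * hsa.lim ≤ u (2 * m) := by
    have := hsa.lim_le_div hbdd (n := 2 * m) (by omega)
    have h2m : (0 : ℝ) < ((2 * m : ℕ) : ℝ) := by exact_mod_cast (by omega : 0 < 2 * m)
    rw [le_div_iff₀ h2m] at this
    push_cast at this
    linarith
  have h3 : Real.log 4 ≤ m * ε := by
    have a1 : Real.log 4 / ε ≤ m := hn2.trans (by exact_mod_cast hm2)
    rw [div_le_iff₀ hεpos] at a1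
    exact a1
  have h4 : m * Real.log τ ≤ m * hsa.lim := mul_le_mul_of_nonneg_left hL hm0.le
  have h5 : m * Real.log η + Real.log 4 + u m ≤ u (2 * m) := by
    have : (m : ℝ) * Real.log η = m * Real.log τ - 2 * (m * ε) := by
      rw [hε]; ring
    nlinarith
  have h6 := Real.exp_le_exp.2 h5
  rw [Real.exp_add, Real.exp_add, Real.exp_log (by norm_num : (0 : ℝ) < 4)] at h6
  simp only [hu] at h6
  rw [Real.exp_log (hd0 _), Real.exp_log (hd0 _), mul_comm (m : ℝ), Real.exp_mul,
    Real.exp_log hη, Real.rpow_natCast] at h6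
  linarith

end Pool.Agent.Lib.MP_16285c_agZ
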