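import Pool.Agent.Lib.MP_16285c_agZ.Spec2

/-!
# MP_16285c: the real inequalities of the two levels (StmtReal)
-/

set_option autoImplicit false

namespace Pool.Agent.Lib.MP_16285c_agZ

namespace RealM

/-- Iterated growth along a progression. -/
private theorem iter {u : ℕ → ℝ} {κ : ℝ} (hκ : 0 ≤ κ) (j₀ : ℕ)
    (h : ∀ j, j₀ ≤ j → κ * u j ≤ u (j + 1)) (j : ℕ) (hj : j₀ ≤ j) (i : ℕ) :
    κ ^ i * u j ≤ u (j + i) := by
  induction i with
  | zero => simp
  | succ i ih =>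
    calc κ ^ (i + 1) * u j = κ * (κ ^ i * u j) := by ring
      _ ≤ κ * u (j + i) := mul_le_mul_of_nonneg_left ih hκ
      _ ≤ u (j + i + 1) := h (j + i) (by omega)

end RealM

theorem stmtReal : StmtGro → StmtReal := by
  intro gro h m M s κ a b η ν C₁ C₂ j₁ h0 hm hM hs hκ hgr hpos ha hb hab hak hrec hη hηb hν hνη hup
  have hκ0 : (0 : ℝ) ≤ κ := by linarith
  have I := fun j hj i => RealM.iter (u := fun j => h (m * j)) hκ0 1 hgr j hj i
  -- divergence
  have hdiv : ∀ R : ℝ, ∃ J : ℕ, ∀ j, J ≤ j → R ≤ h (m * j) := by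
    intro R
    obtain ⟨n, hn⟩ := pow_unbounded_of_one_lt (R / h m) hκ
    refine ⟨n + 1, fun j hj => ?_⟩
    obtain ⟨i, rfl⟩ := Nat.exists_eq_add_of_le hj
    have h1 := I 1 le_rfl (n + i)
    simp only [mul_one] at h1
    have h2 : R < κ ^ n * h m := by rwa [div_lt_iff₀ hpos] at hn
    have h3 : κ ^ n ≤ κ ^ (n + i) := pow_le_pow_right₀ hκ.le (by omega)
    have h4 : κ ^ n * h m ≤ κ ^ (n + i) * h m := mul_le_mul_of_nonneg_right h3 hpos.le
    have e : 1 + (n + i) = n + 1 + i := by ring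
    rw [e] at h1
    linarith
  obtain ⟨J, hJ⟩ := hdiv (4 * C₁)
  set j₀ := max j₁ (max J 1) with hj₀
  have hj1 : j₁ ≤ j₀ := le_max_left _ _
  have hj2 : J ≤ j₀ := le_trans (le_max_left _ _) (le_max_right _ _)
  have hj3 : 1 ≤ j₀ := le_trans (le_max_right _ _) (le_max_right _ _)
  have hMs : 1 ≤ M * s := Nat.mul_pos hM hs
  have hmMs : 1 ≤ m * M * s := Nat.mul_pos (Nat.mul_pos hm hM) hs
  -- lower growth
  have hB : κ ^ (M * s) * h (m * M * s * j₀) ≤ h (m * M * s * (j₀ + 1)) := by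
    have h1 := I (M * s * j₀) (Nat.mul_pos hMs hj3) (M * s)
    have e1 : m * (M * s * j₀) = m * M * s * j₀ := by ring
    have e2 : m * (M * s * j₀ + M * s) = m * M * s * (j₀ + 1) := by ring
    simp only [e1, e2] at h1
    exact h1
  have hX : 4 * a * h (m * M * s * j₀) ≤ b * h (m * M * s * (j₀ + 1)) := by
    calc 4 * a * h (m * M * s * j₀) ≤ κ ^ (M * s) * b * h (m * M * s * j₀) :=
          mul_le_mul_of_nonneg_right hak (h0 _)
      _ = b * (κ ^ (M * s) * h (m * M * s * j₀)) := by ring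
      _ ≤ b * h (m * M * s * (j₀ + 1)) := mul_le_mul_of_nonneg_left hB (by linarith)
  have hY : 4 * C₁ ≤ b * h (m * M * s * (j₀ + 1)) := by
    have h1 := hJ (M * s * (j₀ + 1)) (by nlinarith)
    have e1 : m * (M * s * (j₀ + 1)) = m * M * s * (j₀ + 1) := by ring
    rw [e1] at h1
    have h2 := h0 (m * M * s * (j₀ + 1))
    nlinarith
  have G := gro (fun j => h (m * M * s * j)) a b C₁ ha hb hab (fun j => h0 _) j₀
    (fun j hj => hrec j (le_trans hj1 hj)) hX hY
  have G2 : ∀ j, j₀ + 1 ≤ j →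
      η ^ (m * M * s) * h (m * M * s * j) ≤ h (m * M * s * (j + 1)) := by
    intro j hj
    exact le_trans (mul_le_mul_of_nonneg_right hηb (h0 _)) (G j hj)
  have G3 := fun i => RealM.iter (u := fun j => h (m * M * s * j)) (pow_nonneg hη.le _) (j₀ + 1)
    G2 (j₀ + 1) le_rfl i
  -- positivity
  have hP : 0 < h (m * M * s * (j₀ + 1)) := by
    have hL : 1 ≤ M * s * (j₀ + 1) := Nat.mul_pos hMs (by omega)
    obtain ⟨i, hi⟩ := Nat.exists_eq_add_of_le hL
    have h1 := I 1 le_rfl i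
    simp only [mul_one] at h1
    rw [← hi] at h1
    have e1 : m * (M * s * (j₀ + 1)) = m * M * s * (j₀ + 1) := by ring
    rw [e1] at h1
    exact lt_of_lt_of_le (mul_pos (pow_pos (by linarith) _) hpos) h1
  -- final comparison
  have hr : 1 < η ^ M / ν := by rwa [one_lt_div hν]
  set c := h (m * M * s * (j₀ + 1)) with hc
  set D := C₂ * ν ^ (m * s * (j₀ + 1)) with hD
  have F : ∀ i : ℕ, (η ^ M / ν) ^ (m * s * i) * c ≤ D := by
    intro i
    have h1 : (η ^ (m * M * s)) ^ i * c ≤ h (m * M * s * (j₀ + 1 + i)) := G3 i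
    have h2 := hup (m * s * (j₀ + 1 + i))
    have e1 : M * (m * s * (j₀ + 1 + i)) = m * M * s * (j₀ + 1 + i) := by ring
    rw [e1] at h2
    have h3 : (η ^ (m * M * s)) ^ i * c ≤ C₂ * ν ^ (m * s * (j₀ + 1 + i)) := le_trans h1 h2
    have e2 : (η ^ (m * M * s)) ^ i = (η ^ M) ^ (m * s * i) := by
      rw [← pow_mul, ← pow_mul]; congr 1; ring
    have e3 : C₂ * ν ^ (m * s * (j₀ + 1 + i)) = D * ν ^ (m * s * i) := by
      have e4 : m * s * (j₀ + 1 + i) = m * s * (j₀ + 1) + m * s * i := by ring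
      rw [hD, e4, pow_add]; ring
    rw [e2, e3] at h3
    rw [div_pow, div_mul_eq_mul_div, div_le_iff₀ (pow_pos hν _)]
    exact h3
  obtain ⟨n, hn⟩ := pow_unbounded_of_one_lt (D / c) hr
  have h1 := F n
  have h2 : (η ^ M / ν) ^ n ≤ (η ^ M / ν) ^ (m * s * n) := by
    apply pow_le_pow_right₀ hr.le
    have : 1 ≤ m * s := Nat.mul_pos hm hs
    nlinarith
  have h3 : D < (η ^ M / ν) ^ n * c := by rwa [div_lt_iff₀ hP] at hn
  have h4 : (η ^ M / ν) ^ n * c ≤ (η ^ M / ν) ^ (m * s * n) * c :=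
    mul_le_mul_of_nonneg_right h2 hP.le
  linarith

end Pool.Agent.Lib.MP_16285c_agZ
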