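import Pool.Agent.Lib.MP_16285c_agZ.Spec

/-!
# (R13) the height inequality
-/

set_option autoImplicit false

namespace Pool.Agent.Lib.MP_16285c_agZ

open Pool.Agent.Lib.MP_16285c_ag

namespace RecM

/-- The total degree of a finite sum. -/
lemma totalDegree_sum_le' {K : Type} [Field K] {ι : Type} (s : Finset ι) (f : ι → Pl K) (n : ℕ)
    (h : ∀ i ∈ s, (f i).totalDegree ≤ n) : (∑ i ∈ s, f i).totalDegree ≤ n := by
  classical
  induction s using Finset.induction_on with
  | empty => simp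
  | insert a s ha ih =>
    rw [Finset.sum_insert ha]
    refine (MvPolynomial.totalDegree_add _ _).trans (max_le ?_ ?_)
    · exact h a (Finset.mem_insert_self _ _)
    · exact ih fun i hi => h i (Finset.mem_insert_of_mem hi)

/-- All but finitely many combinations have the full degree. -/
lemma bad_finite {K : Type} [Field K] (F : Fin 3 → Pl K) (d : ℕ) (hd1 : 1 ≤ d)
    (hd : ∀ i, (F i).totalDegree ≤ d) (h : ∃ i, (F i).totalDegree = d) :
    {u : K | (∑ i, (![1, u, u ^ 2] : Fin 3 → K) i • F i).totalDegree ≠ d}.Finite := by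
  classical
  obtain ⟨r, hr⟩ := h
  have hFr : F r ≠ 0 := by
    intro h0
    rw [h0, MvPolynomial.totalDegree_zero] at hr
    omega
  obtain ⟨m, hm, hmd⟩ : ∃ m ∈ (F r).support, (m.sum fun _ e => e) = d := by
    have hne : (F r).support.Nonempty := MvPolynomial.support_nonempty.2 hFr
    obtain ⟨m, hm, hme⟩ := Finset.exists_mem_eq_sup (F r).support hne
      (fun s : Fin 2 →₀ ℕ => s.sum fun _ e => e)
    exact ⟨m, hm, by rw [← hme]; exact hr⟩
  let p : Polynomial K := Polynomial.C (MvPolynomial.coeff m (F 0)) +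
    Polynomial.C (MvPolynomial.coeff m (F 1)) * Polynomial.X +
    Polynomial.C (MvPolynomial.coeff m (F 2)) * Polynomial.X ^ 2
  have hp : p ≠ 0 := by
    intro hp0
    have h0 : MvPolynomial.coeff m (F 0) = 0 := by
      have := congrArg (fun q => Polynomial.coeff q 0) hp0
      simpa [p] using this
    have h1 : MvPolynomial.coeff m (F 1) = 0 := by
      have := congrArg (fun q => Polynomial.coeff q 1) hp0
      simpa [p, Polynomial.coeff_X_pow, Polynomial.coeff_C] using this
    have h2 : MvPolynomial.coeff m (F 2) = 0 := by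
      have := congrArg (fun q => Polynomial.coeff q 2) hp0
      simpa [p, Polynomial.coeff_X, Polynomial.coeff_C] using this
    have hmr : MvPolynomial.coeff m (F r) ≠ 0 := MvPolynomial.mem_support_iff.1 hm
    fin_cases r
    · exact hmr h0
    · exact hmr h1
    · exact hmr h2
  refine (Polynomial.finite_setOfPred_isRoot hp).subset ?_
  intro u hu
  by_contra hroot
  refine hu (le_antisymm ?_ ?_)
  · exact totalDegree_sum_le' _ _ _ fun i _ => (MvPolynomial.totalDegree_smul_le _ _).trans (hd i)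
  · rw [← hmd]
    refine MvPolynomial.le_totalDegree (MvPolynomial.mem_support_iff.2 ?_)
    intro hc
    refine hroot ?_
    have : Polynomial.eval u p = MvPolynomial.coeff m (∑ i, (![1, u, u ^ 2] : Fin 3 → K) i • F i) := by
      simp [p, Fin.sum_univ_three]
      ring
    show Polynomial.IsRoot p u
    rw [Polynomial.IsRoot.def, this, hc]

/-- Homogeneous with coefficients of bounded degree. -/
def Bd {K : Type} [Field K] (G : MvPolynomial (Fin 3) (Pl K)) (q P : ℕ) : Prop :=
  G.IsHomogeneous q ∧ ∀ α, (G.coeff α).totalDegree ≤ P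

lemma Bd.mul {K : Type} [Field K] {G H : MvPolynomial (Fin 3) (Pl K)} {q P q' P' : ℕ}
    (h : Bd G q P) (h' : Bd H q' P') : Bd (G * H) (q + q') (P + P') := by
  classical
  refine ⟨h.1.mul h'.1, fun α => ?_⟩
  rw [MvPolynomial.coeff_mul]
  refine totalDegree_sum_le' _ _ _ fun x _ => ?_
  exact (MvPolynomial.totalDegree_mul _ _).trans (add_le_add (h.2 _) (h'.2 _))

lemma Bd.prod {K : Type} [Field K] {ι : Type} (s : Finset ι) (G : ι → MvPolynomial (Fin 3) (Pl K))
    (q P : ℕ) (h : ∀ u ∈ s, Bd (G u) q P) : Bd (∏ u ∈ s, G u) (s.card * q) (s.card * P) := by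
  classical
  induction s using Finset.induction_on with
  | empty =>
    refine ⟨by simpa using MvPolynomial.isHomogeneous_one _ _, fun α => ?_⟩
    rw [Finset.prod_empty, MvPolynomial.coeff_one]
    split_ifs <;> simp
  | insert a s ha ih =>
    rw [Finset.prod_insert ha, Finset.card_insert_of_notMem ha, Nat.succ_mul, Nat.succ_mul,
      add_comm (s.card * q), add_comm (s.card * P)]
    exact (h a (Finset.mem_insert_self _ _)).mul
      (ih fun i hi => h i (Finset.mem_insert_of_mem hi))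

lemma Bd.C {K : Type} [Field K] (S : Pl K) (P : ℕ) (h : S.totalDegree ≤ P) :
    Bd (MvPolynomial.C S : MvPolynomial (Fin 3) (Pl K)) 0 P := by
  classical
  refine ⟨MvPolynomial.isHomogeneous_C _ _, fun α => ?_⟩
  rw [MvPolynomial.coeff_C]
  split_ifs
  · exact h
  · simp

/-- The degree of a value. -/
lemma Bd.eval {K : Type} [Field K] {G : MvPolynomial (Fin 3) (Pl K)} {q P D : ℕ}
    (h : Bd G q P) (Z : Fin 3 → Pl K) (hZ : ∀ i, (Z i).totalDegree ≤ D) :
    (MvPolynomial.eval Z G).totalDegree ≤ P + q * D := by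
  classical
  rw [MvPolynomial.eval_eq']
  refine totalDegree_sum_le' _ _ _ fun α hα => ?_
  refine (MvPolynomial.totalDegree_mul _ _).trans (add_le_add (h.2 _) ?_)
  refine (MvPolynomial.totalDegree_finsetProd _ _).trans ?_
  have hdeg : ∑ i, α i = q := by
    have := h.1 (MvPolynomial.mem_support_iff.1 hα)
    rw [Finsupp.weight_apply] at this
    simpa [Finsupp.sum_fintype] using this
  calc ∑ i, (Z i ^ α i).totalDegree ≤ ∑ i, α i * D :=
        Finset.sum_le_sum fun i _ =>
          (MvPolynomial.totalDegree_pow _ _).trans (Nat.mul_le_mul_left _ (hZ i))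
    _ = q * D := by rw [← Finset.sum_mul, hdeg]

lemma totalDegree_map_le' {K₀ K : Type} [Field K₀] [Field K] (φ : K₀ →+* K) (p : Pl K₀) :
    (MvPolynomial.map φ p).totalDegree ≤ p.totalDegree :=
  Finset.sup_mono (MvPolynomial.support_map_subset _ _)

/-- Base change and evaluation. -/
lemma eval_base {K₀ K : Type} [Field K₀] [Field K] [Algebra K₀ K] (x : Fin 2 → K)
    (Z : Fin 3 → Pl K₀) (H : MvPolynomial (Fin 3) (Pl K₀)) :
    MvPolynomial.eval (fun i => MvPolynomial.aeval x (Z i))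
      (MvPolynomial.map (MvPolynomial.eval x)
        (MvPolynomial.map (MvPolynomial.map (algebraMap K₀ K)) H)) =
      MvPolynomial.aeval x (MvPolynomial.eval Z H) := by
  have hcomp : (MvPolynomial.eval x).comp (MvPolynomial.map (algebraMap K₀ K)) =
      ((MvPolynomial.aeval x : Pl K₀ →ₐ[K₀] K) : Pl K₀ →+* K) := by
    refine MvPolynomial.ringHom_ext ?_ ?_
    · intro r
      simp
    · intro i
      simp
  rw [MvPolynomial.map_map, hcomp]
  have h : ((MvPolynomial.eval (fun i => MvPolynomial.aeval x (Z i))).comp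
      (MvPolynomial.map ((MvPolynomial.aeval x : Pl K₀ →ₐ[K₀] K) : Pl K₀ →+* K))) =
      ((MvPolynomial.aeval x : Pl K₀ →ₐ[K₀] K) : Pl K₀ →+* K).comp (MvPolynomial.eval Z) := by
    refine MvPolynomial.ringHom_ext ?_ ?_
    · intro r
      rw [RingHom.comp_apply, RingHom.comp_apply, MvPolynomial.map_C, MvPolynomial.eval_C,
        MvPolynomial.eval_C]
    · intro i
      rw [RingHom.comp_apply, RingHom.comp_apply, MvPolynomial.map_X, MvPolynomial.eval_X,
        MvPolynomial.eval_X]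
      rfl
  exact congrArg (fun φ => φ H) h

end RecM

/-- (R13). -/
theorem stmtRec : StmtSec → StmtLow3 → StmtUpB → StmtRec := by
  intro hSec hLow hUp K₀ _ _ ρ d D T F Q Z hSq hFd
  classical
  have hbad := RecM.bad_finite F d hSq.dpos hSq.degF hFd
  have hT := hSq.Tpos
  have hD := hSq.Dpos
  have hd := hSq.dpos
  obtain ⟨n, hn⟩ : ∃ n : ℕ, n = 2 * (T + D) := ⟨_, rfl⟩
  obtain ⟨s, hs, hscard⟩ : ∃ s : Finset K₀,
      (∀ u ∈ s, (∑ i, (![1, u, u ^ 2] : Fin 3 → K₀) i • F i).totalDegree = d) ∧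
        s.card = n + 2 := by
    have hinf : {u : K₀ | (∑ i, (![1, u, u ^ 2] : Fin 3 → K₀) i • F i).totalDegree = d}.Infinite := by
      have := hbad.infinite_compl
      refine this.mono ?_
      intro u hu
      simpa using hu
    obtain ⟨s, hsub, hcard⟩ := hinf.exists_subset_card_eq (n + 2)
    exact ⟨s, fun u hu => hsub hu, hcard⟩
  have hsec : ∀ u : K₀, u ∈ s → ∃ i₀ : ℕ, ∀ i, i₀ ≤ i →
      ∃ G : MvPolynomial (Fin 3) (Pl K₀), G.IsHomogeneous (4 * d * i) ∧
      (∀ α, (G.coeff α).totalDegree ≤ 4 * d * i * T) ∧ MvPolynomial.eval Z G ≠ 0 ∧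
      (∑ j, (![1, u, u ^ 2] : Fin 3 → K₀) j • F j) ^ (D * i) ∣ MvPolynomial.eval Z G :=
    fun u hu => hSec K₀ ρ d D T F Q Z hSq ![1, u, u ^ 2] (hs u hu)
  choose! i₀ hi₀ using hsec
  obtain ⟨i, hi1, hi2⟩ : ∃ i : ℕ, 1 ≤ i ∧ ∀ u ∈ s, i₀ u ≤ i :=
    ⟨max 1 (s.sup i₀), le_max_left _ _, fun u hu => le_max_of_le_right (Finset.le_sup hu)⟩
  have hG := fun (u : K₀) (hu : u ∈ s) => hi₀ u hu i (hi2 u hu)
  choose! G hGhom hGdeg hGne hGdvd using hG
  choose! S hS using hGdvd
  obtain ⟨j, hj⟩ : ∃ j : ℕ, j = 4 * d * i := ⟨_, rfl⟩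
  have hBd : ∀ u ∈ s, RecM.Bd (G u) j (j * T) := fun u hu => by
    subst hj
    exact ⟨hGhom u hu, hGdeg u hu⟩
  have hSne : ∀ u ∈ s, S u ≠ 0 := fun u hu h0 => hGne u hu (by rw [hS u hu, h0, mul_zero])
  have hSdeg : ∀ u ∈ s, (S u).totalDegree ≤ j * T + j * D := fun u hu => by
    have h1 := (hBd u hu).eval Z hSq.degZ
    rw [hS u hu] at h1
    have hΛ : (∑ j, (![1, u, u ^ 2] : Fin 3 → K₀) j • F j) ^ (D * i) ≠ 0 := by
      intro h0
      exact hGne u hu (by rw [hS u hu, h0, zero_mul])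
    rw [MvPolynomial.totalDegree_mul_of_isDomain hΛ (hSne u hu)] at h1
    omega
  let H : Finset K₀ → MvPolynomial (Fin 3) (Pl K₀) := fun t =>
    (∏ u ∈ t, G u) * ∏ u ∈ s \ t, MvPolynomial.C (S u)
  obtain ⟨P, hP⟩ : ∃ P : ℕ, P = n * (j * T) + 2 * (j * T + j * D) := ⟨_, rfl⟩
  have hHBd : ∀ t ∈ Finset.powersetCard n s, RecM.Bd (H t) (n * j) P := by
    intro t ht
    rw [Finset.mem_powersetCard] at ht
    have h1 := RecM.Bd.prod t G j (j * T) fun u hu => hBd u (ht.1 hu)
    have h2 := RecM.Bd.prod (s \ t) (fun u => MvPolynomial.C (S u)) 0 (j * T + j * D)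
      fun u hu => RecM.Bd.C _ _ (hSdeg u (Finset.mem_sdiff.1 hu).1)
    have hc : (s \ t).card = 2 := by
      rw [Finset.card_sdiff_of_subset ht.1, hscard, ht.2]
      omega
    have h3 := h1.mul h2
    rw [ht.2, hc] at h3
    rw [hP]
    simpa using h3
  have hHval : ∀ t ∈ Finset.powersetCard n s, MvPolynomial.eval Z (H t) =
      (∏ u ∈ t, (∑ j, (![1, u, u ^ 2] : Fin 3 → K₀) j • F j)) ^ (D * i) * ∏ u ∈ s, S u := by
    intro t ht
    rw [Finset.mem_powersetCard] at ht
    simp only [H, map_mul, map_prod, MvPolynomial.eval_C]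
    rw [Finset.prod_congr rfl fun u hu => hS u (ht.1 hu), Finset.prod_mul_distrib,
      Finset.prod_pow, mul_assoc, ← Finset.prod_sdiff ht.1]
    ring
  refine ⟨∏ u ∈ s, S u, Finset.prod_ne_zero_iff.2 hSne, ?_⟩
  intro K _ _ _
  obtain ⟨C₁, hC₁⟩ := hLow K₀ s n (by omega) K
  obtain ⟨C₂, hC₂⟩ := hUp K ↥(Finset.powersetCard n s) P (n * j)
    (fun t => MvPolynomial.map (MvPolynomial.map (algebraMap K₀ K)) (H t))
    (fun t => (hHBd t.1 t.2).1.map _)
    (fun t α => by
      rw [MvPolynomial.coeff_map]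
      exact (RecM.totalDegree_map_le' _ _).trans ((hHBd t.1 t.2).2 α))
  refine ⟨(C₂ + (D * i : ℕ) * C₁) / ((n : ℝ) * i), fun x hx => ?_⟩
  set a : Fin 3 → K := fun i => MvPolynomial.aeval x (F i) with ha
  set z : Fin 3 → K := fun i => MvPolynomial.aeval x (Z i) with hz
  have hup := hC₂ x z
  have hlow := hC₁ a
  set w : ↥(Finset.powersetCard n s) → K := fun t => ∏ u ∈ (t : Finset K₀), lu (algebraMap K₀ K u) a
    with hw
  have hval : (fun t : ↥(Finset.powersetCard n s) => MvPolynomial.eval z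
      (MvPolynomial.map (MvPolynomial.eval x)
        (MvPolynomial.map (MvPolynomial.map (algebraMap K₀ K)) (H t)))) =
      (MvPolynomial.aeval x (∏ u ∈ s, S u)) • (w ^ (D * i)) := by
    funext t
    rw [hz, RecM.eval_base, hHval t.1 t.2, map_mul, map_pow, map_prod, Pi.smul_apply, Pi.pow_apply,
      smul_eq_mul, mul_comm]
    congr 2
    rw [hw]
    refine Finset.prod_congr rfl fun u _ => ?_
    simp [lu, ha, Fin.sum_univ_three, Algebra.smul_def]
  rw [hval, Height.logHeight_smul_eq_logHeight _ hx, Height.logHeight_pow] at hup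
  have hhx := Height.logHeight_nonneg (hc x)
  have hnpos : (0 : ℝ) < (n : ℝ) * i := by
    have : 0 < n * i := Nat.mul_pos (by omega) hi1
    exact_mod_cast this
  have hnR : (n : ℝ) = 2 * (T + D) := by rw [hn]; push_cast; ring
  have hPR : (P : ℝ) = n * (4 * d * i * T) + 2 * (4 * d * i * T + 4 * d * i * D) := by
    rw [hP, hj]; push_cast; ring
  have hjR : ((n * j : ℕ) : ℝ) = n * (4 * d * i) := by rw [hj]; push_cast; ring
  rw [hPR, hjR] at hup
  have hT' : (1 : ℝ) ≤ T := by exact_mod_cast hT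
  have key : ((D * i : ℕ) : ℝ) * (n * Height.logHeight a) ≤
      ((D * i : ℕ) : ℝ) * (Height.logHeight w + C₁) :=
    mul_le_mul_of_nonneg_left hlow (Nat.cast_nonneg _)
  have hP2 : (n : ℝ) * (4 * d * i * T) + 2 * (4 * d * i * T + 4 * d * i * D) =
      (n * i) * (4 * d * (T + 1)) := by
    rw [hnR]; ring
  rw [hP2] at hup
  push_cast at key hup ⊢
  have hd' : (0 : ℝ) ≤ d := Nat.cast_nonneg _
  have h4 : (n * i : ℝ) * (4 * d * (T + 1)) * Height.logHeight (hc x) ≤
      (n * i : ℝ) * (4 * d * (2 * T)) * Height.logHeight (hc x) := by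
    refine mul_le_mul_of_nonneg_right ?_ hhx
    refine mul_le_mul_of_nonneg_left ?_ hnpos.le
    refine mul_le_mul_of_nonneg_left ?_ (by positivity)
    linarith
  have hfin : (n * i : ℝ) * (D * Height.logHeight a) ≤
      (n * i : ℝ) * (4 * d * (Height.logHeight z + 2 * T * Height.logHeight (hc x)) +
        (C₂ + D * i * C₁) / (n * i)) := by
    have h5 : (n * i : ℝ) * ((C₂ + D * i * C₁) / (n * i)) = C₂ + D * i * C₁ :=
      mul_div_cancel₀ _ hnpos.ne'
    rw [mul_add, h5]
    linarith [key, hup, h4]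
  exact le_of_mul_le_mul_left hfin hnpos

end Pool.Agent.Lib.MP_16285c_agZ
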