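import Pool.Agent.Lib.MP_16285c_agZ.Spec2
import Pool.Agent.Lib.MP_16285c_agZ.KLV.Spec

/-!
# The recursive inequality for orbits
-/

set_option autoImplicit false

namespace Pool.Agent.Lib.MP_16285c_agZ

open Pool.Agent.Lib.MP_16285c_ag

namespace RecVM

theorem it_two_mul {K : Type} [Field K] (σ : RF K →ₐ[K] RF K) (m : ℕ) (i : Fin 2) :
    it σ (2 * m) i = (σ ^ m) (it σ m i) := by
  change (σ ^ (2 * m)) (gen K i) = (σ ^ m) ((σ ^ m) (gen K i))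
  rw [two_mul, pow_add, AlgHom.mul_apply]

theorem eval_map' {K₀ K : Type} [Field K₀] [Field K] [Algebra K₀ K] (x : Fin 2 → K) (G : Pl K₀) :
    MvPolynomial.eval x (MvPolynomial.map (algebraMap K₀ K) G) = MvPolynomial.aeval x G := by
  rw [MvPolynomial.eval_map, MvPolynomial.aeval_def]

/-- The values of a representative of an iterate along an orbit. -/
theorem value (hVal : SVal) {K₀ K : Type} [Field K₀] [Field K] [Algebra K₀ K]
    (σ₀ : RF K₀ →ₐ[K₀] RF K₀) (σ : RF K →ₐ[K] RF K) (hc' : Cmp σ₀ σ) (j : ℕ)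
    (W : Fin 3 → Pl K₀) (hW : Wk (it σ₀ j) W) (x : ℕ → Fin 2 → K) (hx : Flow σ x) (n : ℕ)
    (h0 : MvPolynomial.aeval (x n) (W 0) ≠ 0) :
    (fun i => MvPolynomial.aeval (x n) (W i)) =
      (MvPolynomial.aeval (x n) (W 0) : K) • hc (x (n + j)) := by
  obtain ⟨-, h2, -, -, -, h6⟩ := hVal
  have hV : Val (σ ^ j) (x n) (x (n + j)) := h2 K σ x hx j n
  funext i
  refine Fin.cases ?_ (fun i => ?_) i
  · rw [Pi.smul_apply, smul_eq_mul]
    change _ = _ * (1 : K)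
    rw [mul_one]
  · have hE : MvPolynomial.eval (x n) (MvPolynomial.map (algebraMap K₀ K) (W 0)) ≠ 0 := by
      rw [eval_map']
      exact h0
    have hN : fr (MvPolynomial.map (algebraMap K₀ K) (W i.succ)) =
        fr (MvPolynomial.map (algebraMap K₀ K) (W 0)) * (σ ^ j) (fr (MvPolynomial.X i)) := by
      have e1 : (σ ^ j) (fr (MvPolynomial.X i)) = bc K₀ K (it σ₀ j i) := cmp_it hc' j i
      rw [e1, ← bc_fr, ← bc_fr, hW.eq i, map_mul, mul_comm]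
    have h := h6 K (σ ^ j) (x n) (x (n + j)) (MvPolynomial.X i) _ _ hV hE hN
    rw [eval_map', eval_map', MvPolynomial.eval_X] at h
    rw [Pi.smul_apply, smul_eq_mul]
    change _ = _ * (x (n + j) i)
    exact h

theorem sq (hTp : STpPow) {K₀ : Type} [Field K₀] (σ₀ : RF K₀ →ₐ[K₀] RF K₀) (m : ℕ)
    (htp : 1 ≤ tp σ₀) (hd : 1 ≤ dg (it σ₀ m)) (hD : 1 ≤ dg (it σ₀ (2 * m)))
    (F Z : Fin 3 → Pl K₀) (hF : Rep (it σ₀ m) F) (hFd : ∀ i, (F i).totalDegree ≤ dg (it σ₀ m))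
    (hZ : Rep (it σ₀ (2 * m)) Z) (hZd : ∀ i, (Z i).totalDegree ≤ dg (it σ₀ (2 * m)))
    (hZt : ∃ i, (Z i).totalDegree = dg (it σ₀ (2 * m))) :
    Sq (σ₀ ^ m) (dg (it σ₀ m)) (dg (it σ₀ (2 * m))) (tp σ₀ ^ m) F F Z where
  dpos := hd
  Dpos := hD
  Tpos := Nat.one_le_pow _ _ htp
  tpT := hTp.2.1 K₀ σ₀ m
  repF := hF
  degF := hFd
  Qne := hF.ne
  degQ := hFd
  Zne := hZ.ne
  Zeq := by
    intro i
    refine Fin.cases ?_ (fun i => ?_) i
    · exact mul_comm _ _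
    · rw [hZ.eq i, hF.eq i, map_mul, it_two_mul]
      ring
  Zcop := hZ.cop
  degZ := hZd
  topZ := hZt

theorem arith (d D T h0 h1 h2 C : ℝ) (hd : 0 < d)
    (h : D * h1 ≤ 4 * d * (h2 + 2 * T * h0) + C) :
    D / (4 * d) * h1 ≤ h2 + 2 * T * h0 + C / (4 * d) := by
  have hd4 : 0 < 4 * d := by linarith
  have e1 : D / (4 * d) * h1 = D * h1 / (4 * d) := by ring
  rw [e1, div_le_iff₀ hd4]
  have e2 : (h2 + 2 * T * h0 + C / (4 * d)) * (4 * d) = 4 * d * (h2 + 2 * T * h0) + C := by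
    field_simp
  rw [e2]
  exact h

end RecVM

/-- `StmtRecV`. -/
theorem stmtRecV : StmtRec → SRep → STpPow → SVal → StmtRecV := by
  intro hRec hRep hTp hVal K₀ _ _ σ₀ m htp hd hD
  obtain ⟨F, hF, hFd, hFt⟩ := hRep.1 K₀ (it σ₀ m)
  obtain ⟨Z, hZ, hZd, hZt⟩ := hRep.1 K₀ (it σ₀ (2 * m))
  have hSq := RecVM.sq hTp σ₀ m htp hd hD F Z hF hFd hZ hZd hZt
  obtain ⟨B', hB', hB⟩ := hRec K₀ (σ₀ ^ m) _ _ _ F F Z hSq hFt
  refine ⟨B' * F 0 * Z 0, mul_ne_zero (mul_ne_zero hB' hF.ne) hZ.ne, ?_⟩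
  intro K _ _ _ σ hcmp
  obtain ⟨C, hC⟩ := hB K
  refine ⟨C / (4 * (dg (it σ₀ m) : ℝ)), ?_⟩
  intro x hx n hn
  rw [map_mul, map_mul] at hn
  have hn1 := left_ne_zero_of_mul (left_ne_zero_of_mul hn)
  have hn2 := right_ne_zero_of_mul (left_ne_zero_of_mul hn)
  have hn3 := right_ne_zero_of_mul hn
  have h := hC (x n) hn1
  rw [RecVM.value hVal σ₀ σ hcmp m F hF.toWk x hx n hn2,
    RecVM.value hVal σ₀ σ hcmp (2 * m) Z hZ.toWk x hx n hn3,
    Height.logHeight_smul_eq_logHeight _ hn2, Height.logHeight_smul_eq_logHeight _ hn3,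
    Nat.cast_pow] at h
  have hdpos : (0 : ℝ) < (dg (it σ₀ m) : ℝ) := by exact_mod_cast hd
  exact RecVM.arith _ _ _ _ _ _ _ hdpos h

end Pool.Agent.Lib.MP_16285c_agZ
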