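import Pool.Agent.Lib.MP_16285c_agZ.Spec

/-!
# Sections vanishing to high order along `l(F) = 0`
-/

set_option autoImplicit false

namespace Pool.Agent.Lib.MP_16285c_agZ

open Pool.Agent.Lib.MP_16285c_ag

namespace SecAM

section basic

variable {K : Type} [Field K]

theorem fr_inj {G H : Pl K} (h : fr G = fr H) : G = H :=
  IsFractionRing.injective (MvPolynomial (Fin 2) K) (FractionRing (MvPolynomial (Fin 2) K)) h

theorem fr_zero : fr (0 : Pl K) = 0 := map_zero _

theorem fr_one : fr (1 : Pl K) = 1 := map_one _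

theorem fr_ne {G : Pl K} (h : G ≠ 0) : fr G ≠ 0 := fun h0 => h (fr_inj (h0.trans fr_zero.symm))

theorem fr_mul (G H : Pl K) : fr (G * H) = fr G * fr H := map_mul _ _ _

theorem fr_add (G H : Pl K) : fr (G + H) = fr G + fr H := map_add _ _ _

theorem fr_pow (G : Pl K) (n : ℕ) : fr (G ^ n) = fr G ^ n := map_pow _ _ _

theorem fr_smul (c : K) (G : Pl K) : fr (c • G) = c • fr G := by
  rw [Algebra.smul_def, fr_mul, Algebra.smul_def,
    IsScalarTower.algebraMap_apply K (MvPolynomial (Fin 2) K) (RF K)]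

theorem aeval_eq (ρ : RF K →ₐ[K] RF K) (G : Pl K) :
    MvPolynomial.aeval (fun i => ρ (gen K i)) G = ρ (fr G) := by
  have h : (MvPolynomial.aeval (fun i => ρ (gen K i)) : MvPolynomial (Fin 2) K →ₐ[K] RF K) =
      ρ.comp (IsScalarTower.toAlgHom K (MvPolynomial (Fin 2) K) (RF K)) := by
    apply MvPolynomial.algHom_ext
    intro i
    rw [MvPolynomial.aeval_X]
    rfl
  exact congrArg (fun u : MvPolynomial (Fin 2) K →ₐ[K] RF K => u G) h

/-- Linear forms. -/
theorem lin_rho (ρ : RF K →ₐ[K] RF K) (l : Fin 3 → K) :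
    ρ (fr (∑ i, l i • hc (fun i => (MvPolynomial.X i : Pl K)) i)) =
      ∑ i, l i • hc (fun i => ρ (gen K i)) i := by
  rw [Fin.sum_univ_three, Fin.sum_univ_three, fr_add, fr_add, fr_smul, fr_smul, fr_smul, map_add,
    map_add, map_smul, map_smul, map_smul]
  have h0 : ρ (fr (hc (fun i => (MvPolynomial.X i : Pl K)) 0)) = hc (fun i => ρ (gen K i)) 0 := by
    change ρ (fr 1) = 1
    rw [fr_one, map_one]
  rw [h0]
  rfl

theorem lin_F (ρ : RF K →ₐ[K] RF K) (F : Fin 3 → Pl K) (hF : Rep (fun i => ρ (gen K i)) F)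
    (l : Fin 3 → K) :
    (∑ i, l i • hc (fun i => ρ (gen K i)) i) * fr (F 0) = fr (∑ i, l i • F i) := by
  rw [Fin.sum_univ_three, Fin.sum_univ_three, fr_add, fr_add, fr_smul, fr_smul, fr_smul]
  have h1 : fr (F 1) = ρ (gen K 0) * fr (F 0) := hF.eq 0
  have h2 : fr (F 2) = ρ (gen K 1) * fr (F 0) := hF.eq 1
  rw [h1, h2]
  change (l 0 • (1 : RF K) + l 1 • ρ (gen K 0) + l 2 • ρ (gen K 1)) * fr (F 0) = _
  simp only [Algebra.smul_def]
  ring

end basic

section incl

variable {K : Type} [Field K]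

/-- The generators of the space `V`. -/
noncomputable def VS (κ : IntermediateField K (RF K)) (η : RF K) (p r : ℕ) : Submodule κ (RF K) :=
  Submodule.span κ {w | ∃ i a s : ℕ, i + a ≤ p ∧ s ≤ r ∧ w = gen K 1 ^ i * gen K 0 ^ a * η ^ s}

theorem vs_mul (κ : IntermediateField K (RF K)) (η : RF K) (p r : ℕ) (g : Pl K)
    (hg : g.totalDegree ≤ p) (R : Polynomial κ) (hR : R.natDegree ≤ r) :
    fr g * Polynomial.aeval η R ∈ VS κ η p r := by
  have h1 : fr g = ∑ m ∈ g.support, (g.coeff m) • (gen K 1 ^ m 1 * gen K 0 ^ m 0) := by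
    conv_lhs => rw [g.as_sum]
    refine (map_sum (algebraMap (MvPolynomial (Fin 2) K) (FractionRing (MvPolynomial (Fin 2) K)))
      _ _).trans ?_
    refine Finset.sum_congr rfl fun m _ => ?_
    have h2 : (MvPolynomial.monomial m (g.coeff m) : Pl K) =
        (g.coeff m) • ((MvPolynomial.X 1) ^ m 1 * (MvPolynomial.X 0) ^ m 0) := by
      rw [MvPolynomial.monomial_eq, MvPolynomial.smul_eq_C_mul, Finsupp.prod_fintype _ _ (by simp),
        Fin.prod_univ_two]
      ring
    rw [h2]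
    change fr _ = _
    rw [fr_smul, fr_mul, fr_pow, fr_pow]
    rfl
  rw [h1, Polynomial.aeval_eq_sum_range' (Nat.lt_succ_of_le hR), Finset.sum_mul]
  refine Submodule.sum_mem _ fun m hm => ?_
  rw [Finset.mul_sum]
  refine Submodule.sum_mem _ fun k hk => ?_
  have h3 : (g.coeff m) • (gen K 1 ^ m 1 * gen K 0 ^ m 0) * (R.coeff k • η ^ k) =
      (algebraMap K κ (g.coeff m) * R.coeff k) • (gen K 1 ^ m 1 * gen K 0 ^ m 0 * η ^ k) := by
    simp only [Algebra.smul_def, map_mul]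
    rw [← IsScalarTower.algebraMap_apply K κ (RF K)]
    ring
  rw [h3]
  refine Submodule.smul_mem _ _ (Submodule.subset_span ⟨m 1, m 0, k, ?_, ?_, rfl⟩)
  · have h4 := MvPolynomial.le_totalDegree hm
    rw [Finsupp.sum_fintype _ _ (by simp), Fin.sum_univ_two] at h4
    omega
  · rw [Finset.mem_range] at hk
    omega

theorem incl (κ : IntermediateField K (RF K)) (η : RF K) (d : ℕ) (A B : Polynomial κ)
    (hA : A.natDegree ≤ d) (hB : B.natDegree ≤ d) (z₀ z₁ : Pl K)
    (hB0 : Polynomial.aeval η B ≠ 0)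
    (hz : fr z₁ * Polynomial.aeval η B = fr z₀ * Polynomial.aeval η A) (p j : ℕ) :
    ∀ w ∈ Rj z₀ z₁ p j, fr w ∈ (VS κ η p (j * d)).map
      (LinearMap.mulLeft κ (fr z₀ ^ j / (Polynomial.aeval η B) ^ j)) := by
  intro w hw
  induction hw using Submodule.span_induction with
  | zero => rw [fr_zero]; exact Submodule.zero_mem _
  | add x y _ _ hx hy => rw [fr_add]; exact Submodule.add_mem _ hx hy
  | smul c x _ hx =>
    rw [fr_smul]
    have h1 : c • fr x = algebraMap K κ c • fr x := by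
      rw [Algebra.smul_def, Algebra.smul_def, ← IsScalarTower.algebraMap_apply K κ (RF K)]
    rw [h1]
    exact Submodule.smul_mem _ _ hx
  | mem x hx =>
    obtain ⟨g, s, hg, hs, rfl⟩ := hx
    refine ⟨fr g * Polynomial.aeval η (A ^ s * B ^ (j - s)), ?_, ?_⟩
    · apply vs_mul κ η p (j * d) g hg
      refine Polynomial.natDegree_mul_le.trans ?_
      have h1 : (A ^ s).natDegree ≤ s * d :=
        Polynomial.natDegree_pow_le.trans (Nat.mul_le_mul_left _ hA)
      have h2 : (B ^ (j - s)).natDegree ≤ (j - s) * d :=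
        Polynomial.natDegree_pow_le.trans (Nat.mul_le_mul_left _ hB)
      have h3 : s * d + (j - s) * d = j * d := by
        rw [← add_mul]
        congr 1
        omega
      omega
    · rw [LinearMap.mulLeft_apply, fr_mul, fr_mul, fr_pow, fr_pow, map_mul, map_pow, map_pow]
      have h1 : fr z₁ = fr z₀ * Polynomial.aeval η A / Polynomial.aeval η B := by
        rw [eq_div_iff hB0, hz]
      have h2 : fr z₀ ^ j = fr z₀ ^ (j - s) * fr z₀ ^ s := by rw [← pow_add]; congr 1; omega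
      have h3 : Polynomial.aeval η B ^ j = Polynomial.aeval η B ^ (j - s) * Polynomial.aeval η B ^ s := by
        rw [← pow_add]; congr 1; omega
      rw [h1, h2, h3, div_pow, mul_pow]
      have hBs := pow_ne_zero s hB0
      have hBjs := pow_ne_zero (j - s) hB0
      field_simp

theorem vs_fin (κ : IntermediateField K (RF K)) (η : RF K) (p r : ℕ) :
    Module.Finite κ (VS κ η p r) := by
  classical
  apply FiniteDimensional.span_of_finite
  refine ((Finset.range (p + 1) ×ˢ (Finset.range (p + 1) ×ˢ Finset.range (r + 1))).image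
    fun x : ℕ × ℕ × ℕ => gen K 1 ^ x.1 * gen K 0 ^ x.2.1 * η ^ x.2.2).finite_toSet.subset ?_
  rintro w ⟨i, a, s, h1, h2, rfl⟩
  rw [Finset.coe_image]
  refine ⟨(i, a, s), ?_, rfl⟩
  rw [Finset.mem_coe]
  simp only [Finset.mem_product, Finset.mem_range]
  omega

end incl

section form

variable {K : Type} [Field K]

/-- Elements of `Rj` are values of forms. -/
theorem form (Z : Fin 3 → Pl K) (ζ ζ' : Fin 3 → K) (p j : ℕ) :
    ∀ S ∈ Rj (∑ i, ζ i • Z i) (∑ i, ζ' i • Z i) p j, ∃ G : MvPolynomial (Fin 3) (Pl K),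
      G.IsHomogeneous j ∧ (∀ α, (G.coeff α).totalDegree ≤ p) ∧ MvPolynomial.eval Z G = S := by
  intro S hS
  induction hS using Submodule.span_induction with
  | zero =>
    refine ⟨0, MvPolynomial.isHomogeneous_zero _ _ _, fun α => ?_, map_zero _⟩
    rw [MvPolynomial.coeff_zero, MvPolynomial.totalDegree_zero]
    exact Nat.zero_le _
  | add x y _ _ hx hy =>
    obtain ⟨G, h1, h2, h3⟩ := hx
    obtain ⟨G', h1', h2', h3'⟩ := hy
    refine ⟨G + G', h1.add h1', fun α => ?_, by rw [map_add, h3, h3']⟩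
    rw [MvPolynomial.coeff_add]
    exact (MvPolynomial.totalDegree_add _ _).trans (max_le (h2 α) (h2' α))
  | smul c x _ hx =>
    obtain ⟨G, h1, h2, h3⟩ := hx
    refine ⟨MvPolynomial.C (MvPolynomial.C c) * G, ?_, fun α => ?_, ?_⟩
    · have h4 := (MvPolynomial.isHomogeneous_C (Fin 3) (MvPolynomial.C c : Pl K)).mul h1
      rwa [zero_add] at h4
    · rw [MvPolynomial.coeff_C_mul]
      refine (MvPolynomial.totalDegree_mul _ _).trans ?_
      rw [MvPolynomial.totalDegree_C, zero_add]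
      exact h2 α
    · rw [map_mul, MvPolynomial.eval_C, h3, MvPolynomial.smul_eq_C_mul]
  | mem x hx =>
    obtain ⟨g, s, hg, hs, rfl⟩ := hx
    let H : MvPolynomial (Fin 3) K := (∑ i, MvPolynomial.C (ζ i) * MvPolynomial.X i) ^ (j - s) *
      (∑ i, MvPolynomial.C (ζ' i) * MvPolynomial.X i) ^ s
    have hlin : ∀ u : Fin 3 → K, (∑ i, MvPolynomial.C (u i) * MvPolynomial.X i :
        MvPolynomial (Fin 3) K).IsHomogeneous 1 := by
      intro u
      refine MvPolynomial.IsHomogeneous.sum _ _ _ fun i _ => ?_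
      have h4 := (MvPolynomial.isHomogeneous_C (Fin 3) (u i)).mul (MvPolynomial.isHomogeneous_X K i)
      rwa [zero_add] at h4
    have hH : H.IsHomogeneous j := by
      have h4 := ((hlin ζ).pow (j - s)).mul ((hlin ζ').pow s)
      have h5 : 1 * (j - s) + 1 * s = j := by omega
      rwa [h5] at h4
    have hev : ∀ u : Fin 3 → K, MvPolynomial.eval Z (MvPolynomial.map MvPolynomial.C
        (∑ i, MvPolynomial.C (u i) * MvPolynomial.X i : MvPolynomial (Fin 3) K)) = ∑ i, u i • Z i := by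
      intro u
      rw [map_sum, map_sum]
      refine Finset.sum_congr rfl fun i _ => ?_
      rw [map_mul, map_mul, MvPolynomial.map_C, MvPolynomial.map_X, MvPolynomial.eval_C,
        MvPolynomial.eval_X, MvPolynomial.smul_eq_C_mul]
    refine ⟨MvPolynomial.C g * MvPolynomial.map MvPolynomial.C H, ?_, fun α => ?_, ?_⟩
    · have h4 := (MvPolynomial.isHomogeneous_C (Fin 3) g).mul (hH.map MvPolynomial.C)
      rwa [zero_add] at h4
    · rw [MvPolynomial.coeff_C_mul, MvPolynomial.coeff_map]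
      refine (MvPolynomial.totalDegree_mul _ _).trans ?_
      rw [MvPolynomial.totalDegree_C, add_zero]
      exact hg
    · rw [map_mul, MvPolynomial.eval_C, map_mul, map_mul, map_pow, map_pow, map_pow, map_pow, hev, hev]
      ring

end form

theorem lin_deg {K : Type} [Field K] (F : Fin 3 → Pl K) (d : ℕ) (hF : ∀ i, (F i).totalDegree ≤ d)
    (u : Fin 3 → K) : (∑ i, u i • F i).totalDegree ≤ d := by
  rw [Fin.sum_univ_three]
  refine (MvPolynomial.totalDegree_add _ _).trans (max_le ?_ ?_)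
  · refine (MvPolynomial.totalDegree_add _ _).trans (max_le ?_ ?_)
    · exact (MvPolynomial.totalDegree_smul_le _ _).trans (hF 0)
    · exact (MvPolynomial.totalDegree_smul_le _ _).trans (hF 1)
  · exact (MvPolynomial.totalDegree_smul_le _ _).trans (hF 2)

theorem num (d D T i C fV fW : ℕ) (hd : 1 ≤ d) (hD : 1 ≤ D) (hT : 1 ≤ T) (hi : C + 5 * D + 1 ≤ i)
    (h1 : fV ≤ 4 * d * i * T * d + 4 * d * i * d * T + C)
    (h2 : (4 * d * i + 1) * D * (4 * d * i * T) ≤ fW + (4 * d * i + 1) * D ^ 2) :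
    D * i * fV < fW := by
  have hi0 : 1 ≤ i := by omega
  have hdi : 1 ≤ d * i := Nat.mul_pos hd hi0
  have e1 : D * i * fV ≤ 8 * (d ^ 2 * i ^ 2 * D * T) + D * i * C := by
    refine (Nat.mul_le_mul_left _ h1).trans (le_of_eq ?_)
    ring
  have e2 : D * i * C ≤ d ^ 2 * i ^ 2 * D * T := by
    have a1 : C ≤ i := by omega
    have a2 : 1 ≤ d ^ 2 * T := Nat.mul_pos (Nat.pow_pos hd) hT
    calc D * i * C ≤ D * i * i := Nat.mul_le_mul_left _ a1
      _ = D * i ^ 2 * 1 := by ring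
      _ ≤ D * i ^ 2 * (d ^ 2 * T) := Nat.mul_le_mul_left _ a2
      _ = d ^ 2 * i ^ 2 * D * T := by ring
  have e3 : (4 * d * i + 1) * D ^ 2 ≤ d ^ 2 * i ^ 2 * D * T := by
    have a1 : 4 * d * i + 1 ≤ 5 * (d * i) := by
      have : 4 * d * i = 4 * (d * i) := by ring
      omega
    have a2 : 5 * D ≤ i := by omega
    have a3 : 1 ≤ d * T := Nat.mul_pos hd hT
    calc (4 * d * i + 1) * D ^ 2 ≤ 5 * (d * i) * D ^ 2 := Nat.mul_le_mul_right _ a1
      _ = d * i * D * (5 * D) := by ring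
      _ ≤ d * i * D * i := Nat.mul_le_mul_left _ a2
      _ = d * i ^ 2 * D * 1 := by ring
      _ ≤ d * i ^ 2 * D * (d * T) := Nat.mul_le_mul_left _ a3
      _ = d ^ 2 * i ^ 2 * D * T := by ring
  have e4 : 16 * (d ^ 2 * i ^ 2 * D * T) ≤ (4 * d * i + 1) * D * (4 * d * i * T) := by
    have : (4 * d * i + 1) * D * (4 * d * i * T) =
        16 * (d ^ 2 * i ^ 2 * D * T) + 4 * d * i * D * T := by ring
    omega
  have e5 : 0 < d ^ 2 * i ^ 2 * D * T := by positivity
  omega

end SecAM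

open SecAM in
theorem stmtSecA : StmtGen → StmtDim → StmtSub → StmtHF → StmtFldX → StmtFldE → StmtChart →
    StmtSecA := by
  intro hGen hDim hSub hHF hX hE hCh K _ _ ρ d D T F Q Z hSq hy l hl
  set Λ := ∑ i, l i • F i with hΛ
  have hd := hSq.dpos
  have hD := hSq.Dpos
  have hΛ0 : Λ ≠ 0 := by
    intro h
    rw [h, MvPolynomial.totalDegree_zero] at hl
    omega
  obtain ⟨i1, hi1⟩ := hy
  obtain ⟨l', l'', hli, hlv, hrel⟩ := hGen K F hSq.repF.cop l hΛ0
    (fun i => MvPolynomial.coeff (Finsupp.single 1 d) (F i)) (fun h => hi1 (congrFun h i1))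
  set Λ' := ∑ i, l' i • F i with hΛ'
  have hcoef : MvPolynomial.coeff (Finsupp.single 1 d) Λ' ≠ 0 := by
    rw [hΛ', MvPolynomial.coeff_sum]
    simpa only [MvPolynomial.coeff_smul, smul_eq_mul] using hlv
  have hΛ'0 : Λ' ≠ 0 := by
    intro h
    rw [h, MvPolynomial.coeff_zero] at hcoef
    exact hcoef rfl
  have hΛ'd : Λ'.totalDegree ≤ d := lin_deg F d hSq.degF l'
  set a : Fin 2 → RF K := fun i => ρ (gen K i) with ha
  have hF0 : fr (F 0) ≠ 0 := fr_ne hSq.repF.ne
  have hlF : ∀ u : Fin 3 → K, (∑ i, u i • hc a i) * fr (F 0) = fr (∑ i, u i • F i) :=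
    lin_F ρ F hSq.repF
  have hdiv : ∀ u : Fin 3 → K, fr (∑ i, u i • F i) / fr Λ' =
      (∑ i, u i • hc a i) / ∑ i, l' i • hc a i := by
    intro u
    rw [← hlF, hΛ', ← hlF, mul_div_mul_right _ _ hF0]
  set t := fr Λ / fr Λ' with ht
  set η := fr (∑ i, l'' i • F i) / fr Λ' with hη
  set κ : IntermediateField K (RF K) := IntermediateField.adjoin K {t} with hκ
  obtain ⟨hx1, hx2, hx3, c, hc1, hc2⟩ := hX K d Λ Λ' hd hrel hl hΛ'd hcoef κ hκ
  obtain ⟨he1, he2, he3⟩ := hE K ρ l l' l'' hli (by rw [hSq.tpT]; exact hSq.Tpos) t η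
    (by rw [lin_rho, lin_rho]; exact hdiv l) (by rw [lin_rho, lin_rho]; exact hdiv l'') κ hκ
  have hlam0 : (∑ i, l' i • hc a i) ≠ 0 := by
    intro h
    have h1 := hlF l'
    rw [h, zero_mul] at h1
    exact fr_ne hΛ'0 h1.symm
  have hchart : ∀ G : Pl K, G.totalDegree ≤ d → ∃ B : Polynomial κ, B.natDegree ≤ d ∧
      ρ (fr G) = (∑ i, l' i • hc a i) ^ d * Polynomial.aeval η B := by
    intro G hG
    obtain ⟨P, hP⟩ := hCh K l l' l'' hli d G hG
    let tκ : κ := ⟨t, IntermediateField.mem_adjoin_simple_self K t⟩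
    refine ⟨∑ s ∈ Finset.range (d + 1), Polynomial.C (Polynomial.aeval tκ (P s)) * Polynomial.X ^ s,
      ?_, ?_⟩
    · refine Polynomial.natDegree_sum_le_of_forall_le _ _ fun s hs => ?_
      rw [Finset.mem_range] at hs
      exact (Polynomial.natDegree_C_mul_X_pow_le _ _).trans (by omega)
    · rw [← aeval_eq, hP (RF K) a hlam0, ← hdiv l, ← hdiv l'']
      congr 1
      rw [map_sum]
      refine Finset.sum_congr rfl fun s _ => ?_
      rw [map_mul, Polynomial.aeval_C, map_pow, Polynomial.aeval_X,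
        ← Polynomial.aeval_algebraMap_apply]
      rfl
  obtain ⟨r, hr⟩ := hSq.topZ
  have hZr : Z r ≠ 0 := by
    intro h
    rw [h, MvPolynomial.totalDegree_zero] at hr
    omega
  set ζ : Fin 3 → K := Pi.single r 1 with hζ
  have hsingle : ∀ H : Fin 3 → Pl K, ∑ i, ζ i • H i = H r := by
    intro H
    rw [Finset.sum_eq_single r]
    · rw [hζ, Pi.single_eq_same, one_smul]
    · intro b _ hb
      rw [hζ, Pi.single_eq_of_ne hb, zero_smul]
    · intro h
      exact absurd (Finset.mem_univ r) h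
  obtain ⟨ζ', ζ'', -, -, hrelZ⟩ := hGen K Z hSq.Zcop ζ (by rw [hsingle]; exact hZr) (fun _ => 1)
    (fun h => one_ne_zero (congrFun h 0))
  have hZlin : ∀ u : Fin 3 → K, fr (∑ i, u i • Z i) * ρ (fr (Q 0)) =
      ρ (fr (∑ i, u i • Q i)) * fr (Z 0) := by
    intro u
    simp only [Fin.sum_univ_three, fr_smul, map_add, map_smul, add_mul, smul_mul_assoc,
      hSq.Zeq]
  obtain ⟨B, hBd, hB⟩ := hchart (∑ i, ζ i • Q i) (lin_deg Q d hSq.degQ ζ)
  obtain ⟨A, hAd, hA⟩ := hchart (∑ i, ζ' i • Q i) (lin_deg Q d hSq.degQ ζ')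
  have hQ0 : ρ (fr (Q 0)) ≠ 0 := (map_ne_zero ρ).2 (fr_ne hSq.Qne)
  have hZ0 : fr (Z 0) ≠ 0 := fr_ne hSq.Zne
  have hB0 : Polynomial.aeval η B ≠ 0 := by
    intro h
    have h1 := hZlin ζ
    rw [hB, h, mul_zero, zero_mul, hsingle] at h1
    exact mul_ne_zero (fr_ne hZr) hQ0 h1
  have hz : fr (∑ i, ζ' i • Z i) * Polynomial.aeval η B =
      fr (∑ i, ζ i • Z i) * Polynomial.aeval η A := by
    have h1 := hZlin ζ
    have h2 := hZlin ζ'
    rw [hB] at h1
    rw [hA] at h2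
    have h3 : (∑ i, l' i • hc a i) ^ d * fr (Z 0) ≠ 0 := mul_ne_zero (pow_ne_zero _ hlam0) hZ0
    apply mul_right_cancel₀ h3
    linear_combination (-fr (∑ i, ζ' i • Z i)) * h1 + fr (∑ i, ζ i • Z i) * h2
  obtain ⟨C, hC⟩ := hHF κ (RF K) (gen K 0) η (gen K 1) hx1 he1 hx2 he2 d c hc1 hc2
  refine ⟨C + 5 * D + 1, fun i hi => ?_⟩
  obtain ⟨hWfin, hWdim⟩ := hDim K (∑ i, ζ i • Z i) (∑ i, ζ' i • Z i) D hrelZ
    (by rw [hsingle]; exact hr) (4 * d * i * T) (4 * d * i)
  have : Module.Finite κ (VS κ η (4 * d * i * T) (4 * d * i * d)) := vs_fin κ η _ _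
  have hVfin : Module.finrank κ ((VS κ η (4 * d * i * T) (4 * d * i * d)).map
      (LinearMap.mulLeft κ (fr (∑ i, ζ i • Z i) ^ (4 * d * i) /
        (Polynomial.aeval η B) ^ (4 * d * i)))) ≤
      4 * d * i * T * d + 4 * d * i * d * T + C := by
    refine (Submodule.finrank_map_le _ _).trans ((hC (4 * d * i * T) (4 * d * i * d)).trans ?_)
    have h1 := Nat.mul_le_mul_left (4 * d * i * T) hx3
    rw [he3, hSq.tpT]
    omega
  have hq := num d D T i C _ _ hd hD hSq.Tpos hi hVfin hWdim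
  obtain ⟨S, hS, hS0, hdv⟩ := hSub K Λ Λ' hrel hΛ0 hΛ'0 κ hκ _ inferInstance
    (Rj (∑ i, ζ i • Z i) (∑ i, ζ' i • Z i) (4 * d * i * T) (4 * d * i))
    (incl κ η d A B hAd hBd _ _ hB0 hz _ _) (D * i) hq
  obtain ⟨G, hG1, hG2, hG3⟩ := form Z ζ ζ' _ _ S hS
  refine ⟨G, hG1, hG2, ?_, ?_⟩
  · rw [hG3]
    exact hS0
  · rw [hG3]
    exact hdv

end Pool.Agent.Lib.MP_16285c_agZ
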