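import Pool.Agent.Lib.MP_16285c_agZ.Spec
import Pool.Agent.Lib.MP_16285c_agZ.KLV.Spec

/-!
# The strong Zariski dense orbit conjecture for surface maps with `λ₁ ≥ λ₂ ≥ 2`: statements, part 2

The statements used by the final assembly. `StmtBox`, `StmtPrime` (helper62), `StmtDegP` (helper63), `StmtUpp` (helper97) are
interfaces of the other packages.
-/

set_option autoImplicit false

namespace Pool.Agent.Lib.MP_16285c_agZ

open Pool.Agent.Lib.MP_16285c_ag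

/-! ## Interfaces -/

/-- Frobenius points, their lifts, and `p`-adic closedness (package of helper62). -/
def StmtBox : Prop :=
  ∀ (k : Type) [Field k] [IsAlgClosed k] [CharZero k] [Algebra.IsAlgebraic ℚ k] (f : RM k 2)
    (σ : RF k →ₐ[k] RF k), Of f σ → ∀ B : Pl k, B ≠ 0 → ∀ p₀ : ℕ,
    ∃ (V : ValuationSubring k) (p : ℕ) (a : Fin 2 → IsLocalRing.ResidueField V) (N : ℕ),
      p.Prime ∧ p₀ < p ∧ CharP (IsLocalRing.ResidueField V) p ∧ 1 ≤ N ∧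
      ∀ x₀ : Fin 2 → k, (∀ i, Lies V (x₀ i) (a i)) → ∃ x : ℕ → Fin 2 → k, x 0 = x₀ ∧ f.Orb x ∧
        (∀ n, MvPolynomial.eval (x n) B ≠ 0) ∧ Cl N p x

/-- The polynomials vanishing along `x (N N' t)` form a prime ideal (package of helper62). -/
def StmtPrime : Prop :=
  ∀ (k : Type) [Field k] (x : ℕ → Fin 2 → k) (N N' p p' : ℕ), p.Prime → p'.Prime → p ≠ p' →
    1 ≤ N → 1 ≤ N' → Cl N p x → Cl N' p' x → ∀ G H : Pl k,
    (∀ t, MvPolynomial.eval (x (N * N' * t)) (G * H) = 0) →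
    (∀ t, MvPolynomial.eval (x (N * N' * t)) G = 0) ∨
      ∀ t, MvPolynomial.eval (x (N * N' * t)) H = 0

/-- Degrees on preserved curves (package of helper63; `StmtResF`, `StmtDeg`, `StmtJacQ`, `StmtTot`). -/
def StmtDegP : Prop :=
  ∀ (K : Type) [Field K] [CharZero K] (f : RM K 2) (ρ : RF K →ₐ[K] RF K), Of f ρ → 1 ≤ tp ρ →
    ∀ P : Pl K, Irreducible P → (∀ i, ¬ P ∣ f.den i) → Pres ρ P →
    ∀ (L : Type) [Field L] [Algebra (CR P) L] [IsFractionRing (CR P) L] [Algebra K L]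
      [IsScalarTower K (CR P) L],
    ∃ ρb : L →ₐ[K] L, (∀ H : Pl K, Rsd P L (ρ (fr H)) (ρb (algebraMap (CR P) L (Ideal.Quotient.mk _ H)))) ∧
      Module.finrank ρb.fieldRange L ≤ tp ρ ∧
      (Module.finrank ρb.fieldRange L = tp ρ → ∃ a b : Pl K, a ≠ 0 ∧ b ≠ 0 ∧
        fr b * ρ (fr P) = fr a * fr P ∧
        ∀ Q : Pl K, Irreducible Q → (Q ∣ a ∨ Q ∣ b) → Q ∣ f.den 0 * f.den 1 * jac f)

/-- Upper bound for the growth of heights on a preserved curve (package of helper97). -/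
def StmtUpp : Prop :=
  ∀ (K : Type) [Field K] [CharZero K] [Height.AdmissibleAbsValues K] (ρ : RF K →ₐ[K] RF K) (P : Pl K),
    Irreducible P →
    ∀ (L : Type) [Field L] [Algebra (CR P) L] [IsFractionRing (CR P) L] [Algebra K L]
      [IsScalarTower K (CR P) L] (ρb : L →ₐ[K] L),
    (∀ H : Pl K, Rsd P L (ρ (fr H)) (ρb (algebraMap (CR P) L (Ideal.Quotient.mk _ H)))) →
    ∀ z : ℕ → Fin 2 → K, Flow ρ z → (∀ t, MvPolynomial.eval (z t) P = 0) →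
    (∀ Q : Pl K, ¬ P ∣ Q → ∃ t₀, ∀ t, t₀ ≤ t → MvPolynomial.eval (z t) Q ≠ 0) →
    ∀ ε : ℝ, 0 < ε → ∃ C : ℝ, ∀ t, Height.logHeight (hc (z t)) ≤
      C * ((Module.finrank ρb.fieldRange L : ℝ) + ε) ^ t

/-! ## Small statements -/

/-- (S1) PROOF. `g i = σ (gen K i) = num i / den i`. If `jac f = 0` then the Jacobian determinant `det (∂_j g_i)` is `0` in `E` (`jac f = (den 0 den 1)² det`), so there are `α, β ∈ E`, not
both zero, with `D g_0 = D g_1 = 0` for the derivation `D = α ∂_x + β ∂_y` of `E` over `K`. So `D` vanishes on the subfield `σ E = K(g_0, g_1)`. `E` is algebraic over `σ E`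
(transcendence degrees), and separable (characteristic zero), so `D = 0` (minimal polynomial: `μ(e) = 0` gives `μ'(e) D e = 0`), but `D x = α`, `D y = β`. -/
def StmtJac : Prop :=
  ∀ (K : Type) [Field K] [CharZero K] (f : RM K 2) (σ : RF K →ₐ[K] RF K), Of f σ → jac f ≠ 0

/-- (S2) PROOF (uses `SVal`). Given `H`, `Val` at `z 0` gives `E, N` with `E(z 0) ≠ 0` and `fr N = fr E * ρ (fr H)`. `P ∤ E` since `P(z 0) = 0`; so `E(z t) ≠ 0` for large `t`, and then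
`N(z t) = E(z t) H(z (t+1))` (last part of `SVal`). If `P ∣ H` then `N(z t) = 0` for large `t`, so `P ∣ N`. If `P ∣ N` then `H(z (t+1)) = 0` for large `t`, so `P ∣ H`. -/
def StmtPres : Prop :=
  ∀ (K : Type) [Field K] (ρ : RF K →ₐ[K] RF K) (P : Pl K) (z : ℕ → Fin 2 → K), Flow ρ z →
    (∀ t, MvPolynomial.eval (z t) P = 0) →
    (∀ Q : Pl K, ¬ P ∣ Q → ∃ t₀, ∀ t, t₀ ≤ t → MvPolynomial.eval (z t) Q ≠ 0) → Pres ρ P

/-- (S3) The real inequalities of the two levels. PROOF (uses `StmtGro`). `m' = m * M * s`, `h' j = h (m' * j)`. From the growth hypothesis `h (m * (j + i)) ≥ κ ^ i * h (m * j)` for `j ≥ 1`, and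
`h (m * j) ≥ κ ^ (j - 1) * h m → ∞`. So for `j ≥ 1`: `h' (j+1) ≥ κ ^ (M * s) * h' j`, hence `4 * a * h' j ≤ b * h' (j+1)`, and `4 * C₁ ≤ b * h' (j+1)` for large `j`. `StmtGro` from such a
`j₀ ≥ j₁`: `h' (j+1) ≥ (b/2) h' j ≥ η ^ m' * h' j` for `j > j₀`. So `h' (j₀ + 1 + i) ≥ η ^ (m' * i) * h' (j₀ + 1)`, `h' (j₀ + 1) > 0`, but
`h' j = h (M * (m * s * j)) ≤ C₂ * ν ^ (m * s * j)`; as `η ^ M > ν`, `(η ^ m' / ν ^ (m s)) ^ i → ∞`: a contradiction. -/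
def StmtReal : Prop :=
  ∀ (h : ℕ → ℝ) (m M s : ℕ) (κ a b η ν C₁ C₂ : ℝ) (j₁ : ℕ), (∀ n, 0 ≤ h n) → 1 ≤ m → 1 ≤ M → 1 ≤ s →
    1 < κ → (∀ j, 1 ≤ j → κ * h (m * j) ≤ h (m * (j + 1))) → 0 < h m →
    0 ≤ a → 2 ≤ b → 8 * a ≤ b ^ 2 → 4 * a ≤ κ ^ (M * s) * b →
    (∀ j, j₁ ≤ j → b * h (m * M * s * (j + 1)) ≤ h (m * M * s * (j + 2)) + a * h (m * M * s * j) + C₁) →
    0 < η → η ^ (m * M * s) ≤ b / 2 → 0 < ν → ν < η ^ M → (∀ t, h (M * t) ≤ C₂ * ν ^ t) → False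

/-- (S4) The recursive inequality for orbits. PROOF (uses `StmtRec`, `SRep`, `STpPow`, `SVal`). Let `F`, `Z` be representatives of `it σ₀ m`, `it σ₀ (2 * m)` of degrees `d = dg (it σ₀ m)`,
`D = dg (it σ₀ (2 * m))` (`SRep`; `d, D ≥ 1` by hypothesis). `Sq (σ₀ ^ m) d D (tp σ₀ ^ m) F F Z`: `Zeq`: `fr (Z i.succ) / fr (Z 0) = σ₀ ^ m (fr (F i.succ) / fr (F 0))` since
`it σ₀ (2 * m) i = (σ₀ ^ m) (it σ₀ m i)`. `StmtRec` gives `B'`; `B = B' * F 0 * Z 0`. If `B(x n) ≠ 0` then (last part of `SVal` for `σ ^ m`, `Cmp`, `E = map F 0`, `N = map (F i.succ)`, `H = X i`)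
`F(x n) = F 0 (x n) • hc (x (n + m))`, `Z(x n) = Z 0 (x n) • hc (x (n + 2 m))` (`logHeight_smul_eq_logHeight`). -/
def StmtRecV : Prop :=
  ∀ (K₀ : Type) [Field K₀] [CharZero K₀] (σ₀ : RF K₀ →ₐ[K₀] RF K₀) (m : ℕ), 1 ≤ tp σ₀ →
    1 ≤ dg (it σ₀ m) → 1 ≤ dg (it σ₀ (2 * m)) →
    ∃ B : Pl K₀, B ≠ 0 ∧ ∀ (K : Type) [Field K] [Algebra K₀ K] [Height.AdmissibleAbsValues K]
      (σ : RF K →ₐ[K] RF K), Cmp σ₀ σ → ∃ C : ℝ, ∀ x : ℕ → Fin 2 → K, Flow σ x → ∀ n : ℕ,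
        MvPolynomial.aeval (x n) B ≠ 0 →
        ((dg (it σ₀ (2 * m)) : ℝ) / (4 * dg (it σ₀ m))) * Height.logHeight (hc (x (n + m))) ≤
          Height.logHeight (hc (x (n + 2 * m))) +
            2 * (tp σ₀ : ℝ) ^ m * Height.logHeight (hc (x n)) + C

/-- (S5) PROOF (uses `SVal`). `Val ρ x x'` and `Val ρ x x''` imply `x' = x''` (last part of `SVal`), so if `x s = x t` with `s < t` then `x (s + n) = x (t + n)` for all `n` and the
orbit is a finite set. -/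
def StmtFinOrb : Prop :=
  ∀ (K : Type) [Field K] (σ : RF K →ₐ[K] RF K) (x : ℕ → Fin 2 → K), Flow σ x →
    ∀ s t : ℕ, s < t → x s = x t → (Set.range x).Finite

/-- (S6) Core. `B` and `m` depend only on `σ₀`; `M` is given after `K` and `c`. (Proof: helper5.) -/
def StmtCore : Prop :=
  ∀ (K₀ : Type) [Field K₀] [CharZero K₀] (σ₀ : RF K₀ →ₐ[K₀] RF K₀), 2 ≤ tp σ₀ →
    (∀ n, tp σ₀ ^ n ≤ dg (it σ₀ n)) →
    ∃ B : Pl K₀, B ≠ 0 ∧ ∀ (K : Type) [Field K] [CharZero K] [Algebra K₀ K]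
      [Height.AdmissibleAbsValues K] (σ : RF K →ₐ[K] RF K), Cmp σ₀ σ → tp σ = tp σ₀ → NoI σ →
      (∀ n, tp σ ^ n ≤ dg (it σ n)) → ∀ c : Fin 2 → K, MvPolynomial.aeval c B ≠ 0 →
      ∀ M : ℕ, 1 ≤ M → ∃ S : Finset ℕ, ∀ θ : ℕ, θ ∉ S → ∃ (H₀ : ℝ) (Y : Set K), Y.Finite ∧
        ∀ y : K, y ∉ Y → H₀ < Height.logHeight₁ y → ∀ x : ℕ → Fin 2 → K, x 0 = lpt c θ y →
          Flow σ x → (∀ n, MvPolynomial.aeval (x n) B ≠ 0) → ∀ P : Pl K, Irreducible P →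
            (∀ t, MvPolynomial.eval (x (M * t)) P = 0) → False

end Pool.Agent.Lib.MP_16285c_agZ
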