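import Pool.Agent.Lib.MP_16285c_agZ.Spec

/-!
# Heights of values of forms, upper bound (R12)
-/

set_option autoImplicit false

namespace Pool.Agent.Lib.MP_16285c_agZ

namespace UpBM

/-- A monomial of degree `n` is a product of `n` variables. -/
theorem ex_seq (n : ℕ) : ∀ a b c : ℕ, a + b + c = n → ∃ s : Fin n → Fin 3,
    ∀ (R : Type) [CommRing R] (v : Fin 3 → R), ∏ i, v (s i) = v 0 ^ a * v 1 ^ b * v 2 ^ c := by
  induction n with
  | zero =>
    intro a b c h
    obtain rfl : a = 0 := by omega
    obtain rfl : b = 0 := by omega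
    obtain rfl : c = 0 := by omega
    exact ⟨Fin.elim0, fun R _ v => by simp⟩
  | succ n ih =>
    intro a b c h
    rcases a with _ | a
    · rcases b with _ | b
      · rcases c with _ | c
        · omega
        · obtain ⟨s, hs⟩ := ih 0 0 c (by omega)
          refine ⟨Fin.cons 2 s, fun R _ v => ?_⟩
          rw [Fin.prod_univ_succ]
          simp only [Fin.cons_zero, Fin.cons_succ]
          rw [hs]
          ring
      · obtain ⟨s, hs⟩ := ih 0 b c (by omega)
        refine ⟨Fin.cons 1 s, fun R _ v => ?_⟩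
        rw [Fin.prod_univ_succ]
        simp only [Fin.cons_zero, Fin.cons_succ]
        rw [hs]
        ring
    · obtain ⟨s, hs⟩ := ih a b c (by omega)
      refine ⟨Fin.cons 0 s, fun R _ v => ?_⟩
      rw [Fin.prod_univ_succ]
      simp only [Fin.cons_zero, Fin.cons_succ]
      rw [hs]
      ring

section

variable {K : Type} [Field K]

/-- The products of the coordinates. -/
def W (P q : ℕ) (i : (Fin P → Fin 3) × (Fin q → Fin 3)) : (Fin 2 → K) × (Fin 3 → K) → K :=
  fun y => (∏ j, hc y.1 (i.1 j)) * ∏ j, y.2 (i.2 j)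

theorem val_mem (P q : ℕ) (G : MvPolynomial (Fin 3) (Pl K)) (hG : G.IsHomogeneous q)
    (hP : ∀ α, (G.coeff α).totalDegree ≤ P) :
    (fun y : (Fin 2 → K) × (Fin 3 → K) =>
      MvPolynomial.eval y.2 (MvPolynomial.map (MvPolynomial.eval y.1) G)) ∈
      Submodule.span K (Set.range (W (K := K) P q)) := by
  classical
  have e : (fun y : (Fin 2 → K) × (Fin 3 → K) =>
      MvPolynomial.eval y.2 (MvPolynomial.map (MvPolynomial.eval y.1) G)) =
      ∑ α ∈ G.support, ∑ β ∈ (G.coeff α).support, (G.coeff α).coeff β •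
        fun y : (Fin 2 → K) × (Fin 3 → K) => (y.1 0 ^ β 0 * y.1 1 ^ β 1) *
          (y.2 0 ^ α 0 * y.2 1 ^ α 1 * y.2 2 ^ α 2) := by
    funext y
    rw [MvPolynomial.eval_map, MvPolynomial.eval₂_eq', Finset.sum_apply]
    refine Finset.sum_congr rfl fun α _ => ?_
    rw [MvPolynomial.eval_eq', Finset.sum_mul, Finset.sum_apply]
    refine Finset.sum_congr rfl fun β _ => ?_
    rw [Pi.smul_apply, smul_eq_mul, Fin.prod_univ_two, Fin.prod_univ_three]
    ring
  rw [e]
  refine Submodule.sum_mem _ fun α hα => Submodule.sum_mem _ fun β hβ =>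
    Submodule.smul_mem _ _ (Submodule.subset_span ?_)
  have hα' : α 0 + α 1 + α 2 = q := by
    have h := hG (MvPolynomial.mem_support_iff.1 hα)
    rw [Finsupp.weight_apply, Finsupp.sum_fintype _ _ (fun i => by simp),
      Fin.sum_univ_three] at h
    simpa using h
  have hβ' : β 0 + β 1 ≤ P := by
    have h := (MvPolynomial.le_totalDegree hβ).trans (hP α)
    rw [Finsupp.sum_fintype _ _ (fun i => rfl), Fin.sum_univ_two] at h
    exact h
  obtain ⟨s, hs⟩ := ex_seq P (P - (β 0 + β 1)) (β 0) (β 1) (by omega)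
  obtain ⟨s', hs'⟩ := ex_seq q (α 0) (α 1) (α 2) hα'
  refine ⟨(s, s'), funext fun y => ?_⟩
  rw [W]
  simp only [hs, hs']
  have h0 : hc y.1 0 = 1 := rfl
  have h1 : hc y.1 1 = y.1 0 := rfl
  have h2 : hc y.1 2 = y.1 1 := rfl
  rw [h0, h1, h2, one_pow, one_mul]

variable [Height.AdmissibleAbsValues K]

theorem height_pow (q : ℕ) (z : Fin 3 → K) :
    Height.logHeight (fun s : Fin q → Fin 3 => ∏ j, z (s j)) ≤ q * Height.logHeight z := by
  by_cases hz : z = 0
  · subst hz
    rcases q with _ | q
    · rw [Height.logHeight_eq_zero_of_subsingleton]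
      simp
    · have : (fun s : Fin (q + 1) → Fin 3 => ∏ j, (0 : Fin 3 → K) (s j)) = 0 := by
        funext s
        rw [Fin.prod_univ_succ]
        simp
      rw [this, Height.logHeight_zero, Height.logHeight_zero, mul_zero]
  · have h := Height.logHeight_fun_prod_eq (K := K) (α := Fin q) (ι := fun _ => Fin 3)
      (x := fun _ => z) fun _ => hz
    rw [h, Finset.sum_const, Finset.card_univ, Fintype.card_fin, nsmul_eq_mul]

theorem height_mul {ι ι' : Type} [Finite ι] [Finite ι'] (x : ι → K) (y : ι' → K) :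
    Height.logHeight (fun a : ι × ι' => x a.1 * y a.2) ≤
      Height.logHeight x + Height.logHeight y := by
  by_cases hx : x = 0
  · subst hx
    have : (fun a : ι × ι' => (0 : ι → K) a.1 * y a.2) = 0 := by
      funext a
      simp
    rw [this, Height.logHeight_zero]
    exact add_nonneg (Height.logHeight_nonneg _) (Height.logHeight_nonneg _)
  by_cases hy : y = 0
  · subst hy
    have : (fun a : ι × ι' => x a.1 * (0 : ι' → K) a.2) = 0 := by
      funext a
      simp
    rw [this, Height.logHeight_zero]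
    exact add_nonneg (Height.logHeight_nonneg _) (Height.logHeight_nonneg _)
  exact (Height.logHeight_fun_mul_eq hx hy).le

end

end UpBM

open UpBM in
theorem stmtUpB : StmtUpB := by
  classical
  intro K _ _ ι _ P q G hG hP
  have key : ∀ t, ∃ c : (Fin P → Fin 3) × (Fin q → Fin 3) → K, ∑ i, c i • W (K := K) P q i =
      fun y : (Fin 2 → K) × (Fin 3 → K) =>
        MvPolynomial.eval y.2 (MvPolynomial.map (MvPolynomial.eval y.1) (G t)) := fun t =>
    (Submodule.mem_span_range_iff_exists_fun K).1 (val_mem P q (G t) (hG t) (hP t))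
  choose c hc using key
  set A : ι × ((Fin P → Fin 3) × (Fin q → Fin 3)) → K := fun p => c p.1 p.2 with hA
  refine ⟨Height.totalWeight K * Real.log (Nat.card ((Fin P → Fin 3) × (Fin q → Fin 3))) +
    Height.logHeight A, fun x z => ?_⟩
  have e : (fun t => MvPolynomial.eval z (MvPolynomial.map (MvPolynomial.eval x) (G t))) =
      fun t => ∑ i, A (t, i) * W (K := K) P q i (x, z) := by
    funext t
    have h := congrFun (hc t) (x, z)
    rw [Finset.sum_apply] at h
    exact h.symm
  rw [e]
  have h1 := Height.logHeight_linearMap_apply_le A fun i => W (K := K) P q i (x, z)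
  have h2 : Height.logHeight (fun i => W (K := K) P q i (x, z)) ≤
      P * Height.logHeight (MP_16285c_agZ.hc x) + q * Height.logHeight z :=
    (height_mul (fun s : Fin P → Fin 3 => ∏ j, MP_16285c_agZ.hc x (s j))
      (fun s : Fin q → Fin 3 => ∏ j, z (s j))).trans
      (add_le_add (height_pow P _) (height_pow q _))
  linarith

end Pool.Agent.Lib.MP_16285c_agZ
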