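import Pool.Agent.Lib.MP_16285c_agZ.Core
import Pool.Agent.Lib.MP_16285c_agZ.Fin
import Pool.Agent.Lib.MP_16285c_agZ.Dim
import Pool.Agent.Lib.MP_16285c_agZ.Gen
import Pool.Agent.Lib.MP_16285c_agZ.Rates
import Pool.Agent.Lib.MP_16285c_agZ.Gro
import Pool.Agent.Lib.MP_16285c_agZ.Box
import Pool.Agent.Lib.MP_16285c_agZ.Can
import Pool.Agent.Lib.MP_16285c_agZ.CanA
import Pool.Agent.Lib.MP_16285c_agZ.CanB
import Pool.Agent.Lib.MP_16285c_agZ.Sec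
import Pool.Agent.Lib.MP_16285c_agZ.SecA
import Pool.Agent.Lib.MP_16285c_agZ.UPP.Main
import Pool.Agent.Lib.MP_16285c_agZ.Sub
import Pool.Agent.Lib.MP_16285c_agZ.Line
import Pool.Agent.Lib.MP_16285c_agZ.Line2
import Pool.Agent.Lib.MP_16285c_agZ.FldE
import Pool.Agent.Lib.MP_16285c_agZ.FldX
import Pool.Agent.Lib.MP_16285c_agZ.Real
import Pool.Agent.Lib.MP_16285c_agZ.KLV.Val
import Pool.Agent.Lib.MP_16285c_agZ.KLV.Desc
import Pool.Agent.Lib.MP_16285c_agZ.KLV.TpPow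
import Pool.Agent.Lib.MP_16285c_agZ.KLV.Disj
import Pool.Agent.Lib.MP_16285c_agZ.KLV.TpGe
import Pool.Agent.Lib.MP_16285c_agZ.KLV.TpLe
import Pool.Agent.Lib.MP_16285c_agZ.KLV.Rep
import Pool.Agent.Lib.MP_16285c_agZ.KLV.NoIPow
import Pool.Agent.Lib.MP_16285c_agZ.KLV.DgMul
import Pool.Agent.Lib.MP_16285c_agZ.Chart
import Pool.Agent.Lib.MP_16285c_agZ.Rec
import Pool.Agent.Lib.MP_16285c_agZ.CZ
import Pool.Agent.Lib.MP_16285c_agZ.Low3
import Pool.Agent.Lib.MP_16285c_agZ.HF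
import Pool.Agent.Lib.MP_16285c_agZ.Jac
import Pool.Agent.Lib.MP_16285c_agZ.FinOrb
import Pool.Agent.Lib.MP_16285c_agZ.Pol
import Pool.Agent.Lib.MP_16285c_agZ.UpB
import Pool.Agent.Lib.MP_16285c_agZ.Pres
import Pool.Agent.Lib.MP_16285c_agZ.DEG4a.Tot
import Pool.Agent.Lib.MP_16285c_agZ.DEG4a.JacQ
import Pool.Agent.Lib.MP_16285c_agZ.DEG4a.Zd
import Pool.Agent.Lib.MP_16285c_agZ.DEG4a.ResF
import Pool.Agent.Lib.MP_16285c_agZ.DEG4a.Der
import Pool.Agent.Lib.MP_16285c_agZ.DEG4a.DegP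
import Pool.Agent.Lib.MP_16285c_agZ.DEG4a.Deg
import Pool.Agent.Lib.MP_16285c_agZ.RecV
import Pool.Agent.Lib.MP_16285c_agZ.Lev
import Pool.Agent.Lib.MP_16285c_agZ.LiftC
import Pool.Agent.Lib.MP_16285c_agZ.Bin

/-!
# The strong Zariski dense orbit conjecture for surface maps with `λ₁ ≥ λ₂ ≥ 2`: everything together
-/

set_option autoImplicit false

namespace Pool.Agent.Lib.MP_16285c_agZ

open Pool.Agent.Lib.MP_16285c_ag

theorem allRec : StmtRec :=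
  stmtRec (stmtSec (stmtSecA stmtGen stmtDim stmtSub (stmtHF stmtPol) stmtFldX stmtFldE stmtChart))
    stmtLow3 stmtUpB

theorem allDegP : StmtDegP :=
  stmtDegP stmtResF stmtDeg (stmtTot stmtDeg (stmtJacQ stmtZd stmtDer))

theorem allCore : StmtCore :=
  stmtCore (stmtRecV allRec tRep tTpPow tVal) tRep tTpPow (tDgMul tRep) tVal tDesc tNoIPow
    (stmtLine stmtCZ stmtBin) stmtLine2 (stmtLev stmtRates) stmtGro (stmtCan stmtCanA stmtCanB)
    allDegP stmtUpp (stmtPres tVal) stmtCZ (stmtFinOrb tVal) (stmtReal stmtGro) stmtJac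

theorem fin : StmtFin :=
  stmtFin allCore stmtBox stmtPrime stmtLiftC tDesc (tTpGe (tTpLe tDisj)) tTpPow (tDgMul tRep) tVal

end Pool.Agent.Lib.MP_16285c_agZ
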