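import Pool.Agent.Lib.MP_16285c_agZ.Spec3
import Pool.Agent.Lib.MP_16285c_agZ.Box
import Pool.Agent.ZDO.Box2

/-!
# `StmtBox2`: Frobenius places over any algebraically closed field of characteristic zero
-/

set_option autoImplicit false

namespace Pool.Agent.Lib.MP_16285c_agZ

open Pool.Agent.Lib.MP_16285c_ag MvPolynomial

theorem stmtBox2 : StmtBox2 := by
  intro k _ _ _ f σ h B hB p₀
  have hinj : Function.Injective f.comp := by
    intro G H hGH
    rw [comp_eq f σ h, comp_eq f σ h] at hGH
    exact IsFractionRing.injective (MvPolynomial (Fin 2) k)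
        (FractionRing (MvPolynomial (Fin 2) k)) (σ.injective hGH)
  exact ZDO.box2 f (fun i => (h i).1) hinj (ZDO.jac_ne_zero f σ h) B hB p₀

end Pool.Agent.Lib.MP_16285c_agZ
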