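import Pool.Agent.Lib.MP_16285c_agZ.Spec3
import Pool.Agent.Lib.MP_16285c_agZ.Fin

/-!
# Theorem Z over any algebraically closed field of characteristic zero: final assembly
-/

set_option autoImplicit false

namespace Pool.Agent.Lib.MP_16285c_agZ

open Pool.Agent.Lib.MP_16285c_ag

namespace FinY

theorem lies_add0 {k : Type} [Field k] (V : ValuationSubring k) (x y : k)
    (a : IsLocalRing.ResidueField V) (h : Lies V x a) (hy : Lies V y 0) (n : ℕ) :
    Lies V (x + n * y) a := by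
  obtain ⟨h0, h1⟩ := h
  obtain ⟨g0, g1⟩ := hy
  have hm : (n : k) * y ∈ V := mul_mem (natCast_mem V n) g0
  refine ⟨add_mem h0 hm, ?_⟩
  have h3 : (⟨(n : k) * y, hm⟩ : V) = (n : V) * ⟨y, g0⟩ := by
    apply Subtype.ext
    push_cast
    rfl
  have h4 : (⟨x + (n : k) * y, add_mem h0 hm⟩ : V) = ⟨x, h0⟩ + ⟨(n : k) * y, hm⟩ := rfl
  rw [h4, map_add, h1, h3, map_mul, g1, mul_zero, add_zero]

end FinY

open FinX FinY in
theorem stmtFin2 (hCore : StmtCore) (hBox : StmtBox2) (hPrime : StmtPrime) (hLift : StmtLiftC2)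
    (hSup : StmtSup) (hDesc : SDesc) (hTpGe : STpGe) (hTp : STpPow) (hDg : SDgMul) (hVal : SVal) :
    StmtFin2 := by
  classical
  intro k _ _ _ σ h2 hdeg hnoi f hOf b hb
  obtain ⟨S₁, hS₁⟩ := hTpGe k σ ((hTp.2.2 k σ).1 (by omega))
  set S : Finset k := S₁ ∪ (Finset.univ.biUnion fun i : Fin 2 =>
    ((f.num i).support.image fun m => MvPolynomial.coeff m (f.num i)) ∪
    ((f.den i).support.image fun m => MvPolynomial.coeff m (f.den i))) with hS
  set K₀ : Subfield k := Subfield.closure (S : Set k) with hK₀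
  have hSK : ∀ s ∈ S, s ∈ Set.range (algebraMap K₀ k) := fun s hs =>
    ⟨⟨s, Subfield.subset_closure hs⟩, rfl⟩
  have hnum : ∀ i, ∀ m ∈ (f.num i).support,
      MvPolynomial.coeff m (f.num i) ∈ Set.range (algebraMap K₀ k) := fun i m hm => by
    apply hSK
    rw [hS, Finset.mem_union, Finset.mem_biUnion]
    exact Or.inr ⟨i, Finset.mem_univ _, Finset.mem_union_left _ (Finset.mem_image_of_mem _ hm)⟩
  have hden : ∀ i, ∀ m ∈ (f.den i).support,
      MvPolynomial.coeff m (f.den i) ∈ Set.range (algebraMap K₀ k) := fun i m hm => by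
    apply hSK
    rw [hS, Finset.mem_union, Finset.mem_biUnion]
    exact Or.inr ⟨i, Finset.mem_univ _, Finset.mem_union_right _ (Finset.mem_image_of_mem _ hm)⟩
  obtain ⟨f₀, hf₀⟩ := desc_rm (K := K₀) f hnum hden
  obtain ⟨σ₀, hσ₀, hc₀⟩ := hDesc.1 K₀ k f₀ σ (by rw [hf₀]; exact hOf)
  obtain ⟨-, htp₀⟩ := hS₁ K₀ σ₀ (fun s hs => hSK s (Finset.mem_union_left _ hs)) hc₀
  obtain ⟨B, hB0, hB⟩ := hCore K₀ σ₀ (by rw [htp₀]; exact h2)
    (fun n => by rw [htp₀]; exact (hdeg n).trans (hDg.2.2 K₀ k σ₀ σ hc₀ n))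
  have hBk : MvPolynomial.map (algebraMap K₀ k) B ≠ 0 := by
    rw [Ne, map_eq_zero_iff _ (MvPolynomial.map_injective _ (algebraMap K₀ k).injective)]
    exact hB0
  obtain ⟨V, p, a, N, hp, hp2, hch, hN, hr, hbox⟩ := hBox k f σ hOf _ (mul_ne_zero hb hBk) 2
  obtain ⟨V', p', a', N', hp', hpp', hch', hN', hr', hbox'⟩ :=
    hBox k f σ hOf _ (mul_ne_zero hb hBk) p
  obtain ⟨c, hcV, hcV'⟩ := hLift k V V' p p' hp hp' (by omega) hch hch' a a' hr hr'
  -- the field `K`
  obtain ⟨K, hadm, hSK', hsup⟩ := hSup k V V' p p' hp hp' hp2 (by omega) hch hch'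
    (S ∪ {c 0, c 1})
  have hle : K₀ ≤ K := Subfield.closure_le.2 fun s hs =>
    hSK' (Finset.mem_coe.2 (Finset.mem_union_left _ hs))
  letI : Algebra K₀ K := (Subfield.inclusion hle).toAlgebra
  haveI : IsScalarTower K₀ K k := IsScalarTower.of_algebraMap_eq fun x => rfl
  have hcmem : ∀ i, c i ∈ K := fun i => hSK' (Finset.mem_coe.2 (Finset.mem_union_right _ (by
    fin_cases i
    · exact Finset.mem_insert_self _ _
    · exact Finset.mem_insert_of_mem (Finset.mem_singleton_self _))))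
  set fK : RM K 2 := f₀.map (algebraMap K₀ K) with hfK
  have hfKk : fK.map (algebraMap K k) = f := by rw [hfK, map_map_rm, hf₀]
  obtain ⟨σK, hσK, hcK⟩ := hDesc.1 K k fK σ (by rw [hfKk]; exact hOf)
  obtain ⟨-, htpK⟩ := hS₁ K σK (fun s hs => by
    obtain ⟨w, hw⟩ := hSK s (Finset.mem_union_left _ hs)
    exact ⟨algebraMap K₀ K w, by rw [← hw, ← IsScalarTower.algebraMap_apply]⟩) hcK
  have hc0K : Cmp σ₀ σK := cmp_of f₀ σ₀ σK hσ₀ hσK
  set cK : Fin 2 → K := fun i => ⟨c i, hcmem i⟩ with hcKdef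
  have hBx : ∀ x : Fin 2 → K, MvPolynomial.eval (fun i => algebraMap K k (x i))
      (b * MvPolynomial.map (algebraMap K₀ k) B) ≠ 0 → MvPolynomial.aeval x B ≠ 0 := by
    intro x hx h0
    apply hx
    rw [map_mul, eval_coe', h0, map_zero, mul_zero]
  have hcB : MvPolynomial.aeval cK B ≠ 0 := by
    obtain ⟨x, hx0, -, hxB, -⟩ := hbox c hcV
    apply hBx
    have := hxB 0
    rw [hx0] at this
    exact this
  obtain ⟨Sθ, hSθ⟩ := hB K σK hc0K (by rw [htpK, htp₀]) (hDesc.2.1 K k σK σ hcK hnoi)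
    (fun n => by rw [htpK]; exact (hdeg n).trans (hDg.2.2 K k σK σ hcK n)) cK hcB (N * N')
    (Nat.one_le_iff_ne_zero.2 (mul_ne_zero (by omega) (by omega)))
  obtain ⟨θ, hθ⟩ := Infinite.exists_notMem_finset Sθ
  obtain ⟨H₀, Y, hY, hfinal⟩ := hSθ θ hθ
  obtain ⟨y, hjY, hjH, hyV, hyV'⟩ := hsup Y hY H₀
  set x₀ : Fin 2 → k := fun i => algebraMap K k (lpt cK θ y i) with hx₀
  have hx00 : x₀ 0 = c 0 + (θ : k) * (y : k) := by
    rw [hx₀]
    simp only [lpt, Matrix.cons_val_zero, map_add, map_mul, map_natCast]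
    rfl
  have hx01 : x₀ 1 = c 1 + ((1 : ℕ) : k) * (y : k) := by
    rw [hx₀]
    simp only [lpt, Matrix.cons_val_one, Matrix.cons_val_fin_one, map_add, Nat.cast_one, one_mul]
    rfl
  have hxV : ∀ i, Lies V (x₀ i) (a i) := by
    intro i
    fin_cases i
    · change Lies V (x₀ 0) (a 0)
      rw [hx00]
      exact lies_add0 V _ _ _ (hcV 0) hyV _
    · change Lies V (x₀ 1) (a 1)
      rw [hx01]
      exact lies_add0 V _ _ _ (hcV 1) hyV _
  have hxV' : ∀ i, Lies V' (x₀ i) (a' i) := by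
    intro i
    fin_cases i
    · change Lies V' (x₀ 0) (a' 0)
      rw [hx00]
      exact lies_add0 V' _ _ _ (hcV' 0) hyV' _
    · change Lies V' (x₀ 1) (a' 1)
      rw [hx01]
      exact lies_add0 V' _ _ _ (hcV' 1) hyV' _
  obtain ⟨x, hx0, hxo, hxB, hxCl⟩ := hbox x₀ hxV
  obtain ⟨x', hx0', hxo', -, hxCl'⟩ := hbox' x₀ hxV'
  have hxx : x = x' := f.orb_unique x x' hxo hxo' (hx0.trans hx0'.symm)
  rw [← hxx] at hxCl'
  refine ⟨x, hxo, fun n h0 => hxB n (by rw [map_mul, h0, zero_mul]), ?_⟩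
  -- the orbit is defined over `K`
  have hmem : ∀ n i, x n i ∈ K := by
    intro n
    induction n with
    | zero =>
      intro i
      rw [hx0]
      exact (lpt cK θ y i).2
    | succ n ih =>
      intro i
      obtain ⟨hd, he⟩ := hxo n i
      set w : Fin 2 → K := fun i => ⟨x n i, ih i⟩ with hw
      have hxw : x n = fun i => algebraMap K k (w i) := rfl
      have e1 : MvPolynomial.eval (x n) (f.den i) =
          algebraMap K k (MvPolynomial.eval w (fK.den i)) := by
        rw [hxw, ← eval_coe, ← hfKk]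
        rfl
      have e2 : MvPolynomial.eval (x n) (f.num i) =
          algebraMap K k (MvPolynomial.eval w (fK.num i)) := by
        rw [hxw, ← eval_coe, ← hfKk]
        rfl
      rw [eq_div_of_mul_eq hd he, e1, e2]
      exact div_mem (SetLike.coe_mem _) (SetLike.coe_mem _)
  set xK : ℕ → Fin 2 → K := fun n i => ⟨x n i, hmem n i⟩ with hxK
  have hxxK : ∀ n, x n = fun i => algebraMap K k (xK n i) := fun n => rfl
  have horbK : fK.Orb xK := by
    intro n i
    obtain ⟨hd, he⟩ := hxo n i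
    have e1 : MvPolynomial.eval (x n) (f.den i) =
        algebraMap K k (MvPolynomial.eval (xK n) (fK.den i)) := by
      rw [hxxK, ← eval_coe, ← hfKk]
      rfl
    have e2 : MvPolynomial.eval (x n) (f.num i) =
        algebraMap K k (MvPolynomial.eval (xK n) (fK.num i)) := by
      rw [hxxK, ← eval_coe, ← hfKk]
      rfl
    rw [e1] at hd he
    rw [e2] at he
    refine ⟨fun h0 => hd (by rw [h0, map_zero]), ?_⟩
    apply (algebraMap K k).injective
    rw [map_mul]
    exact he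
  have hflow : Flow σK xK := hVal.2.2.2.1 K fK σK xK hσK horbK
  have hxK0 : xK 0 = lpt cK θ y := by
    funext i
    apply Subtype.ext
    change x 0 i = _
    rw [hx0]
    rfl
  have hBK : ∀ n, MvPolynomial.aeval (xK n) B ≠ 0 := fun n => hBx _ (hxB n)
  have hClK : ∀ (N p : ℕ), Cl N p x → Cl N p xK := by
    intro N p h G j hj
    obtain ⟨J, hJ⟩ := h (MvPolynomial.map (algebraMap K k) G) j (by
      rw [hxxK, eval_coe]
      exact fun h0 => hj ((map_eq_zero_iff _ (algebraMap K k).injective).1 h0))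
    refine ⟨J, fun s h0 => hJ s ?_⟩
    rw [hxxK, eval_coe, h0, map_zero]
  have hfin := hfinal y hjY hjH xK hxK0 hflow hBK
  suffices hd : Dns xK from descP k K 2 xK hd
  intro G hG
  by_contra hcon
  push Not at hcon
  obtain ⟨P, hP, hPx⟩ := exists_irr
    (fun H : Pl K => ∀ t, MvPolynomial.eval (xK (N * N' * t)) H = 0)
    (fun u hu h => by
      have e := h 0
      exact (hu.map (MvPolynomial.eval (xK (N * N' * 0)))).ne_zero e)
    (fun a b h => hPrime K xK N N' p p' hp hp' (by omega) hN hN' (hClK _ _ hxCl) (hClK _ _ hxCl')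
      a b h) G hG (fun t => hcon _)
  exact hfin P hP hPx

end Pool.Agent.Lib.MP_16285c_agZ
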