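import Pool.Agent.Lib.MP_16285c_agZ.All
import Pool.Agent.Lib.MP_16285c_agZ.Fin2
import Pool.Agent.Lib.MP_16285c_agZ.LiftC2
import Pool.Agent.Lib.MP_16285c_agZ.Sup
import Pool.Agent.Lib.MP_16285c_agZ.Box2

/-!
# Theorem Z over any algebraically closed field of characteristic zero: everything together
-/

set_option autoImplicit false

namespace Pool.Agent.Lib.MP_16285c_agZ

theorem fin2 : StmtFin2 :=
  stmtFin2 allCore stmtBox2 stmtPrime stmtLiftC2 stmtSup tDesc (tTpGe (tTpLe tDisj)) tTpPow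
    (tDgMul tRep) tVal

end Pool.Agent.Lib.MP_16285c_agZ
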