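import Pool.Agent.Lib.MP_16285c_agS.Fin.All

/-!
# The strong Zariski dense orbit conjecture for surfaces

Let `k` be an algebraically closed field of characteristic zero, `I` a prime ideal of `k[y₁, …, y_m]` such that the
variety `X = V(I)` in affine `m`-space has dimension two, and `f` a dominant rational self-map of `X`, given by the
homomorphism `φ = f* : k(X) → k(X)`. If `f` has no non-constant invariant rational function then for every non-empty
open set `b ≠ 0` of `X` there is a point of `X` whose `f`-orbit is well defined, contained in this open set, and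
Zariski dense in `X`.
-/

set_option autoImplicit false

namespace Pool.Agent.Lib.MP_16285c_agZ.AllSurfacesOld

open MvPolynomial

/-- The coordinate ring of the affine variety `V(I)` in affine `m`-space. -/
abbrev Coord {k : Type} [Field k] {m : ℕ} (I : Ideal (MvPolynomial (Fin m) k)) : Type :=
  MvPolynomial (Fin m) k ⧸ I

/-- The field of rational functions on `V(I)` (`I` a prime ideal). -/
abbrev RatFun {k : Type} [Field k] {m : ℕ} (I : Ideal (MvPolynomial (Fin m) k)) : Type :=
  FractionRing (Coord I)

/-- The rational function on `V(I)` defined by a polynomial. -/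
noncomputable def restrict {k : Type} [Field k] {m : ℕ} (I : Ideal (MvPolynomial (Fin m) k))
    (A : MvPolynomial (Fin m) k) : RatFun I :=
  algebraMap (Coord I) (RatFun I) (Ideal.Quotient.mk I A)

/-- `x` is a point of `V(I)`. -/
def IsPoint {k : Type} [Field k] {m : ℕ} (I : Ideal (MvPolynomial (Fin m) k)) (x : Fin m → k) : Prop :=
  ∀ A ∈ I, eval x A = 0

/-- The rational function `h` is defined at the point `x` of `V(I)` and has the value `c` there: `h = A / B` with
polynomials `A`, `B`, `B(x) ≠ 0`, `A(x) = c B(x)`. -/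
def HasValue {k : Type} [Field k] {m : ℕ} (I : Ideal (MvPolynomial (Fin m) k)) (h : RatFun I)
    (x : Fin m → k) (c : k) : Prop :=
  ∃ A B : MvPolynomial (Fin m) k, eval x B ≠ 0 ∧ h * restrict I B = restrict I A ∧
    eval x A = c * eval x B

/-- The rational self-map `f` of `V(I)` with `f* = φ` is defined at the point `x`, and `f(x) = x'`. -/
def MapsTo {k : Type} [Field k] {m : ℕ} (I : Ideal (MvPolynomial (Fin m) k))
    (φ : RatFun I →ₐ[k] RatFun I) (x x' : Fin m → k) : Prop :=
  ∀ i : Fin m, HasValue I (φ (restrict I (X i))) x (x' i)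

/-- The strong form of the Zariski dense orbit conjecture in dimension two. -/
theorem result : ∀ (k : Type) [Field k] [IsAlgClosed k] [CharZero k] (m : ℕ)
    (I : Ideal (MvPolynomial (Fin m) k)) [I.IsPrime], Algebra.trdeg k (Coord I) = 2 →
    ∀ φ : RatFun I →ₐ[k] RatFun I,
    (∀ h : RatFun I, φ h = h → ∃ c : k, h = algebraMap k (RatFun I) c) →
    ∀ b : MvPolynomial (Fin m) k, b ∉ I →
    ∃ x : ℕ → Fin m → k, (∀ n, IsPoint I (x n)) ∧ (∀ n, MapsTo I φ (x n) (x (n + 1))) ∧
      (∀ n, eval (x n) b ≠ 0) ∧
      ∀ A : MvPolynomial (Fin m) k, (∀ n, eval (x n) A = 0) → A ∈ I := by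
  intro k _ _ _ m I _ hd φ hφ b hb
  obtain ⟨x, h1, h2⟩ := Pool.Agent.Lib.MP_16285c_agS.surf k m I hd φ hφ b hb
  refine ⟨x, fun n => (h1 n).1, fun n => (h1 n).2.2, fun n => (h1 n).2.1, fun A hA => ?_⟩
  by_contra hAI
  obtain ⟨n, hn⟩ := h2 A hAI
  exact hn (hA n)

end Pool.Agent.Lib.MP_16285c_agZ.AllSurfacesOld
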