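import Pool.Agent.Lib.MP_16285c_agZ.Spec2

/-!
# The strong Zariski dense orbit conjecture for surface maps with `λ₁ ≥ λ₂ ≥ 2`: the core argument over a field with heights
-/

set_option autoImplicit false

namespace Pool.Agent.Lib.MP_16285c_agZ

open Pool.Agent.Lib.MP_16285c_ag

namespace CorX

/-- If `a` divides all `G * F j` and the `F j` have no common factor then `a` divides `G`. -/
theorem dvd_of_cop {K : Type} [Field K] (F : Fin 3 → Pl K) (hF : ∀ c : Pl K, (∀ i, c ∣ F i) → IsUnit c)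
    (a G : Pl K) (h : ∀ j, a ∣ G * F j) : a ∣ G := by
  classical
  letI : GCDMonoid (Pl K) := UniqueFactorizationMonoid.toGCDMonoid _
  have h1 : a ∣ gcd (G * F 0) (gcd (G * F 1) (G * F 2)) := dvd_gcd (h 0) (dvd_gcd (h 1) (h 2))
  have h2 : Associated (gcd (G * F 1) (G * F 2)) (G * gcd (F 1) (F 2)) := gcd_mul_left' _ _ _
  have h3 : gcd (G * F 0) (gcd (G * F 1) (G * F 2)) ∣ gcd (G * F 0) (G * gcd (F 1) (F 2)) :=
    gcd_dvd_gcd dvd_rfl h2.dvd
  have h4 : Associated (gcd (G * F 0) (G * gcd (F 1) (F 2))) (G * gcd (F 0) (gcd (F 1) (F 2))) :=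
    gcd_mul_left' _ _ _
  have h5 : IsUnit (gcd (F 0) (gcd (F 1) (F 2))) := by
    apply hF
    intro i
    fin_cases i
    · exact gcd_dvd_left _ _
    · exact (gcd_dvd_right _ _).trans (gcd_dvd_left _ _)
    · exact (gcd_dvd_right _ _).trans (gcd_dvd_right _ _)
  exact (h1.trans (h3.trans h4.dvd)).trans (h5.mul_right_dvd.2 dvd_rfl)

theorem bc_self {K : Type} [Field K] (g : RF K) : bc K K g = g := by
  have : (bc K K : RF K →+* RF K) = RingHom.id _ := by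
    apply hom_ext
    · intro c
      rw [bc_algebraMap]
      rfl
    · intro i
      rw [bc_gen]
      rfl
  rw [this]
  rfl

theorem cmp_self {K : Type} [Field K] (σ : RF K →ₐ[K] RF K) : Cmp σ σ := fun i => (bc_self _).symm

theorem fr_mul' {K : Type} [Field K] (a b : Pl K) : fr (a * b) = fr a * fr b := map_mul _ _ _

theorem aeval_self {K : Type} [Field K] (x : Fin 2 → K) (G : Pl K) :
    MvPolynomial.aeval x G = MvPolynomial.eval x G :=
  congrArg (fun u : Pl K →+* K => u G) (MvPolynomial.coe_aeval_eq_eval x)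

/-- A number `η < τ` with `η ^ M > τ ^ M - 1/2`. -/
theorem exists_eta (τ M : ℕ) (hτ : 2 ≤ τ) (hM : 1 ≤ M) :
    ∃ η : ℝ, 0 < η ∧ η < τ ∧ (τ : ℝ) ^ M - 1 / 2 < η ^ M := by
  have hτ' : (2 : ℝ) ≤ τ := by exact_mod_cast hτ
  have hM' : (1 : ℝ) ≤ M := by exact_mod_cast hM
  have hp : (1 : ℝ) ≤ (τ : ℝ) ^ M := one_le_pow₀ (by linarith)
  set δ : ℝ := 1 / (4 * M * (τ : ℝ) ^ M) with hδ
  have hpos : 0 < 4 * (M : ℝ) * (τ : ℝ) ^ M := by positivity
  have hδ0 : 0 < δ := by positivity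
  have hδ1 : δ * (4 * M * (τ : ℝ) ^ M) = 1 := by
    rw [hδ]
    field_simp
  have hδ2 : δ ≤ 1 / 4 := by
    rw [hδ]
    apply one_div_le_one_div_of_le (by norm_num)
    nlinarith
  refine ⟨τ * (1 - δ), by nlinarith, by nlinarith, ?_⟩
  have hb : 1 + (M : ℝ) * (-δ) ≤ (1 + -δ) ^ M := one_add_mul_le_pow (by linarith) M
  rw [mul_pow, show (1 : ℝ) - δ = 1 + -δ by ring]
  have : (τ : ℝ) ^ M * (1 + (M : ℝ) * (-δ)) ≤ (τ : ℝ) ^ M * (1 + -δ) ^ M :=
    mul_le_mul_of_nonneg_left hb (by positivity)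
  nlinarith

/-- A common zero set is avoided eventually by injective sequences. -/
theorem eventually_ne {K : Type} [Field K] (hCZ : StmtCZ) (P Q : Pl K) (hP : Irreducible P)
    (hPQ : ¬ P ∣ Q) (z : ℕ → Fin 2 → K) (hz : Function.Injective z)
    (hPz : ∀ t, MvPolynomial.eval (z t) P = 0) :
    ∃ t₀, ∀ t, t₀ ≤ t → MvPolynomial.eval (z t) Q ≠ 0 := by
  have hcop : ∀ c : Pl K, (∀ i, c ∣ (![P, Q, Q] : Fin 3 → Pl K) i) → IsUnit c := by
    intro c hc
    have h0 : c ∣ P := hc 0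
    have h1 : c ∣ Q := hc 1
    obtain ⟨e, he⟩ := h0
    rcases hP.isUnit_or_isUnit he with h | h
    · exact h
    · exfalso
      apply hPQ
      have : P ∣ c := by
        obtain ⟨u, hu⟩ := h
        refine ⟨(u⁻¹ : (Pl K)ˣ), ?_⟩
        rw [he, ← hu, mul_assoc, Units.mul_inv, mul_one]
      exact this.trans h1
  have hfin := hCZ K _ hcop K
  have hfin2 : {t : ℕ | MvPolynomial.eval (z t) Q = 0}.Finite := by
    apply (hfin.preimage (hz.injOn)).subset
    intro t ht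
    simp only [Set.mem_preimage, Set.mem_ofPred_eq] at ht ⊢
    intro i
    have e1 : MvPolynomial.aeval (z t) P = 0 := by
      rw [aeval_self]
      exact hPz t
    have e2 : MvPolynomial.aeval (z t) Q = 0 := by
      rw [aeval_self]
      exact ht
    fin_cases i
    · exact e1
    · exact e2
    · exact e2
  obtain ⟨t₀, ht₀⟩ := hfin2.bddAbove
  refine ⟨t₀ + 1, fun t ht h0 => ?_⟩
  have := ht₀ (show t ∈ {t : ℕ | MvPolynomial.eval (z t) Q = 0} from h0)
  omega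

end CorX

open CorX in
theorem stmtCore (hRecV : StmtRecV) (hRep : SRep) (hTp : STpPow) (hDg : SDgMul) (hVal : SVal)
    (hDesc : SDesc) (hNoI : SNoIPow) (hLine : StmtLine) (hLine2 : StmtLine2) (hLev : StmtLev)
    (hGro : StmtGro) (hCan : StmtCan) (hDegP : StmtDegP) (hUpp : StmtUpp) (hPres : StmtPres)
    (hCZ : StmtCZ) (hFin : StmtFinOrb) (hReal : StmtReal) (hJac : StmtJac) : StmtCore := by
  intro K₀ _ _ σ₀ h2 hdeg₀
  have hdg1 : ∀ n, 1 ≤ dg (it σ₀ n) := fun n => le_trans (Nat.one_le_pow _ _ (by omega)) (hdeg₀ n)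
  obtain ⟨⟨m, hm1, hm9, hm16⟩, -⟩ := hLev (fun n => dg (it σ₀ n)) (tp σ₀) h2
    (fun m n => hDg.2.1 K₀ σ₀ m n) hdeg₀
  obtain ⟨B₁, hB₁0, hB₁⟩ := hRecV K₀ σ₀ m (by omega) (hdg1 m) (hdg1 (2 * m))
  obtain ⟨F, hF, -, -⟩ := hRep.1 K₀ (it σ₀ m)
  refine ⟨B₁ * F 0, mul_ne_zero hB₁0 hF.ne, ?_⟩
  intro K _ _ _ _ σ hcmp htp hnoi hdeg c hcB M hM
  have hB₁x : ∀ x : Fin 2 → K, MvPolynomial.aeval x (B₁ * F 0) ≠ 0 → MvPolynomial.aeval x B₁ ≠ 0 := by
    intro x hx h0
    rw [map_mul, h0, zero_mul] at hx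
    exact hx rfl
  have hdgK : ∀ n, 1 ≤ dg (it σ n) := fun n =>
    le_trans (Nat.one_le_pow _ _ (by omega)) (hdeg n)
  obtain ⟨C₁, hC₁⟩ := hB₁ K σ hcmp
  obtain ⟨F', hF', hF'deg, hF'top⟩ := hRep.1 K (it σ m)
  -- `F' 0` does not vanish at `c`
  have hF'c : MvPolynomial.eval c (F' 0) ≠ 0 := by
    have hW := hDesc.2.2.2 K₀ K (it σ₀ m) F hF.toWk
    have hdvd : F' 0 ∣ MvPolynomial.map (algebraMap K₀ K) (F 0) := by
      apply dvd_of_cop F' hF'.cop
      intro j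
      refine Fin.cases ?_ (fun j => ?_) j
      · exact dvd_mul_left _ _
      · refine ⟨MvPolynomial.map (algebraMap K₀ K) (F j.succ), ?_⟩
        apply fr_injective
        have e1 := hW.eq j
        have e2 := hF'.eq j
        rw [← cmp_it hcmp] at e1
        rw [fr_mul', fr_mul', e2, e1]
        ring
    intro h0
    apply hcB
    rw [map_mul]
    obtain ⟨e, he⟩ := hdvd
    have : MvPolynomial.aeval c (F 0) = 0 := by
      rw [MvPolynomial.aeval_def, ← MvPolynomial.eval_map, he, map_mul, h0, zero_mul]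
    rw [this, mul_zero]
  obtain ⟨S₁, hS₁⟩ := hLine K F' (dg (it σ m)) hF'.cop hF'deg hF'top c ⟨0, hF'c⟩
  -- second level
  set β : ℝ := (dg (it σ₀ (2 * m)) : ℝ) / (4 * dg (it σ₀ m)) with hβ
  obtain ⟨η, hη0, hητ, hηM⟩ := exists_eta (tp σ₀) M h2 hM
  obtain ⟨s, hs1, hb2, hb16, hb8, hbη⟩ := (hLev (fun n => dg (it σ n)) (tp σ₀) h2
    (fun m n => hDg.2.1 K σ m n) (fun n => by rw [← htp]; exact hdeg n)).2 m M (β / 2) η hm1 hM
    (by linarith) hη0 hητ
  set m' : ℕ := m * M * s with hm'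
  set β' : ℝ := (dg (it σ (2 * m')) : ℝ) / (4 * dg (it σ m')) with hβ'
  obtain ⟨B₂, hB₂0, hB₂⟩ := hRecV K σ m' (by omega) (hdgK _) (hdgK _)
  obtain ⟨C₂, hC₂⟩ := hB₂ K σ (cmp_self σ)
  -- totally invariant curves
  obtain ⟨G, hG, -, -⟩ := hRep.1 K (it σ M)
  set fM : RM K 2 := ⟨fun i => G i.succ, fun _ => G 0⟩ with hfM
  have hOf : Of fM (σ ^ M) := fun i => ⟨hG.ne, (hG.eq i).symm⟩
  have htpM : tp (σ ^ M) = tp σ₀ ^ M := by rw [hTp.2.1, htp]
  have h2M : 2 ≤ tp σ₀ ^ M := le_trans h2 (Nat.le_self_pow (by omega) _)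
  have h𝓑 : fM.den 0 * fM.den 1 * jac fM ≠ 0 :=
    mul_ne_zero (mul_ne_zero hG.ne hG.ne) (hJac K fM _ hOf)
  obtain ⟨Γ, hΓ0, hΓ⟩ := hCan K (σ ^ M) (by rw [htpM]; exact h2M) (hNoI K σ M hM hnoi) _ h𝓑
  obtain ⟨S₂, hS₂⟩ := hLine2.2 K (Γ * B₂) (mul_ne_zero hΓ0 hB₂0) c
  refine ⟨S₁ ∪ S₂, fun θ hθ => ?_⟩
  rw [Finset.mem_union, not_or] at hθ
  obtain ⟨C₃, hC₃⟩ := hS₁ θ hθ.1
  obtain ⟨C₄, hC₄⟩ := hLine2.1 K c θ
  refine ⟨9 * |C₃| + 8 * |C₄| + |C₁| + 1, {y : K | MvPolynomial.eval (lpt c θ y) (Γ * B₂) = 0},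
    hS₂ θ hθ.2, ?_⟩
  intro y hy hyH x hx0 hflow hxB P hP hPx
  set h : ℕ → ℝ := fun n => Height.logHeight (hc (x n)) with hh
  have hn : ∀ n, 0 ≤ h n := fun n => Height.logHeight_nonneg _
  have hrec1 : ∀ n, β * h (n + m) ≤ h (n + 2 * m) + 2 * (tp σ₀ : ℝ) ^ m * h n + C₁ := fun n =>
    hC₁ x hflow n (hB₁x _ (hxB n))
  have hτ2 : (2 : ℝ) ≤ tp σ₀ := by exact_mod_cast h2
  have hτm : (1 : ℝ) ≤ (tp σ₀ : ℝ) ^ m := one_le_pow₀ (by linarith)
  have h0le : h 0 ≤ Height.logHeight₁ y + C₄ := by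
    rw [hh]
    simp only [hx0]
    exact hC₄ y
  have hdm : (tp σ₀ : ℝ) ^ m ≤ (dg (it σ m) : ℝ) := by
    rw [← htp]
    exact_mod_cast hdeg m
  have hmge : (tp σ₀ : ℝ) ^ m * Height.logHeight₁ y ≤ h m + C₃ := by
    obtain ⟨hv0, hv⟩ := hVal.2.2.2.2.1 K (σ ^ m) (x 0) (x (0 + m)) F'
      (hVal.2.1 K σ x hflow m 0) hF'
    have e2 : Height.logHeight (fun i => MvPolynomial.eval (lpt c θ y) (F' i)) = h m := by
      rw [← hx0]
      have : (fun i => MvPolynomial.eval (x 0) (F' i)) =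
          MvPolynomial.eval (x 0) (F' 0) • hc (x m) := by
        funext i
        refine Fin.cases ?_ (fun i => ?_) i
        · simp [hc]
        · rw [hv i, zero_add]
          simp [hc]
      rw [this, Height.logHeight_smul_eq_logHeight _ hv0]
    have e3 := hC₃ y
    rw [e2] at e3
    have e4 := mul_le_mul_of_nonneg_right hdm (Height.zero_le_logHeight₁ y)
    linarith
  have hY0 : 0 ≤ Height.logHeight₁ y := Height.zero_le_logHeight₁ y
  have a1 := abs_nonneg C₁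
  have a3 := abs_nonneg C₃
  have a4 := abs_nonneg C₄
  have b1 := le_abs_self C₁
  have b3 := le_abs_self C₃
  have b4 := le_abs_self C₄
  have hmge2 : (tp σ₀ : ℝ) ^ m * Height.logHeight₁ y - |C₃| ≤ h m := by linarith
  have hmul : (tp σ₀ : ℝ) ^ m * (9 * |C₃| + 8 * |C₄| + |C₁| + 1) ≤
      (tp σ₀ : ℝ) ^ m * Height.logHeight₁ y :=
    mul_le_mul_of_nonneg_left hyH.le (by linarith)
  have hmul2 : 9 * |C₃| + |C₁| + 1 ≤ (tp σ₀ : ℝ) ^ m * (9 * |C₃| + |C₁| + 1) := by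
    nlinarith
  have hm0 : 0 < h m := by nlinarith
  have hgro0 := hGro (fun j => h (m * j)) (2 * (tp σ₀ : ℝ) ^ m) β C₁ (by positivity)
    (by linarith) (by linarith) (fun j => hn _) 0
    (fun j _ => by
      have e := hrec1 (m * j)
      rw [show m * j + m = m * (j + 1) by ring, show m * j + 2 * m = m * (j + 2) by ring] at e
      exact e)
    (by
      simp only [Nat.zero_add, mul_one, mul_zero]
      have e1 : β * h m ≥ 9 * h m := mul_le_mul_of_nonneg_right hm9 hm0.le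
      have e2 : 8 * (tp σ₀ : ℝ) ^ m * h 0 ≤
          8 * (tp σ₀ : ℝ) ^ m * (Height.logHeight₁ y + |C₄|) :=
        mul_le_mul_of_nonneg_left (by linarith) (by positivity)
      nlinarith)
    (by
      simp only [Nat.zero_add, mul_one]
      have e1 : β * h m ≥ 9 * h m := mul_le_mul_of_nonneg_right hm9 hm0.le
      nlinarith)
  have hgrow : ∀ j, 1 ≤ j → β / 2 * h (m * j) ≤ h (m * (j + 1)) := fun j hj => hgro0 j hj
  have hgrow2 : ∀ i, (β / 2) ^ i * h m ≤ h (m * (1 + i)) := by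
    intro i
    induction i with
    | zero => simp
    | succ i ih =>
      have e := hgrow (1 + i) (by omega)
      rw [pow_succ']
      have e2 : β / 2 * ((β / 2) ^ i * h m) ≤ β / 2 * h (m * (1 + i)) :=
        mul_le_mul_of_nonneg_left ih (by linarith)
      calc β / 2 * (β / 2) ^ i * h m = β / 2 * ((β / 2) ^ i * h m) := by ring
        _ ≤ _ := e2
        _ ≤ _ := e
  have hunb : ∀ Bd : ℝ, ∃ n, Bd < h n := by
    intro Bd
    obtain ⟨i, hi⟩ := pow_unbounded_of_one_lt (Bd / h m) (show (1 : ℝ) < β / 2 by linarith)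
    refine ⟨m * (1 + i), lt_of_lt_of_le ?_ (hgrow2 i)⟩
    rwa [div_lt_iff₀ hm0] at hi
  -- the orbit of the `M`-th iterate
  set z : ℕ → Fin 2 → K := fun t => x (M * t) with hz
  have hno : ∀ s' t' : ℕ, s' < t' → x s' ≠ x t' := by
    intro s' t' hst he
    have hf := hFin K σ x hflow s' t' hst he
    have hf2 : (Set.range h).Finite := by
      have : Set.range h = (fun w : Fin 2 → K => Height.logHeight (hc w)) '' Set.range x := by
        rw [← Set.range_comp]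
        rfl
      rw [this]
      exact hf.image _
    obtain ⟨Bd, hBd⟩ := hf2.bddAbove
    obtain ⟨n, hnn⟩ := hunb Bd
    exact absurd (hBd ⟨n, rfl⟩) (not_le.2 hnn)
  have hzinj : Function.Injective z := by
    intro s' t' he
    by_contra hne
    rcases lt_or_gt_of_ne hne with hlt | hlt
    · exact hno _ _ (Nat.mul_lt_mul_of_pos_left hlt (by omega)) he
    · exact hno _ _ (Nat.mul_lt_mul_of_pos_left hlt (by omega)) he.symm
  have hD : ∀ Q : Pl K, ¬ P ∣ Q → ∃ t₀, ∀ t, t₀ ≤ t → MvPolynomial.eval (z t) Q ≠ 0 :=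
    fun Q hQ => eventually_ne hCZ P Q hP hQ z hzinj hPx
  have hflowz : Flow (σ ^ M) z := fun t => by
    have := hVal.2.1 K σ x hflow M (M * t)
    rw [show M * t + M = M * (t + 1) by ring] at this
    exact this
  have hPr : Pres (σ ^ M) P := hPres K (σ ^ M) P z hflowz hPx hD
  have hP0 : MvPolynomial.eval (x 0) P = 0 := hPx 0
  have hPG : ¬ P ∣ G 0 := by
    rintro ⟨e, he⟩
    obtain ⟨hv0, -⟩ := hVal.2.2.2.2.1 K (σ ^ M) (x 0) (x (0 + M)) G
      (hVal.2.1 K σ x hflow M 0) hG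
    apply hv0
    rw [he, map_mul, hP0, zero_mul]
  haveI hprime : (Ideal.span {P} : Ideal (Pl K)).IsPrime :=
    (Ideal.span_singleton_prime hP.ne_zero).2 hP.prime
  haveI : IsDomain (CR P) := Ideal.Quotient.isDomain _
  obtain ⟨ρb, hρb, hle, heq⟩ := hDegP K fM (σ ^ M) hOf (by rw [htpM]; omega) P hP
    (fun _ => hPG) hPr (FractionRing (CR P))
  have hyΓ : MvPolynomial.eval (x 0) Γ ≠ 0 ∧ MvPolynomial.eval (x 0) B₂ ≠ 0 := by
    have : ¬ MvPolynomial.eval (lpt c θ y) (Γ * B₂) = 0 := hy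
    rw [map_mul, ← hx0] at this
    exact ⟨left_ne_zero_of_mul this, right_ne_zero_of_mul this⟩
  by_cases hδ : Module.finrank ρb.fieldRange (FractionRing (CR P)) = tp (σ ^ M)
  · obtain ⟨a, b, ha, hb, hab, hQ⟩ := heq hδ
    obtain ⟨e, he⟩ := hΓ P a b hP ha hb hab hQ
    apply hyΓ.1
    rw [he, map_mul, hP0, zero_mul]
  · obtain ⟨C₅, hC₅⟩ := hUpp K (σ ^ M) P hP (FractionRing (CR P)) ρb hρb z hflowz hPx hD (1 / 2)
      (by norm_num)
    have hlt : Module.finrank ρb.fieldRange (FractionRing (CR P)) + 1 ≤ tp σ₀ ^ M := by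
      rw [← htpM]
      omega
    have hlt' : ((Module.finrank ρb.fieldRange (FractionRing (CR P)) : ℕ) : ℝ) + 1 ≤
        (tp σ₀ : ℝ) ^ M := by exact_mod_cast hlt
    set δ : ℝ := ((Module.finrank ρb.fieldRange (FractionRing (CR P)) : ℕ) : ℝ) with hδdef
    have hδ0 : 0 ≤ δ := Nat.cast_nonneg _
    have hC₅0 : 0 ≤ C₅ := by
      have e := hC₅ 0
      rw [pow_zero, mul_one] at e
      exact (Height.logHeight_nonneg _).trans e
    have hPB₂ : ¬ P ∣ B₂ := by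
      rintro ⟨e, he⟩
      apply hyΓ.2
      rw [he, map_mul, hP0, zero_mul]
    obtain ⟨t₀, ht₀⟩ := hD B₂ hPB₂
    refine hReal h m M s (β / 2) (2 * (tp σ₀ : ℝ) ^ m') β' η ((tp σ₀ : ℝ) ^ M - 1 / 2) C₂ C₅ t₀ hn
      hm1 hM hs1 (by linarith) hgrow hm0 (by positivity) hb2 (by linarith) (by linarith) ?_ hη0
      hbη (by linarith) hηM ?_
    · intro j hj
      have hB : MvPolynomial.aeval (x (m' * j)) B₂ ≠ 0 := by
        rw [aeval_self, show m' * j = M * (m * s * j) by rw [hm']; ring]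
        apply ht₀
        calc t₀ ≤ j := hj
          _ = 1 * 1 * j := by ring
          _ ≤ m * s * j := by gcongr
      have e := hC₂ x hflow (m' * j) hB
      rw [htp, show m' * j + m' = m' * (j + 1) by ring, show m' * j + 2 * m' = m' * (j + 2) by ring]
        at e
      exact e
    · intro t
      refine (hC₅ t).trans (mul_le_mul_of_nonneg_left ?_ hC₅0)
      exact pow_le_pow_left₀ (by linarith) (by linarith) t

end Pool.Agent.Lib.MP_16285c_agZ
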