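import Pool.Agent.Lib.MP_16285c_ag.Spec

/-!
# The strong Zariski dense orbit conjecture for surface maps with `λ₁ ≥ λ₂ ≥ 2`: definitions

`Pl K = K[x, y]`, `RF K = K(x, y)`. A dominant rational self-map `f` of the affine plane over `K` is a homomorphism
`σ : RF K →ₐ[K] RF K` (`σ = f*`); `f ^ n` is `σ ^ n`. The topological degree of `f` is `tp σ = [K(x,y) : σ K(x,y)]`.
-/

set_option autoImplicit false

namespace Pool.Agent.Lib.MP_16285c_agZ

open Pool.Agent.Lib.MP_16285c_ag

/-- The coordinate ring of the plane. -/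
abbrev Pl (K : Type) [Field K] : Type := MvPolynomial (Fin 2) K

/-- The function field of the plane. -/
abbrev RF (K : Type) [Field K] : Type := FractionRing (MvPolynomial (Fin 2) K)

/-- A polynomial as a rational function. -/
noncomputable abbrev fr {K : Type} [Field K] (G : Pl K) : RF K :=
  algebraMap (MvPolynomial (Fin 2) K) (FractionRing (MvPolynomial (Fin 2) K)) G

/-- The coordinate functions. -/
noncomputable def gen (K : Type) [Field K] (i : Fin 2) : RF K := fr (MvPolynomial.X i)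

/-- The pair of rational functions of the `n`-th iterate. -/
noncomputable def it {K : Type} [Field K] (σ : RF K →ₐ[K] RF K) (n : ℕ) (i : Fin 2) : RF K :=
  (σ ^ n) (gen K i)

/-- The topological degree. -/
noncomputable def tp {K : Type} [Field K] (σ : RF K →ₐ[K] RF K) : ℕ :=
  Module.finrank σ.fieldRange (RF K)

/-- `g = (F₁ / F₀, F₂ / F₀)`. -/
structure Wk {K : Type} [Field K] (g : Fin 2 → RF K) (F : Fin 3 → Pl K) : Prop where
  ne : F 0 ≠ 0
  eq : ∀ i : Fin 2, fr (F i.succ) = g i * fr (F 0)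

/-- `g = (F₁ / F₀, F₂ / F₀)` with `F₀, F₁, F₂` without common factor. -/
structure Rep {K : Type} [Field K] (g : Fin 2 → RF K) (F : Fin 3 → Pl K) : Prop extends Wk g F where
  cop : ∀ c : Pl K, (∀ i, c ∣ F i) → IsUnit c

/-- The degree of a rational map (as a map of the projective plane). -/
noncomputable def dg {K : Type} [Field K] (g : Fin 2 → RF K) : ℕ :=
  sInf {D : ℕ | ∃ F : Fin 3 → Pl K, Rep g F ∧ ∀ i, (F i).totalDegree ≤ D}

/-- Homogeneous coordinates of a point of the affine plane. -/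
def hc {R : Type} [CommRing R] (x : Fin 2 → R) : Fin 3 → R := Fin.cons 1 x

/-- The vectors `D ∂ⱼ Nᵢ - Nᵢ ∂ⱼ D`. -/
noncomputable def wj {R : Type} [CommRing R] (f : RM R 2) (i j : Fin 2) : MvPolynomial (Fin 2) R :=
  MvPolynomial.pderiv j (f.num i) * f.den i - f.num i * MvPolynomial.pderiv j (f.den i)

/-- The numerator of the Jacobian determinant. -/
noncomputable def jac {R : Type} [CommRing R] (f : RM R 2) : MvPolynomial (Fin 2) R :=
  wj f 0 0 * wj f 1 1 - wj f 0 1 * wj f 1 0

/-- `σ` is the homomorphism of the rational map `f`. -/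
def Of {K : Type} [Field K] (f : RM K 2) (σ : RF K →ₐ[K] RF K) : Prop :=
  ∀ i, f.den i ≠ 0 ∧ σ (gen K i) * fr (f.den i) = fr (f.num i)

/-- `ρ` is defined at the point `x` and has the value `x'`. -/
def Val {K : Type} [Field K] (ρ : RF K →ₐ[K] RF K) (x x' : Fin 2 → K) : Prop :=
  ∀ H : Pl K, ∃ E N : Pl K, MvPolynomial.eval x E ≠ 0 ∧ fr N = fr E * ρ (fr H) ∧
    MvPolynomial.eval x N = MvPolynomial.eval x E * MvPolynomial.eval x' H

/-- `z 0, z 1, …` is an orbit of `ρ`. -/
def Flow {K : Type} [Field K] (ρ : RF K →ₐ[K] RF K) (z : ℕ → Fin 2 → K) : Prop :=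
  ∀ n, Val ρ (z n) (z (n + 1))

/-- The orbit `x` returns `p`-adically close along the progressions `j + N p ^ J s`: the zero sets of polynomials are
closed. -/
def Cl {k : Type} [Field k] (N p : ℕ) (x : ℕ → Fin 2 → k) : Prop :=
  ∀ (G : Pl k) (j : ℕ), MvPolynomial.eval (x j) G ≠ 0 →
    ∃ J : ℕ, ∀ s : ℕ, MvPolynomial.eval (x (j + N * p ^ J * s)) G ≠ 0

/-- No invariant rational functions. -/
def NoI {K : Type} [Field K] (σ : RF K →ₐ[K] RF K) : Prop :=
  ∀ g : RF K, σ g = g → ∃ c : K, g = algebraMap K (RF K) c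

/-! ## The recursion -/

/-- The data of the recursive inequality: `ρ` a rational map with coprime triple `F` of degree `≤ d` and topological
degree `T`, `Q` a triple of degree `≤ d`, and `Z` the coprime triple of the composition of the rational maps `ρ` and
`Q`, of degree exactly `D`. (`Q = F` for the square of `ρ`; the source and the target have different coordinates,
so that the source may be changed.) -/
structure Sq {K : Type} [Field K] (ρ : RF K →ₐ[K] RF K) (d D T : ℕ) (F Q Z : Fin 3 → Pl K) : Prop where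
  dpos : 1 ≤ d
  Dpos : 1 ≤ D
  Tpos : 1 ≤ T
  tpT : tp ρ = T
  repF : Rep (fun i => ρ (gen K i)) F
  degF : ∀ i, (F i).totalDegree ≤ d
  Qne : Q 0 ≠ 0
  degQ : ∀ i, (Q i).totalDegree ≤ d
  Zne : Z 0 ≠ 0
  Zeq : ∀ i, fr (Z i) * ρ (fr (Q 0)) = ρ (fr (Q i)) * fr (Z 0)
  Zcop : ∀ c : Pl K, (∀ i, c ∣ Z i) → IsUnit c
  degZ : ∀ i, (Z i).totalDegree ≤ D
  topZ : ∃ i, (Z i).totalDegree = D

/-- The spaces `∑ s ≤ j, K[x,y]_{≤ p} ζ ^ (j - s) ζ' ^ s`. -/
noncomputable def Rj {K : Type} [Field K] (ζ ζ' : Pl K) (p j : ℕ) : Submodule K (Pl K) :=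
  Submodule.span K {w | ∃ (g : Pl K) (s : ℕ), g.totalDegree ≤ p ∧ s ≤ j ∧ w = g * ζ ^ (j - s) * ζ' ^ s}

/-! ## Residue fields of curves -/

/-- The ring `K[x,y] / (P)`. -/
abbrev CR {K : Type} [Field K] (P : Pl K) : Type := MvPolynomial (Fin 2) K ⧸ Ideal.span {P}

/-- `ρ` maps the local ring of the curve `P = 0` into itself, by a local homomorphism. -/
def Pres {K : Type} [Field K] (ρ : RF K →ₐ[K] RF K) (P : Pl K) : Prop :=
  ∀ H : Pl K, ∃ E N : Pl K, ¬ P ∣ E ∧ fr N = fr E * ρ (fr H) ∧ (P ∣ H ↔ P ∣ N)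

/-- The rational function `g` is regular along the curve `P = 0` and its restriction is `u`; `L` is the field of
fractions of `K[x,y] / (P)`. -/
def Rsd {K : Type} [Field K] (P : Pl K) (L : Type) [Field L] [Algebra (CR P) L] (g : RF K) (u : L) :
    Prop :=
  ∃ N E : Pl K, ¬ P ∣ E ∧ g * fr E = fr N ∧
    u * algebraMap (CR P) L (Ideal.Quotient.mk _ E) = algebraMap (CR P) L (Ideal.Quotient.mk _ N)

end Pool.Agent.Lib.MP_16285c_agZ
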