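import Pool.Agent.Lib.MP_16285c_agN.AllN

/-!
# The strong Zariski dense orbit conjecture for dominant rational self-maps of affine space with `λ_r < λ_N` for
`1 ≤ r ≤ N - 2`, in particular for all dominant rational self-maps of the plane

Let `k` be an algebraically closed field of characteristic zero and `f` a dominant rational self-map of affine `N`-space over `k`.
Suppose that the topological degree of `f` is larger than the `r`-th dynamical degree of `f` for `1 ≤ r ≤ N - 2` (no
condition if `N ≤ 2`). If `f` has no non-constant invariant rational function then for every non-zero polynomial `b` there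
is a point of `k^N` whose `f`-orbit is well defined, contained in the open set `b ≠ 0`, and Zariski dense.

Here `f` is given by the homomorphism `σ = f* : k(x) → k(x)`; the iterates of `f` correspond to the powers of `σ`.
-/

set_option autoImplicit false

namespace Pool.Agent.Lib.MP_16285c_agZ.RationalMapsOld

open MvPolynomial

/-- The field of rational functions of affine `N`-space. -/
abbrev RatFun (N : ℕ) (k : Type) [Field k] : Type := FractionRing (MvPolynomial (Fin N) k)

/-- A polynomial as a rational function. -/
noncomputable abbrev toRat {N : ℕ} {k : Type} [Field k] (G : MvPolynomial (Fin N) k) : RatFun N k :=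
  algebraMap (MvPolynomial (Fin N) k) (FractionRing (MvPolynomial (Fin N) k)) G

/-- The coordinate functions. -/
noncomputable def coord (N : ℕ) (k : Type) [Field k] (i : Fin N) : RatFun N k := toRat (X i)

/-- The components of the `m`-th iterate of the rational map `f` with `σ = f*`. -/
noncomputable def comps {N : ℕ} {k : Type} [Field k] (σ : RatFun N k →ₐ[k] RatFun N k) (m : ℕ)
    (i : Fin N) : RatFun N k := (σ ^ m) (coord N k i)

/-- The linear combinations of `g_0, …, g_{N-1}` with the coefficients `A`. -/
noncomputable def linComb {N c : ℕ} {k : Type} [Field k] (A : Fin c → Fin N → k)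
    (g : Fin N → RatFun N k) (i : Fin c) : RatFun N k :=
  ∑ j, algebraMap k (RatFun N k) (A i j) * g j

/-- The field generated by linear combinations of the coordinates and linear combinations of the components of `g`. -/
noncomputable def mixedField {N s r : ℕ} {k : Type} [Field k] (A : Fin s → Fin N → k)
    (B : Fin r → Fin N → k) (g : Fin N → RatFun N k) : IntermediateField k (RatFun N k) :=
  IntermediateField.adjoin k (Set.range (linComb A (coord N k)) ∪ Set.range (linComb B g))

/-- The `r`-th degree of the rational map `g`: the largest degree of `k(x)` over a field generated by `N - r` linear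
combinations of the coordinates and `r` linear combinations of the components of `g` (infinite degrees are not counted); this
is the number of points in which `N - r` general affine hyperplanes meet the inverse images under `g` of `r` general affine hyperplanes. -/
noncomputable def degree {N : ℕ} {k : Type} [Field k] (r : ℕ) (g : Fin N → RatFun N k) : ENNReal :=
  ⨆ (A : Fin (N - r) → Fin N → k) (B : Fin r → Fin N → k),
    (Module.finrank (mixedField A B g) (RatFun N k) : ENNReal)

/-- The `r`-th dynamical degree `λ_r(f) = limsup (deg_r f^m)^(1/m)`. -/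
noncomputable def lam {N : ℕ} {k : Type} [Field k] (r : ℕ) (σ : RatFun N k →ₐ[k] RatFun N k) :
    ENNReal :=
  Filter.limsup (fun m : ℕ => degree r (comps σ m) ^ ((m : ℝ)⁻¹)) Filter.atTop

/-- The topological degree `[k(x) : f* k(x)]`. -/
noncomputable def topDegree {N : ℕ} {k : Type} [Field k] (σ : RatFun N k →ₐ[k] RatFun N k) : ℕ :=
  Module.finrank σ.fieldRange (RatFun N k)

/-- **The strong Zariski dense orbit conjecture for all dominant rational self-maps of the plane, and for the dominant rational
self-maps of affine `N`-space with `λ_r(f) < λ_N(f)` for `1 ≤ r ≤ N - 2`.** -/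
theorem result (k : Type) [Field k] [IsAlgClosed k] [CharZero k] (N : ℕ)
    (σ : RatFun N k →ₐ[k] RatFun N k)
    (hbig : ∀ r : ℕ, 1 ≤ r → r + 2 ≤ N → lam r σ < (topDegree σ : ENNReal))
    (hinv : ∀ g : RatFun N k, σ g = g → ∃ c : k, g = algebraMap k (RatFun N k) c)
    (P Q : Fin N → MvPolynomial (Fin N) k)
    (hQ : ∀ i, Q i ≠ 0) (hPQ : ∀ i, σ (coord N k i) = toRat (P i) / toRat (Q i))
    (b : MvPolynomial (Fin N) k) (hb : b ≠ 0) :
    ∃ x : ℕ → Fin N → k,
      (∀ n i, eval (x n) (Q i) ≠ 0 ∧ x (n + 1) i = eval (x n) (P i) / eval (x n) (Q i)) ∧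
      (∀ n, eval (x n) b ≠ 0) ∧
      ∀ G : MvPolynomial (Fin N) k, G ≠ 0 → ∃ n, eval (x n) G ≠ 0 := by
  rcases Nat.eq_zero_or_pos N with hN | hN
  · subst hN
    have h0 : ∀ G : MvPolynomial (Fin 0) k, G ≠ 0 → ∀ x : Fin 0 → k, eval x G ≠ 0 := by
      intro G hG x h
      apply hG
      rw [eq_C_of_isEmpty G] at h ⊢
      rw [eval_C] at h
      rw [h, map_zero]
    exact ⟨fun _ _ => 0, fun _ i => i.elim0, fun n => h0 b hb _, fun G hG => ⟨0, h0 G hG _⟩⟩
  · obtain ⟨x, hx1, hx2, hx3⟩ := Pool.Agent.Lib.MP_16285c_agN.finNN k N σ hN
      (Pool.Agent.Lib.MP_16285c_agN.tTpPos k N σ) hinv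
      (Pool.Agent.Lib.MP_16285c_agN.allNFD k N σ hbig) ⟨P, Q⟩
      (fun i => ⟨hQ i, by
        have h0 : toRat (Q i) ≠ 0 := Pool.Agent.Lib.MP_16285c_agN.fr_ne_zero (hQ i)
        change σ (coord N k i) * toRat (Q i) = toRat (P i)
        rw [hPQ i, div_mul_cancel₀ _ h0]⟩) b hb
    refine ⟨x, fun n i => ?_, hx2, hx3⟩
    obtain ⟨h4, h5⟩ := hx1 n i
    exact ⟨h4, (eq_div_iff h4).mpr h5⟩

end Pool.Agent.Lib.MP_16285c_agZ.RationalMapsOld
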