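import Pool.Agent.Lib.MP_16285c_agZ.Spec

/-!
# Sections: the change of coordinates
-/

set_option autoImplicit false

namespace Pool.Agent.Lib.MP_16285c_agZ

open Pool.Agent.Lib.MP_16285c_ag

namespace SecM

/-- The shear. -/
noncomputable def shr {K : Type} [Field K] (c : K) : Pl K →ₐ[K] Pl K :=
  MvPolynomial.aeval ![MvPolynomial.X 0 + MvPolynomial.C c * MvPolynomial.X 1, MvPolynomial.X 1]

theorem shr_shr {K : Type} [Field K] (c c' : K) (h : c + c' = 0) :
    (shr c).comp (shr c') = AlgHom.id K (Pl K) := by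
  apply MvPolynomial.algHom_ext
  intro i
  fin_cases i
  · simp [shr, add_assoc, ← add_mul, ← MvPolynomial.C_add, h]
  · simp [shr]

/-- The shear as an automorphism. -/
noncomputable def shE {K : Type} [Field K] (c : K) : Pl K ≃ₐ[K] Pl K :=
  AlgEquiv.ofAlgHom (shr c) (shr (-c)) (shr_shr c (-c) (by ring)) (shr_shr (-c) c (by ring))

theorem sum2 (m : Fin 2 →₀ ℕ) : (m.sum fun _ e => e) = m 0 + m 1 := by
  rw [Finsupp.sum_fintype _ _ (fun _ => rfl), Fin.sum_univ_two]

theorem deg_shr {K : Type} [Field K] (c : K) (G : Pl K) : (shr c G).totalDegree ≤ G.totalDegree := by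
  rw [shr, MvPolynomial.aeval_def, MvPolynomial.eval₂_eq']
  refine MvPolynomial.totalDegree_finsetSum_le fun m hm => ?_
  rw [Fin.prod_univ_two]
  have h1 := MvPolynomial.le_totalDegree hm
  rw [sum2] at h1
  have h2 : (MvPolynomial.X 0 + MvPolynomial.C c * MvPolynomial.X 1 : Pl K).totalDegree ≤ 1 := by
    refine (MvPolynomial.totalDegree_add _ _).trans (max_le ?_ ?_)
    · exact (MvPolynomial.totalDegree_X _).le
    · refine (MvPolynomial.totalDegree_mul _ _).trans ?_
      rw [MvPolynomial.totalDegree_C, MvPolynomial.totalDegree_X]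
  have h3 : (MvPolynomial.X 1 : Pl K).totalDegree ≤ 1 := (MvPolynomial.totalDegree_X _).le
  refine (MvPolynomial.totalDegree_mul _ _).trans ?_
  rw [MvPolynomial.algebraMap_eq, MvPolynomial.totalDegree_C, zero_add]
  refine (MvPolynomial.totalDegree_mul _ _).trans ?_
  have h4 := MvPolynomial.totalDegree_pow (MvPolynomial.X 0 + MvPolynomial.C c * MvPolynomial.X 1 : Pl K) (m 0)
  have h5 := MvPolynomial.totalDegree_pow (MvPolynomial.X 1 : Pl K) (m 1)
  refine le_trans (add_le_add (h4.trans (Nat.mul_le_mul_left _ h2))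
    (h5.trans (Nat.mul_le_mul_left _ h3))) ?_
  omega

theorem deg_shE {K : Type} [Field K] (c : K) (G : Pl K) :
    (shE c G).totalDegree = G.totalDegree := by
  apply le_antisymm
  · exact deg_shr c G
  · have h := deg_shr (-c) (shE c G)
    have h2 : shr (-c) (shE c G) = G := by
      change (shE c).symm (shE c G) = G
      exact AlgEquiv.symm_apply_apply _ _
    rwa [h2] at h

theorem deg_shE_symm {K : Type} [Field K] (c : K) (G : Pl K) :
    ((shE c).symm G).totalDegree = G.totalDegree := by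
  conv_rhs => rw [← AlgEquiv.apply_symm_apply (shE c) G]
  rw [deg_shE]

/-- The restriction to the line `x = 0`. -/
theorem coeff_y {K : Type} [Field K] (H : Pl K) (d : ℕ) :
    ((MvPolynomial.aeval ![0, Polynomial.X] : Pl K →ₐ[K] Polynomial K) H).coeff d =
      H.coeff (Finsupp.single 1 d) := by
  rw [MvPolynomial.aeval_def, MvPolynomial.eval₂_eq', Polynomial.finsetSum_coeff,
    Finset.sum_eq_single (Finsupp.single 1 d)]
  · simp [Fin.prod_univ_two, Polynomial.coeff_X_pow]
  · intro m _ hne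
    rw [Fin.prod_univ_two]
    by_cases h0 : m 0 = 0
    · have h1 : d ≠ m 1 := by
        rintro rfl
        apply hne
        ext i
        fin_cases i
        · simpa using h0
        · simp
      simp [h0, Polynomial.coeff_X_pow, h1]
    · simp [h0]
  · intro h
    rw [MvPolynomial.notMem_support_iff.1 h]
    simp

theorem coeff_shr {K : Type} [Field K] (c : K) (G : Pl K) (d : ℕ) :
    (shr c G).coeff (Finsupp.single 1 d) = ∑ m ∈ G.support with m 0 + m 1 = d,
      G.coeff m * c ^ m 0 := by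
  have h : (MvPolynomial.aeval ![0, Polynomial.X] : Pl K →ₐ[K] Polynomial K).comp (shr c) =
      MvPolynomial.aeval ![Polynomial.C c * Polynomial.X, Polynomial.X] := by
    apply MvPolynomial.algHom_ext
    intro i
    fin_cases i <;> simp [shr]
  rw [← coeff_y, ← AlgHom.comp_apply, h, MvPolynomial.aeval_def, MvPolynomial.eval₂_eq',
    Polynomial.finsetSum_coeff, Finset.sum_filter]
  refine Finset.sum_congr rfl fun m _ => ?_
  rw [Fin.prod_univ_two]
  have h2 : (algebraMap K (Polynomial K)) (MvPolynomial.coeff m G) *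
      ((![Polynomial.C c * Polynomial.X, Polynomial.X] : Fin 2 → Polynomial K) 0 ^ m 0 *
        (![Polynomial.C c * Polynomial.X, Polynomial.X] : Fin 2 → Polynomial K) 1 ^ m 1) =
      Polynomial.C (G.coeff m * c ^ m 0) * Polynomial.X ^ (m 0 + m 1) := by
    simp only [Matrix.cons_val_zero, Matrix.cons_val_one, Polynomial.algebraMap_eq]
    rw [mul_pow, ← Polynomial.C_pow, Polynomial.C_mul, pow_add]
    ring
  rw [h2, Polynomial.coeff_C_mul, Polynomial.coeff_X_pow]
  by_cases h3 : m 0 + m 1 = d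
  · rw [if_pos h3.symm, if_pos h3, mul_one]
  · rw [if_neg (fun h => h3 h.symm), if_neg h3, mul_zero]

/-- A shear which makes the coefficient of `y ^ d` nonzero. -/
theorem good {K : Type} [Field K] [Infinite K] (G : Pl K) (d : ℕ)
    (h : ∃ m ∈ G.support, m 0 + m 1 = d) : ∃ c : K, (shr c G).coeff (Finsupp.single 1 d) ≠ 0 := by
  classical
  obtain ⟨m₀, hm₀, hm₀d⟩ := h
  set P : Polynomial K := ∑ m ∈ G.support with m 0 + m 1 = d,
    Polynomial.C (G.coeff m) * Polynomial.X ^ m 0 with hP
  have hP0 : P.coeff (m₀ 0) = G.coeff m₀ := by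
    rw [hP, Polynomial.finsetSum_coeff, Finset.sum_eq_single m₀]
    · simp
    · intro m hm hne
      rw [Finset.mem_filter] at hm
      rw [Polynomial.coeff_C_mul, Polynomial.coeff_X_pow, if_neg, mul_zero]
      intro hh
      apply hne
      ext i
      fin_cases i
      · exact hh.symm
      · change m 1 = m₀ 1
        omega
    · intro hh
      exact absurd (Finset.mem_filter.2 ⟨hm₀, hm₀d⟩) hh
  by_contra hcon
  push Not at hcon
  have hPz : P = 0 := by
    apply Polynomial.funext
    intro r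
    rw [Polynomial.eval_zero, ← hcon r, coeff_shr, hP, Polynomial.eval_finsetSum]
    refine Finset.sum_congr rfl fun m _ => ?_
    simp
  rw [hPz, Polynomial.coeff_zero] at hP0
  exact (MvPolynomial.mem_support_iff.1 hm₀) hP0.symm

/-- The extension of an automorphism to the function field. -/
noncomputable def ex {K : Type} [Field K] (φ : Pl K ≃ₐ[K] Pl K) : RF K ≃ₐ[K] RF K :=
  IsLocalization.algEquivOfAlgEquiv (M := nonZeroDivisors (Pl K)) (T := nonZeroDivisors (Pl K))
    (RF K) (RF K) φ (MulEquivClass.map_nonZeroDivisors φ)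

theorem ex_fr {K : Type} [Field K] (φ : Pl K ≃ₐ[K] Pl K) (G : Pl K) : ex φ (fr G) = fr (φ G) :=
  IsLocalization.algEquivOfAlgEquiv_eq _ _

theorem tp_ex {K : Type} [Field K] (φ : Pl K ≃ₐ[K] Pl K) (ρ : RF K →ₐ[K] RF K) :
    tp ((ex φ).toAlgHom.comp ρ) = tp ρ := by
  rw [tp, tp, ← AlgHom.map_fieldRange]
  exact (Algebra.finrank_eq_of_equiv_equiv
    (IntermediateField.intermediateFieldMap (ex φ) ρ.fieldRange).toRingEquiv (ex φ).toRingEquiv
    (by ext x; rfl)).symm

end SecM

theorem stmtSec : StmtSecA → StmtSec := by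
  intro hA K _ _ ρ d D T F Q Z hS l hl
  classical
  obtain ⟨r, m, hm, hmd⟩ : ∃ r : Fin 3, ∃ m ∈ (F r).support, m 0 + m 1 = d := by
    set Λ : Pl K := ∑ i, l i • F i with hΛ
    have hΛ0 : Λ ≠ 0 := by
      intro h0
      rw [h0, MvPolynomial.totalDegree_zero] at hl
      have := hS.dpos
      omega
    obtain ⟨m, hm, hmd⟩ := Finset.exists_mem_eq_sup Λ.support
      (MvPolynomial.support_nonempty.2 hΛ0) (fun m : Fin 2 →₀ ℕ => m.sum fun _ e => e)
    have hmd' : m 0 + m 1 = d := by
      rw [← hl, MvPolynomial.totalDegree, hmd, SecM.sum2]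
    have h1 : (∑ i, l i * (F i).coeff m) ≠ 0 := by
      have := MvPolynomial.mem_support_iff.1 hm
      rw [hΛ, MvPolynomial.coeff_sum] at this
      simpa using this
    obtain ⟨r, _, hr⟩ := Finset.exists_ne_zero_of_sum_ne_zero h1
    exact ⟨r, m, MvPolynomial.mem_support_iff.2 (right_ne_zero_of_mul hr), hmd'⟩
  obtain ⟨c, hc⟩ := SecM.good (F r) d ⟨m, hm, hmd⟩
  set φ := SecM.shE c with hφ
  set Φ := SecM.ex φ with hΦ
  have hφd : ∀ G, (φ G).totalDegree = G.totalDegree := SecM.deg_shE c
  have hcop : ∀ W : Fin 3 → Pl K, (∀ c : Pl K, (∀ i, c ∣ W i) → IsUnit c) →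
      ∀ c : Pl K, (∀ i, c ∣ φ (W i)) → IsUnit c := by
    intro W hW c hc
    have h1 : IsUnit (φ.symm c) := by
      refine hW _ fun i => ?_
      have := map_dvd φ.symm (hc i)
      rwa [AlgEquiv.symm_apply_apply] at this
    have := h1.map φ
    rwa [AlgEquiv.apply_symm_apply] at this
  have hS' : Sq (Φ.toAlgHom.comp ρ) d D T (fun i => φ (F i)) Q (fun i => φ (Z i)) := by
    refine ⟨hS.dpos, hS.Dpos, hS.Tpos, ?_, ⟨⟨?_, ?_⟩, ?_⟩, ?_, hS.Qne, hS.degQ, ?_, ?_, ?_, ?_, ?_⟩
    · rw [hΦ, SecM.tp_ex, hS.tpT]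
    · exact fun h => hS.repF.ne (φ.injective (by rw [h, map_zero]))
    · intro i
      have := congrArg Φ (hS.repF.eq i)
      rw [hΦ, map_mul, SecM.ex_fr, SecM.ex_fr] at this
      exact this
    · exact hcop F hS.repF.cop
    · intro i
      rw [hφd]
      exact hS.degF i
    · exact fun h => hS.Zne (φ.injective (by rw [h, map_zero]))
    · intro i
      have := congrArg Φ (hS.Zeq i)
      rw [map_mul, map_mul, hΦ, SecM.ex_fr, SecM.ex_fr] at this
      exact this
    · exact hcop Z hS.Zcop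
    · intro i
      rw [hφd]
      exact hS.degZ i
    · obtain ⟨i, hi⟩ := hS.topZ
      exact ⟨i, by rw [hφd]; exact hi⟩
  have hl' : (∑ i, l i • φ (F i)).totalDegree = d := by
    rw [← hl, ← hφd (∑ i, l i • F i), map_sum]
    simp only [map_smul]
  obtain ⟨i₀, hi₀⟩ := hA K (Φ.toAlgHom.comp ρ) d D T (fun i => φ (F i)) Q (fun i => φ (Z i)) hS'
    ⟨r, hc⟩ l hl'
  refine ⟨i₀, fun i hi => ?_⟩
  obtain ⟨G, hG1, hG2, hG3, hG4⟩ := hi₀ i hi
  have hev : φ (MvPolynomial.eval Z (MvPolynomial.map (φ.symm : Pl K →+* Pl K) G)) =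
      MvPolynomial.eval (fun i => φ (Z i)) G := by
    have h1 : ((φ : Pl K →+* Pl K).comp ((MvPolynomial.eval Z).comp
        (MvPolynomial.map (φ.symm : Pl K →+* Pl K)))) = MvPolynomial.eval (fun i => φ (Z i)) := by
      apply MvPolynomial.ringHom_ext
      · intro a
        simp
      · intro j
        simp
    exact DFunLike.congr_fun h1 G
  refine ⟨MvPolynomial.map (φ.symm : Pl K →+* Pl K) G, hG1.map _, fun α => ?_, ?_, ?_⟩
  · rw [MvPolynomial.coeff_map]
    change ((SecM.shE c).symm (MvPolynomial.coeff α G)).totalDegree ≤ _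
    rw [SecM.deg_shE_symm]
    exact hG2 α
  · intro h0
    rw [h0, map_zero] at hev
    exact hG3 hev.symm
  · have h1 : φ.symm (MvPolynomial.eval (fun i => φ (Z i)) G) =
        MvPolynomial.eval Z (MvPolynomial.map (φ.symm : Pl K →+* Pl K) G) := by
      rw [← hev, AlgEquiv.symm_apply_apply]
    rw [← h1]
    have h2 := map_dvd φ.symm hG4
    have h3 : φ.symm ((∑ j, l j • φ (F j)) ^ (D * i)) = (∑ j, l j • F j) ^ (D * i) := by
      rw [map_pow, map_sum]
      simp only [map_smul, AlgEquiv.symm_apply_apply]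
    rwa [h3] at h2

end Pool.Agent.Lib.MP_16285c_agZ
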