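import Pool.Agent.Lib.MP_16285c_agZ.Spec2

/-!
# Theorem Z over any algebraically closed field of characteristic zero: statements
-/

set_option autoImplicit false

namespace Pool.Agent.Lib.MP_16285c_agZ

open Pool.Agent.Lib.MP_16285c_ag

/-- (H1) `StmtBox` without the hypothesis that `k` is algebraic over `ℚ`; the Frobenius point has coordinates in a finite field. -/
def StmtBox2 : Prop :=
  ∀ (k : Type) [Field k] [IsAlgClosed k] [CharZero k] (f : RM k 2)
    (σ : RF k →ₐ[k] RF k), Of f σ → ∀ B : Pl k, B ≠ 0 → ∀ p₀ : ℕ,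
    ∃ (V : ValuationSubring k) (p : ℕ) (a : Fin 2 → IsLocalRing.ResidueField V) (N : ℕ),
      p.Prime ∧ p₀ < p ∧ CharP (IsLocalRing.ResidueField V) p ∧ 1 ≤ N ∧
      (∃ r : ℕ, 1 ≤ r ∧ ∀ i, a i ^ (p ^ r) = a i) ∧
      ∀ x₀ : Fin 2 → k, (∀ i, Lies V (x₀ i) (a i)) → ∃ x : ℕ → Fin 2 → k, x 0 = x₀ ∧ f.Orb x ∧
        (∀ n, MvPolynomial.eval (x n) B ≠ 0) ∧ Cl N p x

/-- (H2) PROOF. (i) An element `a` of the residue field of `V` with `a ^ q = a`, `q = p ^ r ≥ 2`, is the residue of an algebraic integer `α : k`: the polynomial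
`X ^ q - X` splits in `k`, its roots `α_i` satisfy `α_i ^ q = α_i`, so they are integral over `ℤ` and belong to `V`, and
`0 = a ^ q - a = ∏ (a - residue α_i)`. (ii) Chinese remainder as in `StmtLiftC` (compare `LiftC.lean`). -/
def StmtLiftC2 : Prop :=
  ∀ (k : Type) [Field k] [IsAlgClosed k] [CharZero k]
    (V V' : ValuationSubring k) (p p' : ℕ), p.Prime → p'.Prime → p ≠ p' →
    CharP (IsLocalRing.ResidueField V) p → CharP (IsLocalRing.ResidueField V') p' →
    ∀ (a : Fin 2 → IsLocalRing.ResidueField V) (a' : Fin 2 → IsLocalRing.ResidueField V'),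
      (∃ r : ℕ, 1 ≤ r ∧ ∀ i, a i ^ (p ^ r) = a i) → (∃ r : ℕ, 1 ≤ r ∧ ∀ i, a' i ^ (p' ^ r) = a' i) →
      ∃ c : Fin 2 → k, (∀ i, Lies V (c i) (a i)) ∧ ∀ i, Lies V' (c i) (a' i)

/-- (H3) Supply of elements of large height which are small at two places. PROOF. Case 1: `k` algebraic over `ℚ`: `K = ℚ(S)`, a number field; `y = (p p') ^ (j+1)` (`FinX.large` in
`Fin.lean`; compare `SupplyNum.lean` in `Lib/MP_16285c_ag`). Case 2: otherwise. (a) There is `t ∈ k` transcendental over `ℚ` with `t ∈ V` and `t ∈ V'`: let `t₀` be transcendental and `c ∈ {0, 1, 2}` such that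
`t₀ + c` is not in the maximal ideal of `V` nor of `V'` (each excludes at most one `c` if `p, p' > 2`), and `t = (t₀ + c)⁻¹`. (b) As in `TransProp`, `AdmExtProp`, `AdmRatProp` and `SupplyFunProp` of
`Lib/MP_16285c_ag/Spec.lean` (files `Trans.lean`, `AdmExt.lean`, `AdmRat.lean`, `SupplyFun.lean`): there are `F`, a subfield `K ⊇ S` of `k`, finite and Galois over `RatFunc F` with `X ↦ t`, and
`AdmissibleAbsValues K` with `logHeight₁ t > 0` (in `Trans.lean` only the choice of `t` has to be changed: it must be in `V` and `V'`; restate it for a given transcendental `t`). (c)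
`y = p p' t ^ j`: the heights tend to infinity, so `y ∉ Y` for large `j`; `Lies V y 0` since `p = 0` in the residue field. -/
def StmtSup : Prop :=
  ∀ (k : Type) [Field k] [IsAlgClosed k] [CharZero k]
    (V V' : ValuationSubring k) (p p' : ℕ), p.Prime → p'.Prime → 2 < p → 2 < p' →
    CharP (IsLocalRing.ResidueField V) p → CharP (IsLocalRing.ResidueField V') p' →
    ∀ S : Finset k, ∃ (K : Subfield k) (_ : Height.AdmissibleAbsValues K), (S : Set k) ⊆ K ∧
      ∀ (Y : Set K), Y.Finite → ∀ B : ℝ, ∃ y : K, y ∉ Y ∧ B < Height.logHeight₁ y ∧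
        Lies V (y : k) 0 ∧ Lies V' (y : k) 0

/-- The theorem over any algebraically closed field of characteristic zero. -/
def StmtFin2 : Prop :=
  ∀ (k : Type) [Field k] [IsAlgClosed k] [CharZero k]
    (σ : RF k →ₐ[k] RF k), 2 ≤ tp σ → (∀ n, tp σ ^ n ≤ dg (it σ n)) → NoI σ →
    ∀ f : RM k 2, Of f σ → ∀ b : Pl k, b ≠ 0 →
    ∃ x : ℕ → Fin 2 → k, f.Orb x ∧ (∀ n, MvPolynomial.eval (x n) b ≠ 0) ∧ Dns x

end Pool.Agent.Lib.MP_16285c_agZ
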