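import Pool.Agent.Lib.MP_16285c_agZ.All2

/-!
# The strong Zariski dense orbit conjecture for rational self-maps of the plane with `λ₁ ≥ λ₂ ≥ 2`

Let `k` be an algebraically closed field of characteristic zero and `f` a dominant rational self-map of the affine plane
over `k`, with topological degree `λ₂(f) ≥ 2` and first dynamical degree `λ₁(f) ≥ λ₂(f)`. If `f` has no non-constant invariant rational
function then for every non-zero polynomial `b` there is a point of `k²` whose `f`-orbit is well defined, contained in the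
open set `b ≠ 0`, and Zariski dense.

Here `f` is given by the homomorphism `σ = f* : k(x, y) → k(x, y)`; the iterates of `f` correspond to the powers of `σ`. The
case `λ₁(f) = λ₂(f) ≥ 2` is new.
-/

set_option autoImplicit false

namespace Pool.Agent.Results.MP_16285c_ag.SurfaceMaps

open MvPolynomial

/-- The field of rational functions `k(x, y)` of the affine plane. -/
abbrev RatFun (k : Type) [Field k] : Type := FractionRing (MvPolynomial (Fin 2) k)

/-- A polynomial as a rational function. -/
noncomputable abbrev toRat {k : Type} [Field k] (G : MvPolynomial (Fin 2) k) : RatFun k :=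
  algebraMap (MvPolynomial (Fin 2) k) (FractionRing (MvPolynomial (Fin 2) k)) G

/-- The two components of the `n`-th iterate of the rational map `f` with `σ = f*`. -/
noncomputable def comps {k : Type} [Field k] (σ : RatFun k →ₐ[k] RatFun k) (n : ℕ) (i : Fin 2) :
    RatFun k := (σ ^ n) (toRat (X i))

/-- `F = (F₀ : F₁ : F₂)` represents the rational map with components `g`: `g = (F₁ / F₀, F₂ / F₀)` and the `Fᵢ` have no
common factor. -/
def Represents {k : Type} [Field k] (F : Fin 3 → MvPolynomial (Fin 2) k) (g : Fin 2 → RatFun k) :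
    Prop :=
  F 0 ≠ 0 ∧ (∀ i : Fin 2, toRat (F i.succ) = g i * toRat (F 0)) ∧
    ∀ c : MvPolynomial (Fin 2) k, (∀ i, c ∣ F i) → IsUnit c

/-- The degree (as a rational self-map of the projective plane) of the rational map with components `g`. -/
noncomputable def degree {k : Type} [Field k] (g : Fin 2 → RatFun k) : ℕ :=
  sInf {D : ℕ | ∃ F : Fin 3 → MvPolynomial (Fin 2) k, Represents F g ∧ ∀ i, (F i).totalDegree ≤ D}

/-- The first dynamical degree `λ₁(f) = limsup (deg f^n)^(1/n)`. -/
noncomputable def lam1 {k : Type} [Field k] (σ : RatFun k →ₐ[k] RatFun k) : ℝ :=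
  Filter.limsup (fun n : ℕ => (degree (comps σ n) : ℝ) ^ ((n : ℝ)⁻¹)) Filter.atTop

/-- The topological degree `λ₂(f) = [k(x, y) : f* k(x, y)]` (the second dynamical degree; `0` if infinite). -/
noncomputable def lam2 {k : Type} [Field k] (σ : RatFun k →ₐ[k] RatFun k) : ℕ :=
  Module.finrank σ.fieldRange (RatFun k)

theorem degree_eq {k : Type} [Field k] (g : Fin 2 → RatFun k) :
    degree g = Pool.Agent.Lib.MP_16285c_agZ.dg g := by
  unfold degree Pool.Agent.Lib.MP_16285c_agZ.dg
  congr 1
  ext D
  constructor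
  · rintro ⟨F, ⟨h1, h2, h3⟩, h4⟩
    exact ⟨F, ⟨⟨h1, h2⟩, h3⟩, h4⟩
  · rintro ⟨F, h, h4⟩
    exact ⟨F, ⟨h.ne, h.eq, h.cop⟩, h4⟩

/-- Fekete's lemma: `deg f^n ≥ λ₂ ^ n` for all `n`. -/
theorem pow_le_degree {k : Type} [Field k] (σ : RatFun k →ₐ[k] RatFun k) (h2 : 2 ≤ lam2 σ)
    (h1 : (lam2 σ : ℝ) ≤ lam1 σ) (n : ℕ) : lam2 σ ^ n ≤ degree (comps σ n) := by
  have hmul : ∀ m n, degree (comps σ (m + n)) ≤ degree (comps σ m) * degree (comps σ n) := by
    intro m n
    rw [degree_eq, degree_eq, degree_eq]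
    exact (Pool.Agent.Lib.MP_16285c_agZ.tDgMul Pool.Agent.Lib.MP_16285c_agZ.tRep).2.1 k σ m n
  set d : ℕ → ℕ := fun n => degree (comps σ n) with hd
  have hlog0 : ∀ n, 0 ≤ Real.log (d n) := fun n => Real.log_natCast_nonneg _
  have hsub : Subadditive fun n => Real.log (d n) := by
    intro m n
    rcases Nat.eq_zero_or_pos (d m * d n) with h0 | h0
    · have h3 : d (m + n) = 0 := Nat.le_zero.1 ((hmul m n).trans h0.le)
      simp only [h3, Nat.cast_zero, Real.log_zero]
      exact add_nonneg (hlog0 m) (hlog0 n)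
    · have hm : (d m : ℝ) ≠ 0 := by
        have := Nat.pos_of_mul_pos_right h0
        positivity
      have hn : (d n : ℝ) ≠ 0 := by
        have := Nat.pos_of_mul_pos_left h0
        positivity
      simp only
      rw [← Real.log_mul hm hn]
      rcases Nat.eq_zero_or_pos (d (m + n)) with h4 | h4
      · rw [h4, Nat.cast_zero, Real.log_zero, Real.log_mul hm hn]
        exact add_nonneg (hlog0 m) (hlog0 n)
      · apply Real.log_le_log (by positivity)
        exact_mod_cast hmul m n
  have hbdd : BddBelow (Set.range fun n : ℕ => Real.log (d n) / n) :=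
    ⟨0, by
      rintro _ ⟨n, rfl⟩
      exact div_nonneg (hlog0 n) (Nat.cast_nonneg n)⟩
  have hlim := hsub.tendsto_lim hbdd
  have hexp : Filter.Tendsto (fun n : ℕ => Real.exp (Real.log (d n) / n)) Filter.atTop
      (nhds (Real.exp hsub.lim)) := (Real.continuous_exp.tendsto _).comp hlim
  have hle : lam1 σ ≤ Real.exp hsub.lim := by
    rw [← hexp.limsup_eq]
    apply Filter.limsup_le_limsup
    · filter_upwards [Filter.eventually_ge_atTop 1] with n hn
      have hn0 : (0 : ℝ) < n := by exact_mod_cast hn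
      rcases Nat.eq_zero_or_pos (d n) with h0 | h0
      · change ((d n : ℕ) : ℝ) ^ ((n : ℝ)⁻¹) ≤ _
        rw [h0, Nat.cast_zero, Real.zero_rpow (by positivity)]
        exact (Real.exp_pos _).le
      · change ((d n : ℕ) : ℝ) ^ ((n : ℝ)⁻¹) ≤ _
        rw [Real.rpow_def_of_pos (by exact_mod_cast h0), div_eq_mul_inv]
    · apply Filter.isCoboundedUnder_le_of_le (x := 0) Filter.atTop
      intro n
      positivity
    · exact hexp.isBoundedUnder_le
  rcases Nat.eq_zero_or_pos n with hn | hn
  · subst hn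
    rw [pow_zero]
    by_contra hcon
    have h0 : d 0 = 0 := by
      have : degree (comps σ 0) < 1 := not_le.1 hcon
      exact Nat.lt_one_iff.1 this
    have h3 : ∀ n, d n = 0 := fun n => by
      have := hmul n 0
      rw [add_zero] at this
      change d n ≤ d n * d 0 at this
      rw [h0, mul_zero] at this
      exact Nat.le_zero.1 this
    have h4 : hsub.lim ≤ 0 := by
      have := hsub.lim_le_div hbdd one_ne_zero
      simpa [h3] using this
    have h5 : Real.exp hsub.lim ≤ 1 := Real.exp_le_one_iff.2 h4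
    have h6 : (2 : ℝ) ≤ lam2 σ := by exact_mod_cast h2
    linarith
  · have h3 : hsub.lim ≤ Real.log (d n) / n := hsub.lim_le_div hbdd (by omega)
    have hn0 : (0 : ℝ) < n := by exact_mod_cast hn
    have h6 : (2 : ℝ) ≤ lam2 σ := by exact_mod_cast h2
    have h4 : Real.log (lam2 σ) ≤ hsub.lim := by
      rw [Real.log_le_iff_le_exp (by linarith)]
      exact h1.trans hle
    have h5 : (n : ℝ) * Real.log (lam2 σ) ≤ Real.log (d n) := by
      have := h4.trans h3
      rw [le_div_iff₀ hn0] at this
      linarith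
    have hpos : 0 < d n := by
      rcases Nat.eq_zero_or_pos (d n) with h0 | h0
      · exfalso
        rw [h0, Nat.cast_zero, Real.log_zero] at h5
        have : 0 < Real.log (lam2 σ) := Real.log_pos (by linarith)
        have := mul_pos hn0 this
        linarith
      · exact h0
    have h7 : ((lam2 σ : ℝ)) ^ n ≤ d n := by
      rw [← Real.log_le_log_iff (by positivity) (by exact_mod_cast hpos), Real.log_pow]
      exact h5
    exact_mod_cast h7

/-- **The strong Zariski dense orbit conjecture for dominant rational self-maps of the plane with `λ₁ ≥ λ₂ ≥ 2`.** -/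
theorem result (k : Type) [Field k] [IsAlgClosed k] [CharZero k]
    (σ : RatFun k →ₐ[k] RatFun k) (h2 : 2 ≤ lam2 σ) (h1 : (lam2 σ : ℝ) ≤ lam1 σ)
    (hinv : ∀ g : RatFun k, σ g = g → ∃ c : k, g = algebraMap k (RatFun k) c)
    (P Q : Fin 2 → MvPolynomial (Fin 2) k)
    (hQ : ∀ i, Q i ≠ 0) (hPQ : ∀ i, σ (toRat (X i)) = toRat (P i) / toRat (Q i))
    (b : MvPolynomial (Fin 2) k) (hb : b ≠ 0) :
    ∃ x : ℕ → Fin 2 → k,
      (∀ n i, eval (x n) (Q i) ≠ 0 ∧ x (n + 1) i = eval (x n) (P i) / eval (x n) (Q i)) ∧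
      (∀ n, eval (x n) b ≠ 0) ∧
      ∀ G : MvPolynomial (Fin 2) k, G ≠ 0 → ∃ n, eval (x n) G ≠ 0 := by
  obtain ⟨x, hx1, hx2, hx3⟩ := Pool.Agent.Lib.MP_16285c_agZ.fin2 k σ h2
    (fun n => by
      have := pow_le_degree σ h2 h1 n
      rw [degree_eq] at this
      exact this) hinv ⟨P, Q⟩
    (fun i => ⟨hQ i, by
      have h0 : toRat (Q i) ≠ 0 := Pool.Agent.Lib.MP_16285c_agZ.fr_ne_zero (hQ i)
      change σ (toRat (X i)) * toRat (Q i) = toRat (P i)
      rw [hPQ i, div_mul_cancel₀ _ h0]⟩) b hb
  refine ⟨x, fun n i => ?_, hx2, hx3⟩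
  obtain ⟨h4, h5⟩ := hx1 n i
  exact ⟨h4, (eq_div_iff h4).mpr h5⟩

end Pool.Agent.Results.MP_16285c_ag.SurfaceMaps
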