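import Pool.Agent.Lib.MP_16285c_agZ.Spec

/-!
# MP_16285c: transcendence degree of K(x,y)
-/

set_option autoImplicit false

namespace Pool.Agent.Lib.MP_16285c_agZ.TrM

open Pool.Agent.Lib.MP_16285c_agZ
open scoped IntermediateField.algebraAdjoinAdjoin

variable {K : Type} [Field K]

theorem fr_injective : Function.Injective (fun G : Pl K => fr G) :=
  IsFractionRing.injective (MvPolynomial (Fin 2) K) (RF K)

/-- The coordinate functions are algebraically independent. -/
theorem algInd_gen : AlgebraicIndependent K (gen K) := by
  have h := MvPolynomial.algebraicIndependent_X (Fin 2) K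
  have h2 := h.map' (f := IsScalarTower.toAlgHom K (MvPolynomial (Fin 2) K) (RF K))
    (IsFractionRing.injective (MvPolynomial (Fin 2) K) (RF K))
  exact h2

/-- A polynomial belongs to a subfield containing the coordinates. -/
theorem fr_mem (L : IntermediateField K (RF K)) (h : ∀ i, gen K i ∈ L) (G : Pl K) : fr G ∈ L := by
  induction G using MvPolynomial.induction_on with
  | C a =>
    have : fr (MvPolynomial.C a : Pl K) = algebraMap K (RF K) a := by
      rw [IsScalarTower.algebraMap_apply K (MvPolynomial (Fin 2) K) (RF K)]
      rfl
    rw [this]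
    exact L.algebraMap_mem a
  | add p q hp hq =>
    rw [fr, map_add]
    exact L.add_mem hp hq
  | mul_X p i hp =>
    rw [fr, map_mul]
    exact L.mul_mem hp (h i)

theorem eq_top_of_gen_mem (L : IntermediateField K (RF K)) (h : ∀ i, gen K i ∈ L) : L = ⊤ := by
  rw [eq_top_iff]
  rintro z -
  obtain ⟨a, b, hb, rfl⟩ := IsFractionRing.div_surjective (A := MvPolynomial (Fin 2) K) z
  exact L.div_mem (fr_mem L h a) (fr_mem L h b)

theorem two_le_trdeg : (2 : Cardinal) ≤ Algebra.trdeg K (RF K) := by
  have h := (algInd_gen (K := K)).cardinalMk_le_trdeg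
  simpa using h

theorem adjoin_gen : IntermediateField.adjoin K (Set.range (gen K)) = ⊤ :=
  eq_top_of_gen_mem _ fun i => IntermediateField.subset_adjoin K _ ⟨i, rfl⟩

/-- `E / K(S)` algebraic implies `E` algebraic over the algebra generated by `S`. -/
theorem alg_of_adjoin (S : Set (RF K))
    (h : Algebra.IsAlgebraic (IntermediateField.adjoin K S) (RF K)) :
    Algebra.IsAlgebraic (Algebra.adjoin K S) (RF K) :=
  Algebra.IsAlgebraic.trans (Algebra.adjoin K S) (IntermediateField.adjoin K S) (RF K)

/-- `E` is not algebraic over `K(t)`. -/
theorem not_alg_single (t : RF K)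
    (h : Algebra.IsAlgebraic (IntermediateField.adjoin K {t}) (RF K)) : False := by
  have h1 := alg_of_adjoin {t} h
  have h2 := Algebra.IsAlgebraic.trdeg_le_cardinalMk K ({t} : Set (RF K))
  have h3 := (two_le_trdeg (K := K)).trans h2
  rw [Cardinal.mk_singleton] at h3
  norm_num at h3

/-- Two elements which are algebraically independent generate a subfield of finite index. -/
theorem alg_pair (r : Fin 2 → RF K) (h : AlgebraicIndependent K r) :
    Algebra.IsAlgebraic (IntermediateField.adjoin K (Set.range r)) (RF K) := by
  have alg : Algebra.IsAlgebraic (Algebra.adjoin K (Set.range (gen K))) (RF K) := by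
    apply alg_of_adjoin
    rw [adjoin_gen]
    constructor
    intro x
    exact isAlgebraic_algebraMap (⟨x, IntermediateField.mem_top⟩ : (⊤ : IntermediateField K (RF K)))
  have hb : IsTranscendenceBasis K (gen K) :=
    isTranscendenceBasis_iff_algebraicIndependent_isAlgebraic.2 ⟨algInd_gen, alg⟩
  have htr : Algebra.trdeg K (RF K) = 2 := by
    rw [← hb.cardinalMk_eq_trdeg]
    simp
  have hr : IsTranscendenceBasis K r := by
    apply h.isTranscendenceBasis_of_trdeg_le_of_finite
    rw [htr]
    simp
  exact hr.isAlgebraic_field

theorem finite_pair (r : Fin 2 → RF K) (h : AlgebraicIndependent K r) :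
    FiniteDimensional (IntermediateField.adjoin K (Set.range r)) (RF K) := by
  have halg := alg_pair r h
  set L := IntermediateField.adjoin K (Set.range r) with hL
  have h1 : IntermediateField.adjoin L (Set.range (gen K)) = ⊤ := by
    have : (IntermediateField.adjoin L (Set.range (gen K))).restrictScalars K = ⊤ := by
      apply eq_top_of_gen_mem
      intro i
      exact IntermediateField.subset_adjoin L _ ⟨i, rfl⟩
    exact IntermediateField.restrictScalars_eq_top_iff.1 this
  have h2 : FiniteDimensional L (IntermediateField.adjoin L (Set.range (gen K))) := by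
    apply IntermediateField.finiteDimensional_adjoin
    intro x _
    exact (halg.isAlgebraic x).isIntegral
  rw [h1] at h2
  exact IntermediateField.topEquiv.toLinearEquiv.finiteDimensional

end Pool.Agent.Lib.MP_16285c_agZ.TrM
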