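import Pool.Agent.Lib.MP_16285c_ag.Main
import Pool.Agent.Lib.MP_16285c_ag.Map
import Pool.Agent.Lib.MP_16285c_ag.Spread
import Pool.Agent.Lib.MP_16285c_ag.Place
import Pool.Agent.Lib.MP_16285c_ag.Closed
import Pool.Agent.Lib.MP_16285c_ag.Count
import Pool.Agent.Lib.MP_16285c_ag.Frob
import Pool.Agent.Lib.MP_16285c_ag.Lift
import Pool.Agent.Lib.MP_16285c_ag.Comp
import Pool.Agent.Lib.MP_16285c_ag.Tail
import Pool.Agent.Lib.MP_16285c_ag.Inj
import Pool.Agent.Lib.MP_16285c_ag.Min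
import Pool.Agent.Lib.MP_16285c_ag.Det
import Pool.Agent.Lib.MP_16285c_ag.Semi
import Pool.Agent.Lib.MP_16285c_ag.Hess
import Pool.Agent.Lib.MP_16285c_ag.Nonconst
import Pool.Agent.Lib.MP_16285c_ag.Mob
import Pool.Agent.Lib.MP_16285c_ag.InvTail
import Pool.Agent.Lib.MP_16285c_ag.Pow
import Pool.Agent.Lib.MP_16285c_ag.Poly
import Pool.Agent.Lib.MP_16285c_ag.Vec
import Pool.Agent.Lib.MP_16285c_ag.Up
import Pool.Agent.Lib.MP_16285c_ag.Low
import Pool.Agent.Lib.MP_16285c_ag.Root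
import Pool.Agent.Lib.MP_16285c_ag.RealUp
import Pool.Agent.Lib.MP_16285c_ag.RealLow
import Pool.Agent.Lib.MP_16285c_ag.Growth
import Pool.Agent.Lib.MP_16285c_ag.Fast
import Pool.Agent.Lib.MP_16285c_ag.Desc
import Pool.Agent.Lib.MP_16285c_ag.SupplyNum
import Pool.Agent.Lib.MP_16285c_ag.AbvExt
import Pool.Agent.Lib.MP_16285c_ag.AdmExt
import Pool.Agent.Lib.MP_16285c_ag.AdmRat
import Pool.Agent.Lib.MP_16285c_ag.Trans
import Pool.Agent.Lib.MP_16285c_ag.SupplyFun
import Pool.Agent.Lib.MP_16285c_ag.ResOf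
import Pool.Agent.Lib.MP_16285c_ag.WrOf
import Pool.Agent.Lib.MP_16285c_ag.TowerOf

/-!
# The strong Zariski dense orbit conjecture for triangular rational maps

Let `k` be an algebraically closed field of characteristic zero and `f = (P₀/Q₀, …, P_{N-1}/Q_{N-1})` a triangular rational
self-map of affine `N`-space: the `i`-th component only involves the variables `x_j`, `j ≥ i`, and has degree `eᵢ ≥ 1` in `xᵢ`.
Suppose that for every `i` either `eᵢ = 1` or `eᵢ > e_j` for all `j > i`, and that `f` has no non-constant invariant rational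
function. Then for every nonzero polynomial `b` there is a point of `k^N` whose `f`-orbit is well defined, contained in the
open set `b ≠ 0`, and Zariski dense.
-/

set_option autoImplicit false

namespace Pool.Agent.Lib.MP_16285c_agZ.TriangularMapsOld

universe u

open MvPolynomial

/-- The field of rational functions on affine `N`-space. -/
abbrev RatFun (k : Type u) [Field k] (N : ℕ) : Type u := FractionRing (MvPolynomial (Fin N) k)

/-- The pullback `A ↦ A ∘ f` of a polynomial by the rational map `f = (P i / Q i)`. -/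
noncomputable def pullback {k : Type u} [Field k] {N : ℕ} (P Q : Fin N → MvPolynomial (Fin N) k)
    (A : MvPolynomial (Fin N) k) : RatFun k N :=
  aeval (fun i => algebraMap (MvPolynomial (Fin N) k) (RatFun k N) (P i) /
    algebraMap (MvPolynomial (Fin N) k) (RatFun k N) (Q i)) A

/-- Every rational function `A / B` with `(A / B) ∘ f = A / B` is constant. -/
def NoInvariant {k : Type u} [Field k] {N : ℕ} (P Q : Fin N → MvPolynomial (Fin N) k) : Prop :=
  ∀ A B : MvPolynomial (Fin N) k, B ≠ 0 →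
    pullback P Q A * algebraMap (MvPolynomial (Fin N) k) (RatFun k N) B =
      pullback P Q B * algebraMap (MvPolynomial (Fin N) k) (RatFun k N) A →
    ∃ c : k, A = C c * B

/-- **The strong Zariski dense orbit conjecture for triangular rational maps** whose relative degrees are `1` or larger
than all the later ones. -/
theorem result {k : Type u} [Field k] [IsAlgClosed k] [CharZero k] {N : ℕ}
    (P Q : Fin N → MvPolynomial (Fin N) k) (e : Fin N → ℕ)
    (hP : ∀ i, ∀ j ∈ (P i).vars, i ≤ j) (hQ : ∀ i, ∀ j ∈ (Q i).vars, i ≤ j)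
    (hPQ : ∀ i, IsRelPrime (P i) (Q i))
    (he : ∀ i, e i = max ((P i).degreeOf i) ((Q i).degreeOf i)) (he1 : ∀ i, 1 ≤ e i)
    (hrec : ∀ i, e i = 1 ∨ ∀ j, i < j → e j < e i)
    (hinv : NoInvariant P Q) (b : MvPolynomial (Fin N) k) (hb : b ≠ 0) :
    ∃ x : ℕ → Fin N → k,
      (∀ n i, eval (x n) (Q i) ≠ 0 ∧ x (n + 1) i = eval (x n) (P i) / eval (x n) (Q i)) ∧
      (∀ n, eval (x n) b ≠ 0) ∧
      ∀ G : MvPolynomial (Fin N) k, G ≠ 0 → ∃ n, eval (x n) G ≠ 0 := by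
  have hcomp := Pool.Agent.Lib.MP_16285c_ag.compP.{u}
  have htail := Pool.Agent.Lib.MP_16285c_ag.tailP.{u}
  have hinj := Pool.Agent.Lib.MP_16285c_ag.injP.{u} hcomp htail
  have hdet := Pool.Agent.Lib.MP_16285c_ag.detP.{u}
  have hsemi := Pool.Agent.Lib.MP_16285c_ag.semiP.{u} hcomp hinj hdet
  have hmob := Pool.Agent.Lib.MP_16285c_ag.mobP.{u} hinj Pool.Agent.Lib.MP_16285c_ag.minP.{u} hdet
    hsemi Pool.Agent.Lib.MP_16285c_ag.hessP.{u} Pool.Agent.Lib.MP_16285c_ag.nonconstP.{u}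
  have hpow := Pool.Agent.Lib.MP_16285c_ag.powP.{u}
  have hpoly := Pool.Agent.Lib.MP_16285c_ag.polyP.{u}
  have hvec := Pool.Agent.Lib.MP_16285c_ag.vecP.{u}
  have hup := Pool.Agent.Lib.MP_16285c_ag.upP.{u} hpow hpoly hvec
  have hlow := Pool.Agent.Lib.MP_16285c_ag.lowP.{u} hpow hpoly hvec
  have hroot := Pool.Agent.Lib.MP_16285c_ag.rootP.{u} hpow hpoly hvec
  have hgrowth := Pool.Agent.Lib.MP_16285c_ag.growthP.{u} hup Pool.Agent.Lib.MP_16285c_ag.realUpP
  have hfast := Pool.Agent.Lib.MP_16285c_ag.fastP.{u} htail hlow hroot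
    Pool.Agent.Lib.MP_16285c_ag.realLowP hgrowth
  have hfun := Pool.Agent.Lib.MP_16285c_ag.supplyFunP.{u}
    (Pool.Agent.Lib.MP_16285c_ag.admExtP.{u} Pool.Agent.Lib.MP_16285c_ag.abvExtP.{u})
    Pool.Agent.Lib.MP_16285c_ag.admRatP.{u} Pool.Agent.Lib.MP_16285c_ag.transP.{u}
  obtain ⟨β, hT⟩ := Pool.Agent.Lib.MP_16285c_ag.towerOfP.{u}
    Pool.Agent.Lib.MP_16285c_ag.resOfP.{u} Pool.Agent.Lib.MP_16285c_ag.wrOfP.{u}
    k N P Q e hP hQ hPQ he he1 hrec
  obtain ⟨x, h1, h2, h3⟩ := Pool.Agent.Lib.MP_16285c_ag.mainTower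
    Pool.Agent.Lib.MP_16285c_ag.mapP.{u} Pool.Agent.Lib.MP_16285c_ag.spreadP.{u}
    Pool.Agent.Lib.MP_16285c_ag.placeP.{u} Pool.Agent.Lib.MP_16285c_ag.closedP.{u}
    (Pool.Agent.Lib.MP_16285c_ag.frobP.{u} Pool.Agent.Lib.MP_16285c_ag.countP.{u})
    Pool.Agent.Lib.MP_16285c_ag.liftP.{u} hmob Pool.Agent.Lib.MP_16285c_ag.invTailP.{u} hfast
    Pool.Agent.Lib.MP_16285c_ag.descP.{u} Pool.Agent.Lib.MP_16285c_ag.supplyNumP.{u} hfun
    k N ⟨P, Q⟩ e β hT hinv b hb
  refine ⟨x, fun n i => ?_, h2, h3⟩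
  obtain ⟨h4, h5⟩ := h1 n i
  exact ⟨h4, (eq_div_iff h4).mpr h5⟩

end Pool.Agent.Lib.MP_16285c_agZ.TriangularMapsOld
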